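import Pool.Agent.Lib.MP_7c08ba_nt.BK.Stmt
import Pool.Agent.Lib.MP_7c08ba_nt.Odd.FinalF

set_option autoImplicit false

/-!
From parity at one place to parity at all places.
-/

noncomputable section

namespace BKF

open BKGen BKOdd Matrix MP_7c08ba.Crys

section Kz

variable {p : ℕ} [Fact p.Prime] {F : Type} [Field F]

theorem kz_le {ζ ζ' : AlgebraicClosure F} (h : IsPrimitiveRoot ζ p) (h' : IsPrimitiveRoot ζ' p) :
    Kz ζ' ≤ Kz ζ := by
  rw [IntermediateField.adjoin_le_iff]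
  rintro x rfl
  have hp : 0 < p := (Fact.out : p.Prime).pos
  have : NeZero p := ⟨hp.ne'⟩
  obtain ⟨i, -, hi⟩ := h.eq_pow_of_pow_eq_one h'.pow_eq_one
  rw [← hi]
  exact pow_mem (IntermediateField.mem_adjoin_simple_self F ζ) i

theorem kz_eq {ζ ζ' : AlgebraicClosure F} (h : IsPrimitiveRoot ζ p) (h' : IsPrimitiveRoot ζ' p) :
    Kz ζ = Kz ζ' := le_antisymm (kz_le h' h) (kz_le h h')

/-- rigidity only depends on the field -/
theorem rigid_congr {K K' : IntermediateField F (AlgebraicClosure F)} (h : K = K')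
    (ι : AlgebraicClosure F →+* PadicAlgCl p)
    (hr : Rigid p K (ι.comp (algebraMap K (AlgebraicClosure F)))) :
    Rigid p K' (ι.comp (algebraMap K' (AlgebraicClosure F))) := by
  subst h
  exact hr

theorem RigidField.congr [NumberField F] {ζ ζ' : AlgebraicClosure F}
    {ι : AlgebraicClosure F →+* PadicAlgCl p}
    (h : RigidField p F ζ ι) (h' : IsPrimitiveRoot ζ' p) : RigidField p F ζ' ι :=
  ⟨h.deg, h.imag, h', h.split, rigid_congr (kz_eq h.root h') ι h.rigid⟩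

theorem RigidField.oddHyp [NumberField F] {ζ : AlgebraicClosure F}
    {ι : AlgebraicClosure F →+* PadicAlgCl p} (h : RigidField p F ζ ι) (hp : p ≠ 2) :
    OddHyp p F ζ ι := ⟨hp, h.deg, h.imag, h.root, h.split, h.rigid⟩

theorem _root_.BKOdd.OddHyp.rigidField [NumberField F] {ζ : AlgebraicClosure F}
    {ι : AlgebraicClosure F →+* PadicAlgCl p} (h : OddHyp p F ζ ι) : RigidField p F ζ ι :=
  ⟨h.hF, h.hreal, h.hζ, h.hsplit, h.hrig⟩

/-- the conjugate place -/
theorem RigidField.conj [NumberField F] {ζ : AlgebraicClosure F}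
    {ι : AlgebraicClosure F →+* PadicAlgCl p} (h : RigidField p F ζ ι)
    {c : AlgebraicClosure F ≃+* AlgebraicClosure F} {σ : F ≃+* F} (hcs : ConjHyp c σ)
    (hcζ : c ζ = ζ⁻¹) :
    RigidField p F ζ (ι.comp (c : AlgebraicClosure F →+* AlgebraicClosure F)) := by
  refine ⟨h.deg, h.imag, h.root, ?_, ?_⟩
  · intro a
    change ι (c (algebraMap F _ a)) ∈ _
    rw [hcs.h]
    exact h.split (σ a)
  · intro a ha haw hat
    obtain ⟨b, hb⟩ := h.rigid (conjKz hcs hcζ a) (by rwa [Ne, map_eq_zero]) (by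
      intro l _ hlp J
      obtain ⟨b, hb⟩ := haw l hlp (J.comp (conjKz hcs hcζ))
      refine ⟨conjKz hcs hcζ b, hb⟩) (by
      obtain ⟨x, hx, hxp⟩ := hat
      refine ⟨x, ?_, hxp⟩
      have h1 : Set.range ((ι.comp (c : AlgebraicClosure F →+* AlgebraicClosure F)).comp
          (algebraMap (Kz ζ) (AlgebraicClosure F))) =
          Set.range (ι.comp (algebraMap (Kz ζ) (AlgebraicClosure F))) := by
        ext y
        constructor
        · rintro ⟨z, rfl⟩
          exact ⟨conjKz hcs hcζ z, rfl⟩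
        · rintro ⟨z, rfl⟩
          refine ⟨conjKz hcs hcζ z, ?_⟩
          change ι (c (c z)) = ι z
          rw [hcs.hc]
      have h2 : BKGen.comp p ((ι.comp (c : AlgebraicClosure F →+* AlgebraicClosure F)).comp
          (algebraMap (Kz ζ) (AlgebraicClosure F))) =
          BKGen.comp p (ι.comp (algebraMap (Kz ζ) (AlgebraicClosure F))) := by
        unfold BKGen.comp
        rw [h1]
      rwa [← h2])
    refine ⟨conjKz hcs hcζ b, ?_⟩
    rw [← map_pow, hb, conjKz_conjKz]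

end Kz

section All

/-- complex conjugation maps `ζ` to its inverse -/
def ConjInv (p : ℕ) [Fact p.Prime] : Prop :=
  ∀ (F : Type) [Field F] [NumberField F] (ζ : AlgebraicClosure F)
    (ι : AlgebraicClosure F →+* PadicAlgCl p), RigidField p F ζ ι →
    ∀ (c : AlgebraicClosure F ≃+* AlgebraicClosure F) (σ : F ≃+* F), ConjHyp c σ → c ζ = ζ⁻¹

/-- parity at one place -/
def ParityAt (p : ℕ) [Fact p.Prime] : Prop :=
  ∀ (F : Type) [Field F] [NumberField F] (ζ : AlgebraicClosure F)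
    (ι : AlgebraicClosure F →+* PadicAlgCl p), RigidField p F ζ ι →
    ∀ (c : AlgebraicClosure F ≃+* AlgebraicClosure F) (σ : F ≃+* F) (hcs : ConjHyp c σ)
    (L : Type) [NormedField L] [NormedAlgebra ℚ_[p] L] [FiniteDimensional ℚ_[p] L] (n : ℕ)
    (ρ : GF F →* GL (Fin n) L), Continuous ρ →
    (∀ g ∈ (Kz ζ).fixingSubgroup, ∀ i : ℕ,
      ‖((ρ g : Matrix (Fin n) (Fin n) L).charpoly - (Polynomial.X - 1) ^ n).coeff i‖ < 1) →
    (∀ (l : ℕ) [Fact l.Prime], l ≠ p → ∀ j : AlgebraicClosure F →+* PadicAlgCl l,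
      ∀ σ ∈ Inert F (AlgebraicClosure F) j, ρ σ = 1) →
    ∀ (Bu : GL (Fin n) L), Bu.val.transpose = Bu.val →
    (∀ g, (ρ g : Matrix (Fin n) (Fin n) L).transpose * Bu.val *
      (ρ (conj c σ hcs.h g) : Matrix (Fin n) (Fin n) L) = chL (cyc p F) L g • Bu.val) →
    DeRhamAt ι ρ → FrobAt (Kz ζ).fixingSubgroup ι ρ →
    FrobAt (Kz ζ).fixingSubgroup
      (ι.comp (c : AlgebraicClosure F →+* AlgebraicClosure F)) ρ →
    FiniteDimensional L (H1f p ρ) ∧ Module.finrank L (H1f p ρ) % 2 = tdim ι ρ % 2 ∧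
      Module.finrank L (H1f p ρ) ≤ tdim ι ρ ∧
      tdim ι ρ + tdim (ι.comp (c : AlgebraicClosure F →+* AlgebraicClosure F)) ρ = n

theorem parityAt_odd (p : ℕ) [Fact p.Prime] (hp : p ≠ 2) : ParityAt p := by
  intro F _ _ ζ ι hR c σ hcs L _ _ _ n ρ hρ hres hur Bu hB hpol hDR hFr hFr'
  exact parity_at ζ ι (hR.oddHyp hp) c σ hcs ρ hρ hres hur Bu hB hpol hDR hFr hFr'

theorem conjInv_odd (p : ℕ) [Fact p.Prime] (hp : p ≠ 2) : ConjInv p := by
  intro F _ _ ζ ι hR c σ hcs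
  exact (stConj p hp F hR.deg hR.imag ζ hR.root c σ hcs).2.2.2.2

/-- from one place to all places -/
theorem parity_all {p : ℕ} [Fact p.Prime] (hP : ParityAt p) (hI : ConjInv p) {F : Type} [Field F]
    [NumberField F] {ζ₀ : AlgebraicClosure F} {ι : AlgebraicClosure F →+* PadicAlgCl p}
    (hR₀ : RigidField p F ζ₀ ι) : Parity p F := by
  intro ζ hζ c σ hc L _ _ _ n ρ hρ
  have hR := hR₀.congr hζ
  obtain ⟨B, hB, hpol⟩ := hρ.dual
  have hcc : (ι.comp (c : AlgebraicClosure F →+* AlgebraicClosure F)).comp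
      (c : AlgebraicClosure F →+* AlgebraicClosure F) = ι := by
    ext z
    change ι (c (c z)) = ι z
    rw [hc.hc]
  obtain ⟨h1, h2, h3, -⟩ := hP F ζ ι hR c σ hc L n ρ hρ.cont hρ.res hρ.unram B hB hpol
    (hρ.dR ι) (hρ.frob ι) (hρ.frob _)
  obtain ⟨-, h2', h3', -⟩ := hP F ζ _ (hR.conj hc (hI F ζ ι hR c σ hc)) c σ hc L n ρ hρ.cont
    hρ.res hρ.unram B hB hpol (hρ.dR _) (hρ.frob _) (hρ.frob _)
  refine ⟨h1, fun j => ?_⟩
  rcases two_places hR.deg ι c σ hc j with ⟨g, hg⟩ | ⟨g, hg⟩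
  · rw [tdim_inner ι j g ρ hg]
    exact ⟨h2, h3⟩
  · rw [tdim_inner (ι.comp (c : AlgebraicClosure F →+* AlgebraicClosure F)) j g ρ hg]
    exact ⟨h2', h3'⟩

/-- **Parity for odd `p`.** -/
theorem parity_odd {p : ℕ} [Fact p.Prime] (hp : p ≠ 2) {F : Type} [Field F]
    [NumberField F] {ζ₀ : AlgebraicClosure F} {ι : AlgebraicClosure F →+* PadicAlgCl p}
    (hR₀ : RigidField p F ζ₀ ι) : Parity p F :=
  parity_all (parityAt_odd p hp) (conjInv_odd p hp) hR₀

end All

end BKF
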