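import Pool.Agent.Lib.MP_7c08ba_nt.BK.Cls

set_option autoImplicit false

/-!
The base change `BC_F(f)` to an imaginary quadratic field `F` of an eigenform `f` of level one,
twisted by an unramified Hecke character `ψ` of `F`: the `L`-function and the `p`-adic realisation.
-/

noncomputable section

namespace BKS

open Matrix NumberField IsDedekindDomain
open scoped MatrixGroups

/-! ### Eigenforms -/

/-- the cusp forms of level one and weight `w` -/
abbrev Form (w : ℕ) : Type := CuspForm 𝒮ℒ (w : ℤ)

section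

variable {w : ℕ}

/-- the Fourier coefficients -/
def cf (f : Form w) (n : ℕ) : ℂ := (UpperHalfPlane.qExpansion 1 f).coeff n

/-- `f` is a normalised eigenform of the Hecke operators. -/
structure Eigen (f : Form w) : Prop where
  one : cf f 1 = 1
  mul : ∀ m n : ℕ, 0 < m → 0 < n →
    cf f m * cf f n = ∑ d ∈ (m.gcd n).divisors, (d : ℂ) ^ (w - 1) * cf f (m * n / d ^ 2)

end

/-! ### Hecke characters -/

section

variable (F : Type) [Field F] [NumberField F]

/-- the ideals of the ring of integers -/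
abbrev Idl : Type := Ideal (𝓞 F)

/-- the nonzero prime ideals -/
abbrev Pl : Type := HeightOneSpectrum (𝓞 F)

/-- multiplicative functions of ideals -/
abbrev Chr : Type := Idl F →*₀ ℂ

variable {F}

/-- the norm of an ideal -/
def nm (a : Idl F) : ℕ := Ideal.absNorm a

/-- the norm of a nonzero prime ideal -/
def nv (v : Pl F) : ℕ := nm v.asIdeal

/-- `ψ` is an unramified Hecke character of type `(k, 0)`, as function of ideals:
`ψ((t)) = σ(t) ^ k`. -/
def IsHecke (σ : F →+* ℂ) (k : ℕ) (ψ : Chr F) : Prop :=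
  ∀ t : 𝓞 F, t ≠ 0 → ψ (Ideal.span {t}) = σ t ^ k

/-- `ψ` is trivial modulo the maximal ideal of the algebraic closure of `ℚ_p`, on the ideals prime
to `p`. -/
def ResTriv (p : ℕ) [Fact p.Prime] (ι : ℂ →+* PadicAlgCl p) (ψ : Chr F) : Prop :=
  ∀ a : Idl F, ¬ p ∣ nm a → ‖ι (ψ a) - 1‖ < 1

/-! ### The automorphic representations and their `L`-functions -/

variable (F) in
/-- The data of `π = BC_F(f) ⊗ ψ`: `f` is a normalised eigenform of level one and weight `w`, `ψ`
an unramified Hecke character of `F` of type `(k, 0)`. In what follows `π` is twisted to weight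
`-1`, by the power `(w + k) / 2` of the norm. -/
structure Aut : Type where
  /-- the weight of `f` -/
  w : ℕ
  /-- the type of `ψ` -/
  k : ℕ
  /-- the form -/
  f : Form w
  /-- the embedding of `F` -/
  σ : F →+* ℂ
  /-- the character -/
  ψ : Chr F
  eigen : Eigen f
  hecke : IsHecke σ k ψ

variable (π : Aut F)

/-- The sum of the Satake parameters of `BC_F(f)` at `v` (with product `N(v) ^ (w - 1)`): with the
Fourier coefficients `a` of `f`, it is `a(l)` if `N(v) = l` is a prime, and
`a(l) ^ 2 - 2 l ^ (w - 1)` if `N(v) = l ^ 2`, `l` a prime. -/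
def sat (v : Pl F) : ℂ :=
  if (nv v).Prime then cf π.f (nv v)
  else cf π.f (nv v).minFac ^ 2 - 2 * ((nv v).minFac : ℂ) ^ (π.w - 1)

/-- the sum of the Satake parameters of `π` at `v` -/
def trc (v : Pl F) : ℂ := sat π v * π.ψ v.asIdeal / (nv v : ℂ) ^ ((π.w + π.k) / 2)

/-- the product of the Satake parameters of `π` at `v` -/
def dtm (v : Pl F) : ℂ :=
  (nv v : ℂ) ^ (π.w - 1) * π.ψ v.asIdeal ^ 2 / (nv v : ℂ) ^ (2 * ((π.w + π.k) / 2))

/-- the Euler factor of `L(z, π)` at `v` -/
def eul (z : ℂ) (v : Pl F) : ℂ :=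
  (1 - trc π v * (nv v : ℂ) ^ (-z) + dtm π v * ((nv v : ℂ) ^ (-z)) ^ 2)⁻¹

/-- `Λ` is the `L`-function of `π` in the half plane `Re z > -1/2`: it is holomorphic there, and
given by the Euler product for `Re z > 1`. -/
structure IsLFun (Λ : ℂ → ℂ) : Prop where
  diff : DifferentiableOn ℂ Λ {z | -1 / 2 < z.re}
  euler : ∀ z : ℂ, 1 < z.re → HasProd (eul π z) (Λ z)

end

/-! ### The `p`-adic realisation -/

/-- the prime ideals of the ring of all algebraic integers -/
abbrev BigIdl (F : Type) [Field F] : Type := Ideal (𝓞 (AlgebraicClosure F))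

/-- the representations of the Galois group of `F` on `Lⁿ` -/
abbrev GRep (F : Type) [Field F] (L : Type) [NormedField L] (n : ℕ) : Type := Rep (GF F) L n

/-- `Φ² - t Φ + d = 0` on the subspace `S` -/
def Quadr {L M : Type} [Field L] [AddCommGroup M] [Module L M] (Φ : M → M) (t d : L)
    (S : Submodule L M) : Prop := ∀ b ∈ S, Φ (Φ b) - t • Φ b + d • b = 0

section

variable {F : Type} [Field F] {L : Type} [NormedField L] {n : ℕ}

/-- the trace of `g⁻¹` on `V` -/
def itr (V : GRep F L n) (g : GF F) : L := (mat V g⁻¹).trace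

/-- the determinant of `g⁻¹` on `V` -/
def idt (V : GRep F L n) (g : GF F) : L := (mat V g⁻¹).det

variable (p : ℕ) [Fact p.Prime]

/-- `V` is unramified at all places not above `p`. -/
def UnrOut (V : GRep F L n) : Prop :=
  ∀ (l : ℕ) [Fact l.Prime], l ≠ p → ∀ j : Emb l F,
    ∀ g ∈ BKGen.Inert F (AlgebraicClosure F) j, V g = 1

variable [NumberField F]

/-- `g` is an arithmetic Frobenius element at a prime ideal `P` above `v` of the ring of all
algebraic integers, `v` not above `p`. -/
structure IsFrob (v : Pl F) (P : BigIdl F) (g : GF F) : Prop where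
  prime : P.IsPrime
  away : (p : 𝓞 (AlgebraicClosure F)) ∉ P
  above : P.under (𝓞 F) = v.asIdeal
  frob : ∀ x : 𝓞 (AlgebraicClosure F), g • x - x ^ nv v ∈ P

variable {p}

/-- `v` is the place given by the embedding `j` -/
def Below (j : Emb p F) (v : Pl F) : Prop :=
  ∀ x : 𝓞 F, x ∈ v.asIdeal ↔ ‖j (algebraMap F (AlgebraicClosure F) x)‖ < 1

/-- the embeddings `j` and `ι ∘ σ` give the same place -/
def Same (ι : ℂ →+* PadicAlgCl p) (σ : F →+* ℂ) (j : Emb p F) : Prop :=
  ∀ x : F, ‖j (algebraMap F (AlgebraicClosure F) x)‖ = ‖ι (σ x)‖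

variable [NormedAlgebra ℚ_[p] L]

variable (p) in
/-- `V` is conjugate self-dual -/
def SelfDual (V : GRep F L n) : Prop :=
  ∃ c : AlgebraicClosure F ≃+* AlgebraicClosure F, IsConj c ∧ ∃ B, IsPol p V c B

/-- `φ² - t φ + d = 0` for the Frobenius `φ` on `D_cris` of the restriction of `V` to `F(μ_p)`, at
the place given by `j` -/
def FrobRel (V : GRep F L n) (j : Emb p F) (t d : L) : Prop :=
  Quadr (base (Per.frB p).toLinearMap) t d (DB Per.galB (GK p F) j V)

/-- the Hodge–Tate weights which contribute to `D_dR / Fil⁰`: for `k < w` there is one at each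
place above `p`, for `w ≤ k` there is none at the place given by `ι ∘ σ` -/
def Hodge (ι : ℂ →+* PadicAlgCl p) (π : Aut F) (V : GRep F L n) : Prop :=
  (π.k < π.w → ∀ j : Emb p F, tdim V j = 1) ∧
    (π.w ≤ π.k → ∀ j : Emb p F, Same ι π.σ j → tdim V j = 0)

variable [NormedAlgebra L (PadicAlgCl p)]

/-- `t` and `d` in `L` are the sum and the product of the Satake parameters of `π` at `v`. -/
def IsSat (ι : ℂ →+* PadicAlgCl p) (π : Aut F) (v : Pl F) (t d : L) : Prop :=
  algebraMap L (PadicAlgCl p) t = ι (trc π v) ∧ algebraMap L (PadicAlgCl p) d = ι (dtm π v)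

/-- The representation `V` is the realisation of `π`. -/
structure IsReal (ι : ℂ →+* PadicAlgCl p) (π : Aut F) (V : GRep F L 2) : Prop where
  /-- `V` is continuous -/
  cont : Continuous V
  /-- `V` is unramified at all places not above `p` -/
  unram : UnrOut p V
  /-- a geometric Frobenius at a place `v` not above `p` has the trace and the determinant given
  by the Satake parameters -/
  frob : ∀ (v : Pl F) (P : BigIdl F) (g : GF F), IsFrob p v P g → IsSat ι π v (itr V g) (idt V g)
  /-- `V` is conjugate self-dual -/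
  dual : SelfDual p V
  /-- `V` is de Rham at the places above `p` -/
  dR : ∀ j : Emb p F, DeRhamAt V j
  /-- at a place `v` above `p`, the Frobenius `φ` of `D_cris`, over `F(μ_p)`, satisfies
  `φ² - t φ + d = 0` with `t` and `d` given by the Satake parameters -/
  crys : ∀ (j : Emb p F) (v : Pl F), Below j v → ∃ t d : L, IsSat ι π v t d ∧ FrobRel V j t d
  /-- the Hodge–Tate weights -/
  hodge : Hodge ι π V

end

/-! ### The theorem -/

/-- `H¹_f(F, V)` is finite dimensional of dimension `m`. -/
def SelDim (p : ℕ) [Fact p.Prime] {F : Type} [Field F] {L : Type} [NormedField L]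
    [NormedAlgebra ℚ_[p] L] {n : ℕ} (V : GRep F L n) (m : ℕ) : Prop :=
  IsFin (H1f p V) ∧ dim (H1f p V) = m

/-- `F` is the quadratic field `ℚ(√-D)`. -/
def IsQuad (F : Type) [Field F] [NumberField F] (D : ℕ) : Prop :=
  Module.finrank ℚ F = 2 ∧ ∃ s : F, s ^ 2 = -(D : F)

section

variable {F : Type} [Field F] [NumberField F]

/-- The `L`-function of `π` vanishes at the centre if and only if `k < w`. -/
def CentralL (π : Aut F) : Prop :=
  (∃ Λ : ℂ → ℂ, IsLFun π Λ) ∧ ∀ Λ : ℂ → ℂ, IsLFun π Λ → (Λ 0 = 0 ↔ π.k < π.w)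

/-- `H¹_f(F, V)` has dimension one if `k < w` and zero if `w ≤ k`, for the realisation `V` of `π`
over a finite extension `L` of `ℚ_p`. -/
def CentralSel {p : ℕ} [Fact p.Prime] (ι : ℂ →+* PadicAlgCl p) (π : Aut F) : Prop :=
  ∀ (L : Type) [NormedField L] [NormedAlgebra ℚ_[p] L] [FiniteDimensional ℚ_[p] L]
    [NormedAlgebra L (PadicAlgCl p)] (V : GRep F L 2), IsReal ι π V →
    SelDim p V (if π.k < π.w then 1 else 0)

end

/-- **The central value and the Selmer group** over `F = ℚ(√-D)`, at `p`: for every normalised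
eigenform `f` of level one and weight `w` and every unramified Hecke character `ψ` of `F` of type
`(k, 0)` which is trivial modulo `p`, the `L`-function of `π = BC_F(f) ⊗ ψ` vanishes at the centre
if and only if `k < w`, and `H¹_f(F, V)` has dimension one if `k < w` and zero if `w ≤ k`, for
the `p`-adic realisation `V` of `π`. There are such characters for all even `k`. -/
def Central (p : ℕ) [Fact p.Prime] (D : ℕ) : Prop :=
  ∀ (F : Type) [Field F] [NumberField F], IsQuad F D → ∀ ι : ℂ →+* PadicAlgCl p,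
    (∀ π : Aut F, ResTriv p ι π.ψ → CentralL π ∧ CentralSel ι π) ∧
    ∀ (σ : F →+* ℂ) (k : ℕ), Even k → ∃ ψ : Chr F, IsHecke σ k ψ ∧ ResTriv p ι ψ

/-- `-D` is a fundamental discriminant. -/
def IsFund (D : ℕ) : Prop :=
  (D % 4 = 3 ∨ D % 16 = 4 ∨ D % 16 = 8) ∧ ∀ l : ℕ, l.Prime → l ≠ 2 → ¬ l ^ 2 ∣ D

/-- The field `K = ℚ(√-D, √-3)` is rigid: for all places `w` above `3`, an element of `K*` which is
a cube up to units at all places not above `3`, and a cube in the completion at `w`, is a cube
in `K`. -/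
def Rigid3 (D : ℕ) : Prop :=
  ∀ (K : Type) [Field K] [NumberField K] (s t : K), s ^ 2 = -(D : K) → t ^ 2 = -3 →
    Module.finrank ℚ K = 4 → ∀ i : K →+* PadicAlgCl 3, BKGen.Rigid 3 K i

/-- The pairs of the theorem: `p = 2` and `D` is a prime congruent to `7` modulo `16` or the
product of a prime congruent to `3` and a prime congruent to `5` modulo `8`, or `p = 3`, `-D` is a
fundamental discriminant congruent to `1` modulo `3` and `ℚ(√-D, √-3)` is rigid. -/
def Fam (p D : ℕ) : Prop :=
  (p = 2 ∧ (D.Prime ∧ D % 16 = 7 ∨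
    ∃ q l : ℕ, q.Prime ∧ l.Prime ∧ q % 8 = 3 ∧ l % 8 = 5 ∧ D = q * l)) ∨
  (p = 3 ∧ IsFund D ∧ D % 3 = 2 ∧ Rigid3 D)

end BKS
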