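import Pool.Agent.Lib.MP_7c08ba_nt.BK.Sel
import Pool.Agent.Lib.MP_7c08ba_nt.Crys.Qp
import Pool.Agent.Lib.MP_7c08ba_nt.Crys.BdR

set_option autoImplicit false

/-!
The rings of `BK.Per` agree with those of `Crys`, and the definitions of `BK.Sel` are invariant
under isomorphisms of the rings of periods.
-/

noncomputable section

namespace PerEq

variable {p : ℕ} [Fact p.Prime]

/-- rings of fractions -/
def locE {R : Per.Rg} (M : Per.Sbm R) : Per.Loc M ≃+* MP_7c08ba.Crys.LocS M :=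
  RingEquiv.refl (Localization M)

/-- `B_cris` -/
def eBr : Per.BCris p ≃+* MP_7c08ba.Crys.BCris p := locE (Per.tSub p)

theorem eBr_gal (σ : Per.Gal p) (x : Per.BCris p) :
    eBr (Per.galB σ x) = MP_7c08ba.Crys.galBa σ (eBr x) := rfl

theorem eBr_fr (x : Per.BCris p) :
    eBr (Per.frB p x) = MP_7c08ba.Crys.phBa (eBr x) := rfl

theorem eBr_alg (q : ℚ_[p]) : eBr (algebraMap ℚ_[p] (Per.BCris p) q) =
    algebraMap ℚ_[p] (MP_7c08ba.Crys.BCris p) q := rfl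

/-- `B_cris`, as algebras -/
def eB : Per.BCris p ≃ₐ[ℚ_[p]] MP_7c08ba.Crys.BCris p := AlgEquiv.ofRingEquiv (f := eBr) eBr_alg

theorem eB_gal (σ : Per.Gal p) (x : Per.BCris p) :
    eB (Per.galB σ x) = MP_7c08ba.Crys.galBa σ (eB x) := eBr_gal σ x

theorem eB_fr (x : Per.BCris p) : eB (Per.frB p x) = MP_7c08ba.Crys.phBa (eB x) := eBr_fr x

/-- `B_dR^+` -/
def eDpr : Per.BdRp p ≃+* MP_7c08ba.Crys.BdRp p := RingEquiv.refl (Per.BdRp p)

theorem eDpr_alg (q : ℚ_[p]) : eDpr (algebraMap ℚ_[p] (Per.BdRp p) q) =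
    algebraMap ℚ_[p] (MP_7c08ba.Crys.BdRp p) q := rfl

/-- `B_dR^+`, as algebras -/
def eDp : Per.BdRp p ≃ₐ[ℚ_[p]] MP_7c08ba.Crys.BdRp p :=
  AlgEquiv.ofRingEquiv (f := eDpr) eDpr_alg

theorem eDpr_gal (σ : Per.Gal p) (x : Per.BdRp p) :
    eDpr (Per.galBdRp σ x) = MP_7c08ba.Crys.galDp σ (eDpr x) := rfl

/-- `B_dR` -/
def eDr : Per.BdR p ≃+* MP_7c08ba.Crys.BdR p := locE (Per.genS p)

theorem eDr_to (x : Per.BdRp p) : eDr (Per.toD p x) = MP_7c08ba.Crys.jd (eDpr x) := rfl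

theorem eDr_alg (q : ℚ_[p]) : eDr (algebraMap ℚ_[p] (Per.BdR p) q) =
    algebraMap ℚ_[p] (MP_7c08ba.Crys.BdR p) q := by
  have h1 : eDr (algebraMap ℚ_[p] (Per.BdR p) q) =
    MP_7c08ba.Crys.jd (eDpr (algebraMap ℚ_[p] (Per.BdRp p) q)) := rfl
  rw [h1, eDpr_alg, AlgHom.commutes]

/-- `B_dR`, as algebras -/
def eD : Per.BdR p ≃ₐ[ℚ_[p]] MP_7c08ba.Crys.BdR p := AlgEquiv.ofRingEquiv (f := eDr) eDr_alg

theorem eD_jd (x : Per.BdRp p) : eD (Per.jd p x) = MP_7c08ba.Crys.jd (eDp x) := rfl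

theorem eD_gal (σ : Per.Gal p) (x : Per.BdR p) :
    eD (Per.galD σ x) = MP_7c08ba.Crys.galD σ (eD x) := by
  have h : ((eD : Per.BdR p ≃ₐ[ℚ_[p]] MP_7c08ba.Crys.BdR p).toRingEquiv.toRingHom).comp
      (Per.galBdR σ) = ((MP_7c08ba.Crys.galD σ : MP_7c08ba.Crys.BdR p →ₐ[ℚ_[p]] _).toRingHom).comp
        (eD : Per.BdR p ≃ₐ[ℚ_[p]] MP_7c08ba.Crys.BdR p).toRingEquiv.toRingHom := by
    apply Per.loc_ext
    intro a
    change eDr (Per.galBdR σ (Per.toD p a)) = MP_7c08ba.Crys.galD σ (eDr (Per.toD p a))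
    rw [Per.galBdR_to, eDr_to, eDr_to, MP_7c08ba.Crys.galD_jd, eDpr_gal]
  exact RingHom.congr_fun h x

end PerEq

namespace BKS

open Matrix TensorProduct

variable {p : ℕ} [Fact p.Prime] {F : Type} [Field F] {L : Type} [NormedField L]
  [NormedAlgebra ℚ_[p] L] {n : ℕ} {B B' B'' : Type} [CommRing B] [Algebra ℚ_[p] B]
  [CommRing B'] [Algebra ℚ_[p] B'] [CommRing B''] [Algebra ℚ_[p] B'']

theorem actL_comp (A A' : Matrix (Fin n) (Fin n) L) (f : B' →ₗ[ℚ_[p]] B'')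
    (f' : B →ₗ[ℚ_[p]] B') (x : VB p L n B) :
    actL A f (actL A' f' x) = actL (A * A') (f ∘ₗ f') x := by
  have h : (AlgebraTensorModule.map A.mulVecLin f) ∘ₗ (AlgebraTensorModule.map A'.mulVecLin f') =
      AlgebraTensorModule.map (A * A').mulVecLin (f ∘ₗ f') := by
    rw [Matrix.mulVecLin_mul, AlgebraTensorModule.map_comp]
  exact LinearMap.congr_fun h x

theorem actL_id (x : VB p L n B) :
    actL (1 : Matrix (Fin n) (Fin n) L) (LinearMap.id : B →ₗ[ℚ_[p]] B) x = x := by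
  have h : AlgebraTensorModule.map (1 : Matrix (Fin n) (Fin n) L).mulVecLin
      (LinearMap.id : B →ₗ[ℚ_[p]] B) = LinearMap.id := by
    rw [Matrix.mulVecLin_one, AlgebraTensorModule.map_id]
  exact LinearMap.congr_fun h x

/-- transport of `V ⊗ B` along an isomorphism of algebras -/
def tr (L : Type) [NormedField L] [NormedAlgebra ℚ_[p] L] (n : ℕ) (e : B ≃ₐ[ℚ_[p]] B') :
    VB p L n B ≃ₗ[L] VB p L n B' :=
  LinearEquiv.ofLinearMap (actL 1 e.toLinearMap) (actL 1 e.symm.toLinearMap)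
    (LinearMap.ext fun x => by
      rw [LinearMap.comp_apply, actL_comp, one_mul,
        show e.toLinearMap ∘ₗ e.symm.toLinearMap = LinearMap.id from
          LinearMap.ext fun y => e.apply_symm_apply y, actL_id, LinearMap.id_apply])
    (LinearMap.ext fun x => by
      rw [LinearMap.comp_apply, actL_comp, one_mul,
        show e.symm.toLinearMap ∘ₗ e.toLinearMap = LinearMap.id from
          LinearMap.ext fun y => e.symm_apply_apply y, actL_id, LinearMap.id_apply])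

theorem tr_apply (e : B ≃ₐ[ℚ_[p]] B') (x : VB p L n B) :
    tr L n e x = actL 1 e.toLinearMap x := rfl

theorem tr_symm (e : B ≃ₐ[ℚ_[p]] B') : (tr L n e).symm = tr L n e.symm := rfl

theorem tr_inj (e : B ≃ₐ[ℚ_[p]] B') (v : Fin n → L) : tr L n e (inj p B v) = inj p B' v := by
  change (((1 : Matrix (Fin n) (Fin n) L) *ᵥ v) ⊗ₜ[ℚ_[p]] (e (1 : B)) : (Fin n → L) ⊗[ℚ_[p]] B') =
    v ⊗ₜ[ℚ_[p]] (1 : B')
  rw [Matrix.one_mulVec, map_one]

/-- compatibility with the maps `A ⊗ f` -/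
theorem tr_actL {B₁ B₁' : Type} [CommRing B₁] [Algebra ℚ_[p] B₁] [CommRing B₁']
    [Algebra ℚ_[p] B₁'] (e : B ≃ₐ[ℚ_[p]] B') (e₁ : B₁ ≃ₐ[ℚ_[p]] B₁')
    (A : Matrix (Fin n) (Fin n) L) (f : B₁ →ₗ[ℚ_[p]] B) (f' : B₁' →ₗ[ℚ_[p]] B')
    (h : ∀ b, e (f b) = f' (e₁ b)) (x : VB p L n B₁) :
    tr L n e (actL A f x) = actL A f' (tr L n e₁ x) := by
  rw [tr_apply, tr_apply, actL_comp, actL_comp, one_mul, mul_one,
    show e.toLinearMap ∘ₗ f = f' ∘ₗ e₁.toLinearMap from LinearMap.ext h]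

variable {γ : Action p B} {γ' : Action p B'} (e : B ≃ₐ[ℚ_[p]] B')

theorem symm_comm (h : ∀ t b, e (γ t b) = γ' t (e b)) (t : GQ p) (b : B') :
    e.symm (γ' t b) = γ t (e.symm b) := by
  rw [AlgEquiv.symm_apply_eq, h, AlgEquiv.apply_symm_apply]

theorem tr_gal (h : ∀ t b, e (γ t b) = γ' t (e b)) (ρ : Rep (GF F) L n) (g : GF F) (t : GQ p)
    (x : VB p L n B) : tr L n e (gal γ ρ g t x) = gal γ' ρ g t (tr L n e x) :=
  tr_actL e e (mat ρ g) (γ t).toLinearMap (γ' t).toLinearMap (h t) x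

theorem IsTriv.tr (h : ∀ t b, e (γ t b) = γ' t (e b)) {j : Emb p F} {ρ : Rep (GF F) L n}
    {x : GF F → Fin n → L} (hx : IsTriv γ j ρ x) : IsTriv γ' j ρ x := by
  obtain ⟨b, hb⟩ := hx
  refine ⟨BKS.tr L n e b, fun g t hgt => ?_⟩
  rw [← tr_gal e h, ← map_sub, hb g t hgt, tr_inj]

theorem isTriv_iff (h : ∀ t b, e (γ t b) = γ' t (e b)) (j : Emb p F) (ρ : Rep (GF F) L n)
    (x : GF F → Fin n → L) : IsTriv γ j ρ x ↔ IsTriv γ' j ρ x :=
  ⟨IsTriv.tr e h, IsTriv.tr e.symm (symm_comm e h)⟩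

theorem mem_DB {H : Subgroup (GF F)} {j : Emb p F} {ρ : Rep (GF F) L n} {b : VB p L n B} :
    b ∈ DB γ H j ρ ↔ IsFix γ H j ρ b := Iff.rfl

theorem IsFix.tr (h : ∀ t b, e (γ t b) = γ' t (e b)) {H : Subgroup (GF F)} {j : Emb p F}
    {ρ : Rep (GF F) L n} {b : VB p L n B} (hb : IsFix γ H j ρ b) :
    IsFix γ' H j ρ (BKS.tr L n e b) := by
  intro g hg t hgt
  rw [← tr_gal e h, hb g hg t hgt]

theorem isFix_iff (h : ∀ t b, e (γ t b) = γ' t (e b)) (H : Subgroup (GF F)) (j : Emb p F)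
    (ρ : Rep (GF F) L n) (b : VB p L n B) :
    IsFix γ' H j ρ (tr L n e b) ↔ IsFix γ H j ρ b := by
  refine ⟨fun hb => ?_, IsFix.tr e h⟩
  have h1 := IsFix.tr e.symm (symm_comm e h) hb
  rwa [← tr_symm, LinearEquiv.symm_apply_apply] at h1

theorem map_DB (h : ∀ t b, e (γ t b) = γ' t (e b)) (H : Subgroup (GF F)) (j : Emb p F)
    (ρ : Rep (GF F) L n) :
    (DB γ H j ρ).map (tr L n e : VB p L n B →ₗ[L] VB p L n B') = DB γ' H j ρ := by
  ext y
  rw [Submodule.mem_map]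
  constructor
  · rintro ⟨x, hx, rfl⟩
    exact IsFix.tr e h hx
  · intro hy
    refine ⟨(tr L n e).symm y, ?_, (tr L n e).apply_symm_apply y⟩
    rw [mem_DB, ← isFix_iff e h, LinearEquiv.apply_symm_apply]
    exact hy

theorem map_sub {B₁ B₁' : Type} [CommRing B₁] [Algebra ℚ_[p] B₁] [CommRing B₁']
    [Algebra ℚ_[p] B₁'] (e₁ : B₁ ≃ₐ[ℚ_[p]] B₁') (i : B₁ →ₐ[ℚ_[p]] B) (i' : B₁' →ₐ[ℚ_[p]] B')
    (hi : ∀ b, e (i b) = i' (e₁ b)) :
    (sub L n i).map (tr L n e : VB p L n B →ₗ[L] VB p L n B') = sub L n i' := by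
  have key := tr_actL e e₁ (1 : Matrix (Fin n) (Fin n) L) i.toLinearMap i'.toLinearMap hi
  ext y
  rw [Submodule.mem_map]
  constructor
  · rintro ⟨_, ⟨x, rfl⟩, rfl⟩
    exact ⟨tr L n e₁ x, (key x).symm⟩
  · rintro ⟨x, rfl⟩
    refine ⟨actL 1 i.toLinearMap ((tr L n e₁).symm x), ⟨_, rfl⟩, ?_⟩
    refine (key _).trans ?_
    rw [LinearEquiv.apply_symm_apply]

theorem codimIn_map {M M' : Type} [AddCommGroup M] [Module L M] [AddCommGroup M'] [Module L M']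
    (E : M ≃ₗ[L] M') (S T : Submodule L M) :
    codimIn (S.map (E : M →ₗ[L] M')) (T.map (E : M →ₗ[L] M')) = codimIn S T := by
  let E' : S ≃ₗ[L] S.map (E : M →ₗ[L] M') := E.submoduleMap S
  refine (LinearEquiv.finrank_eq (Submodule.Quotient.equiv (T.submoduleOf S)
    ((T.map (E : M →ₗ[L] M')).submoduleOf (S.map (E : M →ₗ[L] M'))) E' ?_)).symm
  ext y
  rw [Submodule.mem_map]
  constructor
  · rintro ⟨x, hx, rfl⟩
    exact ⟨(x : M), hx, rfl⟩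
  · rintro ⟨z, hz, hzy⟩
    obtain ⟨x, hx⟩ := E'.surjective y
    refine ⟨x, ?_, hx⟩
    have h1 : (E (x : M) : M') = E z := by
      have h2 : ((E' x : S.map (E : M →ₗ[L] M')) : M') = (y : M') := by rw [hx]
      exact h2.trans hzy.symm
    have h3 : (x : M) = z := E.injective h1
    change (x : M) ∈ T
    rw [h3]
    exact hz

theorem codim_eq (h : ∀ t b, e (γ t b) = γ' t (e b)) {B₁ B₁' : Type} [CommRing B₁]
    [Algebra ℚ_[p] B₁] [CommRing B₁'] [Algebra ℚ_[p] B₁'] (e₁ : B₁ ≃ₐ[ℚ_[p]] B₁')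
    (i : B₁ →ₐ[ℚ_[p]] B) (i' : B₁' →ₐ[ℚ_[p]] B') (hi : ∀ b, e (i b) = i' (e₁ b))
    (H : Subgroup (GF F)) (j : Emb p F) (ρ : Rep (GF F) L n) :
    codimIn (DB γ H j ρ) (sub L n i) = codimIn (DB γ' H j ρ) (sub L n i') := by
  rw [← map_DB e h, ← map_sub e e₁ i i' hi, codimIn_map]

theorem BijSub.tr (h : ∀ t b, e (γ t b) = γ' t (e b)) {φ : B →ₐ[ℚ_[p]] B}
    {φ' : B' →ₐ[ℚ_[p]] B'} (hφ : ∀ b, e (φ b) = φ' (e b)) {H : Subgroup (GF F)} {j : Emb p F}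
    {ρ : Rep (GF F) L n} (hb : BijSub γ H j ρ φ) : BijSub γ' H j ρ φ' := by
  intro y hy
  have h0 : IsFix γ H j ρ ((BKS.tr L n e).symm y) := by
    rw [← isFix_iff e h, LinearEquiv.apply_symm_apply]
    exact hy
  have key : ∀ x : VB p L n B, BKS.tr L n e (base φ.toLinearMap x) =
      base φ'.toLinearMap (BKS.tr L n e x) :=
    tr_actL e e (1 : Matrix (Fin n) (Fin n) L) φ.toLinearMap φ'.toLinearMap hφ
  obtain ⟨x, ⟨hx, hx1⟩, hx2⟩ := hb _ h0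
  refine ⟨BKS.tr L n e x, ⟨IsFix.tr e h hx, ?_⟩, ?_⟩
  · change base φ'.toLinearMap (BKS.tr L n e x) - BKS.tr L n e x = y
    rw [← key, ← _root_.map_sub, hx1, LinearEquiv.apply_symm_apply]
  · rintro x' ⟨hx', hx'1⟩
    have h1 : (BKS.tr L n e).symm x' = x := by
      refine hx2 _ ⟨?_, ?_⟩
      · change IsFix γ H j ρ _
        rw [← isFix_iff e h, LinearEquiv.apply_symm_apply]
        exact hx'
      · change base φ.toLinearMap _ - _ = _
        apply (BKS.tr L n e).injective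
        rw [_root_.map_sub, key, LinearEquiv.apply_symm_apply, LinearEquiv.apply_symm_apply]
        exact hx'1
    rw [← h1, LinearEquiv.apply_symm_apply]

theorem bijSub_iff (h : ∀ t b, e (γ t b) = γ' t (e b)) {φ : B →ₐ[ℚ_[p]] B}
    {φ' : B' →ₐ[ℚ_[p]] B'} (hφ : ∀ b, e (φ b) = φ' (e b)) (H : Subgroup (GF F)) (j : Emb p F)
    (ρ : Rep (GF F) L n) : BijSub γ H j ρ φ ↔ BijSub γ' H j ρ φ' :=
  ⟨BijSub.tr e h hφ, BijSub.tr e.symm (symm_comm e h) (fun b => by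
    rw [AlgEquiv.symm_apply_eq, hφ, AlgEquiv.apply_symm_apply])⟩

theorem Adm.tr (h : ∀ t b, e (γ t b) = γ' t (e b)) {j : Emb p F} {ρ : Rep (GF F) L n}
    (hA : Adm γ j ρ) : Adm γ' j ρ := by
  obtain ⟨Φ, hΦ, hg⟩ := hA
  have keym : ∀ (b : B') (x : VB p L n B'),
      (BKS.tr L n e).symm (base (LinearMap.mulLeft ℚ_[p] b) x) =
        base (LinearMap.mulLeft ℚ_[p] (e.symm b)) ((BKS.tr L n e).symm x) := by
    intro b x
    refine tr_actL e.symm e.symm (1 : Matrix (Fin n) (Fin n) L) _ _ (fun b' => ?_) x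
    rw [LinearMap.mulLeft_apply, LinearMap.mulLeft_apply, map_mul]
  have keym' : ∀ (b : B) (x : VB p L n B),
      BKS.tr L n e (base (LinearMap.mulLeft ℚ_[p] b) x) =
        base (LinearMap.mulLeft ℚ_[p] (e b)) (BKS.tr L n e x) := by
    intro b x
    refine tr_actL e e (1 : Matrix (Fin n) (Fin n) L) _ _ (fun b' => ?_) x
    rw [LinearMap.mulLeft_apply, LinearMap.mulLeft_apply, map_mul]
  refine ⟨fun x => BKS.tr L n e (Φ ((BKS.tr L n e).symm x)), ⟨?_, ?_, ?_, ?_⟩, ?_⟩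
  · exact (BKS.tr L n e).bijective.comp (hΦ.bij.comp (BKS.tr L n e).symm.bijective)
  · intro x y
    rw [map_add, hΦ.add, map_add]
  · intro a x
    rw [map_smul, hΦ.smul, map_smul]
  · intro b x
    change BKS.tr L n e (Φ ((BKS.tr L n e).symm (base (LinearMap.mulLeft ℚ_[p] b) x))) =
      base (LinearMap.mulLeft ℚ_[p] b) (BKS.tr L n e (Φ ((BKS.tr L n e).symm x)))
    rw [keym, hΦ.mul, keym', AlgEquiv.apply_symm_apply]
  · intro g t hgt x
    change BKS.tr L n e (Φ ((BKS.tr L n e).symm (base (γ' t).toLinearMap x))) =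
      gal γ' ρ g t (BKS.tr L n e (Φ ((BKS.tr L n e).symm x)))
    have h1 : (BKS.tr L n e).symm (base (γ' t).toLinearMap x) =
        base (γ t).toLinearMap ((BKS.tr L n e).symm x) :=
      tr_actL e.symm e.symm (1 : Matrix (Fin n) (Fin n) L) _ _ (symm_comm e h t) x
    rw [h1, hg g t hgt, tr_gal e h]

theorem adm_iff (h : ∀ t b, e (γ t b) = γ' t (e b)) (j : Emb p F) (ρ : Rep (GF F) L n) :
    Adm γ j ρ ↔ Adm γ' j ρ := ⟨Adm.tr e h, Adm.tr e.symm (symm_comm e h)⟩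

end BKS
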