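import Pool.Agent.Lib.MP_7c08ba_nt.Odd.DRDefs

set_option autoImplicit false

/-!
The class of Galois representations, the hypothesis on the field and the conclusion of the parity
theorem for the Selmer group of Bloch and Kato.
-/

noncomputable section

namespace BKF

open BKGen BKOdd Matrix

/-- `F` is an imaginary quadratic field, the place given by `ι` has degree one over `p`, and the
field `F(ζ)`, `ζ` a primitive `p`-th root of unity, is rigid at this place: an element which is a
`p`-th power up to units at all places not above `p`, and a `p`-th power at the place `ι`, is a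
`p`-th power. -/
structure RigidField (p : ℕ) [Fact p.Prime] (F : Type) [Field F] [NumberField F]
    (ζ : AlgebraicClosure F) (ι : AlgebraicClosure F →+* PadicAlgCl p) : Prop where
  deg : Module.finrank ℚ F = 2
  imag : IsEmpty (F →+* ℝ)
  root : IsPrimitiveRoot ζ p
  split : ∀ a : F, ι (algebraMap F _ a) ∈ (⊥ : IntermediateField ℚ_[p] (PadicAlgCl p))
  rigid : Rigid p (Kz ζ) (ι.comp (algebraMap (Kz ζ) (AlgebraicClosure F)))

/-- The class of representations `V` of the Galois group of `F` over a finite extension `L` of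
`ℚ_p`. -/
structure IsRep (p : ℕ) [Fact p.Prime] {F : Type} [Field F] [NumberField F]
    (ζ : AlgebraicClosure F) {c : AlgebraicClosure F ≃+* AlgebraicClosure F} {σ : F ≃+* F}
    (hc : ConjHyp c σ) {L : Type} [NormedField L] [NormedAlgebra ℚ_[p] L] {n : ℕ}
    (ρ : GF F →* GL (Fin n) L) : Prop where
  /-- `V` is continuous -/
  cont : Continuous ρ
  /-- `V` is unramified at all places not above `p` -/
  unram : ∀ (l : ℕ) [Fact l.Prime], l ≠ p → ∀ j : AlgebraicClosure F →+* PadicAlgCl l,
    ∀ g ∈ Inert F (AlgebraicClosure F) j, ρ g = 1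
  /-- the restriction of `V` to `F(ζ)` is residually unipotent -/
  res : ∀ g ∈ (Kz ζ).fixingSubgroup, ∀ i : ℕ,
    ‖((ρ g : Matrix (Fin n) (Fin n) L).charpoly - (Polynomial.X - 1) ^ n).coeff i‖ < 1
  /-- `V` is conjugate self-dual: `⟨g x, (c g c⁻¹) y⟩ = χ(g) ⟨x, y⟩` for a nondegenerate symmetric
  form and the cyclotomic character `χ` -/
  dual : ∃ B : GL (Fin n) L, (B : Matrix (Fin n) (Fin n) L)ᵀ = B ∧
    ∀ g, (ρ g : Matrix (Fin n) (Fin n) L)ᵀ * (B : Matrix (Fin n) (Fin n) L) *
      (ρ (conj c σ hc.h g) : Matrix (Fin n) (Fin n) L) =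
        chL (cyc p F) L g • (B : Matrix (Fin n) (Fin n) L)
  /-- `V` is de Rham at the places above `p` -/
  dR : ∀ j : AlgebraicClosure F →+* PadicAlgCl p, DeRhamAt j ρ
  /-- the eigenvalues of Frobenius on `D_cris(V)` over `F(ζ)` are not `1` -/
  frob : ∀ j : AlgebraicClosure F →+* PadicAlgCl p, FrobAt (Kz ζ).fixingSubgroup j ρ

/-- **Parity for `F` and `p`**: for every `V` in the class the Selmer group `H¹_f(F, V)` of Bloch
and Kato is finite dimensional, and for each place `v` above `p` its dimension is at most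
`dim D_dR,v(V) / Fil⁰` and congruent to it modulo `2`. -/
def Parity (p : ℕ) [Fact p.Prime] (F : Type) [Field F] [NumberField F] : Prop :=
  ∀ (ζ : AlgebraicClosure F), IsPrimitiveRoot ζ p →
    ∀ (c : AlgebraicClosure F ≃+* AlgebraicClosure F) (σ : F ≃+* F) (hc : ConjHyp c σ)
    (L : Type) [NormedField L] [NormedAlgebra ℚ_[p] L] [FiniteDimensional ℚ_[p] L] (n : ℕ)
    (ρ : GF F →* GL (Fin n) L), IsRep p ζ hc ρ →
    FiniteDimensional L (H1f p ρ) ∧ ∀ j : AlgebraicClosure F →+* PadicAlgCl p,
      Module.finrank L (H1f p ρ) % 2 = tdim j ρ % 2 ∧ Module.finrank L (H1f p ρ) ≤ tdim j ρ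

end BKF
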