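import Pool.Agent.Lib.MP_7c08ba_nt.BK.Cls
import Pool.Agent.Lib.MP_7c08ba_nt.BK.PerEq
import Pool.Agent.Lib.MP_7c08ba_nt.BK.Stmt
import Pool.Agent.Lib.MP_7c08ba_nt.Crys.Hodge

set_option autoImplicit false

/-!
The definitions of `BK.Sel` and `BK.Cls` agree with those used in the proofs.
-/

noncomputable section

namespace BKS

open Matrix NumberField TensorProduct

section Periods

variable {p : ℕ} [Fact p.Prime] {F : Type} [Field F] {L : Type} [NormedField L]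
  [NormedAlgebra ℚ_[p] L] {n : ℕ} {B : Type} [CommRing B] [Algebra ℚ_[p] B]

theorem actL_eq (A : Matrix (Fin n) (Fin n) L) (f : B →ₐ[ℚ_[p]] B) :
    actL A f.toLinearMap = BKGlob.actM A f := rfl

theorem isTriv_eq (γ : Action p B) (j : Emb p F) (ρ : Rep (GF F) L n) (x : GF F → Fin n → L) :
    IsTriv γ j ρ x = BKGlob.IsTriv γ j ρ x := rfl

theorem DB_eq (γ : Action p B) (H : Subgroup (GF F)) (j : Emb p F) (ρ : Rep (GF F) L n) :
    DB γ H j ρ = BKOdd.DBat γ H j ρ := rfl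

end Periods

/-! ### Admissibility and period matrices -/

section Adm

open MP_7c08ba.Crys (Phi Psi Phi_tmul Psi_Phi Phi_Psi)

variable {p : ℕ} [Fact p.Prime] {F : Type} [Field F] {L : Type} [NormedField L]
  [NormedAlgebra ℚ_[p] L] {n : ℕ} {B : Type} [CommRing B] [Algebra ℚ_[p] B]

/-- coordinates -/
def ph (x : VB p L n B) : Fin n → L ⊗[ℚ_[p]] B := Phi (k := ℚ_[p]) x

/-- the inverse -/
def ps (x : Fin n → L ⊗[ℚ_[p]] B) : VB p L n B := Psi (k := ℚ_[p]) x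

theorem ps_ph (x : VB p L n B) : ps (ph x) = x := Psi_Phi _

theorem ph_ps (x : Fin n → L ⊗[ℚ_[p]] B) : ph (ps x) = x := Phi_Psi _

theorem ph_add (x y : VB p L n B) : ph (x + y) = ph x + ph y := map_add _ _ _

theorem ps_add (x y : Fin n → L ⊗[ℚ_[p]] B) : ps (x + y) = ps x + ps y := map_add _ _ _

theorem ph_smul (a : L) (x : VB p L n B) : ph (a • x) = a • ph x := map_smul _ _ _

theorem ph_inj {x y : VB p L n B} (h : ph x = ph y) : x = y := by
  rw [← ps_ph x, h, ps_ph]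

theorem ph_act (A : Matrix (Fin n) (Fin n) L) (f : B →ₐ[ℚ_[p]] B) (x : VB p L n B) :
    ph (actL A f.toLinearMap x) = A.map (algebraMap L (L ⊗[ℚ_[p]] B)) *ᵥ
      (fun i => Algebra.TensorProduct.map (AlgHom.id ℚ_[p] L) f (ph x i)) := by
  have hz : ph (0 : VB p L n B) = 0 := map_zero _
  change (Fin n → L) ⊗[ℚ_[p]] B at x
  induction x with
  | zero =>
    change ph (actL A f.toLinearMap 0) = _ *ᵥ fun i =>
      Algebra.TensorProduct.map (AlgHom.id ℚ_[p] L) f (ph (0 : VB p L n B) i)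
    rw [map_zero, hz]
    have : (fun i => (Algebra.TensorProduct.map (AlgHom.id ℚ_[p] L) f)
        ((0 : Fin n → L ⊗[ℚ_[p]] B) i)) = 0 := by
      funext i
      rw [Pi.zero_apply, map_zero]
    rw [this, Matrix.mulVec_zero]
  | add x y hx hy =>
    have h1 : actL A f.toLinearMap (x + y : VB p L n B) =
      actL A f.toLinearMap x + actL A f.toLinearMap y := map_add _ _ _
    have h2 : ph (x + y : VB p L n B) = ph x + ph y := ph_add x y
    rw [show (actL A f.toLinearMap) (x + y) = _ from h1, ph_add, hx, hy, ← Matrix.mulVec_add]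
    congr 1
    funext i
    rw [Pi.add_apply, ← map_add]
    congr 1
    exact (congrFun h2 i).symm
  | tmul v d =>
    funext i
    have h1 : ph (actL A f.toLinearMap (v ⊗ₜ[ℚ_[p]] d : (Fin n → L) ⊗[ℚ_[p]] B)) i =
      (A *ᵥ v) i ⊗ₜ f d := rfl
    have h2 : ∀ k, ph (p := p) (B := B) (v ⊗ₜ[ℚ_[p]] d : (Fin n → L) ⊗[ℚ_[p]] B) k =
      v k ⊗ₜ d := fun _ => rfl
    rw [h1]
    simp only [Matrix.mulVec, dotProduct, h2, Matrix.map_apply, Algebra.TensorProduct.map_tmul,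
      AlgHom.id_apply]
    rw [TensorProduct.sum_tmul]
    refine Finset.sum_congr rfl fun k _ => ?_
    rw [Algebra.TensorProduct.algebraMap_apply, Algebra.TensorProduct.tmul_mul_tmul, one_mul,
      Algebra.algebraMap_self_apply]

/-- multiplication by `b` -/
theorem ph_mul (b : B) (x : VB p L n B) :
    ph (actL 1 (LinearMap.mulLeft ℚ_[p] b) x) = ((1 : L) ⊗ₜ[ℚ_[p]] b) • ph x := by
  have hz : ph (0 : VB p L n B) = 0 := map_zero _
  change (Fin n → L) ⊗[ℚ_[p]] B at x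
  induction x with
  | zero =>
    change ph (actL 1 (LinearMap.mulLeft ℚ_[p] b) 0) = _ • ph (0 : VB p L n B)
    rw [map_zero, hz, smul_zero]
  | add x y hx hy =>
    have h1 : actL (1 : Matrix (Fin n) (Fin n) L) (LinearMap.mulLeft ℚ_[p] b)
      (x + y : VB p L n B) = actL 1 (LinearMap.mulLeft ℚ_[p] b) x +
        actL 1 (LinearMap.mulLeft ℚ_[p] b) y := map_add _ _ _
    have h2 : ph (x + y : VB p L n B) = ph x + ph y := ph_add x y
    rw [show (actL 1 (LinearMap.mulLeft ℚ_[p] b)) (x + y) = _ from h1, ph_add, hx, hy,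
      show ph (x + y) = _ from h2, smul_add]
  | tmul v d =>
    funext i
    have h1 : ph (actL 1 (LinearMap.mulLeft ℚ_[p] b)
      (v ⊗ₜ[ℚ_[p]] d : (Fin n → L) ⊗[ℚ_[p]] B)) i =
      ((1 : Matrix (Fin n) (Fin n) L) *ᵥ v) i ⊗ₜ (b * d) := rfl
    rw [h1, Matrix.one_mulVec, Pi.smul_apply]
    change v i ⊗ₜ[ℚ_[p]] (b * d) = ((1 : L) ⊗ₜ[ℚ_[p]] b) * (v i ⊗ₜ[ℚ_[p]] d)
    rw [Algebra.TensorProduct.tmul_mul_tmul, one_mul]

/-- automorphisms as linear maps -/
def IsAut.lin {Φ : VB p L n B → VB p L n B} (h : IsAut Φ) : VB p L n B →ₗ[L] VB p L n B where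
  toFun := Φ
  map_add' := h.add
  map_smul' := h.smul

/-- the semilinear structure of `L`-linear maps which commute with the multiplication by `B` -/
theorem ph_lin (Φ : VB p L n B →ₗ[L] VB p L n B)
    (h : ∀ (b : B) (x : VB p L n B), Φ (actL 1 (LinearMap.mulLeft ℚ_[p] b) x) =
      actL 1 (LinearMap.mulLeft ℚ_[p] b) (Φ x))
    (r : L ⊗[ℚ_[p]] B) (x : Fin n → L ⊗[ℚ_[p]] B) :
    ph (Φ (ps (r • x))) = r • ph (Φ (ps x)) := by
  have hz : ps (0 : Fin n → L ⊗[ℚ_[p]] B) = 0 := map_zero _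
  have hz' : ph (0 : VB p L n B) = 0 := map_zero _
  induction r with
  | zero => rw [zero_smul, zero_smul, hz, map_zero, hz']
  | add r s hr hs => rw [add_smul, ps_add, map_add, ph_add, hr, hs, add_smul]
  | tmul a b =>
    have h1 : ps ((a ⊗ₜ[ℚ_[p]] b) • x) = a • actL 1 (LinearMap.mulLeft ℚ_[p] b) (ps x) := by
      apply ph_inj
      rw [ph_ps, ph_smul, ph_mul, ph_ps, ← smul_assoc, TensorProduct.smul_tmul', smul_eq_mul,
        mul_one]
    rw [h1, map_smul, h, ph_smul, ph_mul, ← smul_assoc, TensorProduct.smul_tmul', smul_eq_mul,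
      mul_one]

/-- admissibility gives an invertible matrix of periods -/
theorem Adm.exists_period {γ : Action p B} {j : Emb p F} {ρ : Rep (GF F) L n}
    (h : Adm γ j ρ) :
    ∃ X : GL (Fin n) (L ⊗[ℚ_[p]] B), ∀ (g : GF F) (t : GQ p), Compat j g t →
      (ρ g : Matrix (Fin n) (Fin n) L).map (algebraMap L (L ⊗[ℚ_[p]] B)) *
        (X : Matrix (Fin n) (Fin n) (L ⊗[ℚ_[p]] B)).map
          (Algebra.TensorProduct.map (AlgHom.id ℚ_[p] L) (γ t)) =
        (X : Matrix (Fin n) (Fin n) (L ⊗[ℚ_[p]] B)) := by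
  obtain ⟨Φ₀, hΦ, hg⟩ := h
  let Φ : VB p L n B ≃ₗ[L] VB p L n B := LinearEquiv.ofBijective hΦ.lin hΦ.bij
  have hb : ∀ (b : B) (x : VB p L n B), Φ (actL 1 (LinearMap.mulLeft ℚ_[p] b) x) =
      actL 1 (LinearMap.mulLeft ℚ_[p] b) (Φ x) := fun b x => hΦ.mul b x
  have hb' : ∀ (b : B) (x : VB p L n B), Φ.symm (actL 1 (LinearMap.mulLeft ℚ_[p] b) x) =
      actL 1 (LinearMap.mulLeft ℚ_[p] b) (Φ.symm x) := by
    intro b x
    rw [LinearEquiv.symm_apply_eq, hb, LinearEquiv.apply_symm_apply]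
  let e : (Fin n → L ⊗[ℚ_[p]] B) →ₗ[L ⊗[ℚ_[p]] B] (Fin n → L ⊗[ℚ_[p]] B) :=
    { toFun := fun x => ph (Φ (ps x))
      map_add' := fun x y => by rw [ps_add, map_add, ph_add]
      map_smul' := fun r x => ph_lin Φ.toLinearMap hb r x }
  let e' : (Fin n → L ⊗[ℚ_[p]] B) →ₗ[L ⊗[ℚ_[p]] B] (Fin n → L ⊗[ℚ_[p]] B) :=
    { toFun := fun x => ph (Φ.symm (ps x))
      map_add' := fun x y => by rw [ps_add, map_add, ph_add]
      map_smul' := fun r x => ph_lin Φ.symm.toLinearMap hb' r x }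
  have he : e.comp e' = LinearMap.id := by
    refine LinearMap.ext fun x => ?_
    change ph (Φ (ps (ph (Φ.symm (ps x))))) = x
    rw [ps_ph, LinearEquiv.apply_symm_apply, ph_ps]
  have he' : e'.comp e = LinearMap.id := by
    refine LinearMap.ext fun x => ?_
    change ph (Φ.symm (ps (ph (Φ (ps x))))) = x
    rw [ps_ph, LinearEquiv.symm_apply_apply, ph_ps]
  let X : GL (Fin n) (L ⊗[ℚ_[p]] B) :=
    ⟨LinearMap.toMatrix' e, LinearMap.toMatrix' e',
      (LinearMap.toMatrix'_comp e e').symm.trans (by rw [he, LinearMap.toMatrix'_id]),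
      (LinearMap.toMatrix'_comp e' e).symm.trans (by rw [he', LinearMap.toMatrix'_id])⟩
  refine ⟨X, fun g t hgt => ?_⟩
  have hcol : ∀ i : Fin n, (fun k => (X : Matrix (Fin n) (Fin n) (L ⊗[ℚ_[p]] B)) k i) =
      ph (Φ (inj p B (Pi.single i (1 : L)))) := by
    intro i
    have h1 : ps (Pi.single i (1 : L ⊗[ℚ_[p]] B)) = inj p B (Pi.single i (1 : L)) := by
      apply ph_inj
      rw [ph_ps]
      funext k
      change _ = (Pi.single i (1 : L) : Fin n → L) k ⊗ₜ[ℚ_[p]] (1 : B)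
      by_cases hk : k = i
      · subst hk
        rw [Pi.single_eq_same, Pi.single_eq_same]
        rfl
      · rw [Pi.single_eq_of_ne hk, Pi.single_eq_of_ne hk, TensorProduct.zero_tmul]
    funext k
    change LinearMap.toMatrix' e k i = _
    rw [LinearMap.toMatrix'_apply, ← h1]
    rfl
  ext k i
  rw [Matrix.mul_apply]
  have h1 : base (γ t).toLinearMap (inj p B (Pi.single i (1 : L))) =
      inj p B (Pi.single i (1 : L)) := by
    change (((1 : Matrix (Fin n) (Fin n) L) *ᵥ (Pi.single i (1 : L))) ⊗ₜ[ℚ_[p]]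
      (γ t (1 : B)) : (Fin n → L) ⊗[ℚ_[p]] B) = (Pi.single i (1 : L)) ⊗ₜ[ℚ_[p]] (1 : B)
    rw [Matrix.one_mulVec, map_one]
  have h2 : Φ (base (γ t).toLinearMap (inj p B (Pi.single i (1 : L)))) =
    gal γ ρ g t (Φ (inj p B (Pi.single i (1 : L)))) := hg g t hgt (inj p B (Pi.single i (1 : L)))
  rw [h1] at h2
  have h3 := congrArg ph h2
  have h4 : ph (gal γ ρ g t (Φ (inj p B (Pi.single i (1 : L))))) =
    (ρ g : Matrix (Fin n) (Fin n) L).map (algebraMap L (L ⊗[ℚ_[p]] B)) *ᵥ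
      (fun k => Algebra.TensorProduct.map (AlgHom.id ℚ_[p] L) (γ t)
        (ph (Φ (inj p B (Pi.single i (1 : L)))) k)) := ph_act _ _ _
  rw [h4, ← hcol i] at h3
  exact (congrFun h3 k).symm

end Adm

section Top

variable {p : ℕ} [Fact p.Prime] {F : Type} [Field F] {L : Type} [NormedField L]
  [NormedAlgebra ℚ_[p] L] {n : ℕ}

theorem isTriv_cris (j : Emb p F) (ρ : Rep (GF F) L n) (x : GF F → Fin n → L) :
    IsTriv Per.galB j ρ x ↔ BKGlob.IsTriv MP_7c08ba.Crys.galBa j ρ x := by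
  rw [← isTriv_eq]
  exact isTriv_iff PerEq.eB PerEq.eB_gal j ρ x

theorem Z1f_eq (ρ : Rep (GF F) L n) : Z1f p ρ = BKOdd.Z1f p ρ :=
  Submodule.ext fun x => and_congr Iff.rfl (and_congr Iff.rfl
    (forall_congr' fun j => isTriv_cris j ρ x))

theorem H1f_cls (ρ : Rep (GF F) L n) : H1f p ρ = cls ρ (BKOdd.Z1f p ρ) :=
  congrArg (cls ρ) (Z1f_eq ρ)

theorem isFin_H1f (ρ : Rep (GF F) L n) :
    IsFin (H1f p ρ) ↔ FiniteDimensional L (BKOdd.H1f p ρ) := by
  rw [H1f_cls]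
  exact Iff.rfl

theorem dim_H1f (ρ : Rep (GF F) L n) :
    dim (H1f p ρ) = Module.finrank L (BKOdd.H1f p ρ) := by
  rw [H1f_cls]
  rfl

theorem actL_one {B B' : Type} [CommRing B] [Algebra ℚ_[p] B] [CommRing B'] [Algebra ℚ_[p] B']
    (f : B' →ₗ[ℚ_[p]] B) : actL (1 : Matrix (Fin n) (Fin n) L) f =
      AlgebraTensorModule.lTensor L (Fin n → L) f := by
  have h1 : actL (1 : Matrix (Fin n) (Fin n) L) f =
    AlgebraTensorModule.map (1 : Matrix (Fin n) (Fin n) L).mulVecLin f := rfl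
  rw [h1, Matrix.mulVecLin_one]
  rfl

theorem tdim_eq (ρ : Rep (GF F) L n) (j : Emb p F) : tdim ρ j = BKOdd.tdim j ρ := by
  have h0 : tdim ρ j = codimIn (DB MP_7c08ba.Crys.galD ⊤ j ρ)
      (sub L n (MP_7c08ba.Crys.jd : MP_7c08ba.Crys.BdRp p →ₐ[ℚ_[p]] MP_7c08ba.Crys.BdR p)) :=
    codim_eq PerEq.eD PerEq.eD_gal PerEq.eDp _ _ PerEq.eD_jd ⊤ j ρ
  have h1 : sub L n (MP_7c08ba.Crys.jd : MP_7c08ba.Crys.BdRp p →ₐ[ℚ_[p]] MP_7c08ba.Crys.BdR p) =
      BKOdd.Fil0V p L n := by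
    have h2 : sub L n (MP_7c08ba.Crys.jd : MP_7c08ba.Crys.BdRp p →ₐ[ℚ_[p]]
        MP_7c08ba.Crys.BdR p) = LinearMap.range (actL (1 : Matrix (Fin n) (Fin n) L)
          (MP_7c08ba.Crys.jd : MP_7c08ba.Crys.BdRp p →ₐ[ℚ_[p]]
            MP_7c08ba.Crys.BdR p).toLinearMap) := rfl
    rw [h2, actL_one]
    rfl
  rw [h0, h1]
  rfl

theorem DeRhamAt.toOdd {ρ : Rep (GF F) L n} {j : Emb p F}
    (h : DeRhamAt ρ j) : BKOdd.DeRhamAt j ρ :=
  (Adm.tr (γ' := MP_7c08ba.Crys.galD) PerEq.eD PerEq.eD_gal h).exists_period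

theorem frobAt_eq (ρ : Rep (GF F) L n) (H : Subgroup (GF F)) (j : Emb p F) :
    FrobAt ρ H j = BKOdd.FrobAt H j ρ := by
  have h0 : FrobAt ρ H j = BijSub MP_7c08ba.Crys.galBa H j ρ MP_7c08ba.Crys.phBa :=
    propext (bijSub_iff PerEq.eB PerEq.eB_gal PerEq.eB_fr H j ρ)
  have h1 : BijSub MP_7c08ba.Crys.galBa H j ρ MP_7c08ba.Crys.phBa =
    ∀ y ∈ DB MP_7c08ba.Crys.galBa H j ρ, ∃! x, x ∈ DB MP_7c08ba.Crys.galBa H j ρ ∧
    actL (1 : Matrix (Fin n) (Fin n) L)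
      (MP_7c08ba.Crys.phBa : MP_7c08ba.Crys.BCris p →ₐ[ℚ_[p]] _).toLinearMap x - x = y := rfl
  rw [h0, h1, actL_one]
  rfl

theorem chi_eq (g : GF F) : chi p L g = BKOdd.chL (BKOdd.cyc p F) L g := rfl

theorem GK_eq {ζ : AlgebraicClosure F} (hζ : IsPrimitiveRoot ζ p) :
    GK p F = (BKOdd.Kz ζ).fixingSubgroup := by
  have hp : p ≠ 0 := (Fact.out : p.Prime).ne_zero
  ext g
  rw [IntermediateField.mem_fixingSubgroup_iff]
  constructor
  · intro hg x hx
    have h1 : BKOdd.Kz ζ ≤ IntermediateField.fixedField (Subgroup.zpowers g) := by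
      refine IntermediateField.adjoin_le_iff.mpr ?_
      rintro _ rfl
      rintro ⟨h, hh⟩
      obtain ⟨k, rfl⟩ := Subgroup.mem_zpowers_iff.mp hh
      have h2 : ∀ z : AlgebraicClosure F, z ^ p = 1 → (g ^ k) z = z :=
        (GK p F).zpow_mem hg k
      exact h2 _ hζ.pow_eq_one
    exact h1 hx ⟨g, Subgroup.mem_zpowers g⟩
  · intro hg z hz
    have : NeZero p := ⟨hp⟩
    obtain ⟨i, -, rfl⟩ := hζ.eq_pow_of_pow_eq_one hz
    exact hg _ (pow_mem (IntermediateField.mem_adjoin_simple_self F ζ) i)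

/-- a complex conjugation preserves the quadratic field `F` -/
theorem exists_conjHyp [NumberField F] (hF : Module.finrank ℚ F = 2)
    {c : AlgebraicClosure F ≃+* AlgebraicClosure F} (hc : IsConj c) :
    ∃ σ : F ≃+* F, BKOdd.ConjHyp c σ := by
  obtain ⟨hcc, a₀, ha₀⟩ := hc
  have : IsGalois ℚ F := by
    have : Algebra.IsQuadraticExtension ℚ F := ⟨hF⟩
    infer_instance
  let c' : AlgebraicClosure F ≃ₐ[ℚ] AlgebraicClosure F :=
    AlgEquiv.ofRingEquiv (f := c) (fun q => by simp)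
  have h1 : ∀ a : F, algebraMap F (AlgebraicClosure F) (c'.restrictNormal F a) =
      c (algebraMap F (AlgebraicClosure F) a) := fun a =>
    AlgEquiv.restrictNormal_commutes c' F a
  refine ⟨(c'.restrictNormal F).toRingEquiv, fun a => (h1 a).symm, ⟨a₀, fun h => ha₀ ?_⟩, hcc⟩
  rw [← h1 a₀]
  exact congrArg _ h

theorem eq_of_form {P Q : Matrix (Fin n) (Fin n) L}
    (h : ∀ x y : Fin n → L, x ⬝ᵥ (P *ᵥ y) = x ⬝ᵥ (Q *ᵥ y)) : P = Q := by
  ext i k
  have h1 := h (Pi.single i 1) (Pi.single k 1)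
  rwa [single_one_dotProduct, single_one_dotProduct, mulVec_single_one, mulVec_single_one] at h1

theorem IsPol.matrix {V : Rep (GF F) L n} {c : AlgebraicClosure F ≃+* AlgebraicClosure F}
    {B : Matrix (Fin n) (Fin n) L} (h : IsPol p V c B) {g g' : GF F}
    (hg : ∀ z, g' (c z) = c (g z)) :
    (V g : Matrix (Fin n) (Fin n) L)ᵀ * B * (V g' : Matrix (Fin n) (Fin n) L) =
      chi p L g • B := by
  refine eq_of_form fun x y => ?_
  have h1 := h.2.2 g g' hg x y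
  rw [smul_mulVec, dotProduct_smul, smul_eq_mul, ← h1, mul_assoc, ← mulVec_mulVec,
    ← mulVec_mulVec, dotProduct_mulVec, vecMul_transpose]
  rfl

theorem IsRep.toBKF {ζ : AlgebraicClosure F} (hζ : IsPrimitiveRoot ζ p) [NumberField F]
    (hF : Module.finrank ℚ F = 2) {V : Rep (GF F) L n} (hV : IsRep p V) :
    ∃ (c : AlgebraicClosure F ≃+* AlgebraicClosure F) (σ : F ≃+* F) (hc : BKOdd.ConjHyp c σ),
      BKF.IsRep p ζ hc V := by
  obtain ⟨c, hc, B, hB⟩ := hV.dual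
  obtain ⟨σ, hcs⟩ := exists_conjHyp hF hc
  refine ⟨c, σ, hcs, ?_⟩
  constructor
  · exact hV.cont
  · exact hV.unram
  · intro g hg i
    rw [← GK_eq hζ] at hg
    exact hV.res g hg i
  · refine ⟨Matrix.nonsingInvUnit B hB.2.1, hB.1, fun g => ?_⟩
    rw [← chi_eq]
    refine hB.matrix fun z => ?_
    change c (g (c.symm (c z))) = c (g z)
    rw [RingEquiv.symm_apply_apply]
  · exact fun j => (hV.dR j).toOdd
  · intro j
    rw [← GK_eq hζ, ← frobAt_eq]
    exact hV.frob j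

/-- the parity statement -/
theorem Parity.of [NumberField F] (hF : Module.finrank ℚ F = 2) (h : BKF.Parity p F) :
    Parity p F := by
  intro L _ _ _ n V hV
  have : NeZero ((p : ℕ) : AlgebraicClosure F) :=
    ⟨by exact_mod_cast (Fact.out : p.Prime).ne_zero⟩
  obtain ⟨ζ, hζ⟩ := HasEnoughRootsOfUnity.exists_primitiveRoot (AlgebraicClosure F) p
  obtain ⟨c, σ, hc, hV'⟩ := hV.toBKF hζ hF
  have h1 := h ζ hζ c σ hc L n V hV'
  refine ⟨(isFin_H1f V).mpr h1.1, fun j => ?_⟩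
  rw [dim_H1f, tdim_eq]
  exact h1.2 j

end Top

end BKS
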