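import Pool.Agent.Lib.MP_7c08ba_nt.BK.All
import Pool.Agent.Lib.MP_7c08ba_nt.Glob.Final2

set_option autoImplicit false

/-!
Parity for all primes `p`; the fields for `p = 2`.
-/

noncomputable section

namespace BKF

open BKGen BKOdd Matrix MP_7c08ba.Crys BKGlob

section Two

theorem parityAt_two : ParityAt 2 := by
  intro F _ _ ζ ι hR c σ hcs L _ _ _ n ρ hρ hres hur Bu hB hpol hDR hFr hFr'
  exact parity_at_two ζ ι ⟨hR.deg, hR.imag, hR.root, hR.split, hR.rigid⟩ c σ hcs ρ hρ hres hur Bu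
    hB hpol hDR hFr hFr'

theorem conjInv_two : ConjInv 2 := by
  intro F _ _ ζ ι hR c σ hcs
  have hζ : ζ = -1 := hR.root.eq_neg_one_of_two_right
  rw [hζ, map_neg, map_one, inv_neg, inv_one]

theorem parityAt_every (p : ℕ) [Fact p.Prime] : ParityAt p := by
  rcases eq_or_ne p 2 with rfl | hp
  · exact parityAt_two
  · exact parityAt_odd p hp

theorem conjInv_every (p : ℕ) [Fact p.Prime] : ConjInv p := by
  rcases eq_or_ne p 2 with rfl | hp
  · exact conjInv_two
  · exact conjInv_odd p hp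

/-- **Parity for all primes `p`.** -/
theorem parity_every {p : ℕ} [Fact p.Prime] {F : Type} [Field F]
    [NumberField F] {ζ : AlgebraicClosure F} {ι : AlgebraicClosure F →+* PadicAlgCl p}
    (hR : RigidField p F ζ ι) : Parity p F :=
  parity_all (parityAt_every p) (conjInv_every p) hR

end Two

section Field

theorem exists_emb (p : ℕ) [Fact p.Prime] (F : Type) [Field F] [NumberField F] :
    Nonempty (AlgebraicClosure F →+* PadicAlgCl p) := by
  have h1 : Algebra.IsAlgebraic ℚ (AlgebraicClosure F) := BKGlob.algQ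
  exact ⟨(IsAlgClosed.lift : AlgebraicClosure F →ₐ[ℚ] PadicAlgCl p).toRingHom⟩

variable {F : Type} [Field F] [NumberField F]

theorem no_real {D : ℕ} (hD : 0 < D) {s : F} (hs : s ^ 2 = -(D : F)) : IsEmpty (F →+* ℝ) := by
  refine ⟨fun f => ?_⟩
  have h1 := congrArg f hs
  rw [map_pow, map_neg, map_natCast] at h1
  have h2 : (0 : ℝ) < D := by exact_mod_cast hD
  nlinarith [sq_nonneg (f s)]

/-- the hypothesis on the field for `p = 2` -/
theorem rigidField_two {D : ℕ} (hD8 : D % 8 = 7) (hF : Module.finrank ℚ F = 2) {s : F}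
    (hs : s ^ 2 = -(D : F)) (ι : AlgebraicClosure F →+* PadicAlgCl 2)
    (hr : Rigid 2 F (ι.comp (algebraMap F (AlgebraicClosure F)))) :
    RigidField 2 F (-1) ι := by
  have hbot : Kz (-1 : AlgebraicClosure F) = ⊥ := by
    rw [Kz, IntermediateField.adjoin_simple_eq_bot_iff]
    exact neg_mem (one_mem _)
  refine ⟨hF, no_real (by omega) hs, IsPrimitiveRoot.neg_one 0 (by norm_num), ?_, ?_⟩
  · intro a
    rw [← comp_two_eq_bot hD8 hF hs (ι.comp (algebraMap F (AlgebraicClosure F)))]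
    exact IntermediateField.subset_adjoin _ _ ⟨a, rfl⟩
  · refine rigid_congr hbot.symm ι ?_
    have h1 := rigid_equiv (IntermediateField.botEquiv F (AlgebraicClosure F)).toRingEquiv hr
    convert h1 using 1
    ext ⟨a, ha⟩
    obtain ⟨b, rfl⟩ := IntermediateField.mem_bot.1 ha
    change ι (algebraMap F (AlgebraicClosure F) b) = ι (algebraMap F (AlgebraicClosure F)
      (IntermediateField.botEquiv F (AlgebraicClosure F) ⟨_, ha⟩))
    congr 2
    exact (IntermediateField.botEquiv_def b).symm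

/-- `F = ℚ(√-D)`, `D ≡ 7 (mod 16)` prime or `D = q r` with primes `q ≡ 3`, `r ≡ 5 (mod 8)` -/
theorem parity_two {D : ℕ} (hD : (D.Prime ∧ D % 16 = 7) ∨
    ∃ q r : ℕ, q.Prime ∧ r.Prime ∧ q % 8 = 3 ∧ r % 8 = 5 ∧ D = q * r)
    (hF : Module.finrank ℚ F = 2) {s : F} (hs : s ^ 2 = -(D : F)) : Parity 2 F := by
  obtain ⟨ι⟩ := exists_emb 2 F
  rcases hD with ⟨hq, h16⟩ | ⟨q, r, hq, hr, h3, h5, rfl⟩
  · exact parity_every (rigidField_two (by omega) hF hs ι (rigidTwo hq h16 hF hs _))
  · exact parity_every (rigidField_two (by rw [Nat.mul_mod, h3, h5]) hF hs ι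
      (rigidTwo_qr hq hr h3 h5 hF hs _))

end Field

end BKF
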