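import Pool.Agent.Lib.MP_7c08ba_nt.BK.All
import Pool.Agent.Lib.MP_7c08ba_nt.BK.Two
import Pool.Agent.Lib.MP_7c08ba_nt.DH.Final
import Pool.Agent.Lib.MP_7c08ba_nt.DH.Link

set_option autoImplicit false

/-!
Parity at `p = 3` holds for at least one half of the imaginary quadratic fields in which `3` splits.
-/

noncomputable section

namespace BKF

open BKGen BKDH

/-- parity at `3` for a rigid field -/
theorem parity_three {Δ : ℕ} (hf : IsFund Δ) (h3 : Δ % 3 = 2) (hR : RigidAll Δ)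
    {F : Type} [Field F] [NumberField F] {s : F} (hs : s ^ 2 = -(Δ : F))
    (hdeg : Module.finrank ℚ F = 2) : Parity 3 F := by
  obtain ⟨ι⟩ := exists_emb 3 F
  have : NeZero ((3 : ℕ) : AlgebraicClosure F) := ⟨by norm_num⟩
  obtain ⟨ζ, hζ⟩ : ∃ ζ : AlgebraicClosure F, IsPrimitiveRoot ζ 3 := by
    obtain ⟨ζ, hζ⟩ := IsAlgClosed.exists_root (Polynomial.cyclotomic 3 (AlgebraicClosure F)) (by
      rw [Polynomial.degree_cyclotomic]
      decide)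
    exact ⟨ζ, (Polynomial.isRoot_cyclotomic_iff).1 hζ⟩
  exact parity_odd (by norm_num) (oddHyp hf h3 hR hs hdeg ζ hζ ι).rigidField

/-- **Density**: parity at `p = 3` holds for at least one half of the imaginary quadratic fields
`ℚ(√-Δ)` in which `3` splits. -/
theorem dens (ε : ℝ) (hε : 0 < ε) :
    ∃ X₀ : ℕ, ∀ X : ℕ, X₀ ≤ X →
      (1 / 2 - ε) * ({Δ : ℕ | Δ ≤ X ∧ IsFund Δ ∧ Δ % 3 = 2}.ncard : ℝ) ≤
        ({Δ : ℕ | Δ ≤ X ∧ IsFund Δ ∧ Δ % 3 = 2 ∧ ∀ (F : Type) [Field F] [NumberField F] (s : F),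
          s ^ 2 = -(Δ : F) → Module.finrank ℚ F = 2 → Parity 3 F}.ncard : ℝ) := by
  obtain ⟨X₀, hX₀⟩ := half ε hε
  refine ⟨X₀, fun X hX => (hX₀ X hX).trans ?_⟩
  have hfin : {Δ : ℕ | Δ ≤ X ∧ IsFund Δ ∧ Δ % 3 = 2 ∧ ∀ (F : Type) [Field F] [NumberField F]
      (s : F), s ^ 2 = -(Δ : F) → Module.finrank ℚ F = 2 → Parity 3 F}.Finite :=
    (Set.finite_Iic X).subset fun Δ h => h.1
  have hsub : {Δ : ℕ | Δ ≤ X ∧ IsFund Δ ∧ Δ % 3 = 2 ∧ RigidAll Δ} ⊆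
      {Δ : ℕ | Δ ≤ X ∧ IsFund Δ ∧ Δ % 3 = 2 ∧ ∀ (F : Type) [Field F] [NumberField F]
      (s : F), s ^ 2 = -(Δ : F) → Module.finrank ℚ F = 2 → Parity 3 F} := by
    rintro Δ ⟨h1, h2, h3, h4⟩
    exact ⟨h1, h2, h3, fun F _ _ s hs hd => parity_three h2 h3 h4 hs hd⟩
  exact_mod_cast Set.ncard_le_ncard hsub hfin

end BKF
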