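import Mathlib
import Pool.Agent.Lib.MP_7c08ba_nt.BK.CV
import Pool.Agent.Lib.MP_7c08ba_nt.BK.Tr
import Pool.Agent.Lib.MP_7c08ba_nt.RZ.C2.Two
import Pool.Agent.Lib.MP_7c08ba_nt.RZ.ExPsi
import Pool.Agent.Lib.MP_7c08ba_nt.RZ.ExFin

set_option autoImplicit false

/-!
The definitions of `BK.CV` agree with those used in the proofs.
-/

noncomputable section

namespace BKS

open Matrix NumberField IsDedekindDomain TensorProduct

namespace CV

open Pool.Agent.Lib.MP_7c08ba_nt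

variable {F : Type} [Field F] [NumberField F] {w : ℕ}

theorem eigen_iff (f : Form w) : Eigen f ↔ RZ.IsEigen f :=
  ⟨fun h => ⟨h.1, h.2⟩, fun h => ⟨h.1, h.2⟩⟩

theorem isHecke_iff (σ : F →+* ℂ) (k : ℕ) (ψ : Chr F) : IsHecke σ k ψ ↔ RZ.IsHecke σ k ψ :=
  Iff.rfl

theorem resTriv_iff (p : ℕ) [Fact p.Prime] (ι : ℂ →+* PadicAlgCl p) (ψ : Chr F) :
    ResTriv p ι ψ ↔ RZ.ResidueOneAt p ψ ι := Iff.rfl

theorem trc_eq (π : Aut F) (v : Pl F) : trc π v = RZ.frobTr π.f π.ψ π.k v := rfl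

theorem dtm_eq (π : Aut F) (v : Pl F) : dtm π v = RZ.frobDt π.w π.ψ π.k v := rfl

theorem isLFun_iff (π : Aut F) (Λ : ℂ → ℂ) :
    IsLFun π Λ ↔ RZ.IsLFun π.f π.ψ π.k Λ :=
  ⟨fun h => ⟨h.1, h.2⟩, fun h => ⟨h.1, h.2⟩⟩

variable {p : ℕ} [Fact p.Prime] {L : Type} [NormedField L] [NormedAlgebra ℚ_[p] L]

/-- the Frobenius on `V ⊗ B_cris` -/
theorem frobV_tr (x : VB p L 2 (Per.BCris p)) :
    RZ.frobV p L (Fin 2 → L) (BKS.tr L 2 PerEq.eB x) =
      BKS.tr L 2 PerEq.eB (base (Per.frB p).toLinearMap x) := by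
  have h1 := tr_actL (PerEq.eB (p := p)) PerEq.eB (1 : Matrix (Fin 2) (Fin 2) L)
    (Per.frB p).toLinearMap
    (MP_7c08ba.Crys.phBa : MP_7c08ba.Crys.BCris p →ₐ[ℚ_[p]] _).toLinearMap PerEq.eB_fr x
  rw [actL_one (p := p) (L := L) (n := 2)
    (MP_7c08ba.Crys.phBa : MP_7c08ba.Crys.BCris p →ₐ[ℚ_[p]] MP_7c08ba.Crys.BCris p).toLinearMap]
    at h1
  exact h1.symm

variable [NormedAlgebra L (PadicAlgCl p)]

/-- realisations -/
theorem isReal (hF : Module.finrank ℚ F = 2) {π : Aut F} {ι : ℂ →+* PadicAlgCl p}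
    {V : GRep F L 2} (h : IsReal ι π V) : RZ.IsReal p π.σ π.f π.ψ π.k ι V where
  continuous := h.cont
  unramified := h.unram
  frobenius := by
    intro v P hP hpP hv g hg
    refine h.frob v P g ⟨hP, hpP, hv, fun x => ?_⟩
    have h1 := hg x
    have h2 : Nat.card (𝓞 F ⧸ P.under (𝓞 F)) = nv v := by
      rw [hv]
      exact (Ideal.absNorm_apply v.asIdeal).symm
    rwa [h2] at h1
  dual := by
    obtain ⟨c, hc, B, hB⟩ := h.dual
    obtain ⟨τ, hτ⟩ := exists_conjHyp hF hc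
    refine ⟨c, τ, hτ, Matrix.nonsingInvUnit B hB.2.1, hB.1, fun g => ?_⟩
    rw [← chi_eq]
    refine hB.matrix fun z => ?_
    change c (g (c.symm (c z))) = c (g z)
    rw [RingEquiv.symm_apply_apply]
  deRham := fun j => (h.dR j).toOdd
  crystalline := by
    intro ζ hζ j v hv
    obtain ⟨t, d, ⟨ht, hd⟩, hb⟩ := h.crys j v hv
    refine ⟨t, d, ht, hd, fun b hb' => ?_⟩
    rw [← GK_eq hζ, ← DB_eq] at hb'
    obtain ⟨b₀, rfl⟩ := (BKS.tr L 2 (PerEq.eB (p := p))).surjective b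
    have h1 : b₀ ∈ DB Per.galB (GK p F) j V :=
      (isFix_iff PerEq.eB PerEq.eB_gal (GK p F) j V b₀).1 hb'
    have h2 := hb b₀ h1
    have h3 := congrArg (BKS.tr L 2 (PerEq.eB (p := p))) h2
    rw [map_add, _root_.map_sub, map_smul, map_smul, map_zero, ← frobV_tr, ← frobV_tr] at h3
    exact h3
  weights_lt := fun hk j => (tdim_eq V j).symm.trans (h.hodge.1 hk j)
  weights_ge := fun hk j hj => (tdim_eq V j).symm.trans (h.hodge.2 hk j hj)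

/-- the theorem -/
theorem central {D : ℕ}
    (hψ : ∀ (F : Type) [Field F] [NumberField F] (s : F), Module.finrank ℚ F = 2 →
      s ^ 2 = -(D : F) → ∀ (σ : F →+* ℂ) (k : ℕ), Even k → ∀ ι : ℂ →+* PadicAlgCl p,
      ∃ ψ : Chr F, RZ.IsHecke σ k ψ ∧ ∀ a : Ideal (𝓞 F), ¬ p ∣ Ideal.absNorm a →
        ‖ι (ψ a) - 1‖ < 1)
    (h : RZ.Central p D) : Central p D := by
  rintro F _ _ ⟨hF, s, hs⟩ ι
  refine ⟨fun π hι => ?_, fun σ k hk => hψ F s hF hs σ k hk ι⟩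
  obtain ⟨⟨Λ, h1⟩, h2, h3⟩ := h F s hF hs π.w π.k π.f π.σ π.ψ ((eigen_iff π.f).1 π.eigen)
    π.hecke (PadicAlgCl p) ι hι
  refine ⟨⟨⟨Λ, (isLFun_iff π Λ).2 h1⟩, fun Λ hΛ => h2 Λ ((isLFun_iff π Λ).1 hΛ)⟩,
    fun L _ _ _ _ V hV => ?_⟩
  have h4 := h3 L V (isReal hF hV)
  rw [SelDim, isFin_H1f, dim_H1f]
  exact h4

theorem isFund_iff (D : ℕ) : IsFund D ↔ BKDH.IsFund D := by
  unfold IsFund BKDH.IsFund BKDH.F2
  refine and_congr ?_ Iff.rfl
  omega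

theorem rigid3_iff (D : ℕ) : Rigid3 D ↔ BKDH.RigidAll D := Iff.rfl

/-- **`p = 2`** -/
theorem central_two {D : ℕ} (hD : RZ.Two D) : Central 2 D := by
  have h4 : 4 < D := by have := hD.sqf.2; omega
  exact central (fun F _ _ s hF hs σ k hk ι => RZX.exists_psi hD.isFund h4
    (RZ.exists_sqrt_seven hD.sqf.2) hF hs σ hk (one_dvd k) ι) (RZ.central_two_full hD)

/-- **`p = 3`** -/
theorem central_three {D : ℕ} (hD : IsFund D) (h3 : D % 3 = 2) (hR : Rigid3 D) : Central 3 D := by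
  rw [isFund_iff] at hD
  exact central (fun F _ _ s hF hs σ k hk ι => RZX.exists_psi_three hD h3 hF hs σ hk ι)
    (RZ.central_three_all hD h3 hR)

/-- the family -/
theorem central_fam (p D : ℕ) [hp : Fact p.Prime] (h : Fam p D) : Central p D := by
  rcases h with ⟨rfl, hD⟩ | ⟨rfl, hD, h3, hR⟩
  · exact central_two hD
  · exact central_three hD h3 hR

/-- **`p = 3`**, density -/
theorem density (ε : ℝ) (hε : 0 < ε) :
    ∃ X₀ : ℕ, ∀ X : ℕ, X₀ ≤ X →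
    (1 / 2 - ε) * ({D : ℕ | D ≤ X ∧ IsFund D ∧ D % 3 = 2}.ncard : ℝ) ≤
      ({D : ℕ | D ≤ X ∧ Fam 3 D}.ncard : ℝ) := by
  have h : ∀ D, Fam 3 D ↔ IsFund D ∧ D % 3 = 2 ∧ Rigid3 D := by
    intro D
    unfold Fam
    constructor
    · rintro (⟨h, -⟩ | ⟨-, h⟩)
      · omega
      · exact h
    · exact fun h => Or.inr ⟨rfl, h⟩
  simp only [h, isFund_iff]
  exact BKDH.half ε hε

end CV

end BKS
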