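import Pool.Agent.Lib.MP_7c08ba_nt.BK.CV

set_option autoImplicit false

/-!
The odd powers of the canonical Hecke characters of `ℚ(√-q)` and their quadratic twists: the
`L`-function, the `2`-adic realisation and its Selmer group.
-/

noncomputable section

namespace BKS

open Matrix NumberField IsDedekindDomain

/-! ### Hecke characters -/

/-- The Kronecker symbol `(D/n)`, for a squarefree integer `D`; it is `0` if `n` is not prime to
the discriminant of `ℚ(√D)`. -/
def kro (D : ℤ) (n : ℕ) : ℤ :=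
  if D % 4 = 1 then jacobiSym n D.natAbs else if n % 2 = 0 then 0 else jacobiSym D n

/-- `r` is inert in `ℚ(√-q)`, for an odd prime `r` -/
def InertIn (q r : ℕ) : Prop := ¬ IsSquare (((-q : ℤ)) : ZMod r)

section

variable {F : Type} [Field F] [NumberField F]

/-- `ψ` is a canonical Hecke character of `F = ℚ(√-q)`: its conductor is generated by `s = √-q` and
`ψ((t)) = (a/q) σ(t)` for `t ≡ a` modulo `s`. -/
def IsCanon (q : ℕ) (σ : F →+* ℂ) (ψ : Chr F) : Prop :=
  ∀ (s t : 𝓞 F) (a : ℤ), s ^ 2 = -(q : 𝓞 F) → t ≠ 0 → s ∣ t - a →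
    ψ (Ideal.span {t}) = (jacobiSym a q : ℂ) * σ t

/-- `ψ` is trivial modulo the maximal ideal of the algebraic closure of `ℚ₂`, on the ideals of odd
norm prime to the conductor. -/
def ResOne (ι : ℂ →+* PadicAlgCl 2) (ψ : Chr F) : Prop :=
  ∀ a : Idl F, ¬ 2 ∣ nm a → ψ a ≠ 0 → ‖ι (ψ a) - 1‖ < 1

variable (F) in
/-- The data of the Hecke character `φ(a) = (D/N(a)) ψ(a) ^ (2 k - 1)`, `ψ` a canonical character,
`k ≥ 1`, `D` a squarefree integer with all odd prime divisors inert in `F`. In what follows `φ` is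
twisted to weight `-1`, by the power `k` of the norm. -/
structure Hec (q : ℕ) : Type where
  /-- the twist -/
  D : ℤ
  /-- the type of `φ` is `(2 k - 1, 0)` -/
  k : ℕ
  /-- the embedding of `F` -/
  σ : F →+* ℂ
  /-- the canonical character -/
  ψ : Chr F
  sqf : Squarefree D
  inert : ∀ r : ℕ, r.Prime → r ≠ 2 → (r : ℤ) ∣ D → InertIn q r
  pos : 1 ≤ k
  canon : IsCanon q σ ψ

variable {q : ℕ} (φ : Hec F q)

/-- the value at `v` -/
def val (v : Pl F) : ℂ :=
  kro φ.D (nv v) * φ.ψ v.asIdeal ^ (2 * φ.k - 1) / (nv v : ℂ) ^ φ.k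

/-- `Λ` is the `L`-function of `φ` in the half plane `Re z > -1/2`: it is holomorphic there, and
given by the Euler product for `Re z > 1`; the centre is `z = 0`. -/
structure IsLHec (Λ : ℂ → ℂ) : Prop where
  diff : DifferentiableOn ℂ Λ {z | -1 / 2 < z.re}
  euler : ∀ z : ℂ, 1 < z.re → HasProd (fun v => (1 - val φ v * (nv v : ℂ) ^ (-z))⁻¹) (Λ z)

/-- The root number of `φ`. -/
def rootNo : ℤ := (-1) ^ (φ.k - 1) * φ.D.sign

/-- the number of prime divisors `r` of `D` with `r ≡ i (mod 8)` -/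
def numPr (D : ℤ) (i : ℕ) : ℕ := (D.natAbs.primeFactors.filter (fun r => r % 8 = i)).card

/-- the number `b(D) = n₇ + (n₃ - 1)` if `n₃ ≠ 0`, and `n₇ + (n₅ mod 2)` if `n₃ = 0` -/
def bnd (D : ℤ) : ℕ :=
  numPr D 7 + if numPr D 3 = 0 then numPr D 5 % 2 else numPr D 3 - 1

/-- The `L`-function does not vanish at the centre. -/
def CentralNZ : Prop :=
  (∃ Λ : ℂ → ℂ, IsLHec φ Λ) ∧ ∀ Λ : ℂ → ℂ, IsLHec φ Λ → Λ 0 ≠ 0

end

section

variable {F : Type} [Field F] [NumberField F] {q : ℕ} {L : Type} [NormedField L]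
  [NormedAlgebra ℚ_[2] L] [NormedAlgebra L (PadicAlgCl 2)]

/-- The representation `V` is the realisation of `φ`. -/
structure IsRealHec (ι : ℂ →+* PadicAlgCl 2) (φ : Hec F q) (V : GRep F L 1) : Prop where
  /-- `V` is continuous -/
  cont : Continuous V
  /-- inertia at the places not above `2` acts by signs, and trivially if the place does not
  divide `q D` -/
  ram : ∀ (l : ℕ) [Fact l.Prime], l ≠ 2 → ∀ j : Emb l F,
    ∀ g ∈ BKGen.Inert F (AlgebraicClosure F) j, V g = 1 ∨ (V g = -1 ∧ (l : ℤ) ∣ q * φ.D)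
  /-- the values at the geometric Frobenius elements -/
  frob : ∀ (v : Pl F) (P : BigIdl F) (g : GF F), IsFrob 2 v P g →
    ((q * φ.D : ℤ) : 𝓞 F) ∉ v.asIdeal → algebraMap L (PadicAlgCl 2) (itr V g) = ι (val φ v)
  /-- `V` is conjugate self-dual -/
  dual : SelfDual 2 V
  /-- `V` is de Rham at the places above `2` -/
  dR : ∀ j : Emb 2 F, DeRhamAt V j
  /-- at a place `v` above `2`, the Frobenius of `D_cris` is the multiplication by the value of
  `φ` at `v` -/
  crys : ∀ (j : Emb 2 F) (v : Pl F), Below j v → ∃ t : L,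
    algebraMap L (PadicAlgCl 2) t = ι (val φ v) ∧
    ∀ b ∈ DB Per.galB ⊤ j V, base (Per.frB 2).toLinearMap b = t • b
  /-- the Hodge–Tate weights: `D_dR / Fil⁰` is zero at the place given by `ι ∘ σ`, and of dimension
  one at the other place -/
  hodge : ∀ j : Emb 2 F, (Same ι φ.σ j → tdim V j = 0) ∧ (¬ Same ι φ.σ j → tdim V j = 1)

end

/-- The first statement: if the root number of `φ` is `1` and `D = 1` or `D = -1`, the
`L`-function does not vanish at the centre. -/
def StL : Prop :=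
  ∀ (q : ℕ) (F : Type) [Field F] [NumberField F], q.Prime → q % 16 = 7 → IsQuad F q →
    ∀ φ : Hec F q, φ.D = (-1) ^ (φ.k - 1) → CentralNZ φ

/-- Existence of canonical characters. -/
def StEx : Prop :=
  ∀ (q : ℕ) (F : Type) [Field F] [NumberField F], q.Prime → q % 16 = 7 → IsQuad F q →
    ∀ (σ : F →+* ℂ) (ι : ℂ →+* PadicAlgCl 2), ∃ ψ : Chr F, IsCanon q σ ψ ∧ ResOne ι ψ

/-- The Selmer group. -/
def StSel : Prop :=
  ∀ (q : ℕ) (F : Type) [Field F] [NumberField F], q.Prime → q % 16 = 7 → IsQuad F q →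
    ∀ (φ : Hec F q) (ι : ℂ →+* PadicAlgCl 2), ResOne ι φ.ψ →
    ∀ (L : Type) [NormedField L] [NormedAlgebra ℚ_[2] L] [FiniteDimensional ℚ_[2] L]
      [NormedAlgebra L (PadicAlgCl 2)] (V : GRep F L 1), IsRealHec ι φ V →
      IsFin (H1f 2 V) ∧ ∀ B : ℕ, bnd φ.D ≤ B → (-1) ^ B = rootNo φ → dim (H1f 2 V) ≤ B

end BKS
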