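import Pool.Agent.Lib.MP_7c08ba_nt.RZ.ResUni

set_option autoImplicit false

/-!
Closed properties of a representation which hold at the Frobenius elements.
-/

namespace BKS.Can

open NumberField IsDedekindDomain Pool.Agent.Lib.MP_bf61d2_nt Pool.Agent.Lib.MP_7c08ba_nt
  Pool.Agent.Lib.MP_7c08ba_nt.RZ

variable {F : Type} [Field F] [NumberField F] {L : Type} [NormedField L] {n : ℕ}

/-- A closed set of matrices, stable by powers and conjugation, which contains the values at the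
Frobenius elements contains all values. -/
theorem mem_of_frobenius (ρ : AbsGal F →* Matrix.GeneralLinearGroup (Fin n) L)
    (hρ : Continuous ρ) (N : ℕ) (hN : N ≠ 0) (S : Set (Matrix (Fin n) (Fin n) L))
    (hS : IsClosed S) (hpow : ∀ A ∈ S, ∀ k : ℕ, A ^ k ∈ S)
    (hconj : ∀ (U : Matrix.GeneralLinearGroup (Fin n) L), ∀ A ∈ S,
      (U : Matrix (Fin n) (Fin n) L) * A * ((U⁻¹ : Matrix.GeneralLinearGroup (Fin n) L) :
        Matrix (Fin n) (Fin n) L) ∈ S)
    (h : ∀ P : Ideal (AllInt F), P.IsPrime → (N : AllInt F) ∉ P → ∀ g : AbsGal F,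
      IsFrobenius P g → (ρ g : Matrix (Fin n) (Fin n) L) ∈ S) (g : AbsGal F) :
    (ρ g : Matrix (Fin n) (Fin n) L) ∈ S := by
  by_contra hg
  -- an open neighbourhood
  have hopen : IsOpen {x : AbsGal F | (ρ x : Matrix (Fin n) (Fin n) L) ∉ S} := by
    have h1 : IsClosed {x : AbsGal F | (ρ x : Matrix (Fin n) (Fin n) L) ∈ S} :=
      hS.preimage (Units.continuous_val.comp hρ)
    exact h1.isOpen_compl
  have hnhds : {x : AbsGal F | (ρ (g * x) : Matrix (Fin n) (Fin n) L) ∉ S} ∈ nhds 1 := by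
    have h1 : IsOpen {x : AbsGal F | (ρ (g * x) : Matrix (Fin n) (Fin n) L) ∉ S} :=
      hopen.preimage (continuous_const_mul g)
    refine h1.mem_nhds ?_
    change (ρ (g * 1) : Matrix (Fin n) (Fin n) L) ∉ S
    rw [mul_one]
    exact hg
  rw [krullTopology_mem_nhds_one_iff_of_normal] at hnhds
  obtain ⟨M, hMfd, hMn, hM⟩ := hnhds
  have hMgal : IsGalois F M := ⟨⟩
  have hMnf : NumberField M := NumberField.of_module_finite F M
  -- primes and Frobenius elements
  choose Q hQp hQ using fun v : HeightOneSpectrum (𝓞 F) => exists_prime_over v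
  have hunder : ∀ v, (Q v).under (𝓞 F) = v.asIdeal := by
    intro v
    ext x
    exact (hQ v x).symm
  choose φ hφ using fun v : HeightOneSpectrum (𝓞 F) =>
    exists_isFrobenius (hQp v) (by rw [hunder]; exact v.ne_bot)
  have hcomapne : ∀ v, (Q v).comap (algebraMap (𝓞 M) (AllInt F)) ≠ ⊥ := by
    intro v hbot
    apply v.ne_bot
    rw [eq_bot_iff]
    intro x hx
    rw [hQ v, IsScalarTower.algebraMap_apply (𝓞 F) (𝓞 M) (AllInt F)] at hx
    have h1 : algebraMap (𝓞 F) (𝓞 M) x ∈ (Q v).comap (algebraMap (𝓞 M) (AllInt F)) := hx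
    rw [hbot, Ideal.mem_bot] at h1
    rw [Ideal.mem_bot]
    exact (FaithfulSMul.algebraMap_injective (𝓞 F) (𝓞 M)) (by rw [h1, map_zero])
  let P : HeightOneSpectrum (𝓞 F) → HeightOneSpectrum (𝓞 M) := fun v =>
    ⟨(Q v).comap (algebraMap (𝓞 M) (AllInt F)), by
      have := hQp v
      infer_instance, hcomapne v⟩
  have hP : ∀ v, dn (K := F) (P v) = v := by
    intro v
    apply HeightOneSpectrum.ext
    ext x
    rw [hQ v, IsScalarTower.algebraMap_apply (𝓞 F) (𝓞 M) (AllInt F)]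
    rfl
  let Fr : HeightOneSpectrum (𝓞 F) → Gal(M/F) := fun v => AlgEquiv.restrictNormalHom M (φ v)
  have hFr : ∀ (v : HeightOneSpectrum (𝓞 F)) (x : 𝓞 M), Fr v • x - x ^ nm v ∈ (P v).asIdeal := by
    intro v x
    have h1 := hφ v (algebraMap (𝓞 M) (AllInt F) x)
    have h2 : Nat.card (𝓞 F ⧸ (Q v).under (𝓞 F)) = nm v := by
      rw [hunder, nm, Ideal.absNorm_apply, Submodule.cardQuot_apply]
    have h3 : φ v • algebraMap (𝓞 M) (AllInt F) x = algebraMap (𝓞 M) (AllInt F) (Fr v • x) := by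
      apply RingOfIntegers.ext
      exact (AlgEquiv.restrictNormal_commutes (φ v) M (x : M)).symm
    rw [h2, h3, ← map_pow, ← map_sub] at h1
    exact h1
  have hN' : (N : 𝓞 F) ≠ 0 := by exact_mod_cast hN
  obtain ⟨v, hv, hfx⟩ := exists_place_ru P hP Fr hFr (AlgEquiv.restrictNormalHom M g)
    {v | (N : 𝓞 F) ∈ v.asIdeal} (finite_dvd hN')
  obtain ⟨τ, k, hτ⟩ := conj_of_fx _ _ hfx
  obtain ⟨t, rfl⟩ := AlgEquiv.restrictNormalHom_surjective (F := F) (K₁ := M)
    (AlgebraicClosure F) τ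
  -- the element `t φ ^ k t⁻¹` of the coset of `g`
  set x : AbsGal F := t * φ v ^ k * t⁻¹ with hx
  have hxM : g⁻¹ * x ∈ M.fixingSubgroup := by
    rw [← IntermediateField.restrictNormalHom_ker, MonoidHom.mem_ker, map_mul, map_inv, hx, map_mul,
      map_mul, map_pow, map_inv]
    rw [inv_mul_eq_one]
    exact hτ.symm
  have h1 : (ρ (g * (g⁻¹ * x)) : Matrix (Fin n) (Fin n) L) ∉ S := hM hxM
  rw [mul_inv_cancel_left] at h1
  apply h1
  have h2 : (ρ (φ v) : Matrix (Fin n) (Fin n) L) ∈ S := by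
    refine h (Q v) (hQp v) ?_ (φ v) (hφ v)
    intro hmem
    apply hv
    change (N : 𝓞 F) ∈ v.asIdeal
    rw [hQ v, map_natCast]
    exact hmem
  have h3 := hconj (ρ t) _ (hpow _ h2 k)
  rw [hx, map_mul, map_mul, map_pow, map_inv, Units.val_mul, Units.val_mul,
    Units.val_pow_eq_pow_val]
  exact h3

end BKS.Can
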