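import Mathlib
import Pool.Agent.Lib.MP_7c08ba_nt.BK.Can
import Pool.Agent.Lib.MP_7c08ba_nt.BK.CanDens
import Pool.Agent.Lib.MP_7c08ba_nt.BK.Two
import Pool.Agent.Lib.MP_7c08ba_nt.Tw.Final

set_option autoImplicit false
set_option linter.unusedSectionVars false

/-!
Realisations of canonical Hecke characters: the values are in `ℚ₂`.
-/

noncomputable section

namespace BKS.Can

open NumberField Matrix Pool.Agent.Lib.MP_7c08ba_nt

/-! ### Elements of `ℚ₂` -/

section Qp

theorem norm_two_K : ‖(2 : PadicAlgCl 2)‖ < 1 := by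
  have h1 : ‖algebraMap ℚ_[2] (PadicAlgCl 2) 2‖ = ‖(2 : ℚ_[2])‖ := PadicAlgCl.norm_extends 2 _
  rw [map_ofNat] at h1
  rw [h1]
  have h2 : ‖((2 : ℕ) : ℚ_[2])‖ = ((2 : ℕ) : ℝ)⁻¹ := Padic.norm_p (p := 2)
  have h3 : ((2 : ℕ) : ℚ_[2]) = 2 := by norm_num
  rw [h3] at h2
  rw [h2]
  norm_num

theorem nsm {E : Type} [NormedField E] [IsUltrametricDist E] (x y : E) :
    ‖x - y‖ ≤ max ‖x‖ ‖y‖ := by
  rw [sub_eq_add_neg, ← norm_neg y]
  exact IsUltrametricDist.norm_add_le_max _ _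

theorem norm_odd {E : Type} [NormedField E] [IsUltrametricDist E] (h2 : ‖(2 : E)‖ < 1) {N : ℕ}
    (hN : N % 2 = 1) : ‖(N : E)‖ = 1 := by
  have h1 : (N : E) = 1 + 2 * ((N / 2 : ℕ) : E) := by
    have h3 : N = 1 + 2 * (N / 2) := by omega
    conv_lhs => rw [h3]
    push_cast
    ring
  have h3 : ‖(2 : E) * ((N / 2 : ℕ) : E)‖ < 1 := by
    rw [norm_mul]
    exact mul_lt_one_of_nonneg_of_lt_one_left (norm_nonneg _) h2
      (IsUltrametricDist.norm_natCast_le_one E _)
  rw [h1, IsUltrametricDist.norm_add_eq_max_of_norm_ne_norm (by rw [norm_one]; exact h3.ne'),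
    norm_one]
  exact max_eq_left h3.le

theorem norm_pow_sub_one {E : Type} [NormedField E] [IsUltrametricDist E] {x : E}
    (h : ‖x - 1‖ < 1) (k : ℕ) : ‖x ^ k - 1‖ < 1 := by
  have h0 : ‖x‖ ≤ 1 := by
    have h1 : x = (x - 1) + 1 := by ring
    rw [h1]
    refine (IsUltrametricDist.norm_add_le_max _ _).trans (max_le h.le ?_)
    rw [norm_one]
  induction k with
  | zero => simp
  | succ k ih =>
    have h1 : x ^ (k + 1) - 1 = (x ^ k - 1) * x + (x - 1) := by ring
    rw [h1]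
    refine (IsUltrametricDist.norm_add_le_max _ _).trans_lt (max_lt ?_ h)
    rw [norm_mul]
    exact mul_lt_one_of_nonneg_of_lt_one_left (norm_nonneg _) ih h0

/-- roots of unity of odd order congruent to one -/
theorem root_one {E : Type} [NormedField E] [IsUltrametricDist E] (h2 : ‖(2 : E)‖ < 1) {N : ℕ}
    (hN : N % 2 = 1) {z : E} (hz : z ^ N = 1) (h : ‖z - 1‖ < 1) : z = 1 := by
  by_contra hne
  have h3 : ∑ i ∈ Finset.range N, z ^ i = 0 := by
    have h4 := geom_sum_eq hne N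
    rw [h4, hz, sub_self, zero_div]
  have h4 : (N : E) = -∑ i ∈ Finset.range N, (z ^ i - 1) := by
    rw [Finset.sum_sub_distrib, h3]
    simp
  have h5 : ‖∑ i ∈ Finset.range N, (z ^ i - 1)‖ < 1 := by
    rcases Nat.eq_zero_or_pos N with h0 | h0
    · omega
    · obtain ⟨i, -, hi⟩ := IsUltrametricDist.exists_norm_finsetSum_le_of_nonempty
        (Finset.nonempty_range_iff.2 h0.ne') (fun i => z ^ i - 1)
      exact hi.trans_lt (norm_pow_sub_one h i)
  have h6 := norm_odd h2 hN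
  rw [h4, norm_neg] at h6
  rw [h6] at h5
  exact lt_irrefl _ h5

/-- An element congruent to one with an odd power in `ℚ₂` is in `ℚ₂`. -/
theorem mem_range {w : (PadicAlgCl 2)} {N : ℕ} (hN : N % 2 = 1) (h : ‖w - 1‖ < 1)
    (hw : ∃ x : ℚ_[2], (algebraMap ℚ_[2] (PadicAlgCl 2)) x = w ^ N) : ∃ x : ℚ_[2], (algebraMap ℚ_[2] (PadicAlgCl 2)) x = w := by
  have hw0 : w ≠ 0 := by
    rintro rfl
    rw [zero_sub, norm_neg, norm_one] at h
    exact lt_irrefl _ h
  have hw1 : ‖w‖ = 1 := by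
    have h1 : w = (w - 1) + 1 := by ring
    rw [h1, IsUltrametricDist.norm_add_eq_max_of_norm_ne_norm (by rw [norm_one]; exact h.ne),
      norm_one]
    exact max_eq_right h.le
  have h1 : w ∈ (⊥ : IntermediateField ℚ_[2] (PadicAlgCl 2)) := by
    rw [InfiniteGalois.mem_bot_iff_fixed]
    intro τ
    obtain ⟨x, hx⟩ := hw
    have h2 : (τ w / w) ^ N = 1 := by
      rw [div_pow, ← map_pow, ← hx, AlgEquiv.commutes, div_self]
      rw [hx]
      exact pow_ne_zero _ hw0
    have h3 : ‖τ w - 1‖ < 1 := by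
      have h4 : τ w - 1 = τ (w - 1) := by rw [map_sub, map_one]
      rw [h4]
      have h5 : ‖τ (w - 1)‖ = ‖w - 1‖ := BKGen.norm_equiv τ _
      rw [h5]
      exact h
    have h4 : τ w / w = 1 := by
      refine root_one norm_two_K hN h2 ?_
      have h5 : τ w / w - 1 = ((τ w - 1) - (w - 1)) / w := by
        field_simp
        ring
      rw [h5, norm_div, hw1, div_one]
      exact (nsm _ _).trans_lt (max_lt h3 h)
    rwa [div_eq_one_iff_eq hw0] at h4
  obtain ⟨x, hx⟩ := IntermediateField.mem_bot.1 h1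
  exact ⟨x, hx⟩

theorem norm_i (x : ℚ_[2]) : ‖(algebraMap ℚ_[2] (PadicAlgCl 2)) x‖ = ‖x‖ := PadicAlgCl.norm_extends 2 _

variable {L : Type} [NormedField L] [NormedAlgebra ℚ_[2] L]

theorem norm_aL (x : ℚ_[2]) : ‖algebraMap ℚ_[2] L x‖ = ‖x‖ := by
  rw [norm_algebraMap, norm_one, mul_one]

variable [NormedAlgebra L (PadicAlgCl 2)]

theorem norm_aK (x : L) : ‖algebraMap L (PadicAlgCl 2) x‖ = ‖x‖ := by
  rw [norm_algebraMap, norm_one, mul_one]

/-- compatibility of the embeddings -/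
theorem tower (x : ℚ_[2]) : algebraMap L (PadicAlgCl 2) (algebraMap ℚ_[2] L x) = (algebraMap ℚ_[2] (PadicAlgCl 2)) x := by
  have h1 : Continuous fun x : ℚ_[2] => algebraMap L (PadicAlgCl 2) (algebraMap ℚ_[2] L x) :=
    (algebraMapCLM L (PadicAlgCl 2)).continuous.comp (algebraMapCLM ℚ_[2] L).continuous
  have h2 : Continuous fun x : ℚ_[2] => (algebraMap ℚ_[2] (PadicAlgCl 2)) x :=
    (AddMonoidHomClass.isometry_of_norm (algebraMap ℚ_[2] (PadicAlgCl 2)) norm_i).continuous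
  have h3 := (Padic.denseRange_ratCast 2).equalizer h1 h2 (by
    funext q
    simp)
  exact congrFun h3 x

/-- ring homomorphisms with values in `ℚ₂` -/
theorem exists_hom {R : Type} [Semiring R] (f : R →+* (PadicAlgCl 2)) (h : ∀ x, ∃ y, (algebraMap ℚ_[2] (PadicAlgCl 2)) y = f x) :
    ∃ J : R →+* ℚ_[2], ∀ x, (algebraMap ℚ_[2] (PadicAlgCl 2)) (J x) = f x := by
  choose J hJ using h
  have hi : Function.Injective (algebraMap ℚ_[2] (PadicAlgCl 2)) := (algebraMap ℚ_[2] (PadicAlgCl 2)).injective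
  refine ⟨{ toFun := J
            map_one' := hi (by rw [hJ, map_one, map_one])
            map_zero' := hi (by rw [hJ, map_zero, map_zero])
            map_mul' := fun x y => hi (by rw [hJ, map_mul, map_mul, hJ, hJ])
            map_add' := fun x y => hi (by rw [hJ, map_add, map_add, hJ, hJ]) }, hJ⟩

end Qp

end BKS.Can
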