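import Mathlib
import Pool.Agent.Lib.MP_7c08ba_nt.BK.CanQ

set_option autoImplicit false
set_option linter.unusedSectionVars false

/-!
One-dimensional representations with values in `ℚ₂`.
-/

noncomputable section

namespace BKS.Can

open NumberField Matrix Pool.Agent.Lib.MP_7c08ba_nt

variable {G : Type} [Group G] [TopologicalSpace G]
variable {L : Type} [NormedField L]

/-- the scalar of a one-dimensional representation -/
def scl (V : G →* GL (Fin 1) L) (g : G) : L := (V g : Matrix (Fin 1) (Fin 1) L) 0 0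

theorem scl_mul (V : G →* GL (Fin 1) L) (g h : G) : scl V (g * h) = scl V g * scl V h := by
  unfold scl
  rw [map_mul, Units.val_mul, Matrix.mul_apply, Fin.sum_univ_one]

theorem scl_one (V : G →* GL (Fin 1) L) : scl V 1 = 1 := by
  unfold scl
  rw [map_one, Units.val_one, Matrix.one_apply_eq]

theorem scl_inv (V : G →* GL (Fin 1) L) (g : G) : scl V g⁻¹ = (scl V g)⁻¹ := by
  apply eq_inv_of_mul_eq_one_left
  rw [← scl_mul, inv_mul_cancel, scl_one]

theorem scl_continuous {V : G →* GL (Fin 1) L} (hV : Continuous V) : Continuous (scl V) := by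
  have h1 : Continuous fun g => (V g : Matrix (Fin 1) (Fin 1) L) :=
    Units.continuous_val.comp hV
  exact h1.matrix_elem 0 0

theorem ext_scl {A B : Matrix (Fin 1) (Fin 1) L} (h : A 0 0 = B 0 0) : A = B := by
  ext i j
  rw [Subsingleton.elim i 0, Subsingleton.elim j 0]
  exact h

theorem mulVec_scl (V : G →* GL (Fin 1) L) (g : G) (x : Fin 1 → L) :
    (V g : Matrix (Fin 1) (Fin 1) L) *ᵥ x = scl V g • x := by
  funext i
  rw [Subsingleton.elim i 0]
  simp [Matrix.mulVec, dotProduct, scl]

variable [NormedAlgebra ℚ_[2] L]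

/-- descent to `ℚ₂` -/
theorem exists_rho {V : G →* GL (Fin 1) L} (hV : Continuous V)
    (h : ∀ g, ∃ x : ℚ_[2], algebraMap ℚ_[2] L x = scl V g) :
    ∃ ρ : G →* GL (Fin 1) ℚ_[2], Continuous ρ ∧
      ∀ g, algebraMap ℚ_[2] L (scl ρ g) = scl V g := by
  choose r hr using h
  have hi : Function.Injective (algebraMap ℚ_[2] L) := (algebraMap ℚ_[2] L).injective
  let r' : G →* ℚ_[2] :=
    { toFun := r
      map_one' := hi (by rw [hr, scl_one, map_one])
      map_mul' := fun g k => hi (by rw [hr, map_mul, hr, hr, scl_mul]) }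
  have hrc : Continuous r' := by
    have h1 : Isometry (algebraMap ℚ_[2] L) :=
      AddMonoidHomClass.isometry_of_norm (algebraMap ℚ_[2] L) norm_aL
    rw [h1.isEmbedding.continuous_iff]
    have h2 : (algebraMap ℚ_[2] L) ∘ r' = scl V := funext hr
    rw [h2]
    exact scl_continuous hV
  let ρ : G →* GL (Fin 1) ℚ_[2] :=
    (Units.map (Matrix.scalar (Fin 1) : ℚ_[2] →+* Matrix (Fin 1) (Fin 1) ℚ_[2]).toMonoidHom).comp
      r'.toHomUnits
  have hρ : ∀ g, (ρ g : Matrix (Fin 1) (Fin 1) ℚ_[2]) = Matrix.scalar (Fin 1) (r' g) :=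
    fun g => rfl
  refine ⟨ρ, ?_, fun g => ?_⟩
  · rw [Units.continuous_iff]
    have h3 : ∀ g, Matrix.scalar (Fin 1) (r' g) = r' g • (1 : Matrix (Fin 1) (Fin 1) ℚ_[2]) := by
      intro g
      apply ext_scl
      simp
    constructor
    · have h4 : (Units.val ∘ ρ) = fun g => r' g • (1 : Matrix (Fin 1) (Fin 1) ℚ_[2]) := by
        funext g
        exact (hρ g).trans (h3 g)
      rw [h4]
      exact hrc.smul continuous_const
    · have h4 : (fun g => ((ρ g)⁻¹ : GL (Fin 1) ℚ_[2]).val) =
          fun g => (r' g)⁻¹ • (1 : Matrix (Fin 1) (Fin 1) ℚ_[2]) := by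
        funext g
        rw [← map_inv, hρ, h3]
        congr 1
        apply eq_inv_of_mul_eq_one_left
        rw [← map_mul, inv_mul_cancel, map_one]
      rw [h4]
      have h5 : ∀ g, r' g ≠ 0 := by
        intro g h6
        have h7 : r' g * r' g⁻¹ = 1 := by rw [← map_mul, mul_inv_cancel, map_one]
        rw [h6, zero_mul] at h7
        exact zero_ne_one h7
      exact (hrc.inv₀ h5).smul continuous_const
  · have h1 : scl ρ g = r g := by
      unfold scl
      rw [hρ]
      simp [r']
    rw [h1]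
    exact hr g

end BKS.Can
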