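import Mathlib
import Pool.Agent.Lib.MP_7c08ba_nt.BK.CanRho

set_option autoImplicit false
set_option linter.unusedSectionVars false

/-!
The values of the characters.
-/

noncomputable section

namespace BKS.Can

open NumberField IsDedekindDomain Matrix Pool.Agent.Lib.MP_7c08ba_nt

/-- the Kronecker symbol at odd numbers -/
theorem kro_odd (D : ℤ) {n : ℕ} (hn : n % 2 = 1) : kro D n = jacobiSym D n := by
  have hodd : Odd n := Nat.odd_iff.2 hn
  unfold kro
  split_ifs with h h'
  · rcases Int.natAbs_eq D with h1 | h1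
    · have h2 : D.natAbs % 4 = 1 := by omega
      conv_rhs => rw [h1]
      exact (jacobiSym.quadratic_reciprocity_one_mod_four h2 hodd).symm
    · have h2 : D.natAbs % 4 = 3 := by omega
      conv_rhs => rw [h1]
      rw [jacobiSym.neg _ hodd]
      rcases Nat.odd_mod_four_iff.1 hn with h3 | h3
      · rw [ZMod.χ₄_nat_one_mod_four h3, one_mul]
        exact jacobiSym.quadratic_reciprocity_one_mod_four h3 (Nat.odd_iff.2 (by omega))
      · rw [ZMod.χ₄_nat_three_mod_four h3, neg_one_mul]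
        exact jacobiSym.quadratic_reciprocity_three_mod_four h3 h2
  · omega
  · rfl

/-- `x` is congruent to one -/
def One {E : Type} [NormedField E] (x : E) : Prop := ‖x - 1‖ < 1

section One

variable {E : Type} [NormedField E] [IsUltrametricDist E]

theorem One.norm {x : E} (h : One x) : ‖x‖ = 1 := by
  have h1 : x = (x - 1) + 1 := by ring
  rw [h1, IsUltrametricDist.norm_add_eq_max_of_norm_ne_norm (by rw [norm_one]; exact ne_of_lt h),
    norm_one]
  exact max_eq_right (le_of_lt h)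

theorem One.mul {x y : E} (h : One x) (h' : One y) : One (x * y) := by
  have h1 : x * y - 1 = (x - 1) * y + (y - 1) := by ring
  unfold One
  rw [h1]
  refine (IsUltrametricDist.norm_add_le_max _ _).trans_lt (max_lt ?_ h')
  rw [norm_mul, h'.norm, mul_one]
  exact h

theorem One.inv {x : E} (h : One x) : One x⁻¹ := by
  have h0 : x ≠ 0 := by
    rintro rfl
    have := h.norm
    rw [norm_zero] at this
    exact zero_ne_one this
  have h1 : x⁻¹ - 1 = -(x - 1) * x⁻¹ := by
    field_simp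
    ring
  unfold One
  rw [h1, norm_mul, norm_neg, norm_inv, h.norm, inv_one, mul_one]
  exact h

theorem One.pow {x : E} (h : One x) (k : ℕ) : One (x ^ k) := norm_pow_sub_one h k

theorem one_int (h2 : ‖(2 : E)‖ < 1) {m : ℤ} (hm : m % 2 = 1) : One (m : E) := by
  have h1 : (m : E) - 1 = 2 * ((m / 2 : ℤ) : E) := by
    have h3 : m = 1 + 2 * (m / 2) := by omega
    conv_lhs => rw [h3]
    push_cast
    ring
  unfold One
  rw [h1, norm_mul]
  exact mul_lt_one_of_nonneg_of_lt_one_left (norm_nonneg _) h2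
    (IsUltrametricDist.norm_intCast_le_one E _)

end One

section Field

variable {F : Type} [Field F] [NumberField F] {q : ℕ} {s : F}

/-- conjugation changes the sign of `s` -/
theorem conj_s (hq0 : 0 < q) (hF : Module.finrank ℚ F = 2) (hs : s ^ 2 = -(q : F))
    {σF : F ≃+* F} (h : ∃ a, σF a ≠ a) : σF s = -s := by
  have h1 : (σF s) ^ 2 = s ^ 2 := by rw [← map_pow, hs, map_neg, map_natCast]
  rcases sq_eq_sq_iff_eq_or_eq_neg.mp h1 with h2 | h2
  · exfalso
    obtain ⟨a, ha⟩ := h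
    apply ha
    obtain ⟨x, y, rfl⟩ := exists_coords hq0 hF hs a
    simp only [map_add, map_mul, map_ratCast, h2]
  · exact h2

/-- the norm -/
theorem norm_mul_emb (hq : q.Prime) (hF : Module.finrank ℚ F = 2) (hs : s ^ 2 = -(q : F))
    {j J : F →+* ℚ_[2]} (hj : j s = -J s) (t : 𝓞 F) :
    j (t : F) * J (t : F) = ((Algebra.norm ℤ t : ℤ) : ℚ_[2]) := by
  obtain ⟨A, B, hAB⟩ := exists_int_coords hq.pos hF hs hq t.isIntegral_coe
  have h1 := four_norm hq.pos hF hs hAB
  have h2 : (2 : ℚ_[2]) * j (t : F) = A + B * j s := by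
    have h := congrArg j hAB
    rwa [map_mul, map_ofNat, map_add, map_mul, map_intCast, map_intCast] at h
  have h3 : (2 : ℚ_[2]) * J (t : F) = A + B * J s := by
    have h := congrArg J hAB
    rwa [map_mul, map_ofNat, map_add, map_mul, map_intCast, map_intCast] at h
  have h4 : (J s) ^ 2 = -(q : ℚ_[2]) := by rw [← map_pow, hs, map_neg, map_natCast]
  have h5 : (4 : ℚ_[2]) * ((Algebra.norm ℤ t : ℤ) : ℚ_[2]) = A ^ 2 + q * B ^ 2 := by
    exact_mod_cast congrArg (Int.cast : ℤ → ℚ_[2]) h1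
  have h6 : (4 : ℚ_[2]) * (j (t : F) * J (t : F)) =
      4 * ((Algebra.norm ℤ t : ℤ) : ℚ_[2]) := by
    rw [h5]
    rw [hj] at h2
    linear_combination 2 * J (t : F) * h2 + (A - B * J s) * h3 - B ^ 2 * h4
  exact mul_left_cancel₀ (by norm_num) h6

theorem norm_nonneg' (hq : q.Prime) (hF : Module.finrank ℚ F = 2) (hs : s ^ 2 = -(q : F))
    (t : 𝓞 F) : 0 ≤ Algebra.norm ℤ t := by
  obtain ⟨A, B, hAB⟩ := exists_int_coords hq.pos hF hs hq t.isIntegral_coe
  have h1 := four_norm hq.pos hF hs hAB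
  have h2 : (0 : ℤ) ≤ A ^ 2 + q * B ^ 2 := by positivity
  omega

/-- elements of odd norm -/
theorem norm_J (hq : q.Prime) (hF : Module.finrank ℚ F = 2) (hs : s ^ 2 = -(q : F))
    {j J : F →+* ℚ_[2]} (hj : j s = -J s) {t : 𝓞 F} (ht : (Algebra.norm ℤ t) % 2 = 1) :
    ‖J (t : F)‖ = 1 := by
  have h1 := norm_mul_emb hq hF hs hj t
  have h2 : ‖(((Algebra.norm ℤ t : ℤ)) : ℚ_[2])‖ = 1 := by
    have h3 := norm_odd_nat (n := (Algebra.norm ℤ t).natAbs) (by omega)
    have h4 := norm_nonneg' hq hF hs t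
    have h5 : (((Algebra.norm ℤ t : ℤ)) : ℚ_[2]) = (((Algebra.norm ℤ t).natAbs : ℕ) : ℚ_[2]) := by
      have h6 : (((Algebra.norm ℤ t).natAbs : ℕ) : ℤ) = Algebra.norm ℤ t :=
        Int.natAbs_of_nonneg h4
      have h7 := congrArg (Int.cast : ℤ → ℚ_[2]) h6.symm
      rwa [Int.cast_natCast] at h7
    rw [h5]
    exact h3
  have h3 := norm_int_le_one j t
  have h4 := norm_int_le_one J t
  have h5 : ‖j (t : F)‖ * ‖J (t : F)‖ = 1 := by rw [← norm_mul, h1, h2]
  have h6 := norm_nonneg (j (t : F))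
  have h7 := norm_nonneg (J (t : F))
  nlinarith

end Field

section Val

variable {F : Type} [Field F] [NumberField F] {q : ℕ}

theorem jac_pow (a : ℤ) {k : ℕ} (hk : 1 ≤ k) :
    (jacobiSym a q : ℂ) ^ (2 * k - 1) = jacobiSym a q := by
  have hodd : Odd (2 * k - 1) := ⟨k - 1, by omega⟩
  rcases jacobiSym.trichotomy a q with h | h | h
  · rw [h]
    push_cast
    exact zero_pow (by omega)
  · rw [h]
    simp
  · rw [h]
    push_cast
    exact hodd.neg_one_pow

/-- the powers of the values -/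
theorem val_pow (φ : Hec F q) {s : 𝓞 F} (hs : s ^ 2 = -(q : 𝓞 F)) {v : Pl F}
    (h2 : nv v % 2 = 1) {N : ℕ} {t : 𝓞 F} {a : ℤ} (ht : v.asIdeal ^ N = Ideal.span {t})
    (hst : s ∣ t - a) : val φ v ^ N = ((jacobiSym φ.D (Algebra.norm ℤ t).natAbs : ℤ) : ℂ) *
      ((jacobiSym a q : ℤ) : ℂ) * φ.σ t ^ (2 * φ.k - 1) /
        (((Algebra.norm ℤ t).natAbs : ℕ) : ℂ) ^ φ.k := by
  have ht0 : t ≠ 0 := by
    rintro rfl
    have h1 : v.asIdeal ^ N ≠ ⊥ := pow_ne_zero N v.ne_bot
    apply h1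
    rw [ht, Ideal.span_singleton_eq_bot]
  have hn : nv v ^ N = (Algebra.norm ℤ t).natAbs := by
    have h1 := congrArg Ideal.absNorm ht
    rw [map_pow, Ideal.absNorm_span_singleton] at h1
    exact h1
  have hψ : φ.ψ v.asIdeal ^ N = (jacobiSym a q : ℂ) * φ.σ t := by
    rw [← map_pow, ht]
    exact φ.canon s t a hs ht0 hst
  unfold val
  rw [div_pow, mul_pow, kro_odd φ.D h2, ← pow_mul, mul_comm (2 * φ.k - 1) N, pow_mul, hψ,
    mul_pow, jac_pow a φ.pos, ← pow_mul, mul_comm φ.k N, pow_mul, ← hn, jacobiSym.pow_right]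
  push_cast
  ring

end Val

end BKS.Can
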