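import Mathlib
import Pool.Agent.Lib.MP_7c08ba_nt.BK.CanVal
import Pool.Agent.Lib.MP_7c08ba_nt.CN.NV
import Pool.Agent.Lib.MP_7c08ba_nt.RZ.ExFin
import Pool.Agent.Lib.MP_7c08ba_nt.RZ.Bas
import Pool.Agent.Lib.MP_7c08ba_nt.RZ.C.Class

set_option autoImplicit false
set_option linter.unusedSectionVars false

/-!
Existence of canonical characters which are trivial modulo a given place above 2.
-/

noncomputable section

namespace BKS.CanEx

open NumberField IsDedekindDomain BKS.Can Pool.Agent.Lib.MP_7c08ba_nt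

section

variable {q : ℕ} {F : Type} [Field F] [NumberField F] {s : 𝓞 F}

/-- basic facts on the residues modulo `s` -/
structure Fct (q : ℕ) (s : 𝓞 F) : Prop where
  un : ∀ x : 𝓞 F, IsUnit x → x = 1 ∨ x = -1
  ex : ∀ x : 𝓞 F, ∃ n : ℤ, s ∣ x - n
  dv : ∀ n : ℤ, s ∣ (n : 𝓞 F) ↔ (q : ℤ) ∣ n

theorem fct (hF : RZC.FieldC q F (s : F)) (σ : F →+* ℂ) : Fct q s := by
  have key : ∀ s' : 𝓞 F, RZC.FieldC q F (s' : F) → 0 < (σ s').im → Fct q s' := by
    intro s' h him
    obtain ⟨χ, cj, hD⟩ := CN.NVAux.exists_dat h him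
    obtain ⟨-, -, -, -, -, -, -, h1, -, h2, h3⟩ := RZ.stBas q F _ _ s' σ χ cj hD
    exact ⟨h1, h2, h3⟩
  by_cases him : 0 < (σ s).im
  · exact key s hF him
  · have h := key (-s) (CN.NVAux.fieldC_neg hF) (by
      have h4 : ((-s : 𝓞 F) : F) = -(s : F) := map_neg _ _
      rw [h4, map_neg, Complex.neg_im, neg_pos]
      rcases CN.NVAux.im_cases (σ := σ) hF with h5 | h5
      · exfalso
        apply him
        rw [h5]
        simp only [Complex.mul_im, Complex.I_re, Complex.I_im, Complex.ofReal_re,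
          Complex.ofReal_im, zero_mul, one_mul, zero_add]
        exact Real.sqrt_pos.2 (by exact_mod_cast hF.1.pos)
      · rw [h5]
        simp only [Complex.neg_im, Complex.mul_im, Complex.I_re, Complex.I_im, Complex.ofReal_re,
          Complex.ofReal_im, zero_mul, one_mul, zero_add]
        have := Real.sqrt_pos.2 (show (0 : ℝ) < q by exact_mod_cast hF.1.pos)
        linarith)
    exact ⟨h.un, fun x => by simpa only [neg_dvd] using h.ex x,
      fun n => by simpa only [neg_dvd] using h.dv n⟩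

variable (H : Fct q s) (σ : F →+* ℂ)

/-- the residue -/
def rs (x : 𝓞 F) : ℤ := (H.ex x).choose

theorem rs_spec (x : 𝓞 F) : s ∣ x - rs H x := (H.ex x).choose_spec

/-- the value at `x` -/
def fv (x : 𝓞 F) : ℂ := (jacobiSym (rs H x) q : ℂ) * σ (x : F)

theorem jac_congr {a b : ℤ} (h : (q : ℤ) ∣ a - b) : jacobiSym a q = jacobiSym b q := by
  rw [jacobiSym.mod_left a, jacobiSym.mod_left b,
    Int.emod_eq_emod_iff_emod_sub_eq_zero.2 (Int.emod_eq_zero_of_dvd h)]

theorem fv_eq {x : 𝓞 F} {a : ℤ} (h : s ∣ x - a) : fv H σ x = (jacobiSym a q : ℂ) * σ (x : F) := by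
  have h1 : s ∣ ((rs H x - a : ℤ) : 𝓞 F) := by
    have := dvd_sub h (rs_spec H x)
    push_cast
    convert this using 1
    ring
  unfold fv
  rw [jac_congr ((H.dv _).1 h1)]

theorem fv_mul (x y : 𝓞 F) : fv H σ (x * y) = fv H σ x * fv H σ y := by
  have h1 : s ∣ x * y - ((rs H x * rs H y : ℤ) : 𝓞 F) := by
    have h2 := rs_spec H x
    have h3 := rs_spec H y
    have h4 : x * y - ((rs H x * rs H y : ℤ) : 𝓞 F) =
        (x - rs H x) * y + rs H x * (y - rs H y) := by
      push_cast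
      ring
    rw [h4]
    exact dvd_add (dvd_mul_of_dvd_left h2 _) (dvd_mul_of_dvd_right h3 _)
  rw [fv_eq H σ h1, jacobiSym.mul_left]
  unfold fv
  have h5 : σ ((x * y : 𝓞 F) : F) = σ (x : F) * σ (y : F) := by
    rw [← map_mul]
    rfl
  rw [h5]
  push_cast
  ring

theorem fv_one : fv H σ 1 = 1 := by
  rw [fv_eq H σ (a := 1) (by simp), jacobiSym.one_left]
  simp

theorem fv_neg (hq : q % 16 = 7) : fv H σ (-1) = 1 := by
  have h1 : jacobiSym (-1) q = -1 := by
    rw [jacobiSym.at_neg_one (Nat.odd_iff.2 (by omega)),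
      ZMod.χ₄_nat_three_mod_four (by omega)]
  rw [fv_eq H σ (a := -1) (by simp), h1]
  simp

theorem fv_pow (x : 𝓞 F) (n : ℕ) : fv H σ (x ^ n) = fv H σ x ^ n := by
  induction n with
  | zero => rw [pow_zero, pow_zero, fv_one]
  | succ n ih => rw [pow_succ, pow_succ, fv_mul, ih]

theorem fv_span (hq : q % 16 = 7) {x y : 𝓞 F} (h : Ideal.span {x} = Ideal.span {y}) :
    fv H σ x = fv H σ y := by
  obtain ⟨u, hu⟩ := Ideal.span_singleton_eq_span_singleton.1 h
  rw [← hu, fv_mul]
  rcases H.un u u.isUnit with h1 | h1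
  · rw [h1, fv_one, mul_one]
  · rw [h1, fv_neg H σ hq, mul_one]

/-- the sign -/
theorem fv_cases (x : 𝓞 F) : fv H σ x = 0 ∨ fv H σ x = σ (x : F) ∨ fv H σ x = -σ (x : F) := by
  unfold fv
  rcases jacobiSym.trichotomy (rs H x) q with h | h | h <;> rw [h] <;> simp

variable (F) in
/-- the class number -/
abbrev hc : ℕ := Fintype.card (ClassGroup (𝓞 F))

theorem exists_gen (a : Idl F) : ∃ x : 𝓞 F, a ^ hc F = Ideal.span {x} := by
  by_cases ha : a = ⊥
  · refine ⟨0, ?_⟩
    rw [ha, ← Ideal.zero_eq_bot, zero_pow Fintype.card_ne_zero, Ideal.zero_eq_bot,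
      Ideal.span_singleton_eq_bot.2 rfl]
  · have h0 : a ∈ nonZeroDivisors (Idl F) := mem_nonZeroDivisors_iff_ne_zero.2 ha
    have h1 : ClassGroup.mk0 ((⟨a, h0⟩ : nonZeroDivisors (Idl F)) ^ hc F) = 1 := by
      rw [map_pow, pow_card_eq_one]
    rw [ClassGroup.mk0_eq_one_iff] at h1
    obtain ⟨x, hx⟩ := h1
    exact ⟨x, hx⟩

/-- a generator -/
def gn (a : Idl F) : 𝓞 F := (exists_gen a).choose

theorem gn_spec (a : Idl F) : a ^ hc F = Ideal.span {gn a} := (exists_gen a).choose_spec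

/-- the character -/
def chr (hq : q % 16 = 7) (ψ : Chr F) : Chr F where
  toFun a := fv H σ (gn a) / ψ a ^ ((hc F - 1) / 2)
  map_zero' := by
    have h1 : gn (0 : Idl F) = 0 := by
      have := gn_spec (0 : Idl F)
      rw [zero_pow Fintype.card_ne_zero] at this
      exact Ideal.span_singleton_eq_bot.1 this.symm
    rw [h1]
    have h2 : fv H σ 0 = 0 := by
      unfold fv
      simp
    rw [h2, zero_div]
  map_one' := by
    have h1 : fv H σ (gn (1 : Idl F)) = fv H σ 1 := by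
      apply fv_span H σ hq
      rw [← gn_spec, one_pow, Ideal.span_singleton_one, Ideal.one_eq_top]
    rw [h1, fv_one, map_one, one_pow, div_one]
  map_mul' a b := by
    have h1 : fv H σ (gn (a * b)) = fv H σ (gn a * gn b) := by
      apply fv_span H σ hq
      rw [← gn_spec, mul_pow, gn_spec, gn_spec, Ideal.span_singleton_mul_span_singleton]
    rw [h1, fv_mul, map_mul, mul_pow, mul_div_mul_comm]

theorem chr_apply (hq : q % 16 = 7) (ψ : Chr F) (a : Idl F) :
    chr H σ hq ψ a = fv H σ (gn a) / ψ a ^ ((hc F - 1) / 2) := rfl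

/-- the values at principal ideals -/
theorem chr_span (hq : q % 16 = 7) (hodd : Odd (hc F)) {ψ : Chr F} (hψ : RZ.IsHecke σ 2 ψ)
    {t : 𝓞 F} (ht : t ≠ 0) : chr H σ hq ψ (Ideal.span {t}) = fv H σ t := by
  have h1 : fv H σ (gn (Ideal.span {t})) = fv H σ t ^ hc F := by
    rw [← fv_pow]
    apply fv_span H σ hq
    rw [← gn_spec, Ideal.span_singleton_pow]
  have ht0 : σ (t : F) ≠ 0 := by
    intro h
    rw [map_eq_zero] at h
    exact ht (RingOfIntegers.coe_injective (h.trans (map_zero _).symm))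
  obtain ⟨m, hm⟩ := hodd
  have h2 : (hc F - 1) / 2 = m := by omega
  rw [chr_apply, h1, hψ t ht, h2, hm, ← pow_mul]
  have h3 : fv H σ t ^ (2 * m + 1) = fv H σ t * σ (t : F) ^ (2 * m) := by
    rcases fv_cases H σ t with h | h | h
    · rw [h]; simp
    · rw [h]; ring
    · rw [h]
      have : Odd (2 * m + 1) := ⟨m, rfl⟩
      rw [this.neg_pow]
      ring
  rw [h3, mul_div_assoc, div_self (pow_ne_zero _ ht0), mul_one]

theorem one_of_sq {E : Type} [NormedField E] [IsUltrametricDist E] (h2 : ‖(2 : E)‖ < 1) {y : E}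
    (h : Can.One (y ^ 2)) : Can.One y := by
  have h1 : ‖y‖ = 1 := by
    have := h.norm
    rw [norm_pow] at this
    exact (pow_eq_one_iff_of_nonneg (norm_nonneg _) two_ne_zero).1 this
  have h3 : ‖y - 1‖ ≤ 1 := by
    refine (nsm y 1).trans ?_
    rw [h1, norm_one, max_self]
  have h4 : (y - 1) ^ 2 = (y ^ 2 - 1) - 2 * (y - 1) := by ring
  have h5 : ‖(y - 1) ^ 2‖ < 1 := by
    rw [h4]
    refine (nsm _ _).trans_lt (max_lt h ?_)
    rw [norm_mul]
    exact mul_lt_one_of_nonneg_of_lt_one_left (norm_nonneg _) h2 h3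
  rw [norm_pow] at h5
  exact (pow_lt_one_iff_of_nonneg (norm_nonneg _) two_ne_zero).1 h5

end

end BKS.CanEx

namespace BKS

open NumberField IsDedekindDomain BKS.Can BKS.CanEx Pool.Agent.Lib.MP_7c08ba_nt

theorem stEx : StEx := by
  intro q F _ _ hq h16 hF σ ι
  obtain ⟨hfin, s₀, hs₀⟩ := hF
  -- the square root is an integer
  obtain ⟨s, hs⟩ : ∃ s : 𝓞 F, (s : F) = s₀ := by
    have : IsIntegral ℤ s₀ := by
      refine ⟨Polynomial.X ^ 2 + Polynomial.C (q : ℤ), ?_, ?_⟩
      · exact Polynomial.monic_X_pow_add_C _ two_ne_zero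
      · simp [hs₀]
    exact ⟨⟨s₀, this⟩, rfl⟩
  have hC : RZC.FieldC q F (s : F) := ⟨hq, h16, hfin, by rw [hs]; exact hs₀⟩
  have H := fct hC σ
  obtain ⟨ψ, hψ, hψ1⟩ := RZX.exists_psi_two hq h16 hfin hC.2.2.2 σ (k := 2) even_two ι
  have hodd : Odd (hc F) := RZC.stClass q F (s : F) hC
  refine ⟨chr H σ h16 ψ, ?_, ?_⟩
  · intro s' t a hs' ht hta
    rw [chr_span H σ h16 hodd hψ ht]
    apply fv_eq
    have h1 : (s' - s) * (s' + s) = 0 := by
      have h2 : s ^ 2 = -(q : 𝓞 F) := by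
        apply RingOfIntegers.ext
        simp only [map_pow, map_neg, map_natCast]
        exact hC.2.2.2
      linear_combination hs' - h2
    rcases mul_eq_zero.1 h1 with h2 | h2
    · rw [sub_eq_zero] at h2
      rwa [← h2]
    · rw [add_eq_zero_iff_eq_neg] at h2
      rw [h2, neg_dvd] at hta
      exact hta
  · intro a ha h0
    have : IsUltrametricDist (PadicAlgCl 2) := IsUltrametricDist.of_normedAlgebra ℚ_[2]
    rw [chr_apply] at h0 ⊢
    have h1 : Can.One (ι (ψ a)) := hψ1 a ha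
    have hf0 : fv H σ (gn a) ≠ 0 := fun h => h0 (by rw [h, zero_div])
    have hg0 : gn a ≠ 0 := by
      intro h
      apply hf0
      rw [h]
      unfold fv
      simp
    have h2 : fv H σ (gn a) ^ 2 = ψ a ^ hc F := by
      rw [← map_pow ψ a, gn_spec, hψ _ hg0]
      rcases fv_cases H σ (gn a) with h | h | h
      · exact absurd h hf0
      · rw [h]
      · rw [h, neg_sq]
    have h3 : Can.One (ι (fv H σ (gn a))) := by
      apply one_of_sq norm_two_K
      rw [← map_pow, h2, map_pow]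
      exact h1.pow _
    rw [map_div₀, map_pow, div_eq_mul_inv]
    exact h3.mul (h1.pow _).inv

end BKS
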