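import Mathlib
import Pool.Agent.Lib.MP_7c08ba_nt.BK.CanVal

set_option autoImplicit false
set_option linter.unusedSectionVars false

/-!
Realisations of canonical Hecke characters: the values at all elements.
-/

noncomputable section

namespace BKS.Can

open NumberField IsDedekindDomain Matrix Pool.Agent.Lib.MP_7c08ba_nt

section Place

variable {F : Type} [Field F] [NumberField F] {q : ℕ}

/-- the norm of a place is prime to integers which are not in it -/
theorem coprime_nv {v : Pl F} {D : ℤ} (hD : (D : 𝓞 F) ∉ v.asIdeal) : D.gcd (nv v) = 1 := by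
  by_contra hne
  obtain ⟨r, hr, hrg⟩ := Nat.exists_prime_and_dvd hne
  have hrD : (r : ℤ) ∣ D := (Int.natCast_dvd_natCast.2 hrg).trans (Int.gcd_dvd_left _ _)
  have hrn : r ∣ nv v := by
    have h1 := (Int.natCast_dvd_natCast.2 hrg).trans (Int.gcd_dvd_right _ _)
    exact_mod_cast h1
  -- a prime in `v`
  obtain ⟨l, hl, hlv⟩ : ∃ l : ℕ, l.Prime ∧ (l : 𝓞 F) ∈ v.asIdeal := by
    have h1 : ∀ k : ℕ, k ≠ 0 → (k : 𝓞 F) ∈ v.asIdeal → ∃ l : ℕ, l.Prime ∧ (l : 𝓞 F) ∈ v.asIdeal := by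
      intro k
      induction k using Nat.recOnMul with
      | zero => intro h; exact absurd rfl h
      | one =>
        intro _ h
        exact absurd (by simpa using h) ((Ideal.ne_top_iff_one v.asIdeal).1 v.isPrime.ne_top)
      | prime q hq => intro _ h; exact ⟨q, hq, h⟩
      | mul a b iha ihb =>
        intro hab h
        rw [Nat.cast_mul] at h
        rcases v.isPrime.mem_or_mem h with h | h
        · exact iha (left_ne_zero_of_mul hab) h
        · exact ihb (right_ne_zero_of_mul hab) h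
    refine h1 (nv v) ?_ (Ideal.absNorm_mem v.asIdeal)
    exact (Ideal.absNorm_ne_zero_iff _).2 (Ideal.finiteQuotientOfFreeOfNeBot v.asIdeal v.ne_bot)
  have h2 : nv v ∣ (Algebra.norm ℤ (l : 𝓞 F)).natAbs := by
    rw [← Ideal.absNorm_span_singleton]
    exact Ideal.absNorm_dvd_absNorm_of_le ((Ideal.span_singleton_le_iff_mem _).2 hlv)
  have h3 : (Algebra.norm ℤ (l : 𝓞 F)) = (l : ℤ) ^ Module.finrank ℤ (𝓞 F) := by
    have h4 : (l : 𝓞 F) = algebraMap ℤ (𝓞 F) l := by simp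
    rw [h4, Algebra.norm_algebraMap]
  rw [h3, Int.natAbs_pow, Int.natAbs_natCast] at h2
  have h5 : r ∣ l := hr.dvd_of_dvd_pow (hrn.trans h2)
  have h6 : r = l := (Nat.prime_dvd_prime_iff_eq hr hl).1 h5
  apply hD
  obtain ⟨m, rfl⟩ := hrD
  rw [Int.cast_mul, Int.cast_natCast, h6]
  exact v.asIdeal.mul_mem_right _ hlv

theorem odd_nv {v : Pl F} (h2 : (2 : 𝓞 F) ∉ v.asIdeal) : nv v % 2 = 1 := by
  have h1 : ((2 : ℤ) : 𝓞 F) ∉ v.asIdeal := by simpa using h2
  have h3 := coprime_nv h1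
  by_contra hne
  have h4 : 2 ∣ nv v := by omega
  have h5 : (2 : ℕ) ∣ Int.gcd 2 (nv v) :=
    Int.dvd_gcd (by norm_num) (by exact_mod_cast h4)
  rw [h3] at h5
  omega

end Place

section Main

variable {F : Type} [Field F] [NumberField F] {q : ℕ} (hq : q.Prime) (h16 : q % 16 = 7)
  (hF : Module.finrank ℚ F = 2) {s : 𝓞 F} (hs : s ^ 2 = -(q : 𝓞 F))
  {j J : F →+* ℚ_[2]} (hj : j (s : F) = -J (s : F)) (φ : Hec F q) (ι : ℂ →+* PadicAlgCl 2)
  (hJ : ∀ x : F, algebraMap ℚ_[2] (PadicAlgCl 2) (J x) = ι (φ.σ x))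

include hs in
theorem coe_s : ((s : 𝓞 F) : F) ^ 2 = -(q : F) := by
  have := congrArg (fun x : 𝓞 F => algebraMap (𝓞 F) F x) hs
  simpa only [map_pow, map_neg, map_natCast] using this

include hq hF hs hj in
/-- odd powers which are principal -/
theorem exists_power {v : Pl F} (h2 : (2 : 𝓞 F) ∉ v.asIdeal) :
    ∃ (N : ℕ) (t : 𝓞 F), N % 2 = 1 ∧ v.asIdeal ^ N = Ideal.span {t} := by
  refine exists_odd_power hq.pos hF (coe_s hs) hq J v.ne_bot fun n a ha => ?_
  refine norm_J hq hF (coe_s hs) hj ?_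
  have h1 := congrArg Ideal.absNorm ha
  rw [map_pow, Ideal.absNorm_span_singleton] at h1
  have h3 := odd_nv h2
  have h4 : nv v ^ n % 2 = 1 := by
    rw [Nat.pow_mod, h3]
    simp
  have h5 : (Algebra.norm ℤ a).natAbs % 2 = 1 := by
    rw [← h1]
    exact h4
  omega

include hq h16 hF hs in
/-- the residue of a generator modulo `s` -/
theorem exists_residue {v : Pl F} (hsv : s ∉ v.asIdeal) {N : ℕ} {t : 𝓞 F}
    (ht : v.asIdeal ^ N = Ideal.span {t}) : ∃ a : ℤ, s ∣ t - a ∧ jacobiSym a q ≠ 0 := by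
  have hq2 : q ≠ 2 := by omega
  have hsI : sI (coe_s hs) = s := RingOfIntegers.ext rfl
  obtain ⟨a, ha⟩ := exists_res hq.pos hF (coe_s hs) hq hq2 t
  rw [hsI, Ideal.mem_span_singleton] at ha
  refine ⟨a, ha, ?_⟩
  apply jacobiSym.ne_zero
  rw [Int.gcd_comm]
  have h1 : ¬ (q : ℤ) ∣ a := by
    intro h
    apply hsv
    have h2 : s ∣ t := by
      have h3 : s ∣ (a : 𝓞 F) := by
        have h4 : s ∣ (q : 𝓞 F) := ⟨-s, by linear_combination hs⟩
        obtain ⟨b, rfl⟩ := h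
        rw [Int.cast_mul, Int.cast_natCast]
        exact h4.mul_right _
      have h4 := dvd_add ha h3
      rwa [sub_add_cancel] at h4
    have hp : (Ideal.span {s}).IsPrime := by
      have := spanS_isPrime hq.pos hF (coe_s hs) hq
      rwa [hsI] at this
    have h3 : v.asIdeal ^ N ≤ Ideal.span {s} := by
      rw [ht, Ideal.span_singleton_le_span_singleton]
      exact h2
    have h4 : v.asIdeal ≤ Ideal.span {s} := by
      rcases Nat.eq_zero_or_pos N with rfl | hN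
      · rw [pow_zero, Ideal.one_eq_top, top_le_iff] at h3
        exact absurd h3 hp.ne_top
      · exact (hp.pow_le_iff hN.ne').1 h3
    have h5 : v.asIdeal = Ideal.span {s} :=
      (v.isPrime.isMaximal v.ne_bot).eq_of_le hp.ne_top h4
    rw [h5]
    exact Ideal.mem_span_singleton_self s
  rw [← Int.isCoprime_iff_gcd_eq_one]
  exact (Nat.prime_iff_prime_int.1 hq).coprime_iff_not_dvd.2 h1

include hq h16 hF hs hj in
theorem psi_ne_zero {v : Pl F} (h2 : (2 : 𝓞 F) ∉ v.asIdeal) (hsv : s ∉ v.asIdeal) :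
    φ.ψ v.asIdeal ≠ 0 := by
  obtain ⟨N, t, hN, ht⟩ := exists_power hq hF hs hj h2
  obtain ⟨a, ha, ha0⟩ := exists_residue hq h16 hF hs hsv ht
  have ht0 : t ≠ 0 := by
    rintro rfl
    have h1 : v.asIdeal ^ N ≠ ⊥ := pow_ne_zero N v.ne_bot
    apply h1
    rw [ht, Ideal.span_singleton_eq_bot]
  intro h0
  have h1 : φ.ψ (v.asIdeal ^ N) = (jacobiSym a q : ℂ) * φ.σ t := by
    rw [ht]
    exact φ.canon s t a hs ht0 ha
  rw [map_pow, h0, zero_pow (by omega), eq_comm, mul_eq_zero] at h1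
  rcases h1 with h1 | h1
  · exact ha0 (by exact_mod_cast h1)
  · rw [map_eq_zero] at h1
    exact ht0 (RingOfIntegers.coe_injective (h1.trans (map_zero _).symm))

variable (hι : ResOne ι φ.ψ)

include hq h16 hF hs hj hι in
/-- the values are congruent to one -/
theorem val_one {v : Pl F} (h2 : (2 : 𝓞 F) ∉ v.asIdeal) (hsv : s ∉ v.asIdeal)
    (hD : (φ.D : 𝓞 F) ∉ v.asIdeal) : One (ι (val φ v)) := by
  have hn := odd_nv h2
  have h1 : One (ι (φ.ψ v.asIdeal)) :=
    hι v.asIdeal (by change ¬ 2 ∣ nv v; omega) (psi_ne_zero hq h16 hF hs hj φ h2 hsv)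
  have h3 : One (((kro φ.D (nv v) : ℤ) : PadicAlgCl 2)) := by
    refine one_int norm_two_K ?_
    rw [kro_odd φ.D hn]
    rcases jacobiSym.trichotomy φ.D (nv v) with h | h | h
    · exact absurd h (jacobiSym.ne_zero (coprime_nv hD))
    · rw [h]; rfl
    · rw [h]; rfl
  have h4 : One ((((nv v : ℕ) : ℤ) : PadicAlgCl 2)) := one_int norm_two_K (by omega)
  have h5 : ι (val φ v) = ((kro φ.D (nv v) : ℤ) : PadicAlgCl 2) *
      ι (φ.ψ v.asIdeal) ^ (2 * φ.k - 1) * ((((nv v : ℕ) : ℤ) : PadicAlgCl 2) ^ φ.k)⁻¹ := by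
    unfold val
    rw [map_div₀, map_mul, map_intCast, map_pow, map_pow, map_natCast, div_eq_mul_inv,
      Int.cast_natCast]
  rw [h5]
  exact (h3.mul (h1.pow _)).mul (h4.pow _).inv

include hq hF hs hj hJ in
/-- the powers of the values in the field of `2`-adic numbers -/
theorem val_pow_Q {v : Pl F} (h2 : (2 : 𝓞 F) ∉ v.asIdeal) {N : ℕ} {t : 𝓞 F} {a : ℤ}
    (ht : v.asIdeal ^ N = Ideal.span {t}) (hst : s ∣ t - a) :
    ι (val φ v) ^ N = algebraMap ℚ_[2] (PadicAlgCl 2)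
      (jacobiSym φ.D (Algebra.norm ℤ t).natAbs * jacobiSym a q * J t ^ (2 * φ.k - 1) /
        (j t * J t) ^ φ.k) := by
  have h1 := val_pow φ hs (odd_nv h2) ht hst
  have h3 := norm_mul_emb hq hF (coe_s hs) hj t
  have h4 : (((Algebra.norm ℤ t).natAbs : ℕ) : ℤ) = Algebra.norm ℤ t :=
    Int.natAbs_of_nonneg (norm_nonneg' hq hF (coe_s hs) t)
  have h5 : (((Algebra.norm ℤ t).natAbs : ℕ) : PadicAlgCl 2) =
      algebraMap ℚ_[2] (PadicAlgCl 2) (j t * J t) := by
    rw [h3, map_intCast, ← h4, Int.natAbs_natCast, Int.cast_natCast]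
  rw [← map_pow, h1, map_div₀, map_mul, map_mul, map_intCast, map_intCast, map_pow, map_pow,
    map_natCast, h5]
  simp only [map_div₀, map_mul, map_intCast, map_pow, hJ]

include hq h16 hF hs hj hJ hι in
/-- the values are in `ℚ₂` -/
theorem val_mem {v : Pl F} (h2 : (2 : 𝓞 F) ∉ v.asIdeal) (hsv : s ∉ v.asIdeal)
    (hD : (φ.D : 𝓞 F) ∉ v.asIdeal) :
    ∃ x : ℚ_[2], algebraMap ℚ_[2] (PadicAlgCl 2) x = ι (val φ v) := by
  obtain ⟨N, t, hN, ht⟩ := exists_power hq hF hs hj h2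
  obtain ⟨a, ha, -⟩ := exists_residue hq h16 hF hs hsv ht
  exact mem_range hN (val_one hq h16 hF hs hj φ ι hι h2 hsv hD)
    ⟨_, (val_pow_Q hq hF hs hj φ ι hJ h2 ht ha).symm⟩

variable {L : Type} [NormedField L] [NormedAlgebra ℚ_[2] L] [NormedAlgebra L (PadicAlgCl 2)]
  {V : GRep F L 1} (hV : IsRealHec ι φ V)

/-- the scalar of the inverse -/
theorem itr_eq (V : GRep F L 1) (g : GF F) : itr V g = (scl V g)⁻¹ := by
  rw [← scl_inv]
  unfold itr mat scl
  rw [Matrix.trace_fin_one]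

include hV in
/-- the value at a Frobenius element -/
theorem frob_val {P : Ideal (AllInt F)} (hP : P.IsPrime) (h2 : (2 : AllInt F) ∉ P)
    (hqD : ((q * φ.D : ℤ) : AllInt F) ∉ P) {g : AbsGal F} (hg : IsFrobenius P g) :
    ∃ v : Pl F, v.asIdeal = P.under (𝓞 F) ∧ (2 : 𝓞 F) ∉ v.asIdeal ∧
      ((q * φ.D : ℤ) : 𝓞 F) ∉ v.asIdeal ∧
      algebraMap L (PadicAlgCl 2) (scl V g)⁻¹ = ι (val φ v) := by
  have hne : P.under (𝓞 F) ≠ ⊥ := by
    intro h
    have h1 := hg 0
    rw [h] at h1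
    have h3 : Nat.card (𝓞 F ⧸ (⊥ : Ideal (𝓞 F))) = 0 := by
      have h4 := Ideal.absNorm_bot (S := 𝓞 F)
      rwa [Ideal.absNorm_apply, Submodule.cardQuot_apply] at h4
    rw [h3, pow_zero, smul_zero, zero_sub, neg_mem_iff] at h1
    exact hP.ne_top ((Ideal.eq_top_iff_one P).2 h1)
  let v : Pl F := ⟨P.under (𝓞 F), inferInstance, hne⟩
  have hc : Nat.card (𝓞 F ⧸ P.under (𝓞 F)) = nv v := by
    change _ = Ideal.absNorm (P.under (𝓞 F))
    rw [Ideal.absNorm_apply, Submodule.cardQuot_apply]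
  have h2v : (2 : 𝓞 F) ∉ v.asIdeal := by
    intro h
    apply h2
    have h3 : algebraMap (𝓞 F) (AllInt F) 2 ∈ P := h
    rwa [map_ofNat] at h3
  have hqv : ((q * φ.D : ℤ) : 𝓞 F) ∉ v.asIdeal := by
    intro h
    apply hqD
    have h3 : algebraMap (𝓞 F) (AllInt F) ((q * φ.D : ℤ) : 𝓞 F) ∈ P := h
    rwa [map_intCast] at h3
  refine ⟨v, rfl, h2v, hqv, ?_⟩
  have h3 : IsFrob 2 v P g := by
    refine ⟨hP, by exact_mod_cast h2, rfl, fun x => ?_⟩
    have h4 := hg x
    rwa [hc] at h4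
  rw [← itr_eq]
  exact hV.frob v P g h3 hqv

theorem s_notMem (hs : s ^ 2 = -(q : 𝓞 F)) {v : Pl F} {D : ℤ}
    (h : ((q * D : ℤ) : 𝓞 F) ∉ v.asIdeal) : s ∉ v.asIdeal := by
  intro h1
  apply h
  have h2 : (q : 𝓞 F) = -(s * s) := by linear_combination hs
  rw [Int.cast_mul, Int.cast_natCast, h2]
  exact v.asIdeal.mul_mem_right _ (neg_mem (v.asIdeal.mul_mem_left _ h1))

theorem D_notMem {v : Pl F} {D : ℤ}
    (h : ((q * D : ℤ) : 𝓞 F) ∉ v.asIdeal) : (D : 𝓞 F) ∉ v.asIdeal := by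
  intro h1
  apply h
  rw [Int.cast_mul]
  exact v.asIdeal.mul_mem_left _ h1

include hq h16 hF hs hj hJ hι hV in
/-- **The values of the realisation.** -/
theorem scl_mem (g : GF F) : (∃ x : ℚ_[2], algebraMap ℚ_[2] L x = scl V g) ∧ One (scl V g) := by
  have hul : IsUltrametricDist L := BKPar.ultra_of_algebra L
  have hD0 : φ.D ≠ 0 := φ.sqf.ne_zero
  let S : Set (Matrix (Fin 1) (Fin 1) L) :=
    {A | (∃ x : ℚ_[2], algebraMap ℚ_[2] L x = A 0 0) ∧ One (A 0 0)}
  have hS : IsClosed S := by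
    have h1 : IsClosed (Set.range (algebraMap ℚ_[2] L)) :=
      (AddMonoidHomClass.isometry_of_norm (algebraMap ℚ_[2] L) norm_aL).isClosedEmbedding.isClosed_range
    have h2 : IsClosed {x : L | One x} := by
      have h3 : {x : L | One x} = (fun x => x - 1) ⁻¹' Metric.ball 0 1 := by
        ext x
        simp [One]
      rw [h3]
      exact (IsUltrametricDist.isClosed_ball (0 : L) 1).preimage (continuous_id.sub continuous_const)
    have h4 : Continuous fun A : Matrix (Fin 1) (Fin 1) L => A 0 0 :=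
      continuous_apply_apply (0 : Fin 1) (0 : Fin 1)
    exact (h1.preimage h4).inter (h2.preimage h4)
  have hpow : ∀ A ∈ S, ∀ k : ℕ, A ^ k ∈ S := by
    rintro A ⟨⟨x, hx⟩, h1⟩ k
    have h2 : (A ^ k) 0 0 = (A 0 0) ^ k := by
      induction k with
      | zero => simp
      | succ k ih => rw [pow_succ, Matrix.mul_apply, Fin.sum_univ_one, ih, pow_succ]
    refine ⟨⟨x ^ k, ?_⟩, ?_⟩
    · rw [h2, map_pow, hx]
    · rw [h2]
      exact h1.pow k
  have hconj : ∀ (U : GL (Fin 1) L), ∀ A ∈ S,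
      (U : Matrix (Fin 1) (Fin 1) L) * A * ((U⁻¹ : GL (Fin 1) L) : Matrix (Fin 1) (Fin 1) L) ∈ S := by
    intro U A hA
    have h1 : (U : Matrix (Fin 1) (Fin 1) L) * A = A * U := by
      apply ext_scl
      rw [Matrix.mul_apply, Matrix.mul_apply, Fin.sum_univ_one, Fin.sum_univ_one, mul_comm]
    rw [h1, Matrix.mul_assoc, ← Units.val_mul, mul_inv_cancel, Units.val_one, Matrix.mul_one]
    exact hA
  have hN : 2 * (q * φ.D.natAbs) ≠ 0 := by
    have := hq.pos
    have := Int.natAbs_ne_zero.2 hD0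
    positivity
  have hmain := mem_of_frobenius V hV.cont (2 * (q * φ.D.natAbs)) hN S hS hpow hconj (by
    intro P hP hNP g hg
    have h2 : (2 : AllInt F) ∉ P := by
      intro h
      apply hNP
      rw [Nat.cast_mul]
      exact P.mul_mem_right _ (by exact_mod_cast h)
    have hqD : ((q * φ.D : ℤ) : AllInt F) ∉ P := by
      intro h
      apply hNP
      rw [Nat.cast_mul]
      refine P.mul_mem_left _ ?_
      have h3 : (((q * φ.D.natAbs : ℕ) : ℤ) : AllInt F) ∈ P := by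
        rcases Int.natAbs_eq φ.D with h4 | h4
        · have h5 : ((q * φ.D.natAbs : ℕ) : ℤ) = q * φ.D := by
            push_cast
            rw [← Int.natCast_natAbs, ← h4]
          rw [h5]
          exact h
        · have h5 : ((q * φ.D.natAbs : ℕ) : ℤ) = -(q * φ.D) := by
            push_cast
            rw [← Int.natCast_natAbs]
            linear_combination (q : ℤ) * h4
          rw [h5, Int.cast_neg]
          exact neg_mem h
      rwa [Int.cast_natCast] at h3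
    obtain ⟨v, -, h2v, hqv, hv⟩ := frob_val φ ι hV hP h2 hqD hg
    obtain ⟨x, hx⟩ := val_mem hq h16 hF hs hj φ ι hJ hι h2v (s_notMem hs hqv) (D_notMem hqv)
    have h1 := val_one hq h16 hF hs hj φ ι hι h2v (s_notMem hs hqv) (D_notMem hqv)
    have h3 : (scl V g)⁻¹ = algebraMap ℚ_[2] L x := by
      apply (algebraMap L (PadicAlgCl 2)).injective
      rw [hv, tower, hx]
    have h4 : One (scl V g)⁻¹ := by
      unfold One
      have h5 : ‖algebraMap L (PadicAlgCl 2) ((scl V g)⁻¹ - 1)‖ = ‖(scl V g)⁻¹ - 1‖ := norm_aK _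
      rw [map_sub, map_one, hv] at h5
      rw [← h5]
      exact h1
    refine ⟨⟨x⁻¹, ?_⟩, ?_⟩
    · rw [map_inv₀, ← h3, inv_inv]
      rfl
    · have h5 := h4.inv
      rwa [inv_inv] at h5) g
  exact hmain

end Main

end BKS.Can
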