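import Mathlib
import Pool.Agent.Lib.MP_7c08ba_nt.BK.CanReal
import Pool.Agent.Lib.MP_7c08ba_nt.RZ.DPlace

set_option autoImplicit false
set_option linter.unusedSectionVars false

/-!
The bound for the strict Selmer group of the realisation.
-/

noncomputable section

namespace BKS.Can

open NumberField IsDedekindDomain Matrix BKGen BKGen.Genus Pool.Agent.Lib.MP_7c08ba_nt

section Inertia

variable {F : Type} [Field F] [NumberField F]

/-- inertia groups at primes not above `2` -/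
theorem exists_Inert' (P : Ideal (AllInt F)) (hP : P.IsPrime) (h2 : (2 : AllInt F) ∉ P)
    {g : AbsGal F} (hg : g ∈ inert F P) : g = 1 ∨ ∃ (l : ℕ) (_ : Fact l.Prime), l ≠ 2 ∧
      (l : AllInt F) ∈ P ∧ ∃ j : AlgebraicClosure F →+* PadicAlgCl l,
      primeOf j = P ∧ g ∈ Inert F (AlgebraicClosure F) j := by
  by_cases h0 : P = ⊥
  · left
    have hal : Algebra.IsAlgebraic ℚ (AlgebraicClosure F) :=
      Algebra.IsAlgebraic.trans ℚ F (AlgebraicClosure F)
    have h3 : ((2 : ℕ) : AllInt F) ∉ P := by exact_mod_cast h2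
    rcases BKGlob.exists_Inert (p := 2) P hP h3 hg with h | ⟨l, hl, -, j, hj⟩
    · exact h
    · ext x
      have h1 : IsAlgebraic ℤ x :=
        (IsFractionRing.isAlgebraic_iff ℤ ℚ (AlgebraicClosure F)).2
          (Algebra.IsAlgebraic.isAlgebraic x)
      obtain ⟨m, hm, hmx⟩ := h1.exists_integral_multiple
      let a : AllInt F := ⟨m • x, hmx⟩
      have h4 : g • a - a ∈ P := hg a
      rw [h0, Ideal.mem_bot] at h4
      have h5 : g (m • x) - m • x = 0 := congrArg (fun z : AllInt F => (z : AlgebraicClosure F)) h4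
      have h6 : (m : AlgebraicClosure F) * (g x - x) = 0 := by
        rw [zsmul_eq_mul, map_mul, map_intCast] at h5
        linear_combination h5
      rcases mul_eq_zero.1 h6 with h7 | h7
      · exact absurd (Int.cast_eq_zero.1 h7) hm
      · rw [AlgEquiv.one_apply]
        exact sub_eq_zero.1 h7
  · right
    obtain ⟨l, hl, hlP⟩ := RZ.exists_prime_below hP h0
    have hfl : Fact l.Prime := ⟨hl⟩
    obtain ⟨j, hj⟩ := RZ.exists_emb hP hlP
    refine ⟨l, hfl, ?_, hlP, j, hj, BKGlob.Inert_of_inert j (by rw [hj]; exact hg)⟩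
    rintro rfl
    exact h2 (by exact_mod_cast hlP)

end Inertia

section Main

variable {F : Type} [Field F] [NumberField F] {q : ℕ} (hq : q.Prime) (h16 : q % 16 = 7)
  (hF : Module.finrank ℚ F = 2) {s : 𝓞 F} (hs : s ^ 2 = -(q : 𝓞 F))
  {j J : F →+* ℚ_[2]} (hj : j (s : F) = -J (s : F)) (φ : Hec F q) (ι : ℂ →+* PadicAlgCl 2)
  (hJ : ∀ x : F, algebraMap ℚ_[2] (PadicAlgCl 2) (J x) = ι (φ.σ x)) (hι : ResOne ι φ.ψ)
  {L : Type} [NormedField L] [NormedAlgebra ℚ_[2] L] [NormedAlgebra L (PadicAlgCl 2)]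
  {V : GRep F L 1} (hV : IsRealHec ι φ V)

include hV in
/-- inertia away from `2` -/
theorem inertia (P : Ideal (AllInt F)) (hP : P.IsPrime) (h2 : (2 : AllInt F) ∉ P) {g : AbsGal F}
    (hg : g ∈ inert F P) : V g = 1 ∨ (V g = -1 ∧ ((q * φ.D : ℤ) : AllInt F) ∈ P) := by
  rcases exists_Inert' P hP h2 hg with rfl | ⟨l, hl, hl2, hlP, j, hj, hgj⟩
  · left
    exact map_one V
  · rcases hV.ram l hl2 j g hgj with h | ⟨h, m, hm⟩
    · exact Or.inl h
    · refine Or.inr ⟨h, ?_⟩
      rw [hm, Int.cast_mul, Int.cast_natCast]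
      exact P.mul_mem_right _ hlP

variable {ρ : AbsGal F →* GL (Fin 1) ℚ_[2]} (hρc : Continuous ρ)
  (hρ : ∀ g, algebraMap ℚ_[2] L (scl ρ g) = scl V g)

include hρ in
theorem rho_one {g : AbsGal F} (h : V g = 1) : ρ g = 1 := by
  apply Units.ext
  apply ext_scl
  change scl ρ g = _
  apply (algebraMap ℚ_[2] L).injective
  rw [hρ]
  unfold scl
  rw [h]
  simp

include hρ in
theorem rho_neg {g : AbsGal F} (h : V g = -1) : ρ g = -1 := by
  apply Units.ext
  apply ext_scl
  change scl ρ g = _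
  apply (algebraMap ℚ_[2] L).injective
  rw [hρ]
  unfold scl
  rw [h]
  simp

include hq h16 hF hs hj hJ hV hρc hρ in
theorem realises : Realises q s φ.D φ.k j J ρ := by
  refine ⟨hρc, ?_, ?_⟩
  · intro P hP h2 g hg
    rcases inertia φ ι hV P hP h2 hg with h | ⟨h, h'⟩
    · exact Or.inl (rho_one hρ h)
    · refine Or.inr ⟨rho_neg hρ h, ?_⟩
      push_cast at h'
      exact h'
  · intro P hP h2 g hg N t a ht hst
    have h2' : (2 : AllInt F) ∉ P := fun h => h2 (P.mul_mem_right _ (P.mul_mem_right _ h))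
    have hqD : ((q * φ.D : ℤ) : AllInt F) ∉ P := by
      intro h
      apply h2
      push_cast at h
      rw [mul_assoc]
      exact P.mul_mem_left _ h
    obtain ⟨v, hv, h2v, hqv, hval⟩ := frob_val φ ι hV hP h2' hqD hg
    have ht' : v.asIdeal ^ N = Ideal.span {t} := by rw [hv]; exact ht
    have h3 := val_pow_Q hq hF hs hj φ ι hJ h2v ht' hst
    rw [← hρ, ← map_inv₀, tower] at hval
    rw [← hval, ← map_pow] at h3
    have h4 := (algebraMap ℚ_[2] (PadicAlgCl 2)).injective h3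
    -- the symbols are signs
    have hJt : J (t : F) ≠ 0 := by
      intro h
      rw [map_eq_zero] at h
      have h5 : t = 0 := RingOfIntegers.coe_injective (h.trans (map_zero _).symm)
      have h6 : v.asIdeal ^ N ≠ ⊥ := pow_ne_zero N v.ne_bot
      apply h6
      rw [ht', h5, Ideal.span_singleton_eq_bot]
    have hjt : j (t : F) ≠ 0 := by
      intro h
      rw [map_eq_zero] at h
      apply hJt
      rw [h, map_zero]
    have hρ0 : scl ρ g ≠ 0 := by
      intro h0
      have h5 : scl ρ g * scl ρ g⁻¹ = 1 := by rw [← scl_mul, mul_inv_cancel, scl_one]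
      rw [h0, zero_mul] at h5
      exact zero_ne_one h5
    have hne : ((jacobiSym φ.D (Algebra.norm ℤ t).natAbs : ℤ) : ℚ_[2]) * (jacobiSym a q : ℤ) ≠ 0 := by
      intro h0
      rw [h0, zero_mul, zero_div] at h4
      exact (pow_ne_zero N (inv_ne_zero hρ0)) h4
    have hsq : (((jacobiSym φ.D (Algebra.norm ℤ t).natAbs : ℤ) : ℚ_[2]) * (jacobiSym a q : ℤ)) ^ 2
        = 1 := by
      have h5 : ((jacobiSym φ.D (Algebra.norm ℤ t).natAbs : ℤ) : ℚ_[2]) ≠ 0 :=
        left_ne_zero_of_mul hne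
      have h6 : ((jacobiSym a q : ℤ) : ℚ_[2]) ≠ 0 := right_ne_zero_of_mul hne
      have key : ∀ (b : ℤ) (m : ℕ), ((jacobiSym b m : ℤ) : ℚ_[2]) ≠ 0 →
          ((jacobiSym b m : ℤ) : ℚ_[2]) ^ 2 = 1 := by
        intro b m hbm
        rcases jacobiSym.trichotomy b m with h | h | h
        · rw [h] at hbm
          exact absurd (Int.cast_zero) hbm
        · rw [h]; simp
        · rw [h]; simp
      rw [mul_pow, key _ _ h5, key _ _ h6, one_mul]
    change scl ρ g ^ N = _
    rw [inv_pow] at h4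
    have h7 : scl ρ g ^ N = (jacobiSym φ.D (Algebra.norm ℤ t).natAbs * jacobiSym a q) *
        ((j t * J t) ^ φ.k / J t ^ (2 * φ.k - 1)) := by
      rw [← inv_inv (scl ρ g ^ N), h4]
      field_simp
      rw [div_eq_iff hne, ← sq, hsq]
    rw [h7]
    have h8 : J (t : F) ^ (1 - (φ.k : ℤ)) = J t ^ φ.k / J t ^ (2 * φ.k - 1) := by
      rw [← zpow_natCast, ← zpow_natCast, ← zpow_sub₀ hJt]
      congr 1
      have := φ.pos
      omega
    rw [h8, mul_pow, zpow_natCast]
    ring

omit [NormedAlgebra L (PadicAlgCl 2)] in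
/-- signs modulo four -/
theorem congSign_L {H : Subgroup (AbsGal F)} {ρ : AbsGal F →* GL (Fin 1) ℚ_[2]}
    (hρ : ∀ g, algebraMap ℚ_[2] L (scl ρ g) = scl V g) (h : CongSign ρ H) : CongSign V H := by
  have key : ∀ (g : AbsGal F) (c : ℤ), (∀ x : Fin 1 → ℚ_[2],
      ‖(ρ g : Matrix (Fin 1) (Fin 1) ℚ_[2]) *ᵥ x - (c : ℚ_[2]) • x‖ ≤ ‖(4 : ℚ_[2])‖ * ‖x‖) →
      ∀ x : Fin 1 → L, ‖(V g : Matrix (Fin 1) (Fin 1) L) *ᵥ x - (c : L) • x‖ ≤
        ‖(4 : L)‖ * ‖x‖ := by
    intro g c hg x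
    have h1 := hg 1
    rw [mulVec_scl, ← sub_smul, norm_smul, norm_one, mul_one, mul_one] at h1
    rw [mulVec_scl, ← sub_smul, norm_smul]
    refine mul_le_mul_of_nonneg_right ?_ (norm_nonneg x)
    have h2 : scl V g - (c : L) = algebraMap ℚ_[2] L (scl ρ g - c) := by
      rw [map_sub, hρ, map_intCast]
    have h3 : (4 : L) = algebraMap ℚ_[2] L 4 := by rw [map_ofNat]
    rw [h2, h3, norm_aL, norm_aL]
    exact h1
  constructor
  · intro g hg x
    have h1 := key g 1 (fun y => by simpa using h.1 g hg y) x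
    simpa using h1
  · intro g hg x
    have h1 := key g (-1) (fun y => by simpa using h.2 g hg y) x
    simpa using h1

end Main

end BKS.Can
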