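import Mathlib
import Pool.Agent.Lib.MP_7c08ba_nt.BK.CanRk

set_option autoImplicit false
set_option linter.unusedSectionVars false

/-!
The bound for the strict Selmer group, with coefficients in an extension of `ℚ₂`.
-/

noncomputable section

namespace BKS.Can

open NumberField IsDedekindDomain Matrix Module Pool.Agent.Lib.MP_7c08ba_nt

/-- The result, for the normalised square root of `-q`. -/
theorem rank_aux {q : ℕ} (hq : q.Prime) (h16 : q % 16 = 7) {F : Type} [Field F]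
    [NumberField F] (hF : Module.finrank ℚ F = 2) {s : F} (hs : s ^ 2 = -(q : F))
    {rs : Finset ℕ} (hrs : InertSet q rs) {b₂ : ℕ} {δ : ℤ} (hδ : δ = 1 ∨ δ = -1) {k : ℤ}
    {j J : F →+* ℚ_[2]} {σ' : ℤ_[2]} (hσ' : j s = σ') (hσ3 : PadicInt.toZModPow 3 σ' = 3) (hJ : J s = -j s)
    {ρ : AbsGal F →* Matrix.GeneralLinearGroup (Fin 1) ℚ_[2]}
    (hρ : Realises q (sI hs) (δ * 2 ^ b₂ * ((∏ r ∈ rs, r : ℕ) : ℤ)) k j J ρ)
    {L : Type} [NormedField L] [NormedAlgebra ℚ_[2] L] {V : GRep F L 1} (hVc : Continuous V)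
    (hV : ∀ g, algebraMap ℚ_[2] L (scl ρ g) = scl V g)
    (hin : ∀ (P : Ideal (AllInt F)), P.IsPrime → (2 : AllInt F) ∉ P → ∀ g ∈ inert F P,
      V g = 1 ∨ V g = -1)
    (hin' : ∀ (P : Ideal (AllInt F)), P.IsPrime → (2 : AllInt F) ∉ P → ∀ g ∈ inert F P,
      ρ g = 1 → V g = 1)
    {P₀ : Ideal (AllInt F)} (hP₀ : LiesAt J P₀) {B : ℕ} (hB : Pool.Agent.Lib.MP_7c08ba_nt.base rs ≤ B)
    (hBτ : (-1) ^ B = tau k δ) : selmerRank V P₀ ≤ B := by
  have hul : IsUltrametricDist L := BKPar.ultra_of_algebra L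
  have hch : CharZero L := charZero_of_injective_algebraMap (algebraMap ℚ_[2] L).injective
  have hq0 := hq.pos
  have htau := tau_or (k := k) hδ
  have hj4 : ‖j s + 1‖ ≤ ‖(4 : ℚ_[2])‖ := by
    have h1 : σ' - 3 ∈ RingHom.ker (PadicInt.toZModPow (p := 2) 3) := by
      rw [RingHom.mem_ker, map_sub, hσ3, map_ofNat, sub_self]
    rw [PadicInt.ker_toZModPow, Ideal.mem_span_singleton] at h1
    obtain ⟨w, hw⟩ := h1
    have h8 : ((2 : ℤ_[2]) : ℚ_[2]) = 2 := map_ofNat (PadicInt.Coe.ringHom (p := 2)) 2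
    have h3 : ((3 : ℤ_[2]) : ℚ_[2]) = 3 := map_ofNat (PadicInt.Coe.ringHom (p := 2)) 3
    have h2 : j s + 1 = 4 * ((1 + 2 * w : ℤ_[2]) : ℚ_[2]) := by
      have h4 := congrArg (fun x : ℤ_[2] => (x : ℚ_[2])) hw
      push_cast at h4
      rw [h8, h3, ← hσ'] at h4
      push_cast
      rw [h8]
      linear_combination h4
    rw [h2, norm_mul]
    exact mul_le_of_le_one_right (norm_nonneg _) (1 + 2 * w : ℤ_[2]).2
  have hJσ : J s = ((-σ' : ℤ_[2]) : ℚ_[2]) := by
    rw [hJ, hσ']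
    push_cast
    rfl
  have hσ5 : PadicInt.toZModPow 3 (-σ') = 5 := by
    rw [map_neg, hσ3]
    rfl
  have hw0 : twEl (tau k δ) b₂ s rs ≠ 0 := by
    unfold twEl
    refine mul_ne_zero (mul_ne_zero (mul_ne_zero ?_ (pow_ne_zero _ two_ne_zero))
      (s_ne_zero hq0 hs)) (prod_ne_zero' fun r hr => (hrs r hr).1)
    rcases htau with h | h <;> rw [h] <;> simp
  obtain ⟨y, hy⟩ := IsAlgClosed.exists_pow_nat_eq
    (algebraMap F (AlgebraicClosure F) (twEl (tau k δ) b₂ s rs)) (n := 2) two_pos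
  have hy0 : y ≠ 0 := by
    rintro rfl
    rw [zero_pow two_ne_zero, eq_comm, map_eq_zero_iff _ (algebraMap F _).injective] at hy
    exact hw0 hy
  have htop := agree_eq_top hq h16 hF hs (fun r hr => (hrs r hr).1) hδ hj4 hJ hρ hy
  have hcong := congSign_L hV (congSign_of_agree hy0 hy htop)
  have h2 : ‖(2 : L)‖ < 1 := BKPar.norm_two_lt L
  have hmain := twist_rank hq h16 hF hs hrs htau J hJσ hσ5 h2 hVc hy hcong
    hin
    (by
      intro P hP h2P hsP hrP g hg
      refine hin' P hP h2P g hg ?_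
      rcases hρ.inertia P hP h2P g hg with h | ⟨-, h⟩
      · exact h
      · exfalso
        rcases hP.mem_or_mem h with h1 | h1
        · apply hsP
          apply hP.mem_of_pow_mem 2
          have h3 := congrArg (algebraMap (𝓞 F) (AllInt F)) (sI_sq hs)
          rw [map_pow, map_neg, map_natCast] at h3
          rw [h3]
          exact P.neg_mem h1
        · push_cast at h1
          rcases hP.mem_or_mem h1 with h3 | h3
          · rcases hP.mem_or_mem h3 with h4 | h4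
            · apply hP.ne_top
              rw [Ideal.eq_top_iff_one]
              rcases hδ with rfl | rfl
              · simpa using h4
              · have := P.neg_mem h4
                simpa using this
            · exact h2P (hP.mem_of_pow_mem b₂ h4)
          · obtain ⟨r, hr, hrP'⟩ := (hP.prod_mem_iff).mp h3
            exact hrP r hr hrP') hP₀ hB hBτ
  rwa [one_mul] at hmain

/-- **Selmer groups of canonical Hecke characters.** -/
theorem rank_L {q : ℕ} (hq : q.Prime) (h16 : q % 16 = 7) {F : Type} [Field F]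
    [NumberField F] (hF : Module.finrank ℚ F = 2) {s : 𝓞 F} (hs : s ^ 2 = -(q : 𝓞 F))
    {D : ℤ} (hD : Squarefree D)
    (hin : ∀ r : ℕ, r.Prime → r ≠ 2 → (r : ℤ) ∣ D → ¬ IsSquare (((-q : ℤ)) : ZMod r)) {k : ℤ}
    {j J : F →+* ℚ_[2]} (hjJ : j ≠ J)
    {ρ : AbsGal F →* Matrix.GeneralLinearGroup (Fin 1) ℚ_[2]}
    (hρ : Realises q s D k j J ρ)
    {L : Type} [NormedField L] [NormedAlgebra ℚ_[2] L] {V : GRep F L 1} (hVc : Continuous V)
    (hV : ∀ g, algebraMap ℚ_[2] L (scl ρ g) = scl V g)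
    (hin₁ : ∀ (P : Ideal (AllInt F)), P.IsPrime → (2 : AllInt F) ∉ P → ∀ g ∈ inert F P,
      V g = 1 ∨ V g = -1)
    (hin₂ : ∀ (P : Ideal (AllInt F)), P.IsPrime → (2 : AllInt F) ∉ P → ∀ g ∈ inert F P,
      ρ g = 1 → V g = 1)
    {P₀ : Ideal (AllInt F)} (hP₀ : LiesAt J P₀) {B : ℕ} (hB : basicBound D ≤ B)
    (hpar : (-1) ^ B = (-1) ^ (k - 1).natAbs * D.sign) : selmerRank V P₀ ≤ B := by
  have hq0 := hq.pos
  have hD0 : D ≠ 0 := hD.ne_zero
  have hδ : D.sign = 1 ∨ D.sign = -1 := by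
    rcases lt_trichotomy D 0 with h | h | h
    · exact Or.inr (Int.sign_eq_neg_one_of_neg h)
    · exact absurd h hD0
    · exact Or.inl (Int.sign_eq_one_of_pos h)
  have hgood : InertSet q (D.natAbs.primeFactors.erase 2) := by
    intro r hr
    rw [Finset.mem_erase, Nat.mem_primeFactors] at hr
    exact ⟨hr.2.1, hr.1, hin r hr.2.1 hr.1 (Int.natCast_dvd.mpr hr.2.2.1)⟩
  obtain ⟨b₂, hdec⟩ := squarefree_decomp hD
  rw [hdec] at hρ
  rw [← base_erase] at hB
  generalize D.natAbs.primeFactors.erase 2 = rs at hgood hρ hB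
  generalize D.sign = δ at hδ hρ hpar
  have hsF : ((s : 𝓞 F) : F) ^ 2 = -(q : F) := by
    have := congrArg (fun x : 𝓞 F => algebraMap (𝓞 F) F x) hs
    simpa only [map_pow, map_neg, map_natCast] using this
  -- the two embeddings differ by a sign
  have hJj : J (s : F) = -j (s : F) := by
    have h1 : (J (s : F)) ^ 2 = (j (s : F)) ^ 2 := by
      have e1 : (J (s : F)) ^ 2 = J ((s : F) ^ 2) := (map_pow J _ 2).symm
      have e2 : (j (s : F)) ^ 2 = j ((s : F) ^ 2) := (map_pow j _ 2).symm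
      rw [e1, e2, hsF, map_neg, map_neg, map_natCast, map_natCast]
    rcases sq_eq_sq_iff_eq_or_eq_neg.mp h1 with h2 | h2
    · exfalso
      apply hjJ
      ext z
      obtain ⟨a, b, rfl⟩ := exists_coords hq0 hF hsF z
      simp only [map_add, map_mul, map_ratCast, h2]
    · exact h2
  -- the dyadic residue
  obtain ⟨σ, hσ⟩ : ∃ σ : ℤ_[2], j (s : F) = σ := ⟨⟨j s, norm_int_le_one j s⟩, rfl⟩
  have hσ2 : σ ^ 2 = -(q : ℤ_[2]) := by
    apply PadicInt.ext
    push_cast
    rw [← hσ, ← map_pow, hsF, map_neg, map_natCast]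
  have hres : PadicInt.toZModPow 3 σ = 3 ∨ PadicInt.toZModPow 3 σ = 5 := by
    have h1 := congrArg (PadicInt.toZModPow 4) hσ2
    rw [map_pow, map_neg, map_natCast] at h1
    have h2 : ((q : ℕ) : ZMod (2 ^ 4)) = 7 := by
      have : ((q : ℕ) : ZMod (2 ^ 4)) = ((7 : ℕ) : ZMod (2 ^ 4)) :=
        (ZMod.natCast_eq_natCast_iff' q 7 (2 ^ 4)).mpr (by norm_num; omega)
      rw [this]
      rfl
    rw [h2] at h1
    have h3 : ZMod.castHom (show 2 ^ 3 ∣ 2 ^ 4 by norm_num) (ZMod (2 ^ 3))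
        (PadicInt.toZModPow 4 σ) = PadicInt.toZModPow 3 σ :=
      RingHom.congr_fun (PadicInt.zmod_cast_comp_toZModPow 3 4 (by norm_num)) σ
    rw [← h3]
    generalize PadicInt.toZModPow 4 σ = r at h1
    revert h1
    revert r
    decide
  rcases hres with h3 | h5
  · have hsI : sI hsF = s := RingOfIntegers.ext rfl
    rw [← hsI] at hρ
    exact rank_aux hq h16 hF hsF hgood hδ hσ h3 hJj hρ hVc hV hin₁ hin₂ hP₀ hB hpar
  · -- replace `s` by `-s`
    have hsF' : (-(s : F)) ^ 2 = -(q : F) := by rw [neg_sq, hsF]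
    have hsI : sI hsF' = -s := by
      apply RingOfIntegers.ext
      have h : ((-s : 𝓞 F) : F) = -(s : F) := by
        rw [RingOfIntegers.coe_eq_algebraMap, map_neg]
      exact h.symm
    have hρ' : Realises q (sI hsF') (δ * 2 ^ b₂ * ((∏ r ∈ rs, r : ℕ) : ℤ)) k j J ρ := by
      refine ⟨hρ.continuous, hρ.inertia, ?_⟩
      intro P hP h2P g hg N t a ht hst
      rw [hsI, neg_dvd] at hst
      exact hρ.frobenius P hP h2P g hg N t a ht hst
    refine rank_aux hq h16 hF hsF' hgood hδ (σ' := -σ) ?_ ?_ ?_ hρ' hVc hV hin₁ hin₂ hP₀ hB hpar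
    · rw [map_neg, hσ]
      push_cast
      rfl
    · rw [map_neg, h5]
      rfl
    · rw [map_neg, map_neg, hJj]

end BKS.Can
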