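import Mathlib
import Pool.Agent.Lib.MP_7c08ba_nt.BK.Can
import Pool.Agent.Lib.MP_7c08ba_nt.CN.PAll
import Pool.Agent.Lib.MP_7c08ba_nt.CN.OAll

set_option autoImplicit false
set_option linter.unusedSectionVars false

/-!
The central values of the odd powers of canonical Hecke characters.
-/

noncomputable section

namespace BKS.CanL

open NumberField IsDedekindDomain Pool.Agent.Lib.MP_7c08ba_nt

section

variable {F : Type} [Field F] [NumberField F] {q : ℕ}

theorem nv_ne (v : Pl F) : (nv v : ℂ) ≠ 0 := by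
  have h : nv v ≠ 0 := by
    unfold nv nm
    rw [Ne, Ideal.absNorm_eq_zero_iff]
    exact v.ne_bot
  exact_mod_cast h

/-- the two forms of the Euler product -/
theorem isLHec_iff (φ : Hec F q) (Φ : Ideal (𝓞 F) →*₀ ℂ)
    (hΦ : ∀ v : Pl F, Φ v.asIdeal = kro φ.D (nv v) * φ.ψ v.asIdeal ^ (2 * φ.k - 1))
    (Λ : ℂ → ℂ) : CN.IsLF Φ φ.k Λ ↔ IsLHec φ Λ := by
  have key : ∀ (z : ℂ) (v : Pl F),
      Φ v.asIdeal * (Ideal.absNorm v.asIdeal : ℂ) ^ (-((φ.k : ℂ) + z)) =
        val φ v * (nv v : ℂ) ^ (-z) := by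
    intro z v
    have h1 : (Ideal.absNorm v.asIdeal : ℂ) = (nv v : ℂ) := rfl
    rw [h1, neg_add, Complex.cpow_add _ _ (nv_ne v), Complex.cpow_neg, Complex.cpow_natCast, hΦ]
    unfold val
    ring
  constructor
  · intro h
    refine ⟨h.differentiable, fun z hz => ?_⟩
    have := h.euler z hz
    simp only [key] at this
    exact this
  · intro h
    refine ⟨h.diff, fun z hz => ?_⟩
    simp only [key]
    exact h.euler z hz

/-- uniqueness -/
theorem unique {φ : Hec F q} {Λ Λ' : ℂ → ℂ} (h : IsLHec φ Λ) (h' : IsLHec φ Λ') : Λ 0 = Λ' 0 := by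
  have hop : IsOpen {z : ℂ | -1 / 2 < z.re} := isOpen_lt continuous_const Complex.continuous_re
  have hc : IsPreconnected {z : ℂ | -1 / 2 < z.re} :=
    (convex_halfSpace_re_gt _).isPreconnected
  have h2 : Λ =ᶠ[nhds (2 : ℂ)] Λ' := by
    have h3 : {z : ℂ | 1 < z.re} ∈ nhds (2 : ℂ) :=
      (isOpen_lt continuous_const Complex.continuous_re).mem_nhds (by simp)
    filter_upwards [h3] with z hz
    exact (h.euler z hz).unique (h'.euler z hz)
  have h4 := (h.diff.analyticOnNhd hop).eqOn_of_preconnected_of_eventuallyEq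
    (h'.diff.analyticOnNhd hop) hc (z₀ := 2) (by simp; norm_num) h2
  exact h4 (by simp; norm_num)

theorem central {φ : Hec F q} {Λ : ℂ → ℂ} (h : IsLHec φ Λ) (h0 : Λ 0 ≠ 0) : CentralNZ φ :=
  ⟨⟨Λ, h⟩, fun _ h' => unique h h' ▸ h0⟩

/-- the field -/
theorem exists_s (hq : q.Prime) (h16 : q % 16 = 7) (hF : IsQuad F q) :
    ∃ s : 𝓞 F, RZC.FieldC q F (s : F) ∧ s ^ 2 = -(q : 𝓞 F) := by
  obtain ⟨hfin, s₀, hs₀⟩ := hF
  obtain ⟨s, hs⟩ : ∃ s : 𝓞 F, (s : F) = s₀ := by
    have : IsIntegral ℤ s₀ := by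
      refine ⟨Polynomial.X ^ 2 + Polynomial.C (q : ℤ), ?_, ?_⟩
      · exact Polynomial.monic_X_pow_add_C _ two_ne_zero
      · simp [hs₀]
    exact ⟨⟨s₀, this⟩, rfl⟩
  refine ⟨s, ⟨hq, h16, hfin, by rw [hs]; exact hs₀⟩, ?_⟩
  apply RingOfIntegers.ext
  simp only [map_pow, map_neg, map_natCast]
  exact (congrArg (· ^ 2) hs).trans hs₀

theorem isCan (φ : Hec F q) {s : 𝓞 F} (hs : s ^ 2 = -(q : 𝓞 F)) :
    CN.IsCan q s φ.σ 1 φ.ψ := by
  intro t a ht hta
  rw [pow_one]
  exact φ.canon s t a hs ht hta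

/-- the character modulo 4 as a homomorphism of monoids with zero -/
def c4h : ℤ →*₀ ℂ where
  toFun := CN.c4
  map_zero' := by
    unfold CN.c4
    simp
  map_one' := by
    unfold CN.c4
    simp
  map_mul' a b := by
    unfold CN.c4
    push_cast
    rw [map_mul]
    push_cast
    ring

/-- the character for even `k` -/
def chO (ψ : Chr F) (m : ℕ) (hm : m ≠ 0) : Chr F :=
  (c4h.comp ((Nat.castRingHom ℤ).toMonoidWithZeroHom.comp
    (Ideal.absNorm : Ideal (𝓞 F) →*₀ ℕ))) * CN.pw ψ m hm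

theorem chO_apply (ψ : Chr F) (m : ℕ) (hm : m ≠ 0) (a : Idl F) :
    chO ψ m hm a = CN.c4 (nm a : ℤ) * ψ a ^ m := rfl

theorem kro_neg_one (n : ℕ) : (kro (-1) n : ℂ) = CN.c4 n := by
  unfold kro CN.c4
  rw [if_neg (by decide)]
  split_ifs with h
  · have h1 : ((n : ℤ) : ZMod 4) = 0 ∨ ((n : ℤ) : ZMod 4) = 2 := by
      have h2 : n % 4 = 0 ∨ n % 4 = 2 := by omega
      rcases h2 with h2 | h2
      · left
        have : ((n : ℕ) : ZMod 4) = ((0 : ℕ) : ZMod 4) := by
          rw [ZMod.natCast_eq_natCast_iff']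
          omega
        simpa using this
      · right
        have : ((n : ℕ) : ZMod 4) = ((2 : ℕ) : ZMod 4) := by
          rw [ZMod.natCast_eq_natCast_iff']
          omega
        simpa using this
    rcases h1 with h1 | h1 <;> rw [h1]
    · simp
    · have : ZMod.χ₄ 2 = 0 := by decide
      rw [this]
  · rw [jacobiSym.at_neg_one (Nat.odd_iff.2 (by omega))]
    simp

theorem c4_cases {n : ℤ} (h : n % 2 = 1) : CN.c4 n = 1 ∨ CN.c4 n = -1 := by
  unfold CN.c4
  have h2 : n % 4 = 1 ∨ n % 4 = 3 := by omega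
  rcases h2 with h2 | h2
  · left
    have : ((n : ℤ) : ZMod 4) = ((1 : ℤ) : ZMod 4) := by
      rw [ZMod.intCast_eq_intCast_iff']
      exact h2
    rw [this]
    simp
  · right
    have : ((n : ℤ) : ZMod 4) = ((3 : ℤ) : ZMod 4) := by
      rw [ZMod.intCast_eq_intCast_iff']
      exact h2
    rw [this]
    have h3 : ZMod.χ₄ ((3 : ℤ) : ZMod 4) = -1 := by decide
    rw [h3]
    simp

end

end BKS.CanL

namespace BKS

open NumberField IsDedekindDomain BKS.CanL Pool.Agent.Lib.MP_7c08ba_nt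

theorem stL : StL := by
  intro q F _ _ hq h16 hF φ hD
  obtain ⟨s, hC, hs⟩ := exists_s hq h16 hF
  have hcan := isCan φ hs
  have hk1 := φ.pos
  rcases Nat.even_or_odd' (φ.k - 1) with ⟨j, hj | hj⟩
  · -- `k` odd
    obtain ⟨Λ, hΛ, h0⟩ := CN.canonical q F s φ.σ φ.ψ hC hcan j
    have hk : φ.k = 2 * j + 1 := by omega
    have hD1 : φ.D = 1 := by rw [hD, hj, pow_mul]; simp
    refine central ((isLHec_iff φ (CN.pw φ.ψ (4 * j + 1) (by omega)) ?_ Λ).1 ?_) h0
    · intro v
      have h1 : CN.pw φ.ψ (4 * j + 1) (by omega) v.asIdeal = φ.ψ v.asIdeal ^ (4 * j + 1) := rfl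
      have h2 : kro φ.D (nv v) = 1 := by
        rw [hD1]
        unfold kro
        rw [if_pos (by decide)]
        exact jacobiSym.one_right _
      have h3 : 4 * j + 1 = 2 * φ.k - 1 := by omega
      rw [h1, h2, h3]
      simp
    · rw [hk]
      exact hΛ
  · -- `k` even
    have hk : φ.k = 2 * j + 2 := by omega
    have hD1 : φ.D = -1 := by
      rw [hD, hj, pow_succ, pow_mul]
      simp
    obtain ⟨A, hA, hres⟩ := CN.stEx q F _ _ s φ.σ φ.ψ hC hcan
    have hm : 2 * (2 * j + 1) + 1 ≠ 0 := by omega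
    obtain ⟨Λ, hΛ, h0⟩ := CN.aNVO q F _ _ s φ.σ A j (chO φ.ψ (2 * (2 * j + 1) + 1) hm) hC hA
      (by
        intro t a ht hta
        rw [chO_apply, hcan t a ht hta, pow_one, mul_pow]
        have h1 : ((jacobiSym a q : ℤ) : ℂ) ^ (2 * (2 * j + 1) + 1) = (jacobiSym a q : ℂ) := by
          rcases jacobiSym.trichotomy a q with h | h | h <;> rw [h]
          · simp
          · simp
          · have : Odd (2 * (2 * j + 1) + 1) := ⟨2 * j + 1, rfl⟩
            push_cast
            exact this.neg_one_pow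
        rw [h1]
        unfold nm
        ring)
      (by
        intro a ha hac
        rw [chO_apply]
        have h1 : φ.ψ a ^ (2 * (2 * j + 1) + 1) - 1 ∈ A.nonunits :=
          RZC.nonunits_pow_sub_one (hres a ha hac) _
        have h2 : ((nm a : ℕ) : ℤ) % 2 = 1 := by
          have h3 : nm a % 2 = 1 := Nat.odd_iff.1 ha
          omega
        rcases c4_cases h2 with h | h
        · rw [h, one_mul]
          exact h1
        · rw [h]
          have h4 : (-1 : ℂ) * φ.ψ a ^ (2 * (2 * j + 1) + 1) - 1 =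
              -(φ.ψ a ^ (2 * (2 * j + 1) + 1) - 1) - 2 := by ring
          rw [h4]
          exact RZC.nonunits_sub (RZC.nonunits_neg h1) hA)
    refine central ((isLHec_iff φ (chO φ.ψ (2 * (2 * j + 1) + 1) hm) ?_ Λ).1 ?_) h0
    · intro v
      have h3 : 2 * (2 * j + 1) + 1 = 2 * φ.k - 1 := by omega
      rw [chO_apply, hD1, kro_neg_one, h3]
      rfl
    · rw [hk]
      exact hΛ

end BKS
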