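import Pool.Agent.Lib.MP_7c08ba_nt.BK.CanT
import Pool.Agent.Lib.MP_7c08ba_nt.CN.T.All

set_option autoImplicit false

/-!
The central values of the quadratic twists of the odd powers of canonical Hecke characters: the
theorem, and the bound for the Selmer group in this case.
-/

noncomputable section

namespace BKS

/-- **The central values of the twists.** -/
theorem stLT' : StLT := stLT Pool.Agent.Lib.MP_7c08ba_nt.CN.TW.aNVT

namespace CanT

/-- the product of numbers which are `1` or `5` modulo `8` -/
theorem prod_mod (s : Finset ℕ) (h : ∀ r ∈ s, r % 4 = 1) :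
    (∏ r ∈ s, r) % 8 = if (s.filter (fun r => r % 8 = 5)).card % 2 = 0 then 1 else 5 := by
  classical
  induction s using Finset.induction_on with
  | empty => simp
  | insert a s ha ih =>
    have ih' := ih fun r hr => h r (Finset.mem_insert_of_mem hr)
    have h4 : a % 4 = 1 := h a (Finset.mem_insert_self a s)
    rw [Finset.prod_insert ha, Nat.mul_mod, ih', Finset.filter_insert]
    have h8 : a % 8 = 1 ∨ a % 8 = 5 := by omega
    rcases h8 with h8 | h8
    · have h1 : ¬ a % 8 = 5 := by omega
      rw [if_neg h1, h8]
      split_ifs <;> rfl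
    · rw [if_pos h8, Finset.card_insert_of_notMem (by simp [ha]), h8]
      split_ifs <;> first | rfl | omega

theorem bnd_eq {D : ℤ} (hr4 : ∀ r : ℕ, r.Prime → (r : ℤ) ∣ D → r % 4 = 1)
    (h8 : D.natAbs % 8 = 1) (hsq : Squarefree D) : bnd D = 0 := by
  have h : ∀ r ∈ D.natAbs.primeFactors, r % 4 = 1 := fun r hr =>
    hr4 r (Nat.prime_of_mem_primeFactors hr)
      (Int.natCast_dvd.2 (Nat.dvd_of_mem_primeFactors hr))
  have h7 : numPr D 7 = 0 := by
    unfold numPr
    rw [Finset.card_eq_zero, Finset.filter_eq_empty_iff]
    intro r hr hr7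
    have := h r hr
    omega
  have h3 : numPr D 3 = 0 := by
    unfold numPr
    rw [Finset.card_eq_zero, Finset.filter_eq_empty_iff]
    intro r hr hr3
    have := h r hr
    omega
  have h5 : numPr D 5 % 2 = 0 := by
    have h1 := prod_mod _ h
    rw [Nat.prod_primeFactors_of_squarefree (Int.squarefree_natAbs.2 hsq), h8] at h1
    unfold numPr
    by_contra h2
    rw [if_neg h2] at h1
    omega
  unfold bnd
  rw [h7, h3, if_pos rfl, h5]

end CanT

end BKS
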