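import Mathlib
import Pool.Agent.Lib.MP_7c08ba_nt.Glob.Final2

set_option autoImplicit false

/-!
Vanishing of the local condition `H¹_f` at a place with `D_dR = Fil⁰`, `p = 2`.
-/

noncomputable section

namespace BKS.Can

open BKGen BKGen.Genus NumberField Pool.Agent.Lib.MP_7c08ba_nt Matrix MP_7c08ba.Crys TensorProduct
  BKGlob

section

variable {F : Type} [Field F] [NumberField F] {q : ℕ} {s : F}
variable {L : Type} [NormedField L] [NormedAlgebra ℚ_[2] L] [FiniteDimensional ℚ_[2] L] {n : ℕ}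

/-- abstract form: `H¹_f` vanishes if `r = 0` -/
theorem vanish_of_pair (hq : BKPar.FieldHyp q F s) (ι : AlgebraicClosure F →+* PadicAlgCl 2)
    (σ σ' : BKPar.D F ι →* GL (Fin n) L) (hσ : Continuous σ) (hσ' : Continuous σ')
    (hu : BKPar.ResUni σ) (hu' : BKPar.ResUni σ')
    (hdual : ∀ g, (σ g : Matrix (Fin n) (Fin n) L)ᵀ * (σ' g : Matrix (Fin n) (Fin n) L) =
      BKOdd.chL (cycD F ι) L g • (1 : Matrix (Fin n) (Fin n) L))
    (hinv : ∀ v : Fin n → L, (∀ g, (σ g : Matrix (Fin n) (Fin n) L) *ᵥ v = v) → v = 0)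
    (hinv' : ∀ v : Fin n → L, (∀ g, (σ' g : Matrix (Fin n) (Fin n) L) *ᵥ v = v) → v = 0)
    {Zf : (BKPar.D F ι →* GL (Fin n) L) → Submodule L (BKPar.D F ι → Fin n → L)} {r' : ℕ}
    (hH : BKOdd.HodgePair (BKOdd.chL (cycD F ι) L) Zf σ σ' 0 r') : Zf σ ≤ BKOdd.B1 σ := by
  have hdual' : ∀ g, (σ' g : Matrix (Fin n) (Fin n) L)ᵀ * (σ g : Matrix (Fin n) (Fin n) L) =
      BKOdd.chL (cycD F ι) L g • (1 : Matrix (Fin n) (Fin n) L) := by
    intro g
    have h1 := congrArg Matrix.transpose (hdual g)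
    rwa [Matrix.transpose_mul, Matrix.transpose_transpose, Matrix.transpose_smul,
      Matrix.transpose_one] at h1
  obtain ⟨h1', h2', h3'⟩ := BKND.final q F s hq ι L n σ' σ hσ' hσ hu' hu hdual' hinv
  obtain ⟨hf', hd'⟩ := finrank_H1_le hσ' (n := n) h1' h2' hinv'
  obtain ⟨E, hE, hE1, hE2⟩ := hH.right
  have hr' := hE1 hf'
  have hn := hH.le
  have htop : BKOdd.cls σ' E = ⊤ := by
    apply Submodule.eq_top_of_finrank_eq
    have h4 := Submodule.finrank_le (BKOdd.cls σ' E)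
    omega
  intro x hx
  have hxZ : x ∈ BKOdd.Z1 σ := hH.zz hx
  refine h3' x hxZ fun y hy => (mem_CB2_iff _ _).2 ?_
  have h5 : ((BKOdd.B1 σ').submoduleOf (BKOdd.Z1 σ')).mkQ ⟨y, hy⟩ ∈ BKOdd.cls σ' E := by
    rw [htop]
    exact Submodule.mem_top
  rw [BKOdd.mem_cls] at h5
  obtain ⟨e, he, heE, h6⟩ := h5
  rw [Submodule.mkQ_apply, Submodule.mkQ_apply, Submodule.Quotient.eq] at h6
  obtain ⟨v, hv⟩ := h6
  have h7 : y = e - BKOdd.cob σ' v := by
    have h8 : BKOdd.cob σ' v = e - y := hv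
    rw [h8, sub_sub_cancel]
  have h8 : BKOdd.cupV σ y x = BKOdd.cupV σ e x - BKOdd.cupV σ (BKOdd.cob σ' v) x := by
    rw [h7]
    funext g h
    simp only [BKOdd.cupV, Pi.sub_apply, sub_dotProduct]
  change BKOdd.cupV σ y x ∈ CC.B2 (BKOdd.chL (cycD F ι) L)
  rw [h8]
  exact Submodule.sub_mem _ (hE2 e heE x hx) (BKOdd.cup_cob_left hdual' v hxZ)

/-- **Vanishing of `H¹_f` at the place `ι`** -/
theorem local_zero (hq : BKPar.FieldHyp q F s)
    (ι : AlgebraicClosure F →+* PadicAlgCl 2)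
    (c : AlgebraicClosure F ≃+* AlgebraicClosure F) (σ : F ≃+* F) (hcs : BKOdd.ConjHyp c σ)
    (hcs' : BKPar.ConjHyp s c σ)
    (ρ : AbsGal F →* GL (Fin n) L) (hρ : Continuous ρ) (hres : BKPar.ResUni ρ)
    (b : GL (Fin n) L)
    (hpair : ∀ g, (ρ g : Matrix (Fin n) (Fin n) L)ᵀ * (b : Matrix (Fin n) (Fin n) L) *
      (ρ (BKPar.conj c σ hcs.h g) : Matrix (Fin n) (Fin n) L) =
        BKOdd.chL (BKOdd.cyc 2 F) L g • (b : Matrix (Fin n) (Fin n) L))
    (hDR : BKOdd.DeRhamAt ι ρ) (hF : BKOdd.FrobAt ⊤ ι ρ)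
    (hF' : BKOdd.FrobAt ⊤ (ι.comp (c : AlgebraicClosure F →+* AlgebraicClosure F)) ρ)
    (h0 : BKOdd.tdim ι ρ = 0) :
    MP_7c08ba.Crys.Zf (lift F ι) (ρ.comp (BKPar.D F ι).subtype) ≤
      BKOdd.B1 (ρ.comp (BKPar.D F ι).subtype) := by
  have hAdm := BKPar.stAdm
  have hs0 : s ≠ 0 := s_ne_zero hq
  obtain ⟨hτc, hτ2, hτR, hτχ, hi⟩ := BKPar.stConj hAdm F s c σ hcs' hs0
  have hpair' : ∀ g, (ρ g : Matrix (Fin n) (Fin n) L)ᵀ * (b : Matrix (Fin n) (Fin n) L) *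
      (ρ (BKPar.conj c σ hcs'.h g) : Matrix (Fin n) (Fin n) L) =
        BKPar.chi (BKPar.cyc F) L g • (b : Matrix (Fin n) (Fin n) L) := hpair
  have hσc : Continuous (ρ.comp (BKPar.D F ι).subtype) := hρ.comp continuous_subtype_val
  have hσc' : Continuous (BKND.Pol.cj b (rhoT ι hcs' ρ)) :=
    BKND.Pol.cj_continuous b ((hρ.comp hτc).comp continuous_subtype_val)
  have hdual := dual_cj ι c σ hcs' ρ b hpair'
  have hP := pure_dec ι ρ hF
  have hP' := pure_cj ι hcs hcs' ρ b hF'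
  have hχ : ∀ g, BKOdd.chL (cycD F ι) L g = algebraMap ℚ_[2] L (chiQ (lift F ι g)) := by
    intro g
    have h1 := (BKOdd.stCycL 2).2.2 F ι (g : AbsGal F) (lift F ι g) (lift_spec ι g)
    have h2 : BKOdd.chL (cycD F ι) L g = algebraMap ℚ_[2] L
      (((BKOdd.cyc 2 F (g : AbsGal F) : ℤ_[2]ˣ) : ℤ_[2]) : ℚ_[2]) := rfl
    rw [h2, h1]
    rfl
  have hχc : Continuous (BKOdd.chL (cycD F ι) L) :=
    BKOdd.continuous_chL' (cycD F ι)
      ((BKPar.stCycR hAdm (BKPar.stSq hAdm) F).1.comp continuous_subtype_val) L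
  obtain ⟨r, r', hH, hr1, hr2, hr1', hr2'⟩ := hodgePair (lift F ι) (continuous_lift ι)
    (ρ.comp (BKPar.D F ι).subtype) (BKND.Pol.cj b (rhoT ι hcs' ρ)) hσc hσc'
    (BKOdd.chL (cycD F ι) L) hχ hχc hdual (isDR_dec ι ρ hDR) hP hP'
  have hinv : ∀ v : Fin n → L, (∀ g : BKPar.D F ι,
      ((ρ.comp (BKPar.D F ι).subtype) g : Matrix (Fin n) (Fin n) L) *ᵥ v = v) → v = 0 :=
    fun v hv => BKOdd.eq_zero_of_phSub (lift F ι) (rp (ρ.comp (BKPar.D F ι).subtype)) hP v hv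
  have hinv' : ∀ v : Fin n → L, (∀ g : BKPar.D F ι,
      (BKND.Pol.cj b (rhoT ι hcs' ρ) g : Matrix (Fin n) (Fin n) L) *ᵥ v = v) → v = 0 :=
    fun v hv => BKOdd.eq_zero_of_phSub (lift F ι) (rp (BKND.Pol.cj b (rhoT ι hcs' ρ))) hP' v hv
  have hu : BKPar.ResUni (ρ.comp (BKPar.D F ι).subtype) := fun g i => hres g i
  have hu' : BKPar.ResUni (BKND.Pol.cj b (rhoT ι hcs' ρ)) :=
    BKND.Pol.cj_resUni b fun g i => hres _ i
  have hZ : FiniteDimensional L (BKOdd.Z1 (ρ.comp (BKPar.D F ι).subtype)) :=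
    (BKND.final q F s hq ι L n _ _ hσc hσc' hu hu' hdual hinv').1
  have hfin : FiniteDimensional L (BKOdd.cls (ρ.comp (BKPar.D F ι).subtype)
      (MP_7c08ba.Crys.Zf (lift F ι) (ρ.comp (BKPar.D F ι).subtype))) := inferInstance
  have hr0 : r = 0 := by
    rw [tdim_dec, Cardinal.toNat_eq_zero] at h0
    rcases h0 with h | h
    · rw [h] at hr1
      have : (r : Cardinal) = 0 := le_antisymm hr1 zero_le
      exact_mod_cast this
    · exfalso
      have h1 := h.trans hr2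
      rw [← Module.finrank_eq_rank] at h1
      exact absurd h1 (not_le.2 (Cardinal.natCast_lt_aleph0))
  subst hr0
  exact vanish_of_pair hq ι _ _ hσc hσc' hu hu' hdual hinv hinv' hH

end

end BKS.Can
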