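import Mathlib
import Pool.Agent.Lib.MP_7c08ba_nt.BK.CanHk
import Pool.Agent.Lib.MP_7c08ba_nt.BK.CanLoc
import Pool.Agent.Lib.MP_7c08ba_nt.BK.Tr

set_option autoImplicit false
set_option linter.unusedSectionVars false

/-!
The Selmer group of the realisation of a canonical Hecke character.
-/

noncomputable section

namespace BKS

open NumberField IsDedekindDomain Matrix Module BKGen BKGen.Genus Pool.Agent.Lib.MP_7c08ba_nt

namespace Can

section Quot

variable {F : Type} [Field F] [NumberField F] {L : Type} [NormedField L] {n : ℕ}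

/-- comparison of the Selmer groups -/
theorem finrank_cls_le (V : AbsGal F →* GL (Fin n) L) (P₀ : Ideal (AllInt F))
    (S : Submodule L (AbsGal F → Fin n → L)) (hS : S ≤ selmer V P₀) {B : ℕ}
    (h : selmerRank V P₀ ≤ B) :
    FiniteDimensional L (BKOdd.cls V S) ∧ Module.finrank L (BKOdd.cls V S) ≤ B := by
  have hZ : selmer V P₀ ≤ BKOdd.Z1 V := fun x hx => hx.1.1
  let f : selmer V P₀ →ₗ[L] BKOdd.H1 V :=
    ((BKOdd.B1 V).submoduleOf (BKOdd.Z1 V)).mkQ.comp (Submodule.inclusion hZ)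
  have hker : LinearMap.ker f = (coboundOn V ⊤).submoduleOf (selmer V P₀) := by
    ext x
    rw [LinearMap.mem_ker, LinearMap.comp_apply, Submodule.mkQ_apply,
      Submodule.Quotient.mk_eq_zero]
    constructor
    · rintro ⟨v, hv⟩
      refine ⟨v, fun g _ => ?_⟩
      exact (congrFun hv g).symm
    · rintro ⟨v, hv⟩
      refine ⟨v, ?_⟩
      funext g
      exact (hv g (Subgroup.mem_top g)).symm
  have hrk : Module.rank L (LinearMap.range f) ≤ B := by
    have h1 := f.quotKerEquivRange.rank_eq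
    rw [← h1, hker]
    exact h
  have hle : BKOdd.cls V S ≤ LinearMap.range f := by
    intro ξ hξ
    rw [BKOdd.mem_cls] at hξ
    obtain ⟨x, hx, hxS, rfl⟩ := hξ
    exact ⟨⟨x, hS hxS⟩, rfl⟩
  have hrk' : Module.rank L (BKOdd.cls V S) ≤ B := (Submodule.rank_mono hle).trans hrk
  have hfd : FiniteDimensional L (BKOdd.cls V S) :=
    Module.rank_lt_aleph0_iff.1 (hrk'.trans_lt (Cardinal.natCast_lt_aleph0))
  refine ⟨hfd, ?_⟩
  rw [← Module.finrank_eq_rank] at hrk'
  exact_mod_cast hrk'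

end Quot

section Frob

variable {F : Type} [Field F] [NumberField F] {q : ℕ}

/-- the square of the absolute value of a complex embedding -/
theorem norm_sigma (hq : q.Prime) (hF : Module.finrank ℚ F = 2) {s : F} (hs : s ^ 2 = -(q : F))
    (σ : F →+* ℂ) (t : 𝓞 F) : ‖σ (t : F)‖ ^ 2 = (((Algebra.norm ℤ t).natAbs : ℕ) : ℝ) := by
  obtain ⟨A, B, hAB⟩ := exists_int_coords hq.pos hF hs hq t.isIntegral_coe
  have h1 := four_norm hq.pos hF hs hAB
  have h2 : (2 : ℂ) * σ (t : F) = A + B * σ s := by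
    have h := congrArg σ hAB
    rwa [map_mul, map_ofNat, map_add, map_mul, map_intCast, map_intCast] at h
  have h3 : (σ s) ^ 2 = -(q : ℂ) := by rw [← map_pow, hs, map_neg, map_natCast]
  have hq0 : (0 : ℝ) < q := by exact_mod_cast hq.pos
  -- `σ s` is purely imaginary
  have h4 : (σ s).re = 0 ∧ (σ s).im ^ 2 = q := by
    have h5 := congrArg Complex.re h3
    have h6 := congrArg Complex.im h3
    rw [sq, Complex.mul_re] at h5
    rw [sq, Complex.mul_im] at h6
    simp only [Complex.neg_re, Complex.natCast_re, Complex.neg_im, Complex.natCast_im,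
      neg_zero] at h5 h6
    have h7 : (σ s).re * (σ s).im = 0 := by linarith
    rcases mul_eq_zero.1 h7 with h8 | h8
    · refine ⟨h8, ?_⟩
      rw [h8] at h5
      linarith
    · exfalso
      rw [h8] at h5
      nlinarith [sq_nonneg (σ s).re]
  have h5 : ‖(2 : ℂ) * σ (t : F)‖ ^ 2 = (A : ℝ) ^ 2 + q * (B : ℝ) ^ 2 := by
    rw [h2, Complex.sq_norm, Complex.normSq_apply]
    simp only [Complex.add_re, Complex.intCast_re, Complex.mul_re, Complex.intCast_im, h4.1,
      Complex.add_im, Complex.mul_im]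
    have := h4.2
    ring_nf
    rw [this]
  have h6 : (((Algebra.norm ℤ t).natAbs : ℕ) : ℤ) = Algebra.norm ℤ t :=
    Int.natAbs_of_nonneg (norm_nonneg' hq hF hs t)
  have h7 : (4 : ℝ) * (((Algebra.norm ℤ t).natAbs : ℕ) : ℝ) = (A : ℝ) ^ 2 + q * (B : ℝ) ^ 2 := by
    rw [← h6] at h1
    generalize (Algebra.norm ℤ t).natAbs = N at h1 ⊢
    exact_mod_cast h1
  rw [norm_mul, mul_pow] at h5
  have h8 : ‖(2 : ℂ)‖ ^ 2 = 4 := by norm_num
  rw [h8, ← h7] at h5
  linarith

/-- the value at a place is not one -/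
theorem val_ne_one (hq : q.Prime) (h16 : q % 16 = 7) (hF : Module.finrank ℚ F = 2) {s : 𝓞 F}
    (hs : s ^ 2 = -(q : 𝓞 F)) (φ : Hec F q) (v : Pl F) : val φ v ≠ 1 := by
  intro h
  have hv1 : 1 < nv v := by
    have h1 : nv v ≠ 0 := (Ideal.absNorm_ne_zero_iff _).2
      (Ideal.finiteQuotientOfFreeOfNeBot v.asIdeal v.ne_bot)
    have h2 : nv v ≠ 1 := fun h => v.isPrime.ne_top (Ideal.absNorm_eq_one_iff.1 h)
    omega
  obtain ⟨N, hN, t, ht⟩ : ∃ N : ℕ, 0 < N ∧ ∃ t : 𝓞 F, v.asIdeal ^ N = Ideal.span {t} := by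
    have hIn : v.asIdeal ∈ nonZeroDivisors (Ideal (𝓞 F)) := mem_nonZeroDivisors_of_ne_zero v.ne_bot
    have h1 : ClassGroup.mk0 ⟨v.asIdeal, hIn⟩ ^ Fintype.card (ClassGroup (𝓞 F)) = 1 :=
      pow_card_eq_one
    rw [← map_pow, ClassGroup.mk0_eq_one_iff] at h1
    obtain ⟨a, ha⟩ := h1.principal
    exact ⟨_, Fintype.card_pos, a, ha⟩
  have ht0 : t ≠ 0 := by
    rintro rfl
    have h1 : v.asIdeal ^ N ≠ ⊥ := pow_ne_zero N v.ne_bot
    apply h1
    rw [ht, Ideal.span_singleton_eq_bot]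
  have hsI : sI (coe_s hs) = s := RingOfIntegers.ext rfl
  obtain ⟨a, ha⟩ := exists_res hq.pos hF (coe_s hs) hq (by omega) t
  rw [hsI, Ideal.mem_span_singleton] at ha
  have hψ : φ.ψ v.asIdeal ^ N = (jacobiSym a q : ℂ) * φ.σ t := by
    rw [← map_pow, ht]
    exact φ.canon s t a hs ht0 ha
  have hn : nv v ^ N = (Algebra.norm ℤ t).natAbs := by
    have h1 := congrArg Ideal.absNorm ht
    rw [map_pow, Ideal.absNorm_span_singleton] at h1
    exact h1
  have hsgn : ∀ m : ℤ, (m = 0 ∨ m = 1 ∨ m = -1) → ‖(m : ℂ)‖ ≤ 1 := by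
    rintro m (rfl | rfl | rfl) <;> simp
  have hkro : kro φ.D (nv v) = 0 ∨ kro φ.D (nv v) = 1 ∨ kro φ.D (nv v) = -1 := by
    unfold kro
    split_ifs
    · exact jacobiSym.trichotomy _ _
    · exact Or.inl rfl
    · exact jacobiSym.trichotomy _ _
  have hk := φ.pos
  have hnv : (1 : ℝ) < nv v := by exact_mod_cast hv1
  -- absolute values
  have h1 : ‖φ.ψ v.asIdeal‖ ^ (2 * N) ≤ (nv v : ℝ) ^ N := by
    rw [mul_comm, pow_mul, ← norm_pow, hψ, norm_mul, mul_pow, norm_sigma hq hF (coe_s hs), ← hn]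
    push_cast
    refine mul_le_of_le_one_left (by positivity) ?_
    exact pow_le_one₀ (norm_nonneg _) (hsgn _ (jacobiSym.trichotomy a q))
  have h2 : ‖φ.ψ v.asIdeal‖ ^ 2 ≤ (nv v : ℝ) := by
    rw [pow_mul] at h1
    exact le_of_pow_le_pow_left₀ hN.ne' (by positivity) h1
  have h3 : (kro φ.D (nv v) : ℂ) * φ.ψ v.asIdeal ^ (2 * φ.k - 1) = (nv v : ℂ) ^ φ.k := by
    have h4 : (nv v : ℂ) ^ φ.k ≠ 0 := pow_ne_zero _ (by exact_mod_cast (by omega : nv v ≠ 0))
    unfold val at h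
    rwa [div_eq_one_iff_eq h4] at h
  have h4 := congrArg (fun z : ℂ => ‖z‖ ^ 2) h3
  simp only [norm_mul, norm_pow, Complex.norm_natCast, mul_pow] at h4
  have h5 : (‖φ.ψ v.asIdeal‖ ^ (2 * φ.k - 1)) ^ 2 ≤ (nv v : ℝ) ^ (2 * φ.k - 1) := by
    rw [← pow_mul, mul_comm, pow_mul]
    exact pow_le_pow_left₀ (by positivity) h2 _
  have h6 : ((nv v : ℝ) ^ φ.k) ^ 2 ≤ (nv v : ℝ) ^ (2 * φ.k - 1) := by
    rw [← h4]
    refine (mul_le_of_le_one_left (by positivity) ?_).trans h5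
    exact pow_le_one₀ (norm_nonneg _) (hsgn _ hkro)
  rw [← pow_mul] at h6
  have h7 := (pow_le_pow_iff_right₀ hnv).1 h6
  omega

/-- the place below an embedding -/
theorem exists_below (j : Emb 2 F) : ∃ v : Pl F, Below j v :=
  ⟨spec (j.comp (algebraMap F (AlgebraicClosure F))), fun _ => Iff.rfl⟩

variable {L : Type} [NormedField L] [NormedAlgebra ℚ_[2] L] [NormedAlgebra L (PadicAlgCl 2)]

/-- Frobenius minus one is bijective -/
theorem frobAt (hq : q.Prime) (h16 : q % 16 = 7) (hF : Module.finrank ℚ F = 2) {s : 𝓞 F}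
    (hs : s ^ 2 = -(q : 𝓞 F)) (φ : Hec F q) {ι : ℂ →+* PadicAlgCl 2} {V : GRep F L 1}
    (hV : IsRealHec ι φ V) (j : Emb 2 F) : FrobAt V ⊤ j := by
  obtain ⟨v, hv⟩ := exists_below j
  obtain ⟨t, ht, hb⟩ := hV.crys j v hv
  have ht1 : t - 1 ≠ 0 := by
    intro h
    have h1 : t = 1 := by rwa [sub_eq_zero] at h
    rw [h1, map_one] at ht
    have h2 : ι (val φ v) = ι 1 := by rw [← ht, map_one]
    exact val_ne_one hq h16 hF hs φ v (ι.injective h2)
  intro y hy
  refine ⟨(t - 1)⁻¹ • y, ⟨Submodule.smul_mem _ _ hy, ?_⟩, ?_⟩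
  · rw [hb _ (Submodule.smul_mem _ _ hy), smul_smul, ← sub_smul, ← sub_one_mul,
      mul_inv_cancel₀ ht1, one_smul]
  · rintro x ⟨hx, hxy⟩
    have h1 : (t - 1) • x = y := by
      rw [← hxy, sub_smul, one_smul]
      congr 1
      exact (hb x hx).symm
    rw [← h1, smul_smul, inv_mul_cancel₀ ht1, one_smul]

end Frob

section Main

variable {F : Type} [Field F] [NumberField F] {q : ℕ}
  {L : Type} [NormedField L] [NormedAlgebra ℚ_[2] L] [FiniteDimensional ℚ_[2] L]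
  [NormedAlgebra L (PadicAlgCl 2)]

/-- The cocycles of the Selmer group are in the strict Selmer group. -/
theorem z1f_le (hq : q.Prime) (h16 : q % 16 = 7) (hF : Module.finrank ℚ F = 2) {s : 𝓞 F}
    (hs : s ^ 2 = -(q : 𝓞 F)) (φ : Hec F q) {ι : ℂ →+* PadicAlgCl 2} {V : GRep F L 1}
    (hV : IsRealHec ι φ V) (hone : ∀ g, One (scl V g)) {e : Emb 2 F} (he : Same ι φ.σ e) :
    Z1f 2 V ≤ selmer V (primeOf e) := by
  have hul : IsUltrametricDist L := BKPar.ultra_of_algebra L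
  have hFH : BKPar.FieldHyp q F (s : F) :=
    ⟨hq.pos, hq.prime.squarefree, by omega, hF, coe_s hs, fun j => rigidTwo hq h16 hF (coe_s hs) j⟩
  obtain ⟨c, hc, B, hB⟩ := hV.dual
  obtain ⟨σ, hcs⟩ := exists_conjHyp hF hc
  have hcs' : BKPar.ConjHyp (s : F) c σ := ⟨hcs.h, conj_s hq.pos hF (coe_s hs) hcs.hσ, hcs.hc⟩
  have hres : BKPar.ResUni V := by
    intro g i
    have h1 : (V g : Matrix (Fin 1) (Fin 1) L).charpoly - (Polynomial.X - 1) ^ 1 =
        Polynomial.C (1 - scl V g) := by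
      rw [Matrix.charpoly, Matrix.det_unique, pow_one, Fin.default_eq_zero,
        Matrix.charmatrix_apply_eq]
      unfold scl
      rw [_root_.map_sub, _root_.map_one]
      ring
    rw [h1, Polynomial.coeff_C]
    split_ifs
    · rw [← norm_neg, neg_sub]
      exact hone g
    · simp
  have hpair : ∀ g, (V g : Matrix (Fin 1) (Fin 1) L)ᵀ *
      ((Matrix.nonsingInvUnit B hB.2.1 : GL (Fin 1) L) : Matrix (Fin 1) (Fin 1) L) *
      (V (BKPar.conj c σ hcs.h g) : Matrix (Fin 1) (Fin 1) L) =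
        BKOdd.chL (BKOdd.cyc 2 F) L g •
          ((Matrix.nonsingInvUnit B hB.2.1 : GL (Fin 1) L) : Matrix (Fin 1) (Fin 1) L) := by
    intro g
    rw [← chi_eq]
    refine hB.matrix fun z => ?_
    change c (g (c.symm (c z))) = c (g z)
    rw [RingEquiv.symm_apply_apply]
  have hloc := local_zero hFH e c σ hcs hcs' V hV.cont hres (Matrix.nonsingInvUnit B hB.2.1)
    hpair (hV.dR e).toOdd (by
      rw [← frobAt_eq]
      exact frobAt hq h16 hF hs φ hV e) (by
      rw [← frobAt_eq]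
      exact frobAt hq h16 hF hs φ hV _) (by
      rw [← tdim_eq]
      exact (hV.hodge e).1 he)
  intro x hx
  obtain ⟨hx1, hx2, hx3⟩ := hx
  refine ⟨⟨⟨hx1.1, hx1.2⟩, ?_⟩, ?_⟩
  · -- the place above `2`
    have h1 := (isTriv_cris e V x).1 (hx3 e)
    have h3 := (BKGlob.isTriv_iff e V x).1 h1
    have h2 : (fun d : BKPar.D F e => x d) ∈
        MP_7c08ba.Crys.Zf (BKGlob.lift F e) (V.comp (BKPar.D F e).subtype) := by
      refine ⟨⟨hx1.1.comp continuous_subtype_val, fun g h => hx1.2 g h⟩, h3⟩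
    obtain ⟨v, hv⟩ := hloc h2
    refine ⟨v, fun g hg => ?_⟩
    exact (congrFun hv ⟨g, RZ.decomp_le e hg⟩).symm
  · -- the other places
    refine (Submodule.mem_iInf _).2 ?_
    rintro ⟨P, hP, h2⟩
    by_cases hg1 : ∀ g ∈ inert F P, g = 1
    · refine ⟨0, fun g hg => ?_⟩
      rw [hg1 g hg, map_one, Matrix.mulVec_zero, sub_zero]
      have h3 := hx1.2 1 1
      rw [mul_one] at h3
      have h4 : vec V 1 (x 1) = x 1 := by
        change (V 1 : Matrix (Fin 1) (Fin 1) L) *ᵥ x 1 = x 1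
        rw [map_one, Units.val_one, Matrix.one_mulVec]
      rw [h4] at h3
      exact left_eq_add.1 h3
    · push Not at hg1
      obtain ⟨g₁, hg₁, hne⟩ := hg1
      rcases exists_Inert' P hP h2 hg₁ with h | ⟨l, hl, hl2, hlP, j, hj, -⟩
      · exact absurd h hne
      · obtain ⟨v, hv⟩ := hx2 l hl2 j
        refine ⟨v, fun g hg => ?_⟩
        exact hv g (BKGlob.Inert_of_inert j (by rw [hj]; exact hg))

end Main

/-- the embedding of `F` into `ℚ₂` -/
theorem exists_J {F : Type} [Field F] [NumberField F] {q : ℕ} (h16 : q % 16 = 7)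
    (hF : Module.finrank ℚ F = 2) {s : F} (hs : s ^ 2 = -(q : F)) (f : F →+* PadicAlgCl 2) :
    ∃ J : F →+* ℚ_[2], ∀ x, algebraMap ℚ_[2] (PadicAlgCl 2) (J x) = f x := by
  refine exists_hom f fun x => ?_
  have h1 : f x ∈ BKGen.comp 2 f := BKGen.mem_comp f x
  rw [comp_two_eq_bot (by omega) hF hs f] at h1
  exact IntermediateField.mem_bot.1 h1

/-- extension to the algebraic closure -/
theorem exists_ext {F : Type} [Field F] (f : F →+* PadicAlgCl 2)
    [Algebra.IsAlgebraic F (AlgebraicClosure F)] :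
    ∃ e : AlgebraicClosure F →+* PadicAlgCl 2, ∀ x, e (algebraMap F (AlgebraicClosure F) x) = f x := by
  let _ : Algebra F (PadicAlgCl 2) := f.toAlgebra
  let e : AlgebraicClosure F →ₐ[F] PadicAlgCl 2 := IsAlgClosed.lift
  exact ⟨e.toRingHom, fun x => e.commutes x⟩

end Can

/-- **The Selmer group.** -/
theorem stSel : StSel := by
  intro q F _ _ hq h16 hQ φ ι hι L _ _ _ _ V hV
  obtain ⟨hF, s₀, hs₀⟩ := hQ
  let s : NumberField.RingOfIntegers F := sI hs₀
  have hs : s ^ 2 = -(q : NumberField.RingOfIntegers F) := sI_sq hs₀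
  obtain ⟨J, hJ⟩ := Can.exists_J h16 hF hs₀ (ι.comp φ.σ)
  -- the conjugate embedding
  obtain ⟨c, hc, -⟩ := hV.dual
  obtain ⟨σ, hcs⟩ := exists_conjHyp hF hc
  have hσs := Can.conj_s hq.pos hF hs₀ hcs.hσ
  let j : F →+* ℚ_[2] := J.comp (σ : F →+* F)
  have hj : j (s : F) = -J (s : F) := by
    change J (σ s₀) = -J s₀
    rw [hσs, map_neg]
  have hscl := Can.scl_mem hq h16 hF hs hj φ ι hJ hι hV
  obtain ⟨ρ, hρc, hρ⟩ := Can.exists_rho hV.cont fun g => (hscl g).1
  have hreal := Can.realises hq h16 hF hs hj φ ι hJ hV hρc hρ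
  obtain ⟨e, he⟩ := Can.exists_ext (ι.comp φ.σ)
  have hsame : Same ι φ.σ e := fun x => by rw [he]; rfl
  have hlies : LiesAt J (BKGen.Genus.primeOf e) := by
    refine ⟨inferInstance, fun x => ?_⟩
    change ‖e (algebraMap F (AlgebraicClosure F) (x : F))‖ < 1 ↔ _
    rw [he, ← hJ, Can.norm_i]
  have hjJ : j ≠ J := by
    intro h
    have h1 : j (s : F) = J (s : F) := by rw [h]
    rw [hj] at h1
    have h2 : J (s : F) = 0 := by linear_combination (-1 / 2 : ℚ_[2]) * h1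
    rw [map_eq_zero] at h2
    have h3 : s₀ = 0 := h2
    rw [h3, zero_pow two_ne_zero, eq_comm, neg_eq_zero] at hs₀
    exact hq.ne_zero (by exact_mod_cast hs₀)
  have hle := Can.z1f_le hq h16 hF hs φ hV (fun g => (hscl g).2) hsame
  have hin₁ : ∀ (P : Ideal (AllInt F)), P.IsPrime → (2 : AllInt F) ∉ P → ∀ g ∈ inert F P,
      V g = 1 ∨ V g = -1 := fun P hP h2 g hg =>
    (Can.inertia φ ι hV P hP h2 hg).imp id And.left
  have hin₂ : ∀ (P : Ideal (AllInt F)), P.IsPrime → (2 : AllInt F) ∉ P → ∀ g ∈ inert F P,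
      ρ g = 1 → V g = 1 := by
    intro P hP h2 g _ h
    apply Units.ext
    apply Can.ext_scl
    change Can.scl V g = _
    rw [← hρ]
    unfold Can.scl
    rw [h]
    simp
  have key : ∀ B : ℕ, bnd φ.D ≤ B → (-1) ^ B = rootNo φ →
      FiniteDimensional L (BKOdd.cls V (Z1f 2 V)) ∧
        Module.finrank L (BKOdd.cls V (Z1f 2 V)) ≤ B := by
    intro B hB hpar
    refine Can.finrank_cls_le V (BKGen.Genus.primeOf e) (Z1f 2 V) hle ?_
    refine Can.rank_L hq h16 hF hs φ.sqf (fun r hr hr2 hrD => φ.inert r hr hr2 hrD) hjJ hreal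
      hV.cont hρ hin₁ hin₂ hlies hB ?_
    rw [hpar]
    unfold rootNo
    have h1 := φ.pos
    have h2 : ((φ.k : ℤ) - 1).natAbs = φ.k - 1 := by omega
    rw [h2]
  refine ⟨?_, fun B hB hpar => (key B hB hpar).2⟩
  -- a suitable bound
  have hroot : rootNo φ = 1 ∨ rootNo φ = -1 := by
    unfold rootNo
    rcases neg_one_pow_eq_or ℤ (φ.k - 1) with h | h <;> rw [h] <;>
      rcases lt_trichotomy φ.D 0 with h' | h' | h'
    · rw [Int.sign_eq_neg_one_of_neg h']; norm_num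
    · exact absurd h' φ.sqf.ne_zero
    · rw [Int.sign_eq_one_of_pos h']; norm_num
    · rw [Int.sign_eq_neg_one_of_neg h']; norm_num
    · exact absurd h' φ.sqf.ne_zero
    · rw [Int.sign_eq_one_of_pos h']; norm_num
  obtain ⟨B, hB, hpar⟩ : ∃ B : ℕ, bnd φ.D ≤ B ∧ (-1) ^ B = rootNo φ := by
    rcases neg_one_pow_eq_or ℤ (bnd φ.D) with h | h <;> rcases hroot with h' | h'
    · exact ⟨bnd φ.D, le_rfl, h.trans h'.symm⟩
    · exact ⟨bnd φ.D + 1, by omega, by rw [pow_succ, h, h']; norm_num⟩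
    · exact ⟨bnd φ.D + 1, by omega, by rw [pow_succ, h, h']; norm_num⟩
    · exact ⟨bnd φ.D, le_rfl, h.trans h'.symm⟩
  exact (key B hB hpar).1

end BKS
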