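import Pool.Agent.Lib.MP_7c08ba_nt.BK.CanL
import Pool.Agent.Lib.MP_7c08ba_nt.CN.T.Defs

set_option autoImplicit false

/-!
The central values of the quadratic twists of the odd powers of canonical Hecke characters.
-/

noncomputable section

namespace BKS

open NumberField IsDedekindDomain BKS.CanL Pool.Agent.Lib.MP_7c08ba_nt

/-- If the root number of `φ` is `1`, all the prime divisors of `D` are `1` modulo `4`, and
`|D| ≡ 1 (mod 8)`, then the `L`-function does not vanish at the centre. -/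
def StLT : Prop :=
  ∀ (q : ℕ) (F : Type) [Field F] [NumberField F], q.Prime → q % 16 = 7 → IsQuad F q →
    ∀ φ : Hec F q, rootNo φ = 1 → (∀ r : ℕ, r.Prime → (r : ℤ) ∣ φ.D → r % 4 = 1) →
      φ.D.natAbs % 8 = 1 → CentralNZ φ

namespace CanT

/-- inert primes -/
theorem jacobi_inert {q r : ℕ} (hq : q.Prime) (hq2 : q ≠ 2) (hr : r.Prime) (h4 : r % 4 = 1)
    (h : InertIn q r) : jacobiSym r q = -1 := by
  have hr2 : r ≠ 2 := by
    rintro rfl
    omega
  have : Fact r.Prime := ⟨hr⟩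
  have h1 : legendreSym r (-q) = -1 := by
    rw [legendreSym.eq_neg_one_iff]
    exact h
  rw [jacobiSym.legendreSym.to_jacobiSym, jacobiSym.neg _ (hr.odd_of_ne_two hr2),
    ZMod.χ₄_nat_one_mod_four h4, one_mul] at h1
  rw [jacobiSym.quadratic_reciprocity_one_mod_four h4 (hq.odd_of_ne_two hq2)]
  exact h1

theorem kro_pos {D : ℕ} (n : ℕ) (h : D % 8 = 1) : kro D n = jacobiSym n D := by
  unfold kro
  rw [if_pos (by omega), Int.natAbs_natCast]

theorem kro_neg {D : ℕ} (n : ℕ) (h : D % 8 = 1) :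
    (kro (-D) n : ℂ) = CN.c4 n * (jacobiSym n D : ℂ) := by
  have h5 : ¬ (-(D : ℤ)) % 4 = 1 := by omega
  have h6 : ¬ (-1 : ℤ) % 4 = 1 := by decide
  rw [← kro_neg_one]
  unfold kro
  rw [if_neg h5, if_neg h6]
  split_ifs with h2
  · simp
  · have hn : Odd n := Nat.odd_iff.2 (by omega)
    rw [jacobiSym.neg _ hn, jacobiSym.at_neg_one hn,
      jacobiSym.quadratic_reciprocity_one_mod_four (by omega) hn]
    push_cast
    rfl

variable {F : Type} [Field F] [NumberField F] {q : ℕ}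

omit [NumberField F] in
/-- the root number -/
theorem eq_of_rootNo (φ : Hec F q) (h : rootNo φ = 1) :
    φ.D = (-1) ^ (φ.k - 1) * (φ.D.natAbs : ℤ) := by
  unfold rootNo at h
  have h1 : φ.D.sign * (φ.D.natAbs : ℤ) = φ.D := Int.sign_mul_natAbs _
  have h2 : φ.D.sign = (-1) ^ (φ.k - 1) := by
    rcases neg_one_pow_eq_or ℤ (φ.k - 1) with h3 | h3 <;> rw [h3] at h ⊢ <;> linarith
  rw [← h2, h1]

omit [NumberField F] in
theorem twA (hq : q.Prime) (h16 : q % 16 = 7) (φ : Hec F q)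
    (hr4 : ∀ r : ℕ, r.Prime → (r : ℤ) ∣ φ.D → r % 4 = 1) : CN.TW.TwA q φ.D.natAbs where
  sqf := Int.squarefree_natAbs.2 φ.sqf
  mod4 r hr hrD := hr4 r hr (Int.natCast_dvd.2 hrD)
  inert r hr hrD := by
    have h4 := hr4 r hr (Int.natCast_dvd.2 hrD)
    refine jacobi_inert hq (by rintro rfl; omega) hr h4 (φ.inert r hr ?_ (Int.natCast_dvd.2 hrD))
    rintro rfl
    omega

end CanT

open CanT

theorem stLT (H : CN.TW.StNVT) : StLT := by
  intro q F _ _ hq h16 hF φ hW hr4 h8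
  obtain ⟨s, hC, hs⟩ := exists_s hq h16 hF
  have hcan := isCan φ hs
  have hk1 := φ.pos
  have hT := twA hq h16 φ hr4
  have hD := eq_of_rootNo φ hW
  obtain ⟨A, hA, hres⟩ := CN.stEx q F _ _ s φ.σ φ.ψ hC hcan
  have hjac : ∀ (a : ℤ) (j : ℕ), ((jacobiSym a q : ℤ) : ℂ) ^ (2 * j + 1) =
      (jacobiSym a q : ℂ) := by
    intro a j
    rcases jacobiSym.trichotomy a q with h | h | h <;> rw [h]
    · simp
    · simp
    · have : Odd (2 * j + 1) := ⟨j, rfl⟩
      push_cast
      exact this.neg_one_pow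
  obtain ⟨n, hn⟩ : ∃ n, φ.k = n + 1 := ⟨φ.k - 1, by omega⟩
  have hm : 2 * n + 1 ≠ 0 := by omega
  have h3 : 2 * n + 1 = 2 * φ.k - 1 := by omega
  have hpw : ∀ a : Ideal (𝓞 F), Odd (Ideal.absNorm a) → IsCoprime a (Ideal.span {s}) →
      φ.ψ a ^ (2 * n + 1) - 1 ∈ A.nonunits := fun a ha hac =>
    RZC.nonunits_pow_sub_one (hres a ha hac) _
  have hn1 : φ.k - 1 = n := by omega
  rw [hn1] at hD
  rcases Nat.even_or_odd n with he | ho
  · -- `k` odd
    obtain ⟨Λ, hΛ, h0⟩ := H q F _ _ s φ.σ A n φ.D.natAbs (CN.pw φ.ψ (2 * n + 1) hm) hC hT h8 hA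
      (Or.inl ⟨he, by
        intro t a ht hta
        show φ.ψ (Ideal.span {t}) ^ (2 * n + 1) = _
        rw [hcan t a ht hta, pow_one, mul_pow, hjac]⟩)
      (fun a ha hac => hpw a ha hac)
    rw [he.neg_one_pow, one_mul] at hD
    rw [← hn] at hΛ
    refine central ((isLHec_iff φ _ ?_ Λ).1 hΛ) h0
    intro v
    show φ.ψ v.asIdeal ^ (2 * n + 1) * (jacobiSym (nv v) φ.D.natAbs : ℂ) = _
    rw [← h3, hD, Int.natAbs_natCast, kro_pos _ h8, mul_comm]
  · -- `k` even
    obtain ⟨Λ, hΛ, h0⟩ := H q F _ _ s φ.σ A n φ.D.natAbs (chO φ.ψ (2 * n + 1) hm) hC hT h8 hA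
      (Or.inr ⟨ho, by
        intro t a ht hta
        rw [chO_apply, hcan t a ht hta, pow_one, mul_pow, hjac]
        unfold nm
        ring⟩)
      (by
        intro a ha hac
        rw [chO_apply]
        have h1 := hpw a ha hac
        have h2 : ((nm a : ℕ) : ℤ) % 2 = 1 := by
          have h3 : nm a % 2 = 1 := Nat.odd_iff.1 ha
          omega
        rcases c4_cases h2 with h | h
        · rw [h, one_mul]
          exact h1
        · rw [h]
          have h4 : (-1 : ℂ) * φ.ψ a ^ (2 * n + 1) - 1 = -(φ.ψ a ^ (2 * n + 1) - 1) - 2 := by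
            ring
          rw [h4]
          exact RZC.nonunits_sub (RZC.nonunits_neg h1) hA)
    rw [ho.neg_one_pow, neg_one_mul] at hD
    rw [← hn] at hΛ
    refine central ((isLHec_iff φ _ ?_ Λ).1 hΛ) h0
    intro v
    show chO φ.ψ (2 * n + 1) hm v.asIdeal * (jacobiSym (nv v) φ.D.natAbs : ℂ) = _
    rw [chO_apply, ← h3, hD, Int.natAbs_neg, Int.natAbs_natCast, kro_neg _ h8]
    unfold nv
    ring

end BKS
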