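import Mathlib
import Pool.Agent.Lib.MP_7c08ba_nt.BK.Can

set_option autoImplicit false

/-!
The bound `b(D)` is zero if the prime divisors of `D` are `1` modulo `4` and `|D| ≡ 1 (mod 8)`.
-/

namespace BKS.CanTS

/-- products of numbers which are 1 or 5 modulo 8 -/
theorem prod_mod {s : Finset ℕ} (h : ∀ r ∈ s, r % 8 = 1 ∨ r % 8 = 5) :
    (∏ r ∈ s, r) % 8 = if (s.filter (fun r => r % 8 = 5)).card % 2 = 0 then 1 else 5 := by
  classical
  induction s using Finset.induction_on with
  | empty => simp
  | insert a s ha ih =>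
    have ih' := ih fun r hr => h r (Finset.mem_insert_of_mem hr)
    rw [Finset.prod_insert ha, Finset.filter_insert, Nat.mul_mod, ih']
    rcases h a (Finset.mem_insert_self a s) with h1 | h1
    · have h5 : ¬ a % 8 = 5 := by omega
      rw [if_neg h5, h1]
      split_ifs <;> rfl
    · rw [h1, if_pos rfl, Finset.card_insert_of_notMem fun h2 => ha (Finset.mem_filter.1 h2).1]
      split_ifs with h2 h3 h3
      · omega
      · rfl
      · rfl
      · omega

theorem bnd_eq_zero {D : ℤ} (hs : Squarefree D)
    (h4 : ∀ r : ℕ, r.Prime → (r : ℤ) ∣ D → r % 4 = 1) (h8 : D.natAbs % 8 = 1) : bnd D = 0 := by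
  have hm : ∀ r ∈ D.natAbs.primeFactors, r % 4 = 1 := fun r hr =>
    h4 r (Nat.prime_of_mem_primeFactors hr)
      (Int.natCast_dvd.2 (Nat.dvd_of_mem_primeFactors hr))
  have h7 : numPr D 7 = 0 := by
    unfold numPr
    rw [Finset.card_eq_zero, Finset.filter_eq_empty_iff]
    intro r hr h
    have := hm r hr
    omega
  have h3 : numPr D 3 = 0 := by
    unfold numPr
    rw [Finset.card_eq_zero, Finset.filter_eq_empty_iff]
    intro r hr h
    have := hm r hr
    omega
  have h5 : numPr D 5 % 2 = 0 := by
    have h1 := prod_mod (s := D.natAbs.primeFactors) fun r hr => by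
      have := hm r hr
      omega
    rw [Nat.prod_primeFactors_of_squarefree (Int.squarefree_natAbs.2 hs), h8] at h1
    unfold numPr
    by_contra h2
    rw [if_neg h2] at h1
    omega
  unfold bnd
  rw [h7, h3, if_pos rfl, h5]

end BKS.CanTS
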