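import Pool.Agent.Lib.MP_7c08ba_nt.BK.Sel

set_option autoImplicit false

/-!
The class of representations of the parity theorem, the condition on the field `F`, and the
conclusion.
-/

noncomputable section

namespace BKS

open Matrix NumberField

section Class

variable (p : ℕ) [Fact p.Prime] {F : Type} [Field F]

/-- `g` fixes the `p`-th roots of unity -/
def FixMu (g : GF F) : Prop := ∀ z : AlgebraicClosure F, z ^ p = 1 → g z = z

theorem FixMu.one : FixMu p (1 : GF F) := fun _ _ => rfl

theorem FixMu.mul {g h : GF F} (hg : FixMu p g) (hh : FixMu p h) : FixMu p (g * h) :=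
  fun z hz => by rw [AlgEquiv.mul_apply, hh z hz, hg z hz]

theorem FixMu.inv {g : GF F} (hg : FixMu p g) : FixMu p g⁻¹ := fun z hz => by
  have h1 : g⁻¹ (g z) = z := g.symm_apply_apply z
  rwa [hg z hz] at h1

/-- the Galois group of the algebraic closure of `F` over `K = F(μ_p)` -/
def GK (F : Type) [Field F] : Subgroup (GF F) where
  carrier := {g | FixMu p g}
  one_mem' := FixMu.one p
  mul_mem' := FixMu.mul p
  inv_mem' := FixMu.inv p

/-- the cyclotomic character -/
def chiZ (g : GF F) : ℤ_[p]ˣ := cyclotomicCharacter (AlgebraicClosure F) p g.toRingEquiv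

/-- the cyclotomic character, with values in `L` -/
def chi (L : Type) [NormedField L] [NormedAlgebra ℚ_[p] L] (g : GF F) : L :=
  algebraMap ℚ_[p] L (algebraMap ℤ_[p] ℚ_[p] (chiZ p g))

/-- `c` is a complex conjugation and is not the identity on `F`. -/
def IsConj (c : AlgebraicClosure F ≃+* AlgebraicClosure F) : Prop :=
  (∀ x, c (c x) = x) ∧ ∃ a : F, c (algebraMap F (AlgebraicClosure F) a) ≠
    algebraMap F (AlgebraicClosure F) a

variable {L : Type} [NormedField L] [NormedAlgebra ℚ_[p] L] {n : ℕ}

/-- The matrix `B` is symmetric and invertible, and `⟨g x, (c g c⁻¹) y⟩ = χ(g) ⟨x, y⟩` for the form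
`⟨x, y⟩` with matrix `B` and the cyclotomic character `χ`. -/
def IsPol (V : Rep (GF F) L n) (c : AlgebraicClosure F ≃+* AlgebraicClosure F)
    (B : Matrix (Fin n) (Fin n) L) : Prop :=
  B.transpose = B ∧ IsUnit B.det ∧ ∀ g g' : GF F, (∀ z, g' (c z) = c (g z)) →
    ∀ x y : Fin n → L, vec V g x ⬝ᵥ (B *ᵥ vec V g' y) = chi p L g * (x ⬝ᵥ (B *ᵥ y))

/-- The class of representations `V` over a finite extension `L` of `ℚ_p` of the Galois group of
an imaginary quadratic field `F`. -/
structure IsRep (V : Rep (GF F) L n) : Prop where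
  /-- `V` is continuous -/
  cont : Continuous V
  /-- `V` is unramified at all places not above `p` -/
  unram : ∀ (l : ℕ) [Fact l.Prime], l ≠ p → ∀ j : Emb l F,
    ∀ g ∈ BKGen.Inert F (AlgebraicClosure F) j, V g = 1
  /-- the restriction of `V` to `F(μ_p)` is residually unipotent -/
  res : ∀ g ∈ GK p F, ∀ i : ℕ, ‖((mat V g).charpoly - (Polynomial.X - 1) ^ n).coeff i‖ < 1
  /-- `V` is conjugate self-dual -/
  dual : ∃ c : AlgebraicClosure F ≃+* AlgebraicClosure F, IsConj c ∧ ∃ B, IsPol p V c B
  /-- `V` is de Rham at the places above `p` -/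
  dR : ∀ j : Emb p F, DeRhamAt V j
  /-- Frobenius minus one is bijective on `D_cris` of the restriction of `V` to `F(μ_p)` -/
  frob : ∀ j : Emb p F, FrobAt V (GK p F) j

end Class

/-- **Parity for `F` and `p`**: for every `V` in the class the Selmer group `H¹_f(F, V)` of Bloch
and Kato is finite dimensional, and for each place `v` above `p` its dimension is at most
`dim D_dR,v(V) / Fil⁰` and congruent to it modulo `2`. -/
def Parity (p : ℕ) [Fact p.Prime] (F : Type) [Field F] : Prop :=
  ∀ (L : Type) [NormedField L] [NormedAlgebra ℚ_[p] L] [FiniteDimensional ℚ_[p] L] (n : ℕ)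
    (V : Rep (GF F) L n), IsRep p V →
    IsFin (H1f p V) ∧ ∀ j : Emb p F,
      dim (H1f p V) % 2 = tdim V j % 2 ∧ dim (H1f p V) ≤ tdim V j

/-- `F` is an imaginary quadratic field, the place given by `ι` has degree one over `p`, and the
field `K = F(ζ)`, `ζ` a primitive `p`-th root of unity, is rigid at this place: an element of `K*`
which is a `p`-th power up to units at all places not above `p`, and a `p`-th power in the
completion at the place `ι`, is a `p`-th power in `K`. -/
def RigidField (p : ℕ) [Fact p.Prime] (F : Type) [Field F] [NumberField F] : Prop :=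
  Module.finrank ℚ F = 2 ∧ IsEmpty (F →+* ℝ) ∧
    ∃ (ζ : AlgebraicClosure F) (ι : Emb p F), IsPrimitiveRoot ζ p ∧
      (∀ a : F, ι (algebraMap F (AlgebraicClosure F) a) ∈
        (⊥ : IntermediateField ℚ_[p] (PadicAlgCl p))) ∧
      BKGen.Rigid p (IntermediateField.adjoin F {ζ})
        (ι.comp (algebraMap (IntermediateField.adjoin F {ζ}) (AlgebraicClosure F)))

end BKS
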