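import Pool.Agent.Lib.MP_7c08ba_nt.BK.ClsZ

set_option autoImplicit false

/-!
The parity theorem for residually hyperbolic representations and for congruent representations: the
conclusion.
-/

noncomputable section

namespace BKS

open Matrix NumberField

section Residual

variable {F : Type} [Field F] {L : Type} [NormedField L] {n : ℕ}

/-- After an extension of `L`, the polynomials `f g` are congruent to the characteristic polynomials
of `U ⊕ U^*` for a representation `U` over the residue field, where
`U^*(g) = χ(g) U(c g⁻¹ c⁻¹)ᵗ`. -/
def IsHyp (p : ℕ) [Fact p.Prime] [NormedAlgebra ℚ_[p] L] (f : GF F → Polynomial L)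
    (c : AlgebraicClosure F ≃+* AlgebraicClosure F) : Prop :=
  ∃ (L₂ : Type) (_ : NormedField L₂) (_ : NormedAlgebra ℚ_[p] L₂)
    (_ : FiniteDimensional ℚ_[p] L₂) (φ : L →ₐ[ℚ_[p]] L₂) (m : ℕ)
    (U : GF F → Matrix (Fin m) (Fin m) L₂), IsResRep U ∧
    ∀ g g' : GF F, (∀ z, g' (c z) = c (g z)) → ∀ i : ℕ,
      ‖((f g).map (φ : L →+* L₂) -
        (U g).charpoly * (chi p L₂ g • (U g'⁻¹)ᵀ).charpoly).coeff i‖ < 1

/-- the number `dim H¹_f(F, V) + t_v(V) + ∑ δ_w(V)`, for the place `v` above `p` and the places `w`
given by `j k`, with the Frobenius elements `g k` -/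
def parN (p : ℕ) [Fact p.Prime] [NormedAlgebra ℚ_[p] L] (V : Rep (GF F) L n) (v : Emb p F)
    {κ : Type} [Fintype κ] {l : κ → ℕ} [∀ k, Fact (l k).Prime] (j : ∀ k, Emb (l k) F)
    (g : κ → GF F) : ℕ :=
  dim (H1f p V) + tdim V v + ∑ k, ndel V (j k) (g k)

end Residual

/-- **Parity for `F` and `p`.** Let `V` be in the class, with a perfect symmetric form
`⟨g x, (c g c⁻¹) y⟩ = χ(g) ⟨x, y⟩`. Then `H¹_f(F, V)` is finite dimensional. For each place `v` above
`p`, each finite family of primes which do not split in `F`, with one place `w` for each, which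
includes all those where the inertia does not act on `V` through elements of order prime to `p`, and
for all Frobenius elements at these places:
(1) `dim H¹_f(F, V) + t_v(V) + ∑ δ_w(V)` is even, if the semisimplification of the residual
representation of `V` is, after an extension of `L`, the one of `U ⊕ U^*` for some `U`, or if no
simple subquotient of the residual representation has a perfect symmetric form of this kind;
(2) this number has the same parity for `V` and for any other representation `V'` in the class with
such a form, if `V` and `V'` are congruent, or if the semisimplification of the residual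
representation of `V ⊕ V'` is, after an extension of `L`, the one of `U ⊕ U^*` for some `U`, and if
the family of primes includes also those for `V'`. -/
def ParityA (p : ℕ) [Fact p.Prime] (F : Type) [Field F] [NumberField F] : Prop :=
  ∀ (c : AlgebraicClosure F ≃+* AlgebraicClosure F), IsConj c →
  ∀ (L : Type) [NormedField L] [NormedAlgebra ℚ_[p] L] [FiniteDimensional ℚ_[p] L] (n : ℕ)
    (V : Rep (GF F) L n) (B : Matrix (Fin n) (Fin n) L), IsRepU p V → IsPol p V c B →
    IsFin (H1f p V) ∧
    ∀ (κ : Type) [Fintype κ] (l : κ → ℕ) [∀ k, Fact (l k).Prime] (j : ∀ k, Emb (l k) F)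
      (g : κ → GF F), Covers p V l → (∀ k, IsFrb (j k) (g k)) → ∀ v : Emb p F,
      (IsHyp p (fun g => (mat V g).charpoly) c ∨ NoForm p V c → parN p V v j g % 2 = 0) ∧
      ∀ (n' : ℕ) (V' : Rep (GF F) L n') (B' : Matrix (Fin n') (Fin n') L), IsRepU p V' →
        IsPol p V' c B' → Covers p V' l →
        Congr V V' ∨ IsHyp p (fun g => (mat V g).charpoly * (mat V' g).charpoly) c →
        parN p V v j g % 2 = parN p V' v j g % 2

end BKS
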