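import Pool.Agent.Lib.MP_7c08ba_nt.BK.Cls

set_option autoImplicit false

/-!
The class of representations of the parity theorem for all imaginary quadratic fields `F`, and its
conclusion.
-/

noncomputable section

namespace BKS

open Matrix NumberField

/-- `l` is a prime and the quadratic field `F` embeds in `ℚ_l`, that is, `l` splits in `F`. -/
def Split (l : ℕ) (F : Type) [Field F] : Prop := ∃ _ : Fact l.Prime, Nonempty (F →+* ℚ_[l])

section Class

variable (p : ℕ) [Fact p.Prime] {F : Type} [Field F] {L : Type} [NormedField L]
  [NormedAlgebra ℚ_[p] L] {n : ℕ}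

/-- the matrix of `g` in the basis of `V` given by `A` -/
def matA (V : Rep (GF F) L n) (A : GL (Fin n) L) (g : GF F) : Matrix (Fin n) (Fin n) L :=
  (A * V g * A⁻¹ : GL (Fin n) L)

/-- In the basis given by `A` the matrices of `V` are integral and upper triangular modulo the
maximal ideal. -/
def IsTri (V : Rep (GF F) L n) (A : GL (Fin n) L) : Prop :=
  ∀ (g : GF F) (i k : Fin n), ‖matA V A g i k‖ ≤ 1 ∧ (k < i → ‖matA V A g i k‖ < 1)

/-- The class of representations `V` over a finite extension `L` of `ℚ_p` of the Galois group of
an imaginary quadratic field `F`, for the parity theorem without rigidity. -/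
structure IsRepM (V : Rep (GF F) L n) : Prop where
  /-- `V` is continuous -/
  cont : Continuous V
  /-- `V` is unramified at all places not above `p` and not above the primes in a finite set of
  primes which split in `F` -/
  ram : ∃ P : Finset ℕ, (∀ l ∈ P, Split l F) ∧ ∀ (l : ℕ) [Fact l.Prime], l ≠ p → l ∉ P →
    ∀ j : Emb l F, ∀ g ∈ BKGen.Inert F (AlgebraicClosure F) j, V g = 1
  /-- the decomposition groups of the places not above `p` have no invariants in `V` -/
  inv : ∀ (l : ℕ) [Fact l.Prime], l ≠ p → ∀ (j : Emb l F) (v : Fin n → L),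
    (∀ (g : GF F) (t : GQ l), Compat j g t → vec V g v = v) → v = 0
  /-- `V` is residually triangular: the semisimplification of the residual representation is a sum
  of characters -/
  res : ∃ A, IsTri V A
  /-- `V` is conjugate self-dual -/
  dual : ∃ c : AlgebraicClosure F ≃+* AlgebraicClosure F, IsConj c ∧ ∃ B, IsPol p V c B
  /-- `V` is de Rham at the places above `p` -/
  dR : ∀ j : Emb p F, DeRhamAt V j
  /-- Frobenius minus one is bijective on `D_cris(V)` -/
  frob : ∀ j : Emb p F, FrobAt V ⊤ j

end Class

/-- **Parity for `F` and `p`**: for every `V` in the class the Selmer group `H¹_f(F, V)` of Bloch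
and Kato is finite dimensional, and for each place `v` above `p` its dimension is congruent to
`dim D_dR,v(V) / Fil⁰` modulo `2`. -/
def ParityM (p : ℕ) [Fact p.Prime] (F : Type) [Field F] : Prop :=
  ∀ (L : Type) [NormedField L] [NormedAlgebra ℚ_[p] L] [FiniteDimensional ℚ_[p] L] (n : ℕ)
    (V : Rep (GF F) L n), IsRepM p V →
    IsFin (H1f p V) ∧ ∀ j : Emb p F, dim (H1f p V) % 2 = tdim V j % 2

end BKS
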