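import Pool.Agent.Lib.MP_7c08ba_nt.BK.ClsM

set_option autoImplicit false

/-!
The classes of representations of the parity theorem for general residual representations, and its
conclusions.
-/

noncomputable section

namespace BKS

open Matrix NumberField

/-- the prime `l` is ramified in `F` -/
def Ramified (l : ℕ) (F : Type) [Field F] [NumberField F] : Prop :=
  ∃ v : IsDedekindDomain.HeightOneSpectrum (𝓞 F), (l : 𝓞 F) ∈ v.asIdeal ^ 2

section Class

variable (p : ℕ) [Fact p.Prime] {F : Type} [Field F] {L : Type} [NormedField L]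
  [NormedAlgebra ℚ_[p] L] {n : ℕ}

/-- The class of representations `V` over a finite extension `L` of `ℚ_p` of the Galois group of
an imaginary quadratic field `F`. -/
structure IsRepT (V : Rep (GF F) L n) : Prop where
  /-- `V` is continuous -/
  cont : Continuous V
  /-- outside `p` and a finite set of primes which split in `F`, the elements of the inertia groups
  act through elements of finite order prime to `p` -/
  ram : ∃ P : Finset ℕ, (∀ l ∈ P, Split l F) ∧ ∀ (l : ℕ) [Fact l.Prime], l ≠ p → l ∉ P →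
    ∀ j : Emb l F, ∀ g ∈ BKGen.Inert F (AlgebraicClosure F) j, ∃ m : ℕ, ¬ p ∣ m ∧ V g ^ m = 1
  /-- the decomposition groups of the places not above `p` have no invariants in `V` -/
  inv : ∀ (l : ℕ) [Fact l.Prime], l ≠ p → ∀ (j : Emb l F) (v : Fin n → L),
    (∀ (g : GF F) (t : GQ l), Compat j g t → vec V g v = v) → v = 0
  /-- `V` is de Rham at the places above `p` -/
  dR : ∀ j : Emb p F, DeRhamAt V j
  /-- Frobenius minus one is bijective on `D_cris(V)` -/
  frob : ∀ j : Emb p F, FrobAt V ⊤ j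

/-- There is a prime `l ≠ p` which is ramified in `F` such that the elements of the inertia groups
above `l` act on `V` through elements of odd order. -/
def OddRam [NumberField F] (V : Rep (GF F) L n) : Prop :=
  ∃ (l : ℕ) (_ : Fact l.Prime), Ramified l F ∧ l ≠ p ∧
    ∀ j : Emb l F, ∀ g ∈ BKGen.Inert F (AlgebraicClosure F) j, ∃ m : ℕ, Odd m ∧ V g ^ m = 1

end Class

/-! ### Lattices and the residual representation -/

section Lattices

variable {F : Type} [Field F] {L : Type} [NormedField L] {n : ℕ}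

/-- `T` is a lattice in `V = Lⁿ` stable under the ring of integers of `L` and under the Galois
group. -/
structure IsLat (V : Rep (GF F) L n) (T : AddSubgroup (Fin n → L)) : Prop where
  bdd : ∃ C : ℝ, ∀ x ∈ T, ‖x‖ ≤ C
  nhd : ∃ ε : ℝ, 0 < ε ∧ ∀ x : Fin n → L, ‖x‖ ≤ ε → x ∈ T
  smul : ∀ a : L, ‖a‖ ≤ 1 → ∀ x ∈ T, a • x ∈ T
  stab : ∀ g, ∀ x ∈ T, vec V g x ∈ T

/-- `Q / P` is a simple subquotient of the reduction `T / πT` of the lattice `T`. -/
structure IsSimp (V : Rep (GF F) L n) (T P Q : AddSubgroup (Fin n → L)) : Prop where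
  lat : IsLat V P
  lat' : IsLat V Q
  red : ∀ a : L, ‖a‖ < 1 → ∀ x ∈ T, a • x ∈ P
  le : Q ≤ T
  lt : P < Q
  simple : ∀ N, IsLat V N → P ≤ N → N ≤ Q → N = P ∨ N = Q

/-- The dimension of `Q / P` over the residue field is even: there is an intermediate module `M`
with `[Q : M] = [M : P]`. -/
def IsEven (P Q : AddSubgroup (Fin n → L)) : Prop :=
  ∃ M : AddSubgroup (Fin n → L), P ≤ M ∧ M ≤ Q ∧ (∀ a : L, ‖a‖ ≤ 1 → ∀ x ∈ M, a • x ∈ M) ∧
    P.relIndex M = M.relIndex Q

/-- `f` is a perfect symmetric form on `Q / P` with values in the residue field of `L` (given by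
representatives), with `f(g x, (c g c⁻¹) y) = χ(g) f(x, y)` for the cyclotomic character `χ`. -/
structure IsForm (p : ℕ) [Fact p.Prime] [NormedAlgebra ℚ_[p] L] (V : Rep (GF F) L n)
    (c : AlgebraicClosure F ≃+* AlgebraicClosure F) (P Q : AddSubgroup (Fin n → L))
    (f : (Fin n → L) → (Fin n → L) → L) : Prop where
  int : ∀ x ∈ Q, ∀ y ∈ Q, ‖f x y‖ ≤ 1
  add : ∀ x ∈ Q, ∀ x' ∈ Q, ∀ y ∈ Q, ‖f (x + x') y - (f x y + f x' y)‖ < 1
  smul : ∀ a : L, ‖a‖ ≤ 1 → ∀ x ∈ Q, ∀ y ∈ Q, ‖f (a • x) y - a * f x y‖ < 1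
  symm : ∀ x ∈ Q, ∀ y ∈ Q, ‖f x y - f y x‖ < 1
  eqv : ∀ g g' : GF F, (∀ z, g' (c z) = c (g z)) → ∀ x ∈ Q, ∀ y ∈ Q,
    ‖f (vec V g x) (vec V g' y) - chi p L g * f x y‖ < 1
  ker : ∀ x ∈ Q, x ∈ P ↔ ∀ y ∈ Q, ‖f x y‖ < 1

/-- `V` has a stable lattice `T` such that no simple subquotient of its reduction has a perfect
symmetric form of this kind; only subquotients of even dimension are considered if `OddRam` holds
(by the theorem, the others have no such form). -/
def NoForm (p : ℕ) [Fact p.Prime] [NumberField F] [NormedAlgebra ℚ_[p] L] (V : Rep (GF F) L n)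
    (c : AlgebraicClosure F ≃+* AlgebraicClosure F) : Prop :=
  ∃ T, IsLat V T ∧ ∀ P Q, IsSimp V T P Q → (OddRam p V → IsEven P Q) → ∀ f, ¬ IsForm p V c P Q f

/-- the form `⟨x, y⟩ - ⟨x', y'⟩'` on `V ⊕ V'`, for the forms with matrices `B` and `B'` -/
def form {n' : ℕ} (B : Matrix (Fin n) (Fin n) L) (B' : Matrix (Fin n') (Fin n') L)
    (x y : (Fin n → L) × (Fin n' → L)) : L :=
  x.1 ⬝ᵥ (B *ᵥ y.1) - x.2 ⬝ᵥ (B' *ᵥ y.2)

/-- The reductions of `V` and `V'` are equivalent in the Witt group: `V ⊕ V'`, with the form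
`⟨x, y⟩ - ⟨x', y'⟩'`, has a stable lattice `T` equal to its dual lattice and a stable lattice `N`
between `πT` and `T` such that `N / πT` is equal to its orthogonal complement in `T / πT`.
Examples: `V' = 0` and the reduction of a self-dual lattice of `V` has a stable Lagrangian subspace;
self-dual lattices of `V` and `V'` have isometric reductions. -/
def WittEq {n' : ℕ} (V : Rep (GF F) L n) (B : Matrix (Fin n) (Fin n) L) (V' : Rep (GF F) L n')
    (B' : Matrix (Fin n') (Fin n') L) : Prop :=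
  ∃ T N : Set ((Fin n → L) × (Fin n' → L)),
    (∃ C : ℝ, ∀ x ∈ T, ‖x‖ ≤ C) ∧
    (∀ g, ∀ x ∈ T, (vec V g x.1, vec V' g x.2) ∈ T) ∧
    (∀ g, ∀ x ∈ N, (vec V g x.1, vec V' g x.2) ∈ N) ∧
    (∀ y, y ∈ T ↔ ∀ x ∈ T, ‖form B B' x y‖ ≤ 1) ∧
    ∀ y, y ∈ N ↔ y ∈ T ∧ ∀ x ∈ N, ‖form B B' x y‖ < 1

end Lattices

/-- **Parity for `F` and `p`.** (1) For every `V` in the class with a perfect symmetric form
`⟨g x, (c g c⁻¹) y⟩ = χ(g) ⟨x, y⟩`, such that no simple subquotient of the residual representation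
has such a form, the Selmer group `H¹_f(F, V)` of Bloch and Kato is finite dimensional, and for each
place `v` above `p` its dimension is congruent to `t_v(V) = dim D_dR,v(V) / Fil⁰` modulo `2`.
(2) For all `V` and `V'` in the class with such forms, the parity of `dim H¹_f(F, V) + t_v(V)`
depends only on the class of the reduction of `V` in the Witt group. -/
def ParityT (p : ℕ) [Fact p.Prime] (F : Type) [Field F] [NumberField F] : Prop :=
  ∀ (c : AlgebraicClosure F ≃+* AlgebraicClosure F), IsConj c →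
  ∀ (L : Type) [NormedField L] [NormedAlgebra ℚ_[p] L] [FiniteDimensional ℚ_[p] L] (n : ℕ)
    (V : Rep (GF F) L n) (B : Matrix (Fin n) (Fin n) L), IsRepT p V → IsPol p V c B →
    (NoForm p V c →
      IsFin (H1f p V) ∧ ∀ j : Emb p F, dim (H1f p V) % 2 = tdim V j % 2) ∧
    ∀ (n' : ℕ) (V' : Rep (GF F) L n') (B' : Matrix (Fin n') (Fin n') L), IsRepT p V' →
      IsPol p V' c B' → WittEq V B V' B' →
      IsFin (H1f p V) ∧ IsFin (H1f p V') ∧ ∀ j : Emb p F,
        (dim (H1f p V) + tdim V j) % 2 = (dim (H1f p V') + tdim V' j) % 2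

end BKS
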