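import Pool.Agent.Lib.MP_7c08ba_nt.BK.ClsT

set_option autoImplicit false

/-!
The class of representations of the parity theorem with arbitrary ramification at the primes which
do not split, the local terms at these primes, and the conclusion.
-/

noncomputable section

namespace BKS

open Matrix NumberField

/-! ### The class of representations -/

section Class

variable (p : ℕ) {F : Type} [Field F] {L : Type} [NormedField L] {n : ℕ}

/-- The elements of the inertia groups above `l` act on `V` through elements of finite order prime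
to `p`. -/
def PrimeTo (l : ℕ) [Fact l.Prime] (V : Rep (GF F) L n) : Prop :=
  ∀ j : Emb l F, ∀ g ∈ BKGen.Inert F (AlgebraicClosure F) j, ∃ m : ℕ, ¬ p ∣ m ∧ V g ^ m = 1

/-- The class of representations `V` over a finite extension `L` of `ℚ_p` of the Galois group of
an imaginary quadratic field `F`. -/
structure IsRepU [Fact p.Prime] [NormedAlgebra ℚ_[p] L] (V : Rep (GF F) L n) : Prop where
  /-- `V` is continuous -/
  cont : Continuous V
  /-- outside `p` and a finite set of primes, the elements of the inertia groups act through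
  elements of finite order prime to `p` -/
  ram : ∃ P : Finset ℕ, ∀ (l : ℕ) [Fact l.Prime], l ≠ p → l ∉ P → PrimeTo p l V
  /-- the decomposition groups of the places not above `p` have no invariants in `V` -/
  inv : ∀ (l : ℕ) [Fact l.Prime], l ≠ p → ∀ (j : Emb l F) (v : Fin n → L),
    (∀ (g : GF F) (t : GQ l), Compat j g t → vec V g v = v) → v = 0
  /-- `V` is de Rham at the places above `p` -/
  dR : ∀ j : Emb p F, DeRhamAt V j
  /-- Frobenius minus one is bijective on `D_cris(V)` -/
  frob : ∀ j : Emb p F, FrobAt V ⊤ j

/-- The primes `l k` are different and do not split in `F`, and they include all the primes `≠ p`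
which do not split in `F` and for which the inertia groups do not act on `V` through elements of
order prime to `p`. -/
structure Covers (V : Rep (GF F) L n) {κ : Type} (l : κ → ℕ) : Prop where
  inj : Function.Injective l
  split : ∀ k, ¬ Split (l k) F
  all : ∀ (m : ℕ) [Fact m.Prime], m ≠ p → ¬ Split m F → PrimeTo p m V ∨ ∃ k, l k = m

end Class

/-! ### The local terms -/

section Local

variable {F : Type} [Field F] (L : Type) [NormedField L] {W : Type} [NormedAddCommGroup W]
  [Module L W]

/-- `M` is a module over the ring of integers of `L` -/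
def IsMod (M : AddSubgroup W) : Prop := ∀ a : L, ‖a‖ ≤ 1 → ∀ x ∈ M, a • x ∈ M

/-- the length of the module `Q / P` over the ring of integers of `L`: the largest length of a
chain of modules from `P` to `Q` -/
def len (P : AddSubgroup W) (Q : Set W) : ℕ :=
  sSup {m | ∃ M : ℕ → AddSubgroup W, M 0 = P ∧ (M m : Set W) = Q ∧ (∀ i, IsMod L (M i)) ∧
    ∀ i < m, M i < M (i + 1)}

/-- the elements whose images modulo `T` are invariants of the decomposition group of the place
given by `j`, for an action `a` of the Galois group -/
def fixed (a : GF F → W → W) {l : ℕ} [Fact l.Prime] (j : Emb l F) (T : AddSubgroup W) : Set W :=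
  {x | ∀ (g : GF F) (t : GQ l), Compat j g t → a g x - x ∈ T}

/-- The local term at the place `v` of `F` given by `j`: the sum of the lengths of `H⁰(F_v, W / T)`
and `H⁰(F_v, W / N)`. -/
def loc (a : GF F → W → W) {l : ℕ} [Fact l.Prime] (j : Emb l F) (T N : AddSubgroup W) : ℕ :=
  len L T (fixed a j T) + len L N (fixed a j N)

variable {L}

/-- The reduction of `W` with its form `f` has a Lagrangian subspace: `T` is a stable lattice equal
to its dual lattice, and `N` is a stable lattice between `πT` and `T` such that `N / πT` is equal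
to its orthogonal complement in `T / πT`. -/
structure IsMet (a : GF F → W → W) (f : W → W → L) (T N : AddSubgroup W) : Prop where
  bdd : ∃ C : ℝ, ∀ x ∈ T, ‖x‖ ≤ C
  stab : ∀ g, ∀ x ∈ T, a g x ∈ T
  stab' : ∀ g, ∀ x ∈ N, a g x ∈ N
  dual : ∀ y, y ∈ T ↔ ∀ x ∈ T, ‖f x y‖ ≤ 1
  lagr : ∀ y, y ∈ N ↔ y ∈ T ∧ ∀ x ∈ N, ‖f x y‖ < 1

variable {n n' : ℕ}

/-- the form `⟨x, y⟩` on `V`, for the form with matrix `B` -/
def frm (B : Matrix (Fin n) (Fin n) L) (x y : Fin n → L) : L := x ⬝ᵥ (B *ᵥ y)

/-- the action on `V ⊕ V'` -/
def vec2 (V : Rep (GF F) L n) (V' : Rep (GF F) L n') (g : GF F)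
    (x : (Fin n → L) × (Fin n' → L)) : (Fin n → L) × (Fin n' → L) :=
  (vec V g x.1, vec V' g x.2)

end Local

/-- **Parity for `F` and `p`.** Let `V` be in the class with a perfect symmetric form
`⟨g x, (c g c⁻¹) y⟩ = χ(g) ⟨x, y⟩`. (1) If no simple subquotient of the residual representation has
such a form, then there are lattices `T` and `N` in `V` with `IsMet`. (2) For all lattices `T` and
`N` in `V` with `IsMet`, `H¹_f(F, V)` is finite dimensional and `dim H¹_f(F, V) + t_v(V)` is
congruent modulo `2` to the sum of the local terms at a finite family of primes which do not split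
in `F`, which includes all those where the inertia does not act through elements of order prime
to `p`. (3) If `V'` is another representation in the class with such a form, the same holds for
`V ⊕ V'` with the form `⟨x, y⟩ - ⟨x', y'⟩'`. -/
def ParityU (p : ℕ) [Fact p.Prime] (F : Type) [Field F] [NumberField F] : Prop :=
  ∀ (c : AlgebraicClosure F ≃+* AlgebraicClosure F), IsConj c →
  ∀ (L : Type) [NormedField L] [NormedAlgebra ℚ_[p] L] [FiniteDimensional ℚ_[p] L] (n : ℕ)
    (V : Rep (GF F) L n) (B : Matrix (Fin n) (Fin n) L), IsRepU p V → IsPol p V c B →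
    (NoForm p V c → ∃ T N, IsMet (vec V) (frm B) T N) ∧
    (∀ T N, IsMet (vec V) (frm B) T N →
      ∀ (κ : Type) [Fintype κ] (l : κ → ℕ) [∀ k, Fact (l k).Prime] (j : ∀ k, Emb (l k) F),
      Covers p V l → IsFin (H1f p V) ∧ ∀ v : Emb p F,
        (dim (H1f p V) + tdim V v) % 2 = (∑ k, loc L (vec V) (j k) T N) % 2) ∧
    ∀ (n' : ℕ) (V' : Rep (GF F) L n') (B' : Matrix (Fin n') (Fin n') L), IsRepU p V' →
      IsPol p V' c B' → ∀ T N, IsMet (vec2 V V') (form B B') T N →
      ∀ (κ : Type) [Fintype κ] (l : κ → ℕ) [∀ k, Fact (l k).Prime] (j : ∀ k, Emb (l k) F),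
      Covers p V l → Covers p V' l → IsFin (H1f p V) ∧ IsFin (H1f p V') ∧ ∀ v : Emb p F,
        (dim (H1f p V) + tdim V v + (dim (H1f p V') + tdim V' v)) % 2 =
          (∑ k, loc L (vec2 V V') (j k) T N) % 2

end BKS
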