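import Pool.Agent.Lib.MP_7c08ba_nt.BK.ClsU

set_option autoImplicit false

/-!
The parity theorem for congruent representations and for representations with arbitrary
ramification at the primes which do not split: the conclusion.
-/

noncomputable section

namespace BKS

open Matrix NumberField

section Ext

variable {F : Type} [Field F] {L L₂ : Type} [NormedField L] [NormedField L₂] {n n' : ℕ}

/-- the representation `V ⊗ L₂` for an extension `L₂` of `L` -/
def ext (φ : L →+* L₂) (V : Rep (GF F) L n) : Rep (GF F) L₂ n :=
  (Matrix.GeneralLinearGroup.map φ).comp V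

/-- The representations `V` and `V'` are congruent: the characteristic polynomials of `g` on `V` and
on `V'` are congruent modulo the maximal ideal for all `g`. By the theorem of Brauer and Nesbitt this
says that the semisimplifications of the residual representations are isomorphic. -/
def Congr (V : Rep (GF F) L n) (V' : Rep (GF F) L n') : Prop :=
  ∀ (g : GF F) (i : ℕ), ‖((mat V g).charpoly.coeff i - (mat V' g).charpoly.coeff i)‖ < 1

end Ext

/-- **Parity for `F` and `p`.** Let `V` be in the class with a perfect symmetric form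
`⟨g x, (c g c⁻¹) y⟩ = χ(g) ⟨x, y⟩`.

(1) If no simple subquotient of the residual representation has such a form, then there are
lattices `T` and `N` in `V` with `IsMet`.

(2) For all lattices `T` and `N` in `V` with `IsMet`, `H¹_f(F, V)` is finite dimensional and
`dim H¹_f(F, V) + t_v(V)` is congruent modulo `2` to the sum of the local terms at a finite family
of primes which do not split in `F`, which includes all those where the inertia does not act through
elements of order prime to `p`.

Let `V'` be another representation in the class with such a form.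

(3) If `V'` is congruent to `V` then there are a finite extension `L₂` of `L` and lattices `T` and
`N` in `(V ⊕ V') ⊗ L₂`, with the form `⟨x, y⟩ - ⟨x', y'⟩'`, with `IsMet`.

(4) For all such `L₂`, `T` and `N`, `dim H¹_f(F, V) + t_v(V) + dim H¹_f(F, V') + t_v(V')` is
congruent to the sum of the local terms.

(5) If `V'` is congruent to `V` and if at all primes `≠ p` which do not split in `F` the inertia
groups act on `V` and `V'` through elements of order prime to `p`, then
`dim H¹_f(F, V) + t_v(V)` and `dim H¹_f(F, V') + t_v(V')` have the same parity. -/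
def ParityV (p : ℕ) [Fact p.Prime] (F : Type) [Field F] [NumberField F] : Prop :=
  ∀ (c : AlgebraicClosure F ≃+* AlgebraicClosure F), IsConj c →
  ∀ (L : Type) [NormedField L] [NormedAlgebra ℚ_[p] L] [FiniteDimensional ℚ_[p] L] (n : ℕ)
    (V : Rep (GF F) L n) (B : Matrix (Fin n) (Fin n) L), IsRepU p V → IsPol p V c B →
    (NoForm p V c → ∃ T N, IsMet (vec V) (frm B) T N) ∧
    (∀ T N, IsMet (vec V) (frm B) T N →
      ∀ (κ : Type) [Fintype κ] (l : κ → ℕ) [∀ k, Fact (l k).Prime] (j : ∀ k, Emb (l k) F),
      Covers p V l → IsFin (H1f p V) ∧ ∀ v : Emb p F,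
        (dim (H1f p V) + tdim V v) % 2 = (∑ k, loc L (vec V) (j k) T N) % 2) ∧
    ∀ (n' : ℕ) (V' : Rep (GF F) L n') (B' : Matrix (Fin n') (Fin n') L), IsRepU p V' →
      IsPol p V' c B' →
      (Congr V V' → ∃ (L₂ : Type) (_ : NormedField L₂) (_ : NormedAlgebra ℚ_[p] L₂)
        (_ : FiniteDimensional ℚ_[p] L₂) (φ : L →ₐ[ℚ_[p]] L₂)
        (T N : AddSubgroup ((Fin n → L₂) × (Fin n' → L₂))),
        IsMet (vec2 (ext (φ : L →+* L₂) V) (ext (φ : L →+* L₂) V')) (form (B.map φ) (B'.map φ))
          T N) ∧
      (∀ (L₂ : Type) [NormedField L₂] [NormedAlgebra ℚ_[p] L₂] [FiniteDimensional ℚ_[p] L₂]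
        (φ : L →ₐ[ℚ_[p]] L₂) (T N : AddSubgroup ((Fin n → L₂) × (Fin n' → L₂))),
        IsMet (vec2 (ext (φ : L →+* L₂) V) (ext (φ : L →+* L₂) V')) (form (B.map φ) (B'.map φ))
          T N →
        ∀ (κ : Type) [Fintype κ] (l : κ → ℕ) [∀ k, Fact (l k).Prime] (j : ∀ k, Emb (l k) F),
        Covers p V l → Covers p V' l → IsFin (H1f p V) ∧ IsFin (H1f p V') ∧ ∀ v : Emb p F,
          (dim (H1f p V) + tdim V v + (dim (H1f p V') + tdim V' v)) % 2 =
            (∑ k, loc L₂ (vec2 (ext (φ : L →+* L₂) V) (ext (φ : L →+* L₂) V')) (j k) T N) % 2) ∧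
      (Congr V V' → (∀ (l : ℕ) [Fact l.Prime], l ≠ p → ¬ Split l F →
          PrimeTo p l V ∧ PrimeTo p l V') →
        IsFin (H1f p V) ∧ IsFin (H1f p V') ∧ ∀ v : Emb p F,
          (dim (H1f p V) + tdim V v) % 2 = (dim (H1f p V') + tdim V' v) % 2)

end BKS
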