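import Pool.Agent.Lib.MP_7c08ba_nt.BK.ClsV

set_option autoImplicit false

/-!
The parity theorem for congruent representations with arbitrary ramification: the conclusion.
-/

noncomputable section

namespace BKS

open Matrix NumberField

section Loc

variable {F : Type} [Field F] {L : Type} [NormedField L] {n n' : ℕ}

/-- The restrictions of `V` and `V'` to the decomposition groups above `l` are isomorphic. -/
def LocIso (l : ℕ) [Fact l.Prime] (V : Rep (GF F) L n) (V' : Rep (GF F) L n') : Prop :=
  ∀ j : Emb l F, ∃ (A : Matrix (Fin n') (Fin n) L) (A' : Matrix (Fin n) (Fin n') L),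
    A' * A = 1 ∧ A * A' = 1 ∧ ∀ (g : GF F) (t : GQ l), Compat j g t → A * mat V g = mat V' g * A

end Loc

/-- **Parity for `F` and `p`.** Let `V` be in the class with a perfect symmetric form
`⟨g x, (c g c⁻¹) y⟩ = χ(g) ⟨x, y⟩`.

(1) If no simple subquotient of the residual representation has such a form, then there are
lattices `T` and `N` in `V` with `IsMet`.

(2) For all lattices `T` and `N` in `V` with `IsMet`, `H¹_f(F, V)` is finite dimensional and
`dim H¹_f(F, V) + t_v(V)` is congruent modulo `2` to the sum of the local terms at a finite family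
of primes which do not split in `F`, which includes all those where the inertia does not act through
elements of order prime to `p`.

(3) The parities of the local terms do not depend on `T` and `N`.

Let `V'` be another representation in the class with such a form.

(4) If `V'` is congruent to `V` then there are a finite extension `L₂` of `L` and lattices `T` and
`N` in `(V ⊕ V') ⊗ L₂`, with the form `⟨x, y⟩ - ⟨x', y'⟩'`, with `IsMet`.

(5) For all such `L₂`, `T` and `N`, `dim H¹_f(F, V) + t_v(V) + dim H¹_f(F, V') + t_v(V')` is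
congruent to the sum of the local terms.

(6) If `V'` is congruent to `V` and if at each prime `≠ p` which does not split in `F` the inertia
groups act on `V` and `V'` through elements of order prime to `p`, or the restrictions of `V` and
`V'` to the decomposition groups are isomorphic, then `dim H¹_f(F, V) + t_v(V)` and
`dim H¹_f(F, V') + t_v(V')` have the same parity. -/
def ParityW (p : ℕ) [Fact p.Prime] (F : Type) [Field F] [NumberField F] : Prop :=
  ∀ (c : AlgebraicClosure F ≃+* AlgebraicClosure F), IsConj c →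
  ∀ (L : Type) [NormedField L] [NormedAlgebra ℚ_[p] L] [FiniteDimensional ℚ_[p] L] (n : ℕ)
    (V : Rep (GF F) L n) (B : Matrix (Fin n) (Fin n) L), IsRepU p V → IsPol p V c B →
    (NoForm p V c → ∃ T N, IsMet (vec V) (frm B) T N) ∧
    (∀ T N, IsMet (vec V) (frm B) T N →
      ∀ (κ : Type) [Fintype κ] (l : κ → ℕ) [∀ k, Fact (l k).Prime] (j : ∀ k, Emb (l k) F),
      Covers p V l → IsFin (H1f p V) ∧ ∀ v : Emb p F,
        (dim (H1f p V) + tdim V v) % 2 = (∑ k, loc L (vec V) (j k) T N) % 2) ∧
    (∀ T N T' N', IsMet (vec V) (frm B) T N → IsMet (vec V) (frm B) T' N' →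
      ∀ (l : ℕ) [Fact l.Prime] (j : Emb l F), l ≠ p → ¬ Split l F →
        loc L (vec V) j T N % 2 = loc L (vec V) j T' N' % 2) ∧
    ∀ (n' : ℕ) (V' : Rep (GF F) L n') (B' : Matrix (Fin n') (Fin n') L), IsRepU p V' →
      IsPol p V' c B' →
      (Congr V V' → ∃ (L₂ : Type) (_ : NormedField L₂) (_ : NormedAlgebra ℚ_[p] L₂)
        (_ : FiniteDimensional ℚ_[p] L₂) (φ : L →ₐ[ℚ_[p]] L₂)
        (T N : AddSubgroup ((Fin n → L₂) × (Fin n' → L₂))),
        IsMet (vec2 (ext (φ : L →+* L₂) V) (ext (φ : L →+* L₂) V')) (form (B.map φ) (B'.map φ))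
          T N) ∧
      (∀ (L₂ : Type) [NormedField L₂] [NormedAlgebra ℚ_[p] L₂] [FiniteDimensional ℚ_[p] L₂]
        (φ : L →ₐ[ℚ_[p]] L₂) (T N : AddSubgroup ((Fin n → L₂) × (Fin n' → L₂))),
        IsMet (vec2 (ext (φ : L →+* L₂) V) (ext (φ : L →+* L₂) V')) (form (B.map φ) (B'.map φ))
          T N →
        ∀ (κ : Type) [Fintype κ] (l : κ → ℕ) [∀ k, Fact (l k).Prime] (j : ∀ k, Emb (l k) F),
        Covers p V l → Covers p V' l → IsFin (H1f p V) ∧ IsFin (H1f p V') ∧ ∀ v : Emb p F,
          (dim (H1f p V) + tdim V v + (dim (H1f p V') + tdim V' v)) % 2 =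
            (∑ k, loc L₂ (vec2 (ext (φ : L →+* L₂) V) (ext (φ : L →+* L₂) V')) (j k) T N) % 2) ∧
      (Congr V V' → (∀ (l : ℕ) [Fact l.Prime], l ≠ p → ¬ Split l F →
          PrimeTo p l V ∧ PrimeTo p l V' ∨ LocIso l V V') →
        IsFin (H1f p V) ∧ IsFin (H1f p V') ∧ ∀ v : Emb p F,
          (dim (H1f p V) + tdim V v) % 2 = (dim (H1f p V') + tdim V' v) % 2)

end BKS
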