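import Pool.Agent.Lib.MP_7c08ba_nt.BK.ClsW

set_option autoImplicit false

/-!
The parity theorem: the conclusion.
-/

noncomputable section

namespace BKS

open Matrix NumberField

section Pair

variable {F : Type} [Field F] {L L₂ : Type} [NormedField L] [NormedField L₂] {n n' : ℕ}

/-- `T` and `N` are lattices with `IsMet` in `W = (V ⊕ V') ⊗ L₂`, with the form
`⟨x, y⟩ - ⟨x', y'⟩'`. -/
def IsMet2 (φ : L →+* L₂) (V : Rep (GF F) L n) (B : Matrix (Fin n) (Fin n) L)
    (V' : Rep (GF F) L n') (B' : Matrix (Fin n') (Fin n') L)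
    (T N : AddSubgroup ((Fin n → L₂) × (Fin n' → L₂))) : Prop :=
  IsMet (vec2 (ext φ V) (ext φ V')) (form (B.map φ) (B'.map φ)) T N

/-- The local term of `W = (V ⊕ V') ⊗ L₂` at the place `v` of `F` given by `j`: the sum of the
lengths of `H⁰(F_v, W / T)` and `H⁰(F_v, W / N)`. -/
def loc2 (φ : L →+* L₂) (V : Rep (GF F) L n) (V' : Rep (GF F) L n') {l : ℕ} [Fact l.Prime]
    (j : Emb l F) (T N : AddSubgroup ((Fin n → L₂) × (Fin n' → L₂))) : ℕ :=
  loc L₂ (vec2 (ext φ V) (ext φ V')) j T N

end Pair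

/-- **Parity for `F` and `p`.** Let `V` and `V'` be in the class, with perfect symmetric forms
`⟨g x, (c g c⁻¹) y⟩ = χ(g) ⟨x, y⟩`. The representation `V'` may be zero.

(1) If `V'` is congruent to `V`, or if `V' = 0` and no simple subquotient of the residual
representation of `V` has such a form, then there are a finite extension `L₂` of `L` and lattices
`T` and `N` with `IsMet` in `W = (V ⊕ V') ⊗ L₂`, with the form `⟨x, y⟩ - ⟨x', y'⟩'`.

(2) For all such `L₂`, `T` and `N`, the spaces `H¹_f(F, V)` and `H¹_f(F, V')` are finite dimensional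
and `dim H¹_f(F, V) + t_v(V) + dim H¹_f(F, V') + t_v(V')` is congruent modulo `2` to the sum of the
local terms of `W` at a finite family of primes which do not split in `F`, which includes all those
where the inertia does not act on `V` and `V'` through elements of order prime to `p`; and the
parities of the local terms do not depend on `T` and `N`.

(3) In case (1), if at each prime `≠ p` which does not split in `F` the inertia groups act on `V`
and `V'` through elements of order prime to `p`, or the restrictions of `V` and `V'` to the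
decomposition groups are isomorphic, then `dim H¹_f(F, V) + t_v(V)` and
`dim H¹_f(F, V') + t_v(V')` have the same parity. -/
def ParityX (p : ℕ) [Fact p.Prime] (F : Type) [Field F] [NumberField F] : Prop :=
  ∀ (c : AlgebraicClosure F ≃+* AlgebraicClosure F), IsConj c →
  ∀ (L : Type) [NormedField L] [NormedAlgebra ℚ_[p] L] [FiniteDimensional ℚ_[p] L] (n n' : ℕ)
    (V : Rep (GF F) L n) (V' : Rep (GF F) L n') (B : Matrix (Fin n) (Fin n) L)
    (B' : Matrix (Fin n') (Fin n') L), IsRepU p V → IsRepU p V' → IsPol p V c B →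
    IsPol p V' c B' →
    (Congr V V' ∨ n' = 0 ∧ NoForm p V c →
      ∃ (L₂ : Type) (_ : NormedField L₂) (_ : NormedAlgebra ℚ_[p] L₂)
        (_ : FiniteDimensional ℚ_[p] L₂) (φ : L →ₐ[ℚ_[p]] L₂)
        (T N : AddSubgroup ((Fin n → L₂) × (Fin n' → L₂))),
        IsMet2 (φ : L →+* L₂) V B V' B' T N) ∧
    (∀ (L₂ : Type) [NormedField L₂] [NormedAlgebra ℚ_[p] L₂] [FiniteDimensional ℚ_[p] L₂]
      (φ : L →ₐ[ℚ_[p]] L₂) (T N : AddSubgroup ((Fin n → L₂) × (Fin n' → L₂))),
      IsMet2 (φ : L →+* L₂) V B V' B' T N →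
      (∀ (κ : Type) [Fintype κ] (l : κ → ℕ) [∀ k, Fact (l k).Prime] (j : ∀ k, Emb (l k) F),
        Covers p V l → Covers p V' l → IsFin (H1f p V) ∧ IsFin (H1f p V') ∧ ∀ v : Emb p F,
          (dim (H1f p V) + tdim V v + (dim (H1f p V') + tdim V' v)) % 2 =
            (∑ k, loc2 (φ : L →+* L₂) V V' (j k) T N) % 2) ∧
      ∀ T' N' : AddSubgroup ((Fin n → L₂) × (Fin n' → L₂)),
        IsMet2 (φ : L →+* L₂) V B V' B' T' N' →
        ∀ (l : ℕ) [Fact l.Prime] (j : Emb l F), l ≠ p → ¬ Split l F →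
          loc2 (φ : L →+* L₂) V V' j T N % 2 = loc2 (φ : L →+* L₂) V V' j T' N' % 2) ∧
    (Congr V V' ∨ n' = 0 ∧ NoForm p V c →
      (∀ (l : ℕ) [Fact l.Prime], l ≠ p → ¬ Split l F →
        PrimeTo p l V ∧ PrimeTo p l V' ∨ LocIso l V V') →
      IsFin (H1f p V) ∧ IsFin (H1f p V') ∧ ∀ v : Emb p F,
        (dim (H1f p V) + tdim V v) % 2 = (dim (H1f p V') + tdim V' v) % 2)

end BKS
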