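import Pool.Agent.Lib.MP_7c08ba_nt.BK.ClsX

set_option autoImplicit false

/-!
The parity theorem: the conclusion, with a criterion for the existence of the lattices in terms of
the semisimplification of the residual representation.
-/

noncomputable section

namespace BKS

open Matrix NumberField

section Residual

variable {F : Type} [Field F] {L : Type} [NormedField L] {n n' m : ℕ}

/-- `U` is a representation over the residue field of `L` (given by representatives). -/
structure IsResRep (U : GF F → Matrix (Fin m) (Fin m) L) : Prop where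
  int : ∀ g i j, ‖U g i j‖ ≤ 1
  one : ∀ i j, ‖(U 1 - 1) i j‖ < 1
  mul : ∀ g h i j, ‖(U (g * h) - U g * U h) i j‖ < 1

/-- The semisimplification of the residual representation of `V ⊕ V'` is the one of `U ⊕ U^*`, where
`U^*(g) = χ(g) U(c g⁻¹ c⁻¹)ᵗ`: the characteristic polynomials are congruent. -/
def Hyper (p : ℕ) [Fact p.Prime] [NormedAlgebra ℚ_[p] L] (V : Rep (GF F) L n)
    (V' : Rep (GF F) L n') (c : AlgebraicClosure F ≃+* AlgebraicClosure F) : Prop :=
  ∃ (m : ℕ) (U : GF F → Matrix (Fin m) (Fin m) L), IsResRep U ∧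
    ∀ g g' : GF F, (∀ z, g' (c z) = c (g z)) → ∀ i : ℕ,
      ‖((mat V g).charpoly * (mat V' g).charpoly -
        (U g).charpoly * (chi p L g • (U g'⁻¹)ᵀ).charpoly).coeff i‖ < 1

/-- One of the following holds: `V'` is congruent to `V`; the semisimplification of the residual
representation of `V ⊕ V'` is the one of `U ⊕ U^*` for some `U`; or `V' = 0` and no simple
subquotient of the residual representation of `V` has a perfect symmetric form
`⟨g x, (c g c⁻¹) y⟩ = χ(g) ⟨x, y⟩`. -/
def Crit (p : ℕ) [Fact p.Prime] [NumberField F] [NormedAlgebra ℚ_[p] L] (V : Rep (GF F) L n)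
    (V' : Rep (GF F) L n') (c : AlgebraicClosure F ≃+* AlgebraicClosure F) : Prop :=
  Congr V V' ∨ Hyper p V V' c ∨ n' = 0 ∧ NoForm p V c

end Residual

/-- **Parity for `F` and `p`.** Let `V` and `V'` be in the class, with perfect symmetric forms
`⟨g x, (c g c⁻¹) y⟩ = χ(g) ⟨x, y⟩`. The representation `V'` may be zero.

(1) If `Crit` holds, for example if `V'` is congruent to `V`, then there are a finite extension `L₂`
of `L` and lattices `T` and `N` with `IsMet` in `W = (V ⊕ V') ⊗ L₂`, with the form
`⟨x, y⟩ - ⟨x', y'⟩'`.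

(2) For all such `L₂`, `T` and `N`, the spaces `H¹_f(F, V)` and `H¹_f(F, V')` are finite dimensional
and `dim H¹_f(F, V) + t_v(V) + dim H¹_f(F, V') + t_v(V')` is congruent modulo `2` to the sum of the
local terms of `W` at a finite family of primes which do not split in `F`, which includes all those
where the inertia does not act on `V` and `V'` through elements of order prime to `p`; and the
parities of the local terms do not depend on `T` and `N`.

(3) If `Crit` holds, and if at each prime `≠ p` which does not split in `F` the inertia groups act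
on `V` and `V'` through elements of order prime to `p`, or the restrictions of `V` and `V'` to the
decomposition groups are isomorphic, then `dim H¹_f(F, V) + t_v(V)` and
`dim H¹_f(F, V') + t_v(V')` have the same parity. -/
def ParityY (p : ℕ) [Fact p.Prime] (F : Type) [Field F] [NumberField F] : Prop :=
  ∀ (c : AlgebraicClosure F ≃+* AlgebraicClosure F), IsConj c →
  ∀ (L : Type) [NormedField L] [NormedAlgebra ℚ_[p] L] [FiniteDimensional ℚ_[p] L] (n n' : ℕ)
    (V : Rep (GF F) L n) (V' : Rep (GF F) L n') (B : Matrix (Fin n) (Fin n) L)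
    (B' : Matrix (Fin n') (Fin n') L), IsRepU p V → IsRepU p V' → IsPol p V c B →
    IsPol p V' c B' →
    (Crit p V V' c →
      ∃ (L₂ : Type) (_ : NormedField L₂) (_ : NormedAlgebra ℚ_[p] L₂)
        (_ : FiniteDimensional ℚ_[p] L₂) (φ : L →ₐ[ℚ_[p]] L₂)
        (T N : AddSubgroup ((Fin n → L₂) × (Fin n' → L₂))),
        IsMet2 (φ : L →+* L₂) V B V' B' T N) ∧
    (∀ (L₂ : Type) [NormedField L₂] [NormedAlgebra ℚ_[p] L₂] [FiniteDimensional ℚ_[p] L₂]
      (φ : L →ₐ[ℚ_[p]] L₂) (T N : AddSubgroup ((Fin n → L₂) × (Fin n' → L₂))),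
      IsMet2 (φ : L →+* L₂) V B V' B' T N →
      (∀ (κ : Type) [Fintype κ] (l : κ → ℕ) [∀ k, Fact (l k).Prime] (j : ∀ k, Emb (l k) F),
        Covers p V l → Covers p V' l → IsFin (H1f p V) ∧ IsFin (H1f p V') ∧ ∀ v : Emb p F,
          (dim (H1f p V) + tdim V v + (dim (H1f p V') + tdim V' v)) % 2 =
            (∑ k, loc2 (φ : L →+* L₂) V V' (j k) T N) % 2) ∧
      ∀ T' N' : AddSubgroup ((Fin n → L₂) × (Fin n' → L₂)),
        IsMet2 (φ : L →+* L₂) V B V' B' T' N' →
        ∀ (l : ℕ) [Fact l.Prime] (j : Emb l F), l ≠ p → ¬ Split l F →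
          loc2 (φ : L →+* L₂) V V' j T N % 2 = loc2 (φ : L →+* L₂) V V' j T' N' % 2) ∧
    (Crit p V V' c →
      (∀ (l : ℕ) [Fact l.Prime], l ≠ p → ¬ Split l F →
        PrimeTo p l V ∧ PrimeTo p l V' ∨ LocIso l V V') →
      IsFin (H1f p V) ∧ IsFin (H1f p V') ∧ ∀ v : Emb p F,
        (dim (H1f p V) + tdim V v) % 2 = (dim (H1f p V') + tdim V' v) % 2)

end BKS
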