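import Pool.Agent.Lib.MP_7c08ba_nt.BK.ClsY

set_option autoImplicit false

/-!
The parity theorem: the conclusion, with an explicit formula for the local terms.
-/

noncomputable section

namespace BKS

open Matrix NumberField Filter

section Local

variable {F : Type} [Field F] {L : Type} [NormedField L] {n : ℕ}

/-- `g` is an arithmetic Frobenius element at the place given by `j`: `g x` is congruent to `x ^ q`
for all `x` which are integral at this place, where `q` is the order of the residue field of
`F`. -/
def IsFrb {l : ℕ} [Fact l.Prime] (j : Emb l F) (g : GF F) : Prop :=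
  ∃ q : ℕ, IsLeast {m : ℕ | 1 < m ∧ ∀ x : F, ‖j (algebraMap F (AlgebraicClosure F) x)‖ ≤ 1 →
      ‖j (algebraMap F (AlgebraicClosure F) x) ^ m -
        j (algebraMap F (AlgebraicClosure F) x)‖ < 1} q ∧
    ∀ x, ‖j x‖ ≤ 1 → ‖j (g x) - j x ^ q‖ < 1

/-- the vectors `x` with `(g - 1)^m x → 0`: the sum of the generalized eigenspaces of `g` for the
eigenvalues `α` with `|α - 1| < 1` -/
def nilS (V : Rep (GF F) L n) (g : GF F) : Submodule L (Fin n → L) where
  carrier := {x | Tendsto (fun m : ℕ => (mat V g - 1) ^ m *ᵥ x) atTop (nhds 0)}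
  add_mem' := by
    intro x y hx hy
    have h := Tendsto.add hx hy
    rw [add_zero] at h
    refine h.congr fun m => ?_
    rw [Matrix.mulVec_add]
  zero_mem' := by
    refine tendsto_const_nhds.congr fun m => ?_
    rw [Matrix.mulVec_zero]
  smul_mem' := by
    intro a x hx
    have h := Tendsto.const_smul hx a
    rw [smul_zero] at h
    refine h.congr fun m => ?_
    rw [Matrix.mulVec_smul]

/-- the vectors which are fixed by `g` -/
def fixS (V : Rep (GF F) L n) (g : GF F) : Submodule L (Fin n → L) where
  carrier := {x | vec V g x = x}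
  add_mem' := by
    intro x y hx hy
    change vec V g (x + y) = x + y
    rw [vec_add, hx, hy]
  zero_mem' := vec_zero V g
  smul_mem' := by
    intro a x hx
    change vec V g (a • x) = a • x
    rw [vec_smul, hx]

/-- For the place `v` given by `j` and a Frobenius element `g`: let `V_u` be the space of the
vectors `x` with `(h - 1)^m x → 0` for all `h` in the inertia group. This is the number of the
eigenvalues `α` with `|α - 1| < 1` of `g` on the quotient of `V_u` by the space of the vectors
fixed by the inertia group, counted with multiplicities. -/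
def ndel (V : Rep (GF F) L n) {l : ℕ} [Fact l.Prime] (j : Emb l F) (g : GF F) : ℕ :=
  Module.finrank L
      ((⨅ h ∈ BKGen.Inert F (AlgebraicClosure F) j, nilS V h) ⊓ nilS V g :
        Submodule L (Fin n → L)) -
    Module.finrank L
      ((⨅ h ∈ BKGen.Inert F (AlgebraicClosure F) j, fixS V h) ⊓ nilS V g :
        Submodule L (Fin n → L))

end Local

section Criterion

variable {F : Type} [Field F] {L : Type} [NormedField L] {n n' : ℕ}

/-- One of the following holds: `V'` is congruent to `V`; after an extension of `L`, the
semisimplification of the residual representation of `V ⊕ V'` is the one of `U ⊕ U^*` for some `U`;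
or `V' = 0` and no simple subquotient of the residual representation of `V` has a perfect symmetric
form `⟨g x, (c g c⁻¹) y⟩ = χ(g) ⟨x, y⟩`. -/
def CritZ (p : ℕ) [Fact p.Prime] [NumberField F] [NormedAlgebra ℚ_[p] L] (V : Rep (GF F) L n)
    (V' : Rep (GF F) L n') (c : AlgebraicClosure F ≃+* AlgebraicClosure F) : Prop :=
  Congr V V' ∨
  (∃ (L₂ : Type) (_ : NormedField L₂) (_ : NormedAlgebra ℚ_[p] L₂)
    (_ : FiniteDimensional ℚ_[p] L₂) (φ : L →ₐ[ℚ_[p]] L₂),
    Hyper p (ext (φ : L →+* L₂) V) (ext (φ : L →+* L₂) V') c) ∨
  n' = 0 ∧ NoForm p V c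

end Criterion

/-- **Parity for `F` and `p`.** Let `V` and `V'` be in the class, with perfect symmetric forms
`⟨g x, (c g c⁻¹) y⟩ = χ(g) ⟨x, y⟩`, for example with `V' = 0`. If `CritZ` holds, for example if `V'`
is congruent to `V`, then `H¹_f(F, V)` and `H¹_f(F, V')` are finite dimensional and
`dim H¹_f(F, V) + t_v(V) + ∑ δ_w(V)` and `dim H¹_f(F, V') + t_v(V') + ∑ δ_w(V')` have the same
parity. The sums are over a finite family of primes which do not split in `F`, with one place `w`
for each, which includes all those where the inertia does not act on `V` and `V'` through elements of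
order prime to `p`; `δ_w` is the number `ndel` for any Frobenius element. -/
def ParityZ (p : ℕ) [Fact p.Prime] (F : Type) [Field F] [NumberField F] : Prop :=
  ∀ (c : AlgebraicClosure F ≃+* AlgebraicClosure F), IsConj c →
  ∀ (L : Type) [NormedField L] [NormedAlgebra ℚ_[p] L] [FiniteDimensional ℚ_[p] L] (n n' : ℕ)
    (V : Rep (GF F) L n) (V' : Rep (GF F) L n') (B : Matrix (Fin n) (Fin n) L)
    (B' : Matrix (Fin n') (Fin n') L), IsRepU p V → IsRepU p V' → IsPol p V c B →
    IsPol p V' c B' → CritZ p V V' c →
    IsFin (H1f p V) ∧ IsFin (H1f p V') ∧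
    ∀ (κ : Type) [Fintype κ] (l : κ → ℕ) [∀ k, Fact (l k).Prime] (j : ∀ k, Emb (l k) F)
      (g : κ → GF F), Covers p V l → Covers p V' l → (∀ k, IsFrb (j k) (g k)) → ∀ v : Emb p F,
      (dim (H1f p V) + tdim V v + ∑ k, ndel V (j k) (g k)) % 2 =
        (dim (H1f p V') + tdim V' v + ∑ k, ndel V' (j k) (g k)) % 2

end BKS
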