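import Pool.Agent.Lib.MP_7c08ba_nt.BK.ClsT
import Pool.Agent.Lib.MP_7c08ba_nt.Met.NRAM

set_option autoImplicit false

/-!
The parity theorem for general residual representations contains the parity theorem for
residually triangular representations.
-/

noncomputable section

namespace BKS

open Matrix NumberField

namespace CmpT

/-! ### A ramified prime -/

section Ram

theorem norm_sq_ne {l : ℕ} [hl : Fact l.Prime] (x : ℚ_[l]) : ‖x‖ ^ 2 ≠ (l : ℝ)⁻¹ := by
  have h1 : (1 : ℝ) < l := by exact_mod_cast hl.out.one_lt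
  intro h
  rcases eq_or_ne x 0 with h0 | h0
  · rw [h0, norm_zero] at h
    have : (l : ℝ)⁻¹ ≠ 0 := inv_ne_zero (by linarith)
    apply this
    rw [← h]
    norm_num
  · rw [Padic.norm_eq_zpow_neg_valuation h0, ← zpow_natCast, ← _root_.zpow_mul, ← _root_.zpow_neg_one] at h
    have h2 := zpow_right_injective₀ (by linarith) h1.ne' h
    push_cast at h2
    omega

variable (F : Type) [Field F] [NumberField F]

theorem exists_above (l : ℕ) [hl : Fact l.Prime] :
    ∃ v : IsDedekindDomain.HeightOneSpectrum (𝓞 F), (l : 𝓞 F) ∈ v.asIdeal := by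
  have hmax : (Ideal.span {(l : ℤ)}).IsMaximal := Int.ideal_span_isMaximal_of_prime l
  have hker : RingHom.ker (algebraMap ℤ (𝓞 F)) ≤ Ideal.span {(l : ℤ)} := by
    rw [(RingHom.injective_iff_ker_eq_bot _).1 (FaithfulSMul.algebraMap_injective ℤ (𝓞 F))]
    exact bot_le
  obtain ⟨Q, hQ, hQl⟩ := Ideal.exists_ideal_over_maximal_of_isIntegral (S := 𝓞 F)
    (Ideal.span {(l : ℤ)}) hker
  have hmem : (l : 𝓞 F) ∈ Q := by
    have h1 : (l : ℤ) ∈ Q.comap (algebraMap ℤ (𝓞 F)) := by
      rw [hQl]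
      exact Ideal.mem_span_singleton_self _
    rw [Ideal.mem_comap] at h1
    simpa using h1
  refine ⟨⟨Q, hQ.isPrime, ?_⟩, hmem⟩
  rintro rfl
  rw [Ideal.mem_bot] at hmem
  have h2 : l = 0 := by exact_mod_cast hmem
  exact hl.out.ne_zero h2

theorem exists_ram (hF : Module.finrank ℚ F = 2) :
    ∃ (l : ℕ) (_ : Fact l.Prime), Ramified l F ∧ ¬ Nonempty (F →+* ℚ_[l]) := by
  obtain ⟨s, e, g, hs, hg, he, hse⟩ := BKMet.NRAM.exists_sqrt F hF
  have hint : IsIntegral ℤ s := by
    refine ⟨Polynomial.X ^ 2 - Polynomial.C (e * g), Polynomial.monic_X_pow_sub_C _ two_ne_zero, ?_⟩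
    rw [Polynomial.eval₂_sub, Polynomial.eval₂_pow, Polynomial.eval₂_X, Polynomial.eval₂_C, hse]
    simp
  let S : 𝓞 F := ⟨s, hint⟩
  have hS : S ^ 2 = (e : 𝓞 F) * g := by
    apply RingOfIntegers.ext
    change s ^ 2 = _
    rw [hse]
    simp
  have he2 : (e : 𝓞 F) * e = 1 := by
    rcases he with he | he
    · rw [he]
      simp
    · rw [he]
      simp
  by_cases hg1 : g = 1
  · have he1 : e = -1 := by
      rcases he with he | he
      · exfalso
        rw [he, hg1] at hse
        push_cast at hse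
        have h1 : (s - 1) * (s + 1) = 0 := by linear_combination hse
        rcases mul_eq_zero.1 h1 with h2 | h2
        · apply hs 1
          rw [map_one]
          linear_combination h2
        · apply hs (-1)
          rw [map_neg, map_one]
          linear_combination h2
      · exact he
    have hf2 : Fact (Nat.Prime 2) := ⟨Nat.prime_two⟩
    refine ⟨2, hf2, ?_, ?_⟩
    · obtain ⟨v, hv⟩ := exists_above F 2
      refine ⟨v, ?_⟩
      have hS1 : S ^ 2 = -1 := by
        rw [hS, he1, hg1]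
        push_cast
        ring
      have h2 : (1 + S) ^ 2 = ((2 : ℕ) : 𝓞 F) * S := by
        push_cast
        linear_combination hS1
      have h3 : 1 + S ∈ v.asIdeal := by
        refine v.isPrime.mem_of_pow_mem 2 ?_
        rw [h2]
        exact v.asIdeal.mul_mem_right _ hv
      have h4 : ((2 : ℕ) : 𝓞 F) * S ∈ v.asIdeal ^ 2 := by
        rw [← h2]
        exact Ideal.pow_mem_pow h3 2
      have h5 : ((2 : ℕ) : 𝓞 F) = (-S) * (((2 : ℕ) : 𝓞 F) * S) := by
        push_cast
        linear_combination (2 : 𝓞 F) * hS1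
      rw [h5]
      exact Ideal.mul_mem_left _ _ h4
    · rintro ⟨φ⟩
      rw [he1, hg1] at hse
      have h1 : (φ s) ^ 2 = -1 := by
        rw [← map_pow, hse]
        simp
      have h2 : ‖φ s‖ = 1 := by
        have h3 : ‖φ s‖ ^ 2 = 1 := by rw [← norm_pow, h1, norm_neg, norm_one]
        exact (pow_eq_one_iff_of_nonneg (norm_nonneg _) two_ne_zero).mp h3
      have h3 : (1 + φ s) ^ 2 = 2 * φ s := by linear_combination h1
      apply norm_sq_ne (1 + φ s)
      rw [← norm_pow, h3, norm_mul, h2, mul_one]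
      have := Padic.norm_p (p := 2)
      push_cast at this ⊢
      exact this
  · obtain ⟨l, hl, hlg⟩ := Nat.exists_prime_and_dvd hg1
    have hlf : Fact l.Prime := ⟨hl⟩
    refine ⟨l, hlf, ?_, ?_⟩
    · obtain ⟨v, hv⟩ := exists_above F l
      refine ⟨v, ?_⟩
      obtain ⟨m, rfl⟩ := hlg
      have hco : IsCoprime (l : ℤ) (m : ℤ) := by
        rw [Nat.isCoprime_iff_coprime]
        refine (hl.coprime_iff_not_dvd).2 ?_
        rintro ⟨d, rfl⟩
        have h1 := hg l ⟨d, by ring⟩
        exact hl.one_lt.ne' (Nat.isUnit_iff.1 h1)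
      have hSv : S ∈ v.asIdeal := by
        refine v.isPrime.mem_of_pow_mem 2 ?_
        rw [hS]
        push_cast
        exact v.asIdeal.mul_mem_left _ (v.asIdeal.mul_mem_right _ hv)
      have hgv : (l : 𝓞 F) * m ∈ v.asIdeal ^ 2 := by
        have h1 : (l : 𝓞 F) * m = e * S ^ 2 := by
          rw [hS, ← mul_assoc, he2, one_mul]
          push_cast
          rfl
        rw [h1]
        exact Ideal.mul_mem_left _ _ (Ideal.pow_mem_pow hSv 2)
      obtain ⟨a, b, hab⟩ := hco
      have hab' : (a : 𝓞 F) * l + b * m = 1 := by exact_mod_cast congrArg (Int.cast : ℤ → 𝓞 F) hab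
      have h5 : (l : 𝓞 F) = a * (l : 𝓞 F) ^ 2 + b * ((l : 𝓞 F) * m) := by
        linear_combination (-(l : 𝓞 F)) * hab'
      rw [h5]
      exact Ideal.add_mem _ (Ideal.mul_mem_left _ _ (Ideal.pow_mem_pow hv 2))
        (Ideal.mul_mem_left _ _ hgv)
    · rintro ⟨φ⟩
      apply norm_sq_ne (φ s)
      rw [← norm_pow, ← map_pow, hse, map_mul, map_intCast, map_natCast, norm_mul,
        BKMet.NRAM.norm_sqfree hg hlg]
      have h1 : ‖((e : ℤ) : ℚ_[l])‖ = 1 := by
        rcases he with he | he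
        · rw [he]
          simp
        · rw [he]
          simp
      rw [h1, one_mul]

end Ram

/-! ### The lattices -/

section Lat

variable {F : Type} [Field F] {L : Type} [NormedField L] {n : ℕ}

/-- the vector of the coordinates given by `A` -/
def co (A : GL (Fin n) L) (x : Fin n → L) : Fin n → L := (A : Matrix (Fin n) (Fin n) L) *ᵥ x

theorem co_add (A : GL (Fin n) L) (x y : Fin n → L) : co A (x + y) = co A x + co A y :=
  Matrix.mulVec_add _ _ _

theorem co_smul (A : GL (Fin n) L) (a : L) (x : Fin n → L) : co A (a • x) = a • co A x :=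
  Matrix.mulVec_smul _ _ _

theorem co_zero (A : GL (Fin n) L) : co A 0 = 0 := Matrix.mulVec_zero _

theorem co_neg (A : GL (Fin n) L) (x : Fin n → L) : co A (-x) = -co A x :=
  Matrix.mulVec_neg _ _

theorem co_inv (A : GL (Fin n) L) (x : Fin n → L) : co A⁻¹ (co A x) = x := by
  unfold co
  rw [Matrix.mulVec_mulVec, ← Units.val_mul, inv_mul_cancel, Units.val_one, Matrix.one_mulVec]

theorem co_vec (V : Rep (GF F) L n) (A : GL (Fin n) L) (g : GF F) (x : Fin n → L) :
    co A (vec V g x) = matA V A g *ᵥ co A x := by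
  unfold co vec mat matA
  rw [Matrix.mulVec_mulVec, Matrix.mulVec_mulVec, ← Units.val_mul, ← Units.val_mul,
    inv_mul_cancel_right]

theorem norm_co_le (A : GL (Fin n) L) (x : Fin n → L) (r : ℝ) (hr : 0 ≤ r)
    (hx : ∀ k, ‖x k‖ ≤ r) (k : Fin n) :
    ‖co A x k‖ ≤ (∑ i, ∑ j, ‖(A : Matrix (Fin n) (Fin n) L) i j‖) * r := by
  have h1 : ‖co A x k‖ ≤ ∑ j, ‖(A : Matrix (Fin n) (Fin n) L) k j‖ * r := by
    change ‖∑ j, (A : Matrix (Fin n) (Fin n) L) k j * x j‖ ≤ _
    refine (norm_sum_le _ _).trans (Finset.sum_le_sum fun j _ => ?_)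
    rw [norm_mul]
    exact mul_le_mul_of_nonneg_left (hx j) (norm_nonneg _)
  refine h1.trans ?_
  rw [← Finset.sum_mul]
  refine mul_le_mul_of_nonneg_right ?_ hr
  exact Finset.single_le_sum (f := fun i => ∑ j, ‖(A : Matrix (Fin n) (Fin n) L) i j‖)
    (fun i _ => Finset.sum_nonneg fun j _ => norm_nonneg _) (Finset.mem_univ k)

variable [IsUltrametricDist L]

/-- the vectors whose coordinates are integral, and in the maximal ideal from the index `i` on -/
def TI (A : GL (Fin n) L) (i : ℕ) : AddSubgroup (Fin n → L) where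
  carrier := {x | ∀ k : Fin n, ‖co A x k‖ ≤ 1 ∧ (i ≤ (k : ℕ) → ‖co A x k‖ < 1)}
  add_mem' := by
    intro x y hx hy k
    rw [co_add]
    exact ⟨(IsUltrametricDist.norm_add_le_max _ _).trans (max_le (hx k).1 (hy k).1),
      fun hk => (IsUltrametricDist.norm_add_le_max _ _).trans_lt
        (max_lt ((hx k).2 hk) ((hy k).2 hk))⟩
  zero_mem' := by
    intro k
    rw [co_zero]
    simp
  neg_mem' := by
    intro x hx k
    rw [co_neg]
    change ‖-(co A x k)‖ ≤ 1 ∧ (i ≤ (k : ℕ) → ‖-(co A x k)‖ < 1)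
    rw [norm_neg]
    exact hx k

theorem mem_TI {A : GL (Fin n) L} {i : ℕ} {x : Fin n → L} :
    x ∈ TI A i ↔ ∀ k : Fin n, ‖co A x k‖ ≤ 1 ∧ (i ≤ (k : ℕ) → ‖co A x k‖ < 1) := Iff.rfl

theorem TI_smul (A : GL (Fin n) L) (i : ℕ) (a : L) (ha : ‖a‖ ≤ 1) (x : Fin n → L)
    (hx : x ∈ TI A i) : a • x ∈ TI A i := by
  intro k
  rw [co_smul]
  change ‖a * co A x k‖ ≤ 1 ∧ (i ≤ (k : ℕ) → ‖a * co A x k‖ < 1)
  rw [norm_mul]
  refine ⟨mul_le_one₀ ha (norm_nonneg _) (hx k).1, fun hk => ?_⟩
  have h1 := (hx k).2 hk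
  have h2 := mul_le_mul_of_nonneg_right ha (norm_nonneg (co A x k))
  linarith

theorem TI_stab (V : Rep (GF F) L n) (A : GL (Fin n) L) (hA : IsTri V A) (i : ℕ) (g : GF F)
    (x : Fin n → L) (hx : x ∈ TI A i) : vec V g x ∈ TI A i := by
  intro k
  rw [co_vec]
  change ‖∑ j, matA V A g k j * co A x j‖ ≤ 1 ∧ (i ≤ (k : ℕ) →
    ‖∑ j, matA V A g k j * co A x j‖ < 1)
  constructor
  · refine Finset.sum_induction _ (fun z => ‖z‖ ≤ 1) ?_ ?_ ?_
    · intro a b ha hb
      exact (IsUltrametricDist.norm_add_le_max _ _).trans (max_le ha hb)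
    · rw [norm_zero]
      exact zero_le_one
    · intro j _
      rw [norm_mul]
      exact mul_le_one₀ (hA g k j).1 (norm_nonneg _) (hx j).1
  · intro hk
    refine Finset.sum_induction _ (fun z => ‖z‖ < 1) ?_ ?_ ?_
    · intro a b ha hb
      exact (IsUltrametricDist.norm_add_le_max _ _).trans_lt (max_lt ha hb)
    · rw [norm_zero]
      exact zero_lt_one
    · intro j _
      rw [norm_mul]
      by_cases hj : i ≤ (j : ℕ)
      · have h1 := (hx j).2 hj
        have h2 := mul_le_mul_of_nonneg_right (hA g k j).1 (norm_nonneg (co A x j))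
        linarith
      · have hjk : j < k := by
          rw [Fin.lt_def]
          omega
        have h1 := (hA g k j).2 hjk
        have h2 := mul_le_mul_of_nonneg_left (hx j).1 (norm_nonneg (matA V A g k j))
        linarith

theorem TI_lat (V : Rep (GF F) L n) (A : GL (Fin n) L) (hA : IsTri V A) :
    IsLat V (TI A n) where
  bdd := by
    refine ⟨∑ i, ∑ j, ‖((A⁻¹ : GL (Fin n) L) : Matrix (Fin n) (Fin n) L) i j‖, fun x hx => ?_⟩
    refine (pi_norm_le_iff_of_nonneg
      (Finset.sum_nonneg fun i _ => Finset.sum_nonneg fun j _ => norm_nonneg _)).2 fun k => ?_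
    have h1 := norm_co_le A⁻¹ (co A x) 1 zero_le_one (fun k => (hx k).1) k
    rw [co_inv, mul_one] at h1
    exact h1
  nhd := by
    set C := ∑ i, ∑ j, ‖(A : Matrix (Fin n) (Fin n) L) i j‖ with hC
    have hC0 : 0 ≤ C := Finset.sum_nonneg fun i _ => Finset.sum_nonneg fun j _ => norm_nonneg _
    refine ⟨1 / (C + 1), by positivity, fun x hx k => ⟨?_, fun hk => absurd k.2 (by omega)⟩⟩
    have h1 := norm_co_le A x (1 / (C + 1)) (by positivity)
      (fun j => (norm_le_pi_norm x j).trans hx) k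
    refine h1.trans ?_
    rw [← hC, mul_one_div, div_le_one (by positivity)]
    linarith
  smul := fun a ha x hx => TI_smul A n a ha x hx
  stab := fun g x hx => TI_stab V A hA n g x hx

theorem TI_zero_le (V : Rep (GF F) L n) (A : GL (Fin n) L) (P Q : AddSubgroup (Fin n → L))
    (h : IsSimp V (TI A n) P Q) : TI A 0 ≤ P := by
  intro x hx
  rcases Nat.eq_zero_or_pos n with h0 | h0
  · have : IsEmpty (Fin n) := by
      rw [h0]
      infer_instance
    have hx0 : x = 0 := Subsingleton.elim _ _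
    rw [hx0]
    exact P.zero_mem
  · have : Nonempty (Fin n) := ⟨⟨0, h0⟩⟩
    obtain ⟨k0, hk0⟩ := Finite.exists_max fun k => ‖co A x k‖
    rcases eq_or_ne (co A x k0) 0 with ha | ha
    · have hx0 : co A x = 0 := by
        funext k
        have h1 := hk0 k
        rw [ha, norm_zero] at h1
        exact norm_le_zero_iff.1 h1
      have h2 := co_inv A x
      rw [hx0, co_zero] at h2
      rw [← h2]
      exact P.zero_mem
    · have h1 : x = co A x k0 • ((co A x k0)⁻¹ • x) := by
        rw [smul_smul, mul_inv_cancel₀ ha, one_smul]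
      rw [h1]
      refine h.red _ ((hx k0).2 (Nat.zero_le _)) _ fun k => ⟨?_, fun hk => absurd k.2 (by omega)⟩
      rw [co_smul]
      change ‖(co A x k0)⁻¹ * co A x k‖ ≤ 1
      rw [norm_mul, norm_inv, inv_mul_le_iff₀ (norm_pos_iff.2 ha), mul_one]
      exact hk0 k

theorem latN (V : Rep (GF F) L n) (A : GL (Fin n) L) (hA : IsTri V A) (i : ℕ)
    (P Q : AddSubgroup (Fin n → L)) (hP : IsLat V P) (hQ : IsLat V Q) (hPQ : P ≤ Q) :
    IsLat V ((Q ⊓ TI A i) ⊔ P) where
  bdd := by
    obtain ⟨C, hC⟩ := hQ.bdd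
    exact ⟨C, fun x hx => hC x (sup_le inf_le_left hPQ hx)⟩
  nhd := by
    obtain ⟨ε, h0, hε⟩ := hP.nhd
    exact ⟨ε, h0, fun x hx => (le_sup_right : P ≤ _) (hε x hx)⟩
  smul := by
    intro a ha x hx
    obtain ⟨y, hy, z, hz, rfl⟩ := AddSubgroup.mem_sup.1 hx
    rw [smul_add]
    exact AddSubgroup.mem_sup.2 ⟨a • y, ⟨hQ.smul a ha y hy.1, TI_smul A i a ha y hy.2⟩, a • z,
      hP.smul a ha z hz, rfl⟩
  stab := by
    intro g x hx
    obtain ⟨y, hy, z, hz, rfl⟩ := AddSubgroup.mem_sup.1 hx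
    rw [vec_add]
    exact AddSubgroup.mem_sup.2 ⟨vec V g y, ⟨hQ.stab g y hy.1, TI_stab V A hA i g y hy.2⟩,
      vec V g z, hP.stab g z hz, rfl⟩

theorem not_even (V : Rep (GF F) L n) (A : GL (Fin n) L) (hA : IsTri V A)
    (P Q : AddSubgroup (Fin n → L)) (h : IsSimp V (TI A n) P Q) : ¬ IsEven P Q := by
  classical
  have hPQ : P ≤ Q := h.lt.le
  have hn : (Q ⊓ TI A n) ⊔ P = Q := by
    rw [inf_eq_left.2 h.le]
    exact sup_eq_left.2 hPQ
  have hz : (Q ⊓ TI A 0) ⊔ P = P :=
    sup_eq_right.2 (inf_le_right.trans (TI_zero_le V A P Q h))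
  have hex : ∃ i, (Q ⊓ TI A i) ⊔ P = Q := ⟨n, hn⟩
  obtain ⟨i, hi1, hi2⟩ : ∃ i, (Q ⊓ TI A i) ⊔ P = P ∧ (Q ⊓ TI A (i + 1)) ⊔ P = Q := by
    have h1 := Nat.find_spec hex
    have h2 : Nat.find hex ≠ 0 := by
      intro h0
      rw [h0, hz] at h1
      exact h.lt.ne h1
    obtain ⟨i, hi⟩ := Nat.exists_eq_succ_of_ne_zero h2
    refine ⟨i, ?_, ?_⟩
    · have h3 := Nat.find_min hex (m := i) (by omega)
      rcases h.simple _ (latN V A hA i P Q h.lat h.lat' hPQ) le_sup_right
        (sup_le inf_le_left hPQ) with h4 | h4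
      · exact h4
      · exact absurd h4 h3
    · rw [hi] at h1
      exact h1
  have hle : Q ⊓ TI A i ≤ P := by
    rw [← hi1]
    exact le_sup_left
  rintro ⟨M, hPM, hMQ, hMs, hidx⟩
  by_cases hMP : M ≤ P
  · have hM : M = P := le_antisymm hMP hPM
    rw [hM, AddSubgroup.relIndex_self] at hidx
    exact absurd (AddSubgroup.relIndex_eq_one.1 hidx.symm) (not_le_of_gt h.lt)
  · have hQM : Q ≤ M := by
      obtain ⟨m, hmM, hmP⟩ := SetLike.not_le_iff_exists.1 hMP
      have hmQ : m ∈ (Q ⊓ TI A (i + 1)) ⊔ P := by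
        rw [hi2]
        exact hMQ hmM
      obtain ⟨y, hy, z, hz', rfl⟩ := AddSubgroup.mem_sup.1 hmQ
      have hyM : y ∈ M := by
        have h1 := M.sub_mem hmM (hPM hz')
        rwa [add_sub_cancel_right] at h1
      have hyP : y ∉ P := fun hyP => hmP (P.add_mem hyP hz')
      -- the entry of index `i`
      have hin : i < n := by
        by_contra hcon
        apply hyP
        apply hle
        exact ⟨hy.1, fun k => ⟨(hy.2 k).1, fun hk => absurd k.2 (by omega)⟩⟩
      have hstep : ∀ x ∈ TI A (i + 1), ‖co A x ⟨i, hin⟩‖ < 1 → x ∈ TI A i := by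
        intro x hx hxi k
        refine ⟨(hx k).1, fun hk => ?_⟩
        rcases hk.eq_or_lt with h1 | h1
        · have h2 : k = ⟨i, hin⟩ := Fin.ext h1.symm
          rw [h2]
          exact hxi
        · exact (hx k).2 h1
      have hyi : ‖co A y ⟨i, hin⟩‖ = 1 := by
        refine le_antisymm (hy.2 _).1 ?_
        by_contra hcon
        push Not at hcon
        exact hyP (hle ⟨hy.1, hstep y hy.2 hcon⟩)
      have hyi0 : co A y ⟨i, hin⟩ ≠ 0 := by
        rw [← norm_pos_iff, hyi]
        exact zero_lt_one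
      intro q hq
      rw [← hi2] at hq
      obtain ⟨y', hy', z', hz'', rfl⟩ := AddSubgroup.mem_sup.1 hq
      set a : L := co A y' ⟨i, hin⟩ / co A y ⟨i, hin⟩ with ha
      have ha1 : ‖a‖ ≤ 1 := by
        rw [ha, norm_div, hyi, div_one]
        exact (hy'.2 _).1
      have hd : y' - a • y ∈ P := by
        apply hle
        refine ⟨Q.sub_mem hy'.1 (h.lat'.smul a ha1 y hy.1), ?_⟩
        refine hstep _ ((TI A (i + 1)).sub_mem hy'.2 (TI_smul A (i + 1) a ha1 y hy.2)) ?_
        have h1 : co A (y' - a • y) ⟨i, hin⟩ = 0 := by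
          rw [sub_eq_add_neg, co_add, co_neg, co_smul]
          change co A y' ⟨i, hin⟩ + -(a * co A y ⟨i, hin⟩) = 0
          rw [ha, div_mul_cancel₀ _ hyi0, add_neg_cancel]
        rw [h1, norm_zero]
        exact zero_lt_one
      have h2 : y' + z' = a • y + ((y' - a • y) + z') := by abel
      rw [h2]
      exact M.add_mem (hMs a ha1 y hyM) (hPM (P.add_mem hd hz''))
    have hM : M = Q := le_antisymm hMQ hQM
    rw [hM, AddSubgroup.relIndex_self] at hidx
    exact absurd (AddSubgroup.relIndex_eq_one.1 hidx) (not_le_of_gt h.lt)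

end Lat

end CmpT

/-- The parity theorem for general residual representations contains the parity theorem for
residually triangular representations. -/
theorem ParityT.toM {p : ℕ} [Fact p.Prime] (_hp : p ≠ 2) {F : Type} [Field F] [NumberField F]
    (hF : Module.finrank ℚ F = 2) (_hreal : IsEmpty (F →+* ℝ)) (hs : Split p F)
    (h : ParityT p F) : ParityM p F := by
  intro L _ _ _ n V hV
  obtain ⟨c, hc, B, hB⟩ := hV.dual
  obtain ⟨A, hA⟩ := hV.res
  obtain ⟨P, hP1, hP2⟩ := hV.ram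
  have hu : IsUltrametricDist L := IsUltrametricDist.of_normedAlgebra ℚ_[p]
  have hT : IsRepT p V :=
    { cont := hV.cont
      ram := ⟨P, hP1, fun l _ hl hlP j g hg => ⟨1, (Fact.out : p.Prime).not_dvd_one, by
        rw [pow_one]
        exact hP2 l hl hlP j g hg⟩⟩
      inv := hV.inv
      dR := hV.dR
      frob := hV.frob }
  have hodd : OddRam p V := by
    obtain ⟨l, hl, hram, hns⟩ := CmpT.exists_ram F hF
    refine ⟨l, hl, hram, ?_, fun j g hg => ⟨1, odd_one, ?_⟩⟩
    · rintro rfl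
      obtain ⟨_, h1⟩ := hs
      exact hns h1
    · rw [pow_one]
      refine hP2 l ?_ ?_ j g hg
      · rintro rfl
        obtain ⟨_, h1⟩ := hs
        exact hns h1
      · intro hlP
        obtain ⟨_, h1⟩ := hP1 l hlP
        exact hns h1
  refine (h c hc L n V B hT hB).1 ⟨CmpT.TI A n, CmpT.TI_lat V A hA, fun P' Q' hPQ hev f _ => ?_⟩
  exact CmpT.not_even V A hA P' Q' hPQ (hev hodd)

end BKS
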