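import Pool.Agent.Lib.MP_7c08ba_nt.BK.ClsV

set_option autoImplicit false

/-!
The parity theorem for congruent representations and for representations with arbitrary ramification
at the primes which do not split contains the parity theorem for general residual representations.
-/

noncomputable section

namespace BKS

open Matrix NumberField

namespace CmpV

section Cls

variable {p : ℕ} [Fact p.Prime] {F : Type} [Field F] {L : Type} [NormedField L]
  [NormedAlgebra ℚ_[p] L] {n : ℕ}

/-- the class `IsRepT` is contained in the class `IsRepU` -/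
theorem repU {V : Rep (GF F) L n} (h : IsRepT p V) : IsRepU p V where
  cont := h.cont
  ram := by
    obtain ⟨P, _, hP⟩ := h.ram
    exact ⟨P, fun l _ hl hlP j g hg => hP l hl hlP j g hg⟩
  inv := h.inv
  dR := h.dR
  frob := h.frob

/-- the empty family is admissible for the representations in the class `IsRepT` -/
theorem covers {V : Rep (GF F) L n} (h : IsRepT p V) (l : Empty → ℕ) : Covers p V l where
  inj := fun k => k.elim
  split := fun k => k.elim
  all := by
    obtain ⟨P, hP1, hP2⟩ := h.ram
    intro m _ hm hns
    exact Or.inl fun j g hg => hP2 m hm (fun hmP => hns (hP1 m hmP)) j g hg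

end Cls

section Form

variable {F : Type} [Field F] {L : Type} [NormedField L] {n n' : ℕ}

theorem form_zero (B : Matrix (Fin n) (Fin n) L) (B' : Matrix (Fin n') (Fin n') L)
    (x : (Fin n → L) × (Fin n' → L)) : form B B' x 0 = 0 := by
  simp [form]

theorem form_add (B : Matrix (Fin n) (Fin n) L) (B' : Matrix (Fin n') (Fin n') L)
    (x y z : (Fin n → L) × (Fin n' → L)) :
    form B B' x (y + z) = form B B' x y + form B B' x z := by
  simp only [form, Prod.fst_add, Prod.snd_add, Matrix.mulVec_add, dotProduct_add]
  ring

theorem form_neg (B : Matrix (Fin n) (Fin n) L) (B' : Matrix (Fin n') (Fin n') L)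
    (x y : (Fin n → L) × (Fin n' → L)) : form B B' x (-y) = -form B B' x y := by
  simp only [form, Prod.fst_neg, Prod.snd_neg, Matrix.mulVec_neg, dotProduct_neg]
  ring

/-- lattices as in `WittEq` are additive subgroups, with `IsMet` -/
theorem isMet [IsUltrametricDist L] {V : Rep (GF F) L n} {B : Matrix (Fin n) (Fin n) L}
    {V' : Rep (GF F) L n'} {B' : Matrix (Fin n') (Fin n') L} (h : WittEq V B V' B') :
    ∃ T N : AddSubgroup ((Fin n → L) × (Fin n' → L)), IsMet (vec2 V V') (form B B') T N := by
  obtain ⟨T, N, hb, hT, hN, hd, hl⟩ := h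
  let T' : AddSubgroup ((Fin n → L) × (Fin n' → L)) :=
    { carrier := T
      zero_mem' := by
        rw [hd]
        intro x _
        rw [form_zero, norm_zero]
        exact zero_le_one
      add_mem' := by
        intro a b ha hb
        rw [hd] at ha hb ⊢
        intro x hx
        rw [form_add]
        exact (IsUltrametricDist.norm_add_le_max _ _).trans (max_le (ha x hx) (hb x hx))
      neg_mem' := by
        intro a ha
        rw [hd] at ha ⊢
        intro x hx
        rw [form_neg, norm_neg]
        exact ha x hx }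
  have hT' : ∀ x, x ∈ T' ↔ x ∈ T := fun x => Iff.rfl
  let N' : AddSubgroup ((Fin n → L) × (Fin n' → L)) :=
    { carrier := N
      zero_mem' := by
        rw [hl]
        refine ⟨(hT' 0).1 T'.zero_mem, fun x _ => ?_⟩
        rw [form_zero, norm_zero]
        exact zero_lt_one
      add_mem' := by
        intro a b ha hb
        rw [hl] at ha hb ⊢
        refine ⟨(hT' _).1 (T'.add_mem ((hT' _).2 ha.1) ((hT' _).2 hb.1)), fun x hx => ?_⟩
        rw [form_add]
        exact (IsUltrametricDist.norm_add_le_max _ _).trans_lt
          (max_lt (ha.2 x hx) (hb.2 x hx))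
      neg_mem' := by
        intro a ha
        rw [hl] at ha ⊢
        refine ⟨(hT' _).1 (T'.neg_mem ((hT' _).2 ha.1)), fun x hx => ?_⟩
        rw [form_neg, norm_neg]
        exact ha.2 x hx }
  exact ⟨T', N', ⟨hb, hT, hN, hd, hl⟩⟩

theorem ext_id (V : Rep (GF F) L n) : ext (RingHom.id L) V = V := by
  ext g i j
  rfl

end Form

end CmpV

/-- The parity theorem for congruent representations and for representations with arbitrary
ramification at the primes which do not split contains the parity theorem for general residual
representations. -/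
theorem cmpV (p : ℕ) [Fact p.Prime] (F : Type) [Field F] [NumberField F] (_hp : p ≠ 2)
    (_hF : Module.finrank ℚ F = 2) (h : ParityV p F) : ParityT p F := by
  intro c hc L _ _ _ n V B hV hB
  have hu : IsUltrametricDist L := IsUltrametricDist.of_normedAlgebra ℚ_[p]
  obtain ⟨h1, h2, h3⟩ := h c hc L n V B (CmpV.repU hV) hB
  refine ⟨fun hno => ?_, fun n' V' B' hV' hB' hW => ?_⟩
  · obtain ⟨T, N, hTN⟩ := h1 hno
    have h4 := @h2 T N hTN Empty _ (fun k => k.elim) (fun k => k.elim) (fun k => k.elim)
      (CmpV.covers hV _)
    refine ⟨h4.1, fun j => ?_⟩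
    have h5 := h4.2 j
    rw [Finset.univ_eq_empty, Finset.sum_empty] at h5
    omega
  · obtain ⟨T, N, hTN⟩ := CmpV.isMet hW
    obtain ⟨-, h4, -⟩ := h3 n' V' B' (CmpV.repU hV') hB'
    have h5 : IsMet (vec2 (ext ((AlgHom.id ℚ_[p] L : L →ₐ[ℚ_[p]] L) : L →+* L) V)
        (ext ((AlgHom.id ℚ_[p] L : L →ₐ[ℚ_[p]] L) : L →+* L) V'))
        (form (B.map (AlgHom.id ℚ_[p] L)) (B'.map (AlgHom.id ℚ_[p] L))) T N := hTN
    have h6 := @h4 L _ _ _ (AlgHom.id ℚ_[p] L) T N h5 Empty _ (fun k => k.elim)
      (fun k => k.elim) (fun k => k.elim) (CmpV.covers hV _) (CmpV.covers hV' _)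
    refine ⟨h6.1, h6.2.1, fun j => ?_⟩
    have h7 := h6.2.2 j
    rw [Finset.univ_eq_empty, Finset.sum_empty] at h7
    omega

end BKS
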