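import Pool.Agent.Lib.MP_7c08ba_nt.BK.CV

set_option autoImplicit false

/-!
Rank one for `π = BC_F(f) ⊗ ψ`: the `L`-function vanishes at the centre to order one, and the
Selmer group has dimension one.
-/

noncomputable section

namespace BKS

variable {F : Type} [Field F] [NumberField F]

/-- The `L`-function of `π` has a simple zero at the centre. -/
def SimpleZero (π : Aut F) : Prop := ∃ Λ : ℂ → ℂ, IsLFun π Λ ∧ Λ 0 = 0 ∧ deriv Λ 0 ≠ 0

/-- `H¹_f(F, V)` has dimension one, for every realisation `V` of `π` over a finite extension `L`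
of `ℚ_p`. -/
def SelOne {p : ℕ} [Fact p.Prime] (ι : ℂ →+* PadicAlgCl p) (π : Aut F) : Prop :=
  ∀ (L : Type) [NormedField L] [NormedAlgebra ℚ_[p] L] [FiniteDimensional ℚ_[p] L]
    [NormedAlgebra L (PadicAlgCl p)] (V : GRep F L 2), IsReal ι π V → SelDim p V 1

/-- The order of vanishing of `L(z, π)` at the centre and the dimension of `H¹_f(F, V)` are both
equal to one. -/
def RankOne {p : ℕ} [Fact p.Prime] (ι : ℂ →+* PadicAlgCl p) (π : Aut F) : Prop :=
  SimpleZero π ∧ SelOne ι π

/-- **Rank one over `ℚ(√-7)`, in all weights.** Let `p = 2`, `F = ℚ(√-7)`. For every weight `w`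
with a nonzero cusp form of level one there is a normalised eigenform `f` of weight `w` such that
`π = BC_F(f)` has rank one; in the weights with only one normalised eigenform, this holds for this
form (`w = 12`: Ramanujan's `Δ`). -/
def OneSeven : Prop :=
  ∀ (F : Type) [Field F] [NumberField F], IsQuad F 7 → ∀ ι : ℂ →+* PadicAlgCl 2,
    (∀ (w : ℕ) (σ : F →+* ℂ), (w = 12 ∨ 16 ≤ w ∧ Even w) →
      ∃ π : Aut F, π.w = w ∧ π.k = 0 ∧ π.σ = σ ∧ RankOne ι π) ∧
    ∀ π : Aut F, π.k = 0 → (π.w = 12 ∨ π.w = 16 ∨ π.w = 18 ∨ π.w = 20 ∨ π.w = 22 ∨ π.w = 26) →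
      RankOne ι π

end BKS
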