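import Pool.Agent.Lib.MP_7c08ba_nt.BK.One

set_option autoImplicit false

/-!
Rank one for `π = BC_F(f) ⊗ ψ`: many forms of every large weight, over every imaginary quadratic
field.
-/

noncomputable section

namespace BKS

section

variable {F : Type} [Field F] [NumberField F]

/-- Rank one for `π`: the `L`-function has a simple zero at the centre and, if `(p, D)` is one of
the pairs of `Fam` and `ψ` is trivial modulo `p`, `H¹_f(F, V)` has dimension one for the
realisations `V` of `π`. -/
def OneAt (D : ℕ) (π : Aut F) : Prop :=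
  SimpleZero π ∧ ∀ (p : ℕ) [Fact p.Prime] (ι : ℂ →+* PadicAlgCl p), Fam p D →
    ResTriv p ι π.ψ → SelOne ι π

end

/-- **Rank one in large weight.** For every imaginary quadratic field `F`, of discriminant `-D`,
there is `r₀` such that for all `k`, all `r ≥ r₀` and all unramified Hecke characters `ψ` of type
`(k, 0)` there are at least `r ^ (1 / 20)` normalised eigenforms `f` of level one and weight
`w = k + 2 r + 2` such that `π = BC_F(f) ⊗ ψ` has rank one. -/
def OneLarge (D : ℕ) : Prop :=
  ∀ (F : Type) [Field F] [NumberField F], IsQuad F D → ∃ r₀ : ℕ,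
    ∀ (k r : ℕ) (σ : F →+* ℂ) (ψ : Chr F) (hψ : IsHecke σ k ψ), r₀ ≤ r →
      ∃ S : Finset (Form (k + 2 * r + 2)), (r : ℝ) ^ (1 / 20 : ℝ) ≤ S.card ∧
        ∀ f ∈ S, ∃ hf : Eigen f, OneAt D (Aut.mk (k + 2 * r + 2) k f σ ψ hf hψ)

/-- There are unramified Hecke characters of all even types `k` which are trivial modulo `p`. -/
def Characters (p : ℕ) [Fact p.Prime] (D : ℕ) : Prop :=
  ∀ (F : Type) [Field F] [NumberField F], IsQuad F D → ∀ (ι : ℂ →+* PadicAlgCl p)
    (σ : F →+* ℂ) (k : ℕ), Even k → ∃ ψ : Chr F, IsHecke σ k ψ ∧ ResTriv p ι ψ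

end BKS
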