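import Mathlib
import Pool.Agent.Lib.MP_7c08ba_nt.BK.One
import Pool.Agent.Lib.MP_7c08ba_nt.BK.CVTr
import Pool.Agent.Lib.MP_7c08ba_nt.RZ.S7.All7

set_option autoImplicit false

/-!
Rank one over `ℚ(√-7)`: the proof.
-/

noncomputable section

namespace BKS

open Matrix NumberField IsDedekindDomain TensorProduct
open scoped MatrixGroups

namespace CV

open Pool.Agent.Lib.MP_7c08ba_nt

variable {F : Type} [Field F] [NumberField F]

/-- the Selmer side -/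
theorem selOne_of {p D : ℕ} [Fact p.Prime] (h : RZ.Central p D) (hF : IsQuad F D)
    (ι : ℂ →+* PadicAlgCl p) (π : Aut F) (hι : ResTriv p ι π.ψ) (hk : π.k < π.w) :
    SelOne ι π := by
  obtain ⟨hF, s, hs⟩ := hF
  obtain ⟨-, -, h3⟩ := h F s hF hs π.w π.k π.f π.σ π.ψ ((eigen_iff π.f).1 π.eigen)
    π.hecke (PadicAlgCl p) ι hι
  intro L _ _ _ _ V hV
  have h4 := h3 L V (isReal hF hV)
  rw [if_pos hk] at h4
  rw [SelDim, isFin_H1f, dim_H1f]
  exact h4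

/-- trivial characters -/
theorem resTriv_one {p : ℕ} [Fact p.Prime] (ι : ℂ →+* PadicAlgCl p) {ψ : Chr F}
    (hψ : ∀ a : Ideal (𝓞 F), a ≠ ⊥ → ψ a = 1) : ResTriv p ι ψ := by
  intro a ha
  have h0 : a ≠ ⊥ := by
    rintro rfl
    apply ha
    have h1 : nm (⊥ : Ideal (𝓞 F)) = 0 := Ideal.absNorm_bot
    rw [h1]
    exact dvd_zero p
  rw [hψ a h0, map_one, sub_self, norm_zero]
  exact one_pos

/-- the weights with one eigenform -/
theorem finrank_one {w : ℕ} (h : w = 12 ∨ w = 16 ∨ w = 18 ∨ w = 20 ∨ w = 22 ∨ w = 26) :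
    Module.finrank ℂ (Form w) = 1 := by
  rw [← Module.rank_eq_one_iff_finrank_eq_one]
  have h1 := (CuspForm.discriminantEquiv (k := (w : ℤ))).rank_eq
  have h2 : ((w : ℤ) - 12) = ((w - 12 : ℕ) : ℤ) := by omega
  rw [h1, h2, ModularForm.dimension_level_one (w - 12) (by
    rcases h with rfl | rfl | rfl | rfl | rfl | rfl <;> decide)]
  rcases h with rfl | rfl | rfl | rfl | rfl | rfl <;> simp [Nat.ModEq]

/-- uniqueness of the eigenform -/
theorem eigen_unique {w : ℕ} (h : Module.finrank ℂ (Form w) = 1) {f g : Form w} (hf : Eigen f)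
    (hg : Eigen g) : f = g := by
  have hf0 : f ≠ 0 := by
    rintro rfl
    have h1 := hf.one
    simp [cf, UpperHalfPlane.qExpansion_zero] at h1
  obtain ⟨c, hc⟩ := (finrank_eq_one_iff_of_nonzero' f hf0).1 h g
  have h1 : cf g 1 = c * cf f 1 := by
    rw [← hc]
    unfold cf
    rw [FunLike.coe_smul, ModularForm.qExpansion_smul one_pos one_mem_strictPeriods_SL c f,
      map_smul, smul_eq_mul]
  rw [hf.one, hg.one, mul_one] at h1
  rw [← hc, ← h1, one_smul]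

/-- simple zeros -/
theorem simpleZero_of {π : Aut F} (hk : π.k = 0)
    (h : ∃ Λ : ℂ → ℂ, DifferentiableOn ℂ Λ {z | -1 / 2 < z.re} ∧
      (∀ z : ℂ, 1 < z.re → HasProd (fun v : HeightOneSpectrum (𝓞 F) =>
        (RZ.eulF π.f π.ψ ((π.w : ℂ) / 2 + z) v)⁻¹) (Λ z)) ∧ Λ 0 = 0 ∧ deriv Λ 0 ≠ 0) :
    SimpleZero π := by
  obtain ⟨Λ, h1, h2, h3, h4⟩ := h
  have hwe := (RZC.weight_ge π.eigen.one).2
  refine ⟨Λ, (isLFun_iff π Λ).2 ⟨h1, fun z hz => ?_⟩, h3, h4⟩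
  have h5 := h2 z hz
  have h6 : ∀ v, RZ.eulF π.f π.ψ ((π.w : ℂ) / 2 + z) v =
      1 - RZ.frobTr π.f π.ψ π.k v * (Ideal.absNorm v.asIdeal : ℂ) ^ (-z) +
        RZ.frobDt π.w π.ψ π.k v * ((Ideal.absNorm v.asIdeal : ℂ) ^ (-z)) ^ 2 := by
    intro v
    have h7 := RZ.eulF_eq_tr π.f π.ψ π.k (by rw [hk, add_zero]; exact hwe) z v
    rw [← h7, hk, Nat.cast_zero, add_zero]
  simp only [h6] at h5
  exact h5

/-- **Rank one over `ℚ(√-7)`** -/
theorem oneSeven : OneSeven := by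
  rintro F _ _ hF ι
  have hC : RZ.Central 2 7 := RZ.central_two_all (by norm_num) (by norm_num)
  obtain ⟨hF2, s, hs⟩ := hF
  have hs7 : s ^ 2 = -(7 : F) := by exact_mod_cast hs
  have hdata : ∀ (w : ℕ) (σ : F →+* ℂ), (w = 12 ∨ 16 ≤ w ∧ Even w) → ∀ ψ : Chr F,
      IsHecke σ 0 ψ → ∃ π : Aut F, π.w = w ∧ π.k = 0 ∧ π.σ = σ ∧ π.ψ = ψ ∧ RankOne ι π := by
    intro w σ hw ψ hψ
    obtain ⟨r, hr, hr'⟩ : ∃ r, w = 2 * r + 2 ∧ (r = 5 ∨ 7 ≤ r) := by
      rcases hw with rfl | ⟨h1, a, ha⟩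
      · exact ⟨5, rfl, Or.inl rfl⟩
      · exact ⟨a - 1, by omega, by omega⟩
    obtain ⟨f, hf, hΛ⟩ := RZ.aMain7 F inferInstance inferInstance s σ hF2 hs7 w r ψ hr hr' hψ
    let π : Aut F := ⟨w, 0, f, σ, ψ, (eigen_iff f).2 hf, hψ⟩
    refine ⟨π, rfl, rfl, rfl, rfl, simpleZero_of (π := π) rfl hΛ, ?_⟩
    exact selOne_of hC ⟨hF2, s, hs⟩ ι π
      (resTriv_one ι (RZ.ClA.hecke_seven hF2 hs7 hψ)) (by
        change 0 < w
        omega)
  refine ⟨fun w σ hw => ?_, fun π hk hw => ?_⟩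
  · obtain ⟨ψ, hψ, -⟩ := RZX.exists_psi_two (q := 7) (by norm_num) (by norm_num) hF2 hs σ
      (k := 0) (by decide) ι
    obtain ⟨π, h1, h2, h3, -, h4⟩ := hdata w σ hw ψ hψ
    exact ⟨π, h1, h2, h3, h4⟩
  · have hw' : π.w = 12 ∨ 16 ≤ π.w ∧ Even π.w := by
      rcases hw with h | h | h | h | h | h <;> rw [h]
      · exact Or.inl rfl
      all_goals exact Or.inr ⟨by norm_num, by decide⟩
    have hψ : IsHecke π.σ 0 π.ψ := by
      have h := π.hecke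
      rwa [hk] at h
    obtain ⟨π', h1, h2, h3, h4, h5⟩ := hdata π.w π.σ hw' π.ψ hψ
    have hfin := finrank_one hw
    obtain ⟨w, k, f, σ, ψ, he, hh⟩ := π
    obtain ⟨w', k', f', σ', ψ', he', hh'⟩ := π'
    dsimp only at h1 h2 h3 h4 hfin hk
    subst h1 h2 h3 h4 hk
    have h6 := eigen_unique hfin he he'
    subst h6
    exact h5

end CV

end BKS
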