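import Mathlib
import Pool.Agent.Lib.MP_7c08ba_nt.BK.OneAll
import Pool.Agent.Lib.MP_7c08ba_nt.BK.OneTr
import Pool.Agent.Lib.MP_7c08ba_nt.RZ.StXq

set_option autoImplicit false

/-!
Rank one in large weight: the proof.
-/

noncomputable section

namespace BKS

open Matrix NumberField IsDedekindDomain TensorProduct
open scoped MatrixGroups

namespace CV

open Pool.Agent.Lib.MP_7c08ba_nt

variable {F : Type} [Field F] [NumberField F]

/-- the Selmer side -/
theorem selOne_fam {p D : ℕ} [Fact p.Prime] (h : Fam p D) (hF : IsQuad F D)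
    (ι : ℂ →+* PadicAlgCl p) (π : Aut F) (hι : ResTriv p ι π.ψ) (hk : π.k < π.w) :
    SelOne ι π := by
  intro L _ _ _ _ V hV
  have h1 := ((central_fam p D h F hF ι).1 π hι).2 L V hV
  rwa [if_pos hk] at h1

/-- **Rank one in large weight** -/
theorem oneLarge (h : RZ.StMainQ) {D : ℕ} (hD : IsFund D) (h4 : 4 < D) : OneLarge D := by
  intro F _ _ hF
  have hF' := hF
  obtain ⟨hF2, s, hs⟩ := hF'
  rw [isFund_iff] at hD
  have hX := RZ.fund_cases hD h4
  choose r₀ hr₀ using fun σ : F →+* ℂ => h D F inferInstance inferInstance s σ hX hF2 hs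
  refine ⟨Finset.univ.sup r₀, fun k r σ ψ hψ hr => ?_⟩
  have hr' : r₀ σ ≤ r := (Finset.le_sup (f := r₀) (Finset.mem_univ σ)).trans hr
  obtain ⟨S, hS, hSf⟩ := hr₀ σ (k + 2 * r + 2) k r ψ rfl hr' hψ
  refine ⟨S, by exact_mod_cast hS, fun f hf => ?_⟩
  obtain ⟨he, Λ, h1, h2, h3, h5⟩ := hSf f hf
  refine ⟨(eigen_iff f).2 he, ⟨Λ, (isLFun_iff _ Λ).2 ⟨h1, fun z hz => ?_⟩, h3, h5⟩, ?_⟩
  · have h6 := h2 z hz
    have hke : Even k := RZ.IsHecke.even hψ
    simp only [RZ.eulF_eq_tr f ψ k (((hke.add (even_two_mul r)).add even_two).add hke)] at h6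
    exact h6
  · intro p _ ι hp hι
    exact selOne_fam hp hF ι _ hι (by
      change k < k + 2 * r + 2
      omega)

/-- existence of the characters -/
theorem characters {p D : ℕ} [hp : Fact p.Prime] (h : Fam p D) : Characters p D :=
  fun F _ _ hF ι => (central_fam p D h F hF ι).2

end CV

end BKS
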