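import Pool.Agent.Lib.MP_7c08ba_nt.Crys.BdR
import Pool.Agent.Lib.MP_7c08ba_nt.Crys.Qp

set_option autoImplicit false

/-!
# Fontaine's rings of periods `B_cris`, `B_dR^+` and `B_dR`

`𝒪_{ℂ_p}`, its tilt, `A_inf` and `θ` are those of Mathlib, and `B_dR^+`, `B_dR` are Mathlib's
rings `BDeRhamPlus` and `BDeRham`. `A_cris`, `B_cris`, the actions of the absolute Galois group of
`ℚ_p` on all these rings and the Frobenius of `B_cris` are defined here.
-/

noncomputable section

namespace Per

/-! ### Rings, completions and rings of fractions -/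

/-- a commutative ring: a type with the structure of a commutative ring -/
structure Rg where
  /-- the underlying type -/
  T : Type
  /-- the structure -/
  ring : CommRing T

instance : CoeSort Rg Type := ⟨Rg.T⟩

attribute [coe] Rg.T

attribute [instance] Rg.ring

/-- a type with the structure of a commutative ring, as an object of type `Rg` -/
abbrev Rg.mk' (R : Type) [h : CommRing R] : Rg := ⟨R, h⟩

/-- homomorphisms of rings -/
abbrev Hm (R S : Rg) : Type := R →+* S

/-- ideals of a ring -/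
abbrev Idl (R : Rg) : Type := Ideal R

/-- multiplicative subsets of a ring -/
abbrev Sbm (R : Rg) : Type := Submonoid R

section Completion

variable {R S : Type} [CommRing R] [CommRing S] (I : Ideal R) (J : Ideal S) (f : R →+* S)

theorem pow_le_comap (h : I ≤ J.comap f) (n : ℕ) : I ^ n ≤ (J ^ n).comap f := by
  rw [← Ideal.map_le_iff_le_comap, Ideal.map_pow]
  exact Ideal.pow_right_mono (Ideal.map_le_iff_le_comap.2 h) n

theorem compl_compat (h : I ≤ J.comap f) {m n : ℕ} (hmn : m ≤ n) :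
    (Ideal.Quotient.factorPow J hmn).comp
        ((Ideal.quotientMap (J ^ n) f (pow_le_comap I J f h n)).comp
          (AdicCompletion.evalₐ I n : AdicCompletion I R →ₐ[R] R ⧸ I ^ n).toRingHom) =
      (Ideal.quotientMap (J ^ m) f (pow_le_comap I J f h m)).comp
        (AdicCompletion.evalₐ I m : AdicCompletion I R →ₐ[R] R ⧸ I ^ m).toRingHom := by
  have h1 : (Ideal.Quotient.factorPow J hmn).comp
        (Ideal.quotientMap (J ^ n) f (pow_le_comap I J f h n)) =
      (Ideal.quotientMap (J ^ m) f (pow_le_comap I J f h m)).comp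
        (Ideal.Quotient.factorPow I hmn) := by
    apply Ideal.Quotient.ringHom_ext
    ext s
    simp
  rw [← RingHom.comp_assoc, h1, RingHom.comp_assoc]
  congr 1
  ext x
  exact MP_7c08ba.Crys.factor_mk hmn x

/-- the homomorphism of the completions `lim R / I ^ n → lim S / J ^ n` induced by `f` -/
def complMap (h : I ≤ J.comap f) : AdicCompletion I R →+* AdicCompletion J S :=
  AdicCompletion.liftRingHom J
    (fun n => (Ideal.quotientMap (J ^ n) f (pow_le_comap I J f h n)).comp
      (AdicCompletion.evalₐ I n : AdicCompletion I R →ₐ[R] R ⧸ I ^ n).toRingHom)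
    (compl_compat I J f h)

theorem complMap_of (h : I ≤ J.comap f) (s : R) :
    complMap I J f h (algebraMap R (AdicCompletion I R) s) =
      algebraMap S (AdicCompletion J S) (f s) := by
  apply AdicCompletion.ext_evalₐ
  intro n
  have h1 := AdicCompletion.evalₐ_liftRingHom J (fun n => (Ideal.quotientMap (J ^ n) f
    (pow_le_comap I J f h n)).comp
      (AdicCompletion.evalₐ I n : AdicCompletion I R →ₐ[R] R ⧸ I ^ n).toRingHom)
    (compl_compat I J f h) n (algebraMap R (AdicCompletion I R) s)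
  refine h1.trans ?_
  rw [RingHom.comp_apply]
  have h2 : (AdicCompletion.evalₐ I n : AdicCompletion I R →ₐ[R] R ⧸ I ^ n).toRingHom
      (algebraMap R (AdicCompletion I R) s) = Ideal.Quotient.mk (I ^ n) s :=
    AdicCompletion.evalₐ_of I n s
  have h3 : AdicCompletion.evalₐ J n (algebraMap S (AdicCompletion J S) (f s)) =
      Ideal.Quotient.mk (J ^ n) (f s) := AdicCompletion.evalₐ_of J n (f s)
  rw [h2, h3, Ideal.quotientMap_mk]

end Completion

section

variable {R S : Rg}

/-- the completion `lim R / I ^ n` -/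
def Cpl (I : Idl R) : Rg := Rg.mk' (AdicCompletion I R)

/-- `R → lim R / I ^ n` -/
def toCpl (I : Idl R) : Hm R (Cpl I) := algebraMap R (AdicCompletion I R)

/-- the ring of fractions with denominators in `M` -/
def Loc (M : Sbm R) : Rg := Rg.mk' (Localization M)

/-- from `R` to its ring of fractions -/
def toLoc (M : Sbm R) : Hm R (Loc M) := algebraMap R (Localization M)

variable (I : Idl R) (J : Idl S) (M : Sbm R) (N : Sbm S) (f : Hm R S)

/-- `f` maps `I` to `J` -/
def MapI : Prop := I ≤ J.comap f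

/-- `f` maps `M` to `N` -/
def MapM : Prop := M ≤ N.comap f

/-- the homomorphism of the completions `lim R / I ^ n → lim S / J ^ n` induced by `f` -/
def cplMap (h : MapI I J f) : Hm (Cpl I) (Cpl J) := complMap I J f h

theorem cplMap_to (h : MapI I J f) (s : R) :
    cplMap I J f h (toCpl I s) = toCpl J (f s) := complMap_of I J f h s

/-- the homomorphism of the rings of fractions induced by `f` -/
def locMap (h : MapM M N f) : Hm (Loc M) (Loc N) :=
  IsLocalization.map (M := M) (S := Localization M) (T := N) (Localization N) f h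

theorem locMap_to (h : MapM M N f) (x : R) : locMap M N f h (toLoc M x) = toLoc N (f x) :=
  IsLocalization.map_eq (M := M) (S := Localization M) (T := N) (Q := Localization N) h x

theorem loc_ext {M : Sbm R} {B : Type} [CommRing B] {f g : Loc M →+* B}
    (h : ∀ a, f (toLoc M a) = g (toLoc M a)) : f = g :=
  IsLocalization.ringHom_ext (S := Localization M) M (RingHom.ext h)

theorem isUnit_toLoc {x : R} (h : x ∈ M) : IsUnit (toLoc M x) :=
  IsLocalization.map_units (Localization M) (⟨x, h⟩ : M)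

variable (p : ℕ)

/-- the ideal generated by `p` -/
def pI (R : Rg) : Idl R := Ideal.span {(p : R)}

/-- the powers of `p` -/
def pS (R : Rg) : Sbm R := Submonoid.powers (p : R)

theorem pI_le : MapI (pI p R) (pI p S) f := by
  rw [MapI, pI, Ideal.span_singleton_le_iff_mem, Ideal.mem_comap, map_natCast]
  exact Ideal.mem_span_singleton_self _

theorem pS_le : MapM (pS p R) (pS p S) f := by
  rw [MapM, pS, Submonoid.powers_le, Submonoid.mem_comap, map_natCast]
  exact Submonoid.mem_powers _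

end

variable (p : ℕ) [Fact p.Prime]

/-- the absolute Galois group of `ℚ_p` -/
abbrev Gal : Type := PadicAlgCl p ≃ₐ[ℚ_[p]] PadicAlgCl p

/-! ### The rings `𝒪_{ℂ_p}`, its tilt, `A_inf` and `A_inf[1/p]` -/

/-- the ring of integers of `ℂ_p` -/
def O : Rg := Rg.mk' 𝓞_ℂ_[p]

instance factO : Fact (¬ IsUnit ((p : ℕ) : O p)) := by exact MP_7c08ba.Crys.factNotUnit

instance adicO : IsAdicComplete (Ideal.span {((p : ℕ) : O p)}) (O p) := by
  exact MP_7c08ba.Crys.OC_adic

/-- the tilt of `𝒪_{ℂ_p}` -/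
def T : Rg := Rg.mk' (PreTilt (O p) p)

instance charPT : CharP (T p) p := (inferInstance : CharP (PreTilt (O p) p) p)

/-- `A_inf`, the Witt vectors of the tilt -/
def A : Rg := Rg.mk' (WittVector p (T p))

/-- Fontaine's map `θ` -/
def theta : Hm (A p) (O p) := WittVector.fontaineTheta (O p) p

/-- `A_inf[1/p]` -/
def AQ : Rg := Loc (pS p (A p))

/-- `A_inf → A_inf[1/p]` -/
def io : Hm (A p) (AQ p) := toLoc (pS p (A p))

/-- `θ` on `A_inf[1/p]` -/
def thetaQ : Hm (AQ p) (Loc (pS p (O p))) := fontaineThetaInvertP (O p) p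

/-- the kernel of `θ` on `A_inf[1/p]` -/
def kerQ : Idl (AQ p) := RingHom.ker (thetaQ p)

/-- `B_dR^+`, the completion of `A_inf[1/p]` for the powers of the kernel of `θ` -/
def BdRp : Rg := Cpl (kerQ p)

/-- the multiplicative set generated by the generators of the kernel of `θ` -/
def genS : Sbm (BdRp p) :=
  Submonoid.closure (toCpl (kerQ p) '' {a | kerQ p = Ideal.span {a}})

/-- `B_dR`: the generators of the kernel of `θ` are inverted -/
def BdR : Rg := Loc (genS p)

/-- `B_dR^+ → B_dR` -/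
def toD : Hm (BdRp p) (BdR p) := toLoc (genS p)

theorem BdRp_eq : (BdRp p : Type) = BDeRhamPlus (O p) p := rfl

theorem BdR_eq : (BdR p : Type) = BDeRham (O p) p := rfl

/-- the divided power envelope of the kernel of `θ`: the subring of `A_inf[1/p]` generated by
`A_inf` and all `x ^ n / n !` with `θ(x) = 0` -/
def cris0 : Subring (AQ p) :=
  Subring.closure (Set.range (io p) ∪
    {y | ∃ x : A p, theta p x = 0 ∧ ∃ n : ℕ, (n.factorial : AQ p) * y = io p x ^ n})

/-- the divided power envelope as a ring -/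
def ACr0 : Rg := Rg.mk' (cris0 p)

/-- the inclusion in `A_inf[1/p]` -/
def inQ : Hm (ACr0 p) (AQ p) := (cris0 p).subtype

/-- `A_cris`, the `p`-adic completion of the divided power envelope -/
def ACris : Rg := Cpl (pI p (ACr0 p))

/-- the map from the envelope to `A_cris` -/
def toACris : Hm (ACr0 p) (ACris p) := toCpl (pI p (ACr0 p))

variable {p}

/-- the Teichmüller representative -/
def tm (x : T p) : A p := WittVector.teichmuller p x

/-- the map `x ↦ x^♯` from the tilt to `𝒪_{ℂ_p}` -/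
def sh (x : T p) : O p := PreTilt.untilt x

/-- partial sums of `log [η]`: `∑_{i < N} (-1)^i ([η] - 1)^(i+1) / (i+1)` -/
def logSum (η : T p) (N : ℕ) : AQ p :=
  ∑ i ∈ Finset.range N,
    (-1) ^ i * (Ring.inverse ((i + 1 : ℕ) : AQ p) * (io p (tm η - 1)) ^ (i + 1))

/-- `t = log [η]` in `A_cris` -/
def IsLog (η : T p) (t : ACris p) : Prop :=
  ∀ n : ℕ, ∃ N₀ : ℕ, ∀ N ≥ N₀, ∃ s : ACr0 p, inQ p s = logSum η N ∧
    ((p : ℕ) : ACris p) ^ n ∣ t - toACris p s

variable (p) in
/-- the multiplicative set generated by `p` and by the elements `log [η]`, where `η ≠ 1` runs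
through the elements of the tilt with `η^♯ = 1` -/
def tSub : Sbm (ACris p) :=
  Submonoid.closure ({((p : ℕ) : ACris p)} ∪ {t | ∃ η : T p, sh η = 1 ∧ η ≠ 1 ∧ IsLog η t})

variable (p) in
/-- `B_cris = A_cris[1/p, 1/t]` -/
def BCris : Rg := Loc (tSub p)

variable (p) in
/-- `A_cris → B_cris` -/
def toB : Hm (ACris p) (BCris p) := toLoc (tSub p)

/-! ### The action of the Galois group -/

theorem gal_cont (σ : Gal p) :
    Continuous ((σ : PadicAlgCl p ≃+* PadicAlgCl p) : PadicAlgCl p →+* PadicAlgCl p) :=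
  MP_7c08ba.Crys.continuous_galR σ

/-- the action on `ℂ_p` by continuity -/
def galC (σ : Gal p) : ℂ_[p] →+* ℂ_[p] :=
  UniformSpace.Completion.mapRingHom
    ((σ : PadicAlgCl p ≃+* PadicAlgCl p) : PadicAlgCl p →+* PadicAlgCl p) (gal_cont σ)

theorem galC_mem (σ : Gal p) (x : ℂ_[p]) (hx : x ∈ 𝓞_ℂ_[p]) : galC σ x ∈ 𝓞_ℂ_[p] :=
  (MP_7c08ba.Crys.galO σ ⟨x, hx⟩).2

/-- the action on `𝒪_{ℂ_p}` -/
def galO (σ : Gal p) : Hm (O p) (O p) :=
  (galC σ).restrict (𝓞_ℂ_[p]) (𝓞_ℂ_[p]) (galC_mem σ)

/-- the action on the tilt -/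
def galT (σ : Gal p) : Hm (T p) (T p) :=
  Perfection.map p (Ideal.quotientMap (pI p (O p)) (galO σ) (pI_le (galO σ) p))

/-- the action on `A_inf` -/
def galA (σ : Gal p) : Hm (A p) (A p) := WittVector.map (galT σ)

variable (p) in
/-- the Frobenius of `A_inf` -/
def frA : Hm (A p) (A p) := WittVector.frobenius

/-- extension of an endomorphism of `A_inf` to `A_inf[1/p]` -/
def extQ (f : Hm (A p) (A p)) : Hm (AQ p) (AQ p) := locMap (pS p (A p)) (pS p (A p)) f (pS_le f p)

theorem extQ_io (f : Hm (A p) (A p)) (a : A p) : extQ f (io p a) = io p (f a) :=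
  locMap_to (pS p (A p)) (pS p (A p)) f _ a

theorem galA_mul (σ τ : Gal p) (x : A p) : galA (σ * τ) x = galA σ (galA τ x) :=
  MP_7c08ba.Crys.galA_mul σ τ x

theorem galA_one (x : A p) : galA 1 x = x := MP_7c08ba.Crys.galA_one x

theorem extQ_gal_mul (σ τ : Gal p) (x : AQ p) :
    extQ (galA σ) (extQ (galA τ) x) = extQ (galA (σ * τ)) x := by
  have h : (extQ (galA σ)).comp (extQ (galA τ)) = extQ (galA (σ * τ)) := by
    apply loc_ext
    intro a
    change extQ (galA σ) (extQ (galA τ) (io p a)) = extQ (galA (σ * τ)) (io p a)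
    rw [extQ_io, extQ_io, extQ_io, galA_mul]
  exact RingHom.congr_fun h x

theorem extQ_gal_one (x : AQ p) : extQ (galA 1) x = x := by
  have h : extQ (galA 1) = RingHom.id (AQ p) := by
    apply loc_ext
    intro a
    change extQ (galA 1) (io p a) = io p a
    rw [extQ_io, galA_one]
  exact RingHom.congr_fun h x

theorem kerQ_le (σ : Gal p) : MapI (kerQ p) (kerQ p) (extQ (galA σ)) :=
  MP_7c08ba.Crys.Jp_le_comap σ

/-- the Galois action on `B_dR^+` -/
def galBdRp (σ : Gal p) : Hm (BdRp p) (BdRp p) :=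
  cplMap (kerQ p) (kerQ p) (extQ (galA σ)) (kerQ_le σ)

theorem kerQ_gal {a : AQ p} (h : kerQ p = Ideal.span {a}) (σ : Gal p) :
    kerQ p = Ideal.span {extQ (galA σ) a} := by
  apply le_antisymm
  · intro x hx
    have h1 : extQ (galA σ⁻¹) x ∈ kerQ p := kerQ_le σ⁻¹ hx
    rw [h, Ideal.mem_span_singleton] at h1
    obtain ⟨c, hc⟩ := h1
    rw [Ideal.mem_span_singleton]
    refine ⟨extQ (galA σ) c, ?_⟩
    rw [← map_mul, ← hc, extQ_gal_mul, mul_inv_cancel, extQ_gal_one]
  · rw [Ideal.span_singleton_le_iff_mem]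
    refine kerQ_le σ ?_
    rw [h]
    exact Ideal.mem_span_singleton_self a

theorem genS_le (σ : Gal p) : MapM (genS p) (genS p) (galBdRp σ) := by
  rw [MapM, genS, Submonoid.closure_le]
  rintro _ ⟨a, ha, rfl⟩
  refine Submonoid.subset_closure ⟨_, kerQ_gal ha σ, ?_⟩
  exact (cplMap_to (kerQ p) (kerQ p) (extQ (galA σ)) (kerQ_le σ) a).symm

/-- the Galois action on `B_dR` -/
def galBdR (σ : Gal p) : Hm (BdR p) (BdR p) := locMap (genS p) (genS p) (galBdRp σ) (genS_le σ)

theorem galBdR_to (σ : Gal p) (x : BdRp p) : galBdR σ (toD p x) = toD p (galBdRp σ x) :=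
  locMap_to (genS p) (genS p) (galBdRp σ) (genS_le σ) x

/-- the endomorphism `f` maps the divided power envelope to itself -/
def MapCr (f : Hm (A p) (A p)) : Prop := ∀ s ∈ cris0 p, extQ f s ∈ cris0 p

/-- the endomorphism of the envelope induced by an endomorphism of `A_inf` -/
def endCr0 (f : Hm (A p) (A p)) (hf : MapCr f) : Hm (ACr0 p) (ACr0 p) :=
  (extQ f).restrict (cris0 p) (cris0 p) hf

/-- the endomorphism of `A_cris` induced by an endomorphism of `A_inf` -/
def endCr (f : Hm (A p) (A p)) (hf : MapCr f) : Hm (ACris p) (ACris p) :=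
  cplMap (pI p (ACr0 p)) (pI p (ACr0 p)) (endCr0 f hf) (pI_le (endCr0 f hf) p)

theorem gal_cris0 (σ : Gal p) : MapCr (galA σ) := fun s hs =>
  MP_7c08ba.Crys.extP_mem_ACris0 (MP_7c08ba.Crys.goodEnd_gal σ) (s := s) hs

theorem fr_cris0 : MapCr (frA p) := fun s hs =>
  MP_7c08ba.Crys.extP_mem_ACris0 MP_7c08ba.Crys.goodEnd_phA (s := s) hs

/-- the Galois action on `A_cris` -/
def galCr (σ : Gal p) : Hm (ACris p) (ACris p) := endCr (galA σ) (gal_cris0 σ)

variable (p) in
/-- the Frobenius of `A_cris` -/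
def frCr : Hm (ACris p) (ACris p) := endCr (frA p) fr_cris0

theorem tSub_le_gal (σ : Gal p) : MapM (tSub p) (tSub p) (galCr σ) :=
  MP_7c08ba.Crys.tSub_le_gal σ

theorem tSub_le_fr : MapM (tSub p) (tSub p) (frCr p) := MP_7c08ba.Crys.tSub_le_phi

/-- the Galois action on `B_cris` -/
def galBr (σ : Gal p) : Hm (BCris p) (BCris p) :=
  locMap (tSub p) (tSub p) (galCr σ) (tSub_le_gal σ)

variable (p) in
/-- the Frobenius of `B_cris` -/
def frBr : Hm (BCris p) (BCris p) := locMap (tSub p) (tSub p) (frCr p) tSub_le_fr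

theorem galBr_to (σ : Gal p) (x : ACris p) : galBr σ (toB p x) = toB p (galCr σ x) :=
  locMap_to (tSub p) (tSub p) (galCr σ) (tSub_le_gal σ) x

theorem frBr_to (x : ACris p) : frBr p (toB p x) = toB p (frCr p x) :=
  locMap_to (tSub p) (tSub p) (frCr p) tSub_le_fr x

/-! ### The structure of a `ℚ_p`-algebra -/

variable (p) in
/-- `ℤ_p = W(𝔽_p) → A_inf` -/
def zpA : ℤ_[p] →+* A p :=
  (WittVector.map (ZMod.castHom (dvd_refl p) (T p))).comp (WittVector.equiv p).symm.toRingHom

/-- the extension of a homomorphism `ℤ_p → B` to `ℚ_p` if `p` is a unit of `B` -/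
def qLift {B : Rg} (f : ℤ_[p] →+* B) (h : IsUnit ((p : ℕ) : B)) : ℚ_[p] →+* B :=
  IsLocalization.lift (M := nonZeroDivisors ℤ_[p]) (S := ℚ_[p]) (g := f) (by
    rintro ⟨y, hy⟩
    have hy0 : y ≠ 0 := nonZeroDivisors.ne_zero hy
    have h1 := PadicInt.unitCoeff_spec hy0
    simp only
    rw [h1, map_mul, map_pow, map_natCast]
    exact ((PadicInt.unitCoeff hy0).isUnit.map f).mul (h.pow _))

theorem qLift_coe {B : Rg} (f : ℤ_[p] →+* B) (h : IsUnit ((p : ℕ) : B))
    (z : ℤ_[p]) : qLift f h (z : ℚ_[p]) = f z :=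
  IsLocalization.lift_eq (M := nonZeroDivisors ℤ_[p]) (S := ℚ_[p]) _ z

theorem isUnit_p_BdRp : IsUnit ((p : ℕ) : BdRp p) := MP_7c08ba.Crys.isUnit_p_BdRp

variable (p) in
/-- `ℚ_p → B_dR^+` -/
def qp : ℚ_[p] →+* BdRp p := qLift (((toCpl (kerQ p)).comp (io p)).comp (zpA p)) isUnit_p_BdRp

instance algebraBdRp : Algebra ℚ_[p] (BdRp p) := (qp p).toAlgebra

instance algebraBdR : Algebra ℚ_[p] (BdR p) := ((toD p).comp (qp p)).toAlgebra

theorem io_mem (a : A p) : io p a ∈ cris0 p := Subring.subset_closure (Or.inl ⟨a, rfl⟩)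

variable (p) in
/-- `A_inf → A_cris` -/
def toC : Hm (A p) (ACris p) := (toACris p).comp ((io p).codRestrict (cris0 p) io_mem)

theorem isUnit_p_BCris : IsUnit ((p : ℕ) : BCris p) := by
  have h : ((p : ℕ) : ACris p) ∈ tSub p := Submonoid.subset_closure (Or.inl rfl)
  have h2 := isUnit_toLoc _ h
  rwa [map_natCast] at h2

instance algebraBCris : Algebra ℚ_[p] (BCris p) :=
  (qLift (((toB p).comp (toC p)).comp (zpA p)) isUnit_p_BCris).toAlgebra

theorem endCr_toC (f : Hm (A p) (A p)) (hf : MapCr f) (a : A p) :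
    endCr f hf (toC p a) = toC p (f a) := by
  refine (cplMap_to _ _ (endCr0 f hf) _ _).trans ?_
  change toACris p _ = toACris p _
  congr 1
  apply Subtype.ext
  exact extQ_io f a

theorem endo_zpA (f : Hm (A p) (A p)) (z : ℤ_[p]) : f (zpA p z) = zpA p z :=
  MP_7c08ba.Crys.endo_zpA f z

theorem alg_coe (z : ℤ_[p]) :
    algebraMap ℚ_[p] (BCris p) (z : ℚ_[p]) = toB p (toC p (zpA p z)) :=
  qLift_coe (((toB p).comp (toC p)).comp (zpA p)) isUnit_p_BCris z

/-- `f` is `ℚ_p`-linear -/
def IsLin {B C : Rg} [Algebra ℚ_[p] B] [Algebra ℚ_[p] C] (f : Hm B C) : Prop :=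
  ∀ q : ℚ_[p], f (algebraMap ℚ_[p] B q) = algebraMap ℚ_[p] C q

/-- a `ℚ_p`-linear homomorphism as homomorphism of `ℚ_p`-algebras -/
def toAlg {B C : Rg} [Algebra ℚ_[p] B] [Algebra ℚ_[p] C] (f : Hm B C) (h : IsLin (p := p) f) :
    B →ₐ[ℚ_[p]] C := { f with commutes' := h }

theorem galBr_alg (σ : Gal p) : IsLin (p := p) (galBr σ) := by
  intro q
  have h : (galBr σ).comp (algebraMap ℚ_[p] (BCris p)) = algebraMap ℚ_[p] (BCris p) := by
    apply MP_7c08ba.Crys.hom_ext_Qp
    intro z
    rw [RingHom.comp_apply, alg_coe, galBr_to, galCr, endCr_toC, endo_zpA]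
  exact RingHom.congr_fun h q

theorem frBr_alg : IsLin (p := p) (frBr p) := by
  intro q
  have h : (frBr p).comp (algebraMap ℚ_[p] (BCris p)) = algebraMap ℚ_[p] (BCris p) := by
    apply MP_7c08ba.Crys.hom_ext_Qp
    intro z
    rw [RingHom.comp_apply, alg_coe, frBr_to, frCr, endCr_toC, endo_zpA]
  exact RingHom.congr_fun h q

theorem galBdR_alg (σ : Gal p) : IsLin (p := p) (galBdR σ) := by
  intro q
  have h : galBdRp σ (qp p q) = qp p q := by exact MP_7c08ba.Crys.galDp_qp σ q
  change galBdR σ (toD p (qp p q)) = toD p (qp p q)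
  rw [galBdR_to, h]

/-! ### The actions as homomorphisms of `ℚ_p`-algebras -/

theorem toD_alg : IsLin (p := p) (toD p) := fun _ => rfl

variable (p) in
/-- `B_dR^+ → B_dR` -/
def jd : BdRp p →ₐ[ℚ_[p]] BdR p := toAlg (toD p) toD_alg

/-- the Galois action on `B_dR` -/
def galD (σ : Gal p) : BdR p →ₐ[ℚ_[p]] BdR p := toAlg (galBdR σ) (galBdR_alg σ)

/-- the Galois action on `B_cris` -/
def galB (σ : Gal p) : BCris p →ₐ[ℚ_[p]] BCris p := toAlg (galBr σ) (galBr_alg σ)

variable (p) in
/-- the Frobenius of `B_cris` -/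
def frB : BCris p →ₐ[ℚ_[p]] BCris p := toAlg (frBr p) frBr_alg

end Per
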