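import Pool.Agent.Lib.MP_7c08ba_nt.Gen.Defs
import Pool.Agent.Lib.MP_7c08ba_nt.BK.Per

set_option autoImplicit false

/-!
The Selmer group `H¹_f(F, V)` of Bloch and Kato, for a continuous representation `V` of the
absolute Galois group of a number field `F` on `Lⁿ`, `L` a finite extension of `ℚ_p`; `D_dR(V)`
and its filtration; the Frobenius on `D_cris(V)`.

The places of the algebraic closure of `F` above a prime `l` are given by the embeddings `j` into
the algebraic closure of `ℚ_l`. The decomposition group of such a place is the group of the pairs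
`(g, t)` with `g` in the Galois group of `F`, `t` in the Galois group of `ℚ_l`, and
`j ∘ g = t ∘ j`. It acts on `V` through `g` and on the period rings through `t`.
-/

noncomputable section

namespace BKS

open Matrix TensorProduct

/-- the absolute Galois group of a field -/
abbrev GF (F : Type) [Field F] : Type := AlgebraicClosure F ≃ₐ[F] AlgebraicClosure F

/-- the absolute Galois group of `ℚ_p` -/
abbrev GQ (p : ℕ) [Fact p.Prime] : Type := PadicAlgCl p ≃ₐ[ℚ_[p]] PadicAlgCl p

/-- the embeddings of the algebraic closure of `F` into the algebraic closure of `ℚ_l` -/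
abbrev Emb (l : ℕ) [Fact l.Prime] (F : Type) [Field F] : Type :=
  AlgebraicClosure F →+* PadicAlgCl l

/-- the representations of a group on `Lⁿ` -/
abbrev Rep (G : Type) [Group G] (L : Type) [NormedField L] (n : ℕ) : Type := G →* GL (Fin n) L

/-! ### Subspaces -/

section Subspaces

variable {L M : Type} [Field L] [AddCommGroup M] [Module L M]

/-- `S` is finite dimensional -/
def IsFin (S : Submodule L M) : Prop := FiniteDimensional L S

/-- the dimension of `S` -/
def dim (S : Submodule L M) : ℕ := Module.finrank L S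

/-- the dimension of `S / (S ∩ T)` -/
def codimIn (S T : Submodule L M) : ℕ := Module.finrank L (S ⧸ T.submoduleOf S)

variable (B Z S : Submodule L M)

/-- `Z / (Z ∩ B)` -/
def Quo : Type := Z ⧸ B.submoduleOf Z

instance instAddCommGroupQuo : AddCommGroup (Quo B Z) :=
  Submodule.Quotient.addCommGroup (B.submoduleOf Z)

instance instModuleQuo : Module L (Quo B Z) := Submodule.Quotient.module (B.submoduleOf Z)

/-- the image of `S ∩ Z` in `Z / (Z ∩ B)` -/
def imQuo : Submodule L (Quo B Z) := (S.submoduleOf Z).map (B.submoduleOf Z).mkQ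

end Subspaces

/-! ### Continuous cohomology -/

section Functions

variable (G L : Type) [NormedField L] (n : ℕ)

/-- the functions from `G` to `V = Lⁿ` -/
def Fn : Type := G → Fin n → L

instance instAddCommGroupFn : AddCommGroup (Fn G L n) := Pi.addCommGroup

instance instModuleFn : Module L (Fn G L n) := Pi.Function.module G L (Fin n → L)

end Functions

section Cocycles

variable {G : Type} [Group G] {L : Type} [NormedField L] {n : ℕ}

/-- the matrix of `g` -/
def mat (ρ : Rep G L n) (g : G) : Matrix (Fin n) (Fin n) L := ρ g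

/-- `g v` for `v` in `V = Lⁿ` -/
def vec (ρ : Rep G L n) (g : G) (v : Fin n → L) : Fin n → L := mat ρ g *ᵥ v

variable (ρ : Rep G L n)

theorem vec_add (g : G) (v w : Fin n → L) : vec ρ g (v + w) = vec ρ g v + vec ρ g w :=
  Matrix.mulVec_add _ _ _

theorem vec_smul (g : G) (a : L) (v : Fin n → L) : vec ρ g (a • v) = a • vec ρ g v :=
  Matrix.mulVec_smul _ _ _

theorem vec_zero (g : G) : vec ρ g 0 = 0 := Matrix.mulVec_zero _

/-- the coboundary of a vector -/
def cob (v : Fin n → L) : Fn G L n := fun g => vec ρ g v - v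

theorem cob_add (v w : Fin n → L) : cob ρ (v + w) = cob ρ v + cob ρ w := by
  have h : ∀ g, vec ρ g (v + w) - (v + w) = (vec ρ g v - v) + (vec ρ g w - w) := by
    intro g
    rw [vec_add]
    abel
  exact funext h

theorem cob_smul (a : L) (v : Fin n → L) : cob ρ (a • v) = a • cob ρ v := by
  have h : ∀ g, vec ρ g (a • v) - a • v = a • (vec ρ g v - v) := by
    intro g
    rw [vec_smul, smul_sub]
  exact funext h

/-- the coboundary of a vector, as a linear map -/
def cobL : (Fin n → L) →ₗ[L] Fn G L n where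
  toFun := cob ρ
  map_add' := cob_add ρ
  map_smul' := cob_smul ρ

/-- coboundaries -/
def B1 : Submodule L (Fn G L n) := LinearMap.range (cobL ρ)

variable [TopologicalSpace G]

/-- the condition defining the continuous one-cocycles -/
def IsCoc (x : G → Fin n → L) : Prop :=
  Continuous x ∧ ∀ g h, x (g * h) = x g + vec ρ g (x h)

theorem IsCoc.add {x y : Fn G L n} (hx : IsCoc ρ x) (hy : IsCoc ρ y) : IsCoc ρ (x + y) := by
  refine ⟨hx.1.add hy.1, fun g h => ?_⟩
  change x (g * h) + y (g * h) = (x g + y g) + vec ρ g (x h + y h)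
  rw [hx.2, hy.2, vec_add]
  abel

theorem IsCoc.zero : IsCoc ρ (0 : Fn G L n) := by
  refine ⟨continuous_const, fun g h => ?_⟩
  change (0 : Fin n → L) = 0 + vec ρ g 0
  rw [vec_zero, add_zero]

theorem IsCoc.smul (a : L) {x : Fn G L n} (hx : IsCoc ρ x) : IsCoc ρ (a • x) := by
  refine ⟨hx.1.const_smul a, fun g h => ?_⟩
  change a • x (g * h) = a • x g + vec ρ g (a • x h)
  rw [hx.2, vec_smul, smul_add]

/-- continuous one-cocycles -/
def Z1 : Submodule L (Fn G L n) where
  carrier := {x | IsCoc ρ x}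
  add_mem' := IsCoc.add ρ
  zero_mem' := IsCoc.zero ρ
  smul_mem' := IsCoc.smul ρ

/-- the first continuous cohomology `Z¹ / (Z¹ ∩ B¹)` -/
abbrev H1 : Type := Quo (B1 ρ) (Z1 ρ)

/-- the classes of the cocycles in `S` -/
def cls (S : Submodule L (Fn G L n)) : Submodule L (H1 ρ) := imQuo (B1 ρ) (Z1 ρ) S

end Cocycles

/-! ### Coefficients in a ring of periods -/

section Periods

variable (p : ℕ) [Fact p.Prime] (L : Type) [NormedField L] [NormedAlgebra ℚ_[p] L] (n : ℕ)
  (B : Type) [CommRing B] [Algebra ℚ_[p] B]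

/-- `V ⊗ B` for `V = Lⁿ`, the tensor product over `ℚ_p` -/
def VB : Type := (Fin n → L) ⊗[ℚ_[p]] B

instance instAddCommGroupVB : AddCommGroup (VB p L n B) := TensorProduct.addCommGroup

instance instModuleVB : Module L (VB p L n B) := TensorProduct.leftModule

/-- an action of the Galois group of `ℚ_p` on the `ℚ_p`-algebra `B` -/
abbrev Action : Type := GQ p → B →ₐ[ℚ_[p]] B

variable {L n}

/-- the element `v ⊗ 1` of `V ⊗ B` -/
def inj (v : Fin n → L) : VB p L n B := v ⊗ₜ 1

theorem inj_add (v w : Fin n → L) : inj p B (v + w) = inj p B v + inj p B w :=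
  TensorProduct.add_tmul _ _ _

theorem inj_zero : inj p B (0 : Fin n → L) = 0 := TensorProduct.zero_tmul _ _

theorem inj_smul (a : L) (v : Fin n → L) : inj p B (a • v) = a • inj p B v :=
  (TensorProduct.smul_tmul' (R := ℚ_[p]) a v (1 : B)).symm

variable {p B} {B' : Type} [CommRing B'] [Algebra ℚ_[p] B']

/-- the `L`-linear map `A ⊗ f` from `Lⁿ ⊗ B'` to `Lⁿ ⊗ B` -/
def actL (A : Matrix (Fin n) (Fin n) L) (f : B' →ₗ[ℚ_[p]] B) :
    VB p L n B' →ₗ[L] VB p L n B := AlgebraTensorModule.map A.mulVecLin f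

/-- `(A ⊗ f) x` -/
def act (A : Matrix (Fin n) (Fin n) L) (f : B' →ₗ[ℚ_[p]] B) (x : VB p L n B') : VB p L n B :=
  actL A f x

/-- `(1 ⊗ f) x` -/
def base (f : B' →ₗ[ℚ_[p]] B) (x : VB p L n B') : VB p L n B := act 1 f x

/-- the submodule `V ⊗ B'` of `V ⊗ B` -/
def sub (L : Type) [NormedField L] [NormedAlgebra ℚ_[p] L] (n : ℕ) (i : B' →ₐ[ℚ_[p]] B) :
    Submodule L (VB p L n B) := LinearMap.range (actL 1 i.toLinearMap)

variable {F : Type} [Field F]

/-- the pair `(g, t)` is in the decomposition group of the place given by `j` -/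
def Compat (j : Emb p F) (g : GF F) (t : GQ p) : Prop := ∀ z, j (g z) = t (j z)

/-- the action of the element `(g, t)` of the decomposition group on `V ⊗ B` -/
def gal (γ : Action p B) (ρ : Rep (GF F) L n) (g : GF F) (t : GQ p) (x : VB p L n B) :
    VB p L n B := act (mat ρ g) (γ t).toLinearMap x

/-- The restriction of the cocycle `x` to the decomposition group becomes a coboundary in `V ⊗ B`:
there is `b` in `V ⊗ B` with `(g, t) b - b = x g ⊗ 1` for all `(g, t)`. -/
def IsTriv (γ : Action p B) (j : Emb p F) (ρ : Rep (GF F) L n) (x : GF F → Fin n → L) : Prop :=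
  ∃ b : VB p L n B, ∀ (g : GF F) (t : GQ p), Compat j g t → gal γ ρ g t b - b = inj p B (x g)

/-- `b` in `V ⊗ B` is fixed by all `(g, t)` in the decomposition group with `g` in `H` -/
def IsFix (γ : Action p B) (H : Subgroup (GF F)) (j : Emb p F) (ρ : Rep (GF F) L n)
    (b : VB p L n B) : Prop :=
  ∀ g ∈ H, ∀ t : GQ p, Compat j g t → gal γ ρ g t b = b

variable (γ : Action p B) (H : Subgroup (GF F)) (j : Emb p F) (ρ : Rep (GF F) L n)

theorem gal_add (g : GF F) (t : GQ p) (x y : VB p L n B) :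
    gal γ ρ g t (x + y) = gal γ ρ g t x + gal γ ρ g t y := map_add (actL _ _) x y

theorem gal_zero (g : GF F) (t : GQ p) : gal γ ρ g t (0 : VB p L n B) = 0 :=
  map_zero (actL _ _)

theorem gal_smul (g : GF F) (t : GQ p) (a : L) (x : VB p L n B) :
    gal γ ρ g t (a • x) = a • gal γ ρ g t x := map_smul (actL _ _) a x

theorem IsTriv.add {x y : Fn (GF F) L n} (hx : IsTriv γ j ρ x) (hy : IsTriv γ j ρ y) :
    IsTriv γ j ρ (x + y) := by
  obtain ⟨b, hb⟩ := hx
  obtain ⟨b', hb'⟩ := hy
  refine ⟨b + b', fun g t h => ?_⟩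
  change _ = inj p B (x g + y g)
  rw [gal_add, inj_add, ← hb g t h, ← hb' g t h]
  abel

theorem IsTriv.zero : IsTriv γ j ρ (0 : Fn (GF F) L n) := by
  refine ⟨0, fun g t _ => ?_⟩
  change _ = inj p B 0
  rw [gal_zero, sub_zero, inj_zero]

theorem IsTriv.smul (a : L) {x : Fn (GF F) L n} (hx : IsTriv γ j ρ x) :
    IsTriv γ j ρ (a • x) := by
  obtain ⟨b, hb⟩ := hx
  refine ⟨a • b, fun g t h => ?_⟩
  change _ = inj p B (a • x g)
  rw [gal_smul, ← smul_sub, hb g t h, inj_smul]

theorem IsFix.add {b b' : VB p L n B} (hb : IsFix γ H j ρ b) (hb' : IsFix γ H j ρ b') :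
    IsFix γ H j ρ (b + b') := by
  intro g hg t h
  rw [gal_add, hb g hg t h, hb' g hg t h]

theorem IsFix.zero : IsFix γ H j ρ (0 : VB p L n B) := fun _ _ _ _ => gal_zero _ _ _ _

theorem IsFix.smul (a : L) {b : VB p L n B} (hb : IsFix γ H j ρ b) :
    IsFix γ H j ρ (a • b) := by
  intro g hg t h
  rw [gal_smul, hb g hg t h]

/-- `D_B(V) = (V ⊗ B)^{H_v}`, `v` the place given by `j`, `H_v` the group of the pairs `(g, t)` in
the decomposition group with `g` in `H` -/
def DB : Submodule L (VB p L n B) where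
  carrier := {b | IsFix γ H j ρ b}
  add_mem' := IsFix.add γ H j ρ
  zero_mem' := IsFix.zero γ H j ρ
  smul_mem' := IsFix.smul γ H j ρ

/-- `Φ` is an automorphism of the module `Lⁿ ⊗ B` over `L ⊗ B` -/
structure IsAut (Φ : VB p L n B → VB p L n B) : Prop where
  bij : Function.Bijective Φ
  add : ∀ x y, Φ (x + y) = Φ x + Φ y
  smul : ∀ (a : L) (x : VB p L n B), Φ (a • x) = a • Φ x
  mul : ∀ (b : B) (x : VB p L n B),
    Φ (base (LinearMap.mulLeft ℚ_[p] b) x) = base (LinearMap.mulLeft ℚ_[p] b) (Φ x)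

/-- `V` is admissible for `B` at the place given by `j`: there is an isomorphism, linear over
`L ⊗ B`, between `Lⁿ ⊗ B` with the trivial action on `Lⁿ` and `V ⊗ B`, which commutes with the
action of the decomposition group. -/
def Adm : Prop :=
  ∃ Φ : VB p L n B → VB p L n B, IsAut Φ ∧ ∀ (g : GF F) (t : GQ p), Compat j g t →
    ∀ x, Φ (base (γ t).toLinearMap x) = gal γ ρ g t (Φ x)

/-- `φ - 1` is bijective on `D_B(V)`, for an endomorphism `φ` of `B` -/
def BijSub (φ : B →ₐ[ℚ_[p]] B) : Prop :=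
  ∀ y ∈ DB γ H j ρ, ∃! x, x ∈ DB γ H j ρ ∧ base φ.toLinearMap x - x = y

end Periods

/-! ### The Selmer group -/

section Selmer

variable (p : ℕ) [Fact p.Prime] {F : Type} [Field F] {L : Type} [NormedField L]
  [NormedAlgebra ℚ_[p] L] {n : ℕ} (ρ : Rep (GF F) L n)

/-- The restriction of `x` to the inertia group of each place not above `p` is a coboundary. -/
def Unr (x : GF F → Fin n → L) : Prop :=
  ∀ (l : ℕ) [Fact l.Prime], l ≠ p → ∀ j : Emb l F, ∃ v : Fin n → L,
    ∀ σ ∈ BKGen.Inert F (AlgebraicClosure F) j, x σ = cob ρ v σ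

/-- The restriction of `x` to the decomposition group of each place above `p` becomes a coboundary
in `V ⊗ B_cris`. -/
def Crys (x : GF F → Fin n → L) : Prop := ∀ j : Emb p F, IsTriv Per.galB j ρ x

/-- the cocycles whose class is in the Selmer group -/
def IsSel (x : GF F → Fin n → L) : Prop := IsCoc ρ x ∧ Unr p ρ x ∧ Crys p ρ x

theorem IsSel.add {x y : Fn (GF F) L n} (hx : IsSel p ρ x) (hy : IsSel p ρ y) :
    IsSel p ρ (x + y) := by
  refine ⟨hx.1.add ρ hy.1, ?_, fun j => (hx.2.2 j).add _ _ _ (hy.2.2 j)⟩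
  intro l _ hl j
  obtain ⟨v, hv⟩ := hx.2.1 l hl j
  obtain ⟨w, hw⟩ := hy.2.1 l hl j
  refine ⟨v + w, fun σ hσ => ?_⟩
  rw [cob_add]
  exact congrArg₂ (· + ·) (hv σ hσ) (hw σ hσ)

theorem IsSel.zero : IsSel p ρ (0 : Fn (GF F) L n) := by
  refine ⟨IsCoc.zero ρ, ?_, fun j => IsTriv.zero _ _ _⟩
  intro l _ hl j
  refine ⟨0, fun σ hσ => ?_⟩
  change (0 : Fin n → L) = vec ρ σ 0 - 0
  rw [vec_zero, sub_zero]

theorem IsSel.smul (a : L) {x : Fn (GF F) L n} (hx : IsSel p ρ x) : IsSel p ρ (a • x) := by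
  refine ⟨hx.1.smul ρ a, ?_, fun j => (hx.2.2 j).smul _ _ _ a⟩
  intro l _ hl j
  obtain ⟨v, hv⟩ := hx.2.1 l hl j
  refine ⟨a • v, fun σ hσ => ?_⟩
  rw [cob_smul]
  exact congrArg (a • ·) (hv σ hσ)

/-- the space of these cocycles -/
def Z1f : Submodule L (Fn (GF F) L n) where
  carrier := {x | IsSel p ρ x}
  add_mem' := IsSel.add p ρ
  zero_mem' := IsSel.zero p ρ
  smul_mem' := IsSel.smul p ρ

/-- **The Selmer group** `H¹_f(F, V)` of Bloch and Kato, a subspace of `H¹(F, V)`. -/
def H1f : Submodule L (H1 ρ) := cls ρ (Z1f p ρ)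

variable {p}

/-- the dimension of `D_dR(V) / Fil⁰ D_dR(V)` at the place given by `j` -/
def tdim (j : Emb p F) : ℕ := codimIn (DB Per.galD ⊤ j ρ) (sub L n (Per.jd p))

/-- `V` is de Rham at the place given by `j`. -/
def DeRhamAt (j : Emb p F) : Prop := Adm Per.galD j ρ

/-- Frobenius minus one is bijective on `D_cris` of the restriction of `V` to `H`, at the place
given by `j`. -/
def FrobAt (H : Subgroup (GF F)) (j : Emb p F) : Prop := BijSub Per.galB H j ρ (Per.frB p)

end Selmer

end BKS
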