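import Pool.Agent.Lib.MP_7c08ba_nt.BK.All
import Pool.Agent.Lib.MP_7c08ba_nt.ThR.Final

set_option autoImplicit false

/-!
Parity for the fields of Theorem R.
-/

noncomputable section

namespace BKF

open BKGen BKOdd Matrix NumberField

/-- an embedding of the algebraic closure which extends a given embedding of the field -/
theorem exists_ext {p : ℕ} [Fact p.Prime] {F : Type} [Field F] [CharZero F] (j : F →+* ℚ_[p]) :
    ∃ ι : AlgebraicClosure F →+* PadicAlgCl p,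
      ∀ x : F, ι (algebraMap F _ x) = algebraMap ℚ_[p] (PadicAlgCl p) (j x) := by
  letI : Algebra F (PadicAlgCl p) := ((algebraMap ℚ_[p] (PadicAlgCl p)).comp j).toAlgebra
  let ι : AlgebraicClosure F →ₐ[F] PadicAlgCl p := IsAlgClosed.lift
  exact ⟨ι, fun x => ι.commutes x⟩

theorem parity_R {p : ℕ} [Fact p.Prime] (hp2 : p ≠ 2) {F K : Type} [Field F]
    [NumberField F] [Field K] [NumberField K] [Algebra F K] (hreal : IsTotallyComplex F)
    (hdeg : Module.finrank ℚ F = 2) {ζ₀ : K} (hζ₀ : IsPrimitiveRoot ζ₀ p)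
    (htop : IntermediateField.adjoin F {ζ₀} = ⊤) (hcl : ¬ p ∣ classNumber K)
    (j : F →+* ℚ_[p])
    (hgold : ∃ (h : ℕ) (β : 𝓞 F), h ≠ 0 ∧ Algebra.norm ℤ β = (p : ℤ) ^ h ∧ ‖j β‖ = 1 ∧
      (p : ℝ) ^ (-2 : ℤ) < ‖(j β) ^ (p - 1) - 1‖) : Parity p F := by
  obtain ⟨ι, hι⟩ := exists_ext j
  have hp : (Fact.out : p.Prime).pos = (Fact.out : p.Prime).pos := rfl
  have : NeZero ((p : ℕ) : AlgebraicClosure F) :=
    ⟨by exact_mod_cast (Fact.out : p.Prime).ne_zero⟩
  obtain ⟨ζ, hζ⟩ := HasEnoughRootsOfUnity.exists_primitiveRoot (AlgebraicClosure F) p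
  exact parity_odd hp2
    (BKThR.oddHypR hp2 hreal hdeg hζ₀ htop hcl hζ ι j hι hgold).rigidField

end BKF
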