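import Pool.Agent.Lib.MP_7c08ba_nt.BK.ClsM
import Pool.Agent.Lib.MP_7c08ba_nt.BK.Tr
import Pool.Agent.Lib.MP_7c08ba_nt.Met.StN

set_option autoImplicit false

/-!
The parity theorem in terms of the definitions of `BK.Sel` and `BK.ClsM`.
-/

noncomputable section

namespace BKS

open Matrix NumberField TensorProduct

/-- the parity statement -/
theorem ParityM.of (h : BKMet.StParN) {p : ℕ} [Fact p.Prime] (hp : p ≠ 2) {F : Type} [Field F]
    [NumberField F] (hF : Module.finrank ℚ F = 2) (hreal : IsEmpty (F →+* ℝ))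
    (hs : Split p F) : ParityM p F := by
  intro L _ _ _ n V hV
  obtain ⟨P, hP, hur⟩ := hV.ram
  obtain ⟨c, hc, B, hB⟩ := hV.dual
  obtain ⟨A, hA⟩ := hV.res
  obtain ⟨σ, hcs⟩ := exists_conjHyp hF hc
  have h1 := h p hp F hF hreal hs c σ hcs L n V hV.cont (P : Set ℕ) P.finite_toSet hP hur
    hV.inv A hA (Matrix.nonsingInvUnit B hB.2.1) hB.1 (by
      intro g
      refine hB.matrix fun z => ?_
      change c (g (c.symm (c z))) = c (g z)
      rw [RingEquiv.symm_apply_apply])
    (fun j => (hV.dR j).toOdd) (fun j => by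
      rw [← frobAt_eq]
      exact hV.frob j)
  refine ⟨(isFin_H1f V).mpr h1.1, fun j => ?_⟩
  rw [dim_H1f, tdim_eq]
  exact h1.2 j

end BKS
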